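import Pool.Agent.Run7.h61.TW.Pow

/-!
# Averages of Artin twists of Jacobians with marked points
-/

set_option autoImplicit false
set_option linter.unusedSectionVars false

namespace Run7.h61.TW

open NumberField IsDedekindDomain Finset Filter Topology Polynomial
open Pool.Agent.W401.Cheb (GK IsFrob IsInert)
open Run7.h876.MM (nv kv card_kv instFieldKv instFintypeKv instDecKv nv_pos xv SZ mem_SZ two_le_nv y0_lt mult_of)
open Run7.h876.EN (rd Thin mean ell)
open Run7.h876.HY (GoodAt frobTrace)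

section
variable {K : Type} [Field K] [NumberField K] (F : IntermediateField K (AlgebraicClosure K)) [FiniteDimensional K F] [IsGalois K F]

/-- The numbers `a v (m - 1)` are bounded, and equal to `χ(Frob_v^m)` for all Frobenius elements at almost all
places `v`. -/
def IsTrace (χ : Gal(F/K) → ℂ) (a : HeightOneSpectrum (𝓞 K) → ℕ → ℂ) : Prop :=
  (∃ B : ℝ, ∀ v m, ‖a v m‖ ≤ B) ∧ {v | ¬ ∀ σ : GK K, IsFrob v σ → ∀ m, a v m = χ (res F σ ^ (m + 1))}.Finite

/-- The character of the module `V` of the marked points, as a function on `Gal(F/K)`: the trace on `V` of any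
extension of `g` to the algebraic closure. -/
noncomputable def TFam.chV {J : Type} (𝓕 : TFam K J) (g : Gal(F/K)) : ℤ := 𝓕.trV (Function.surjInv (res_surj F) g)

/-- The inner product `⟨V, τ⟩` of the characters. -/
noncomputable def multV {J : Type} (𝓕 : TFam K J) (χ : Gal(F/K) → ℂ) : ℝ :=
  (∑ g, (𝓕.chV F g : ℝ) * (χ g).re) / Fintype.card Gal(F/K)

/-- The inner product `⟨∧²(kτ), 1⟩` for the direct sum of `k` copies of a representation with the real character `χ`. -/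
noncomputable def multExt (k : ℕ) (χ : Gal(F/K) → ℂ) : ℝ :=
  (∑ g, ((k * (χ g).re) ^ 2 - k * (χ (g ^ 2)).re) / 2) / Fintype.card Gal(F/K)

theorem conj_of_trace {W : Type} [AddCommGroup W] [Module ℂ W] (τ : Representation ℂ Gal(F/K) W) (g h : Gal(F/K)) :
    LinearMap.trace ℂ W (τ (h * g * h⁻¹)) = LinearMap.trace ℂ W (τ g) := by
  rw [map_mul, LinearMap.trace_mul_comm, ← map_mul]
  congr 2
  group

/-- The traces of Frobenius exist. -/
theorem exists_trace (χ : Gal(F/K) → ℂ) (hχ : ∀ g h, χ (h * g * h⁻¹) = χ g) : ∃ a, IsTrace F χ a := by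
  classical
  choose σ₀ hσ₀ using fun v : HeightOneSpectrum (𝓞 K) => Pool.Agent.W401.Frob.exists_frob v
  refine ⟨fun v m => χ (res F (σ₀ v) ^ (m + 1)), ⟨∑ g, ‖χ g‖, fun v m => ?_⟩, ?_⟩
  · exact Finset.single_le_sum (f := fun g => ‖χ g‖) (fun _ _ => norm_nonneg _) (Finset.mem_univ _)
  · have hun := Pool.Agent.K4H40.ST.Count.task_inertia (res F).ker (res_open F)
    refine hun.subset fun v hv => ?_
    by_contra hc
    have c2 : ∀ σ, IsInert v σ → res F σ = 1 := by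
      intro σ hσ
      by_contra hne
      exact hc ⟨σ, hσ, fun hk => hne (MonoidHom.mem_ker.mp hk)⟩
    apply hv
    intro σ hσ m
    obtain ⟨ρ, ι, h5, rfl⟩ := Pool.Agent.W401.Frob.conj_frob v (σ₀ v) σ (hσ₀ v) hσ
    rw [map_mul, c2 ι h5, mul_one, map_mul, map_mul, map_inv, conj_pow, hχ]

variable {J : Type} [Fintype J] [DecidableEq J] (𝓕 : TFam K J)

theorem chV_res (hx : ∀ i, ((𝓕.x i : OB K) : AlgebraicClosure K) ∈ F ∧ ((𝓕.y i : OB K) : AlgebraicClosure K) ∈ F) (σ : GK K) :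
    𝓕.chV F (res F σ) = 𝓕.trV σ := by
  have h : res F (Function.surjInv (res_surj F) (res F σ)) = res F σ := Function.surjInv_eq (res_surj F) (res F σ)
  exact 𝓕.trV_congr (fun i => smul_eq_of_res h (hx i).1) (fun i => smul_eq_of_res h (hx i).2)

theorem chV_conj (hx : ∀ i, ((𝓕.x i : OB K) : AlgebraicClosure K) ∈ F ∧ ((𝓕.y i : OB K) : AlgebraicClosure K) ∈ F) (g h : Gal(F/K)) :
    𝓕.chV F (h * g * h⁻¹) = 𝓕.chV F g := by
  obtain ⟨σ, rfl⟩ := res_surj F g
  obtain ⟨ρ, rfl⟩ := res_surj F h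
  rw [← map_inv, ← map_mul, ← map_mul, chV_res F 𝓕 hx, chV_res F 𝓕 hx, 𝓕.trV_conj]

theorem appA {W : Type} [AddCommGroup W] [Module ℂ W] (τ : Representation ℂ Gal(F/K) W)
    (hx : ∀ i, ((𝓕.x i : OB K) : AlgebraicClosure K) ∈ F ∧ ((𝓕.y i : OB K) : AlgebraicClosure K) ∈ F)
    {ι : Type} [Fintype ι] [DecidableEq ι] (ω : Module.Basis ι ℤ (𝓞 K))
    (b : HeightOneSpectrum (𝓞 K) → ℕ → ℂ) (hb : IsTrace F (fun g => LinearMap.trace ℂ W (τ g)) b)
    (r : HeightOneSpectrum (𝓞 K) → ℕ → ℝ) (hr : IsTrace F (fun g => (𝓕.chV F g : ℂ)) fun v m => (r v m : ℂ)) (k : ℕ) :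
    ∃ G : ℂ → ℂ, DifferentiableOn ℂ G {s | 5 / 6 < s.re} ∧ DifferentiableOn ℂ (mainTerm k r b G) {s | 1 < s.re} ∧
      (∀ σ : ℝ, 3 / 2 < σ → ∀ ε : ℝ, 0 < ε → ∃ M : ℕ, ∀ H : Fin 2 ⊕ J → ℕ, (∀ j, M ≤ H j) → ∀ s : ℂ, σ ≤ s.re →
        ‖mean ω H 𝓕.smooth (fun t => twLSeries (𝓕.member t) b s ^ k) - mainTerm k r b G s‖ ≤ ε) ∧
      (∀ θ : ℝ, 0 < θ → ∀ σ : ℝ, 5 / 6 < σ → ∀ ε : ℝ, 0 < ε → ∃ Z₀ : ℕ, ∀ Z : ℕ, Z₀ ≤ Z → ∀ H : Fin 2 ⊕ J → ℕ,
        (∀ j, Real.exp ((Z : ℝ) ^ (1 + θ)) ≤ H j) → ∀ s : ℂ, σ ≤ s.re →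
        ‖mean ω H 𝓕.smooth (fun t => twPartial Z (𝓕.member t) b s ^ k) * mainPartial Z k r b s - G s‖ ≤ ε) ∧
      ((∀ v m, (b v m).im = 0) →
        (∀ x : ℝ, 5 / 6 < x → ∃ ρ : ℝ, 0 < ρ ∧ G x = ρ) ∧
        Tendsto (fun x : ℝ => Real.log ‖mainTerm k r b G x‖ / Real.log (x - 1)) (𝓝[>] 1)
          (𝓝 (k * multV F 𝓕 (fun g => LinearMap.trace ℂ W (τ g)) - multExt F k fun g => LinearMap.trace ℂ W (τ g))) ∧
        (∀ θ : ℝ, 0 < θ → ∀ ε : ℝ, 0 < ε → ∃ Z₀ : ℕ, ∀ Z : ℕ, Z₀ ≤ Z → ∀ H : Fin 2 ⊕ J → ℕ,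
          (∀ j, Real.exp ((Z : ℝ) ^ (1 + θ)) ≤ H j) →
          |Real.log ‖mean ω H 𝓕.smooth (fun t => twPartial Z (𝓕.member t) b 1 ^ k)‖ / Real.log (Real.log Z) +
            (k * multV F 𝓕 (fun g => LinearMap.trace ℂ W (τ g)) - multExt F k fun g => LinearMap.trace ℂ W (τ g))| ≤ ε)) := by
  obtain ⟨⟨B, hB⟩, hbf⟩ := hb
  obtain ⟨⟨R, hR⟩, hrf⟩ := hr
  obtain ⟨χ, hχ⟩ : ∃ χ : Gal(F/K) → ℂ, χ = fun g => LinearMap.trace ℂ W (τ g) := ⟨_, rfl⟩
  rw [← hχ]
  have hχc : ∀ g h, χ (h * g * h⁻¹) = χ g := by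
    intro g h
    rw [hχ]
    exact conj_of_trace F τ g h
  have hβ : ∀ v m, ‖(k : ℂ) * b v m‖ ≤ (k : ℝ) * |B| := fun v m => by
    rw [norm_mul, Complex.norm_natCast]
    exact mul_le_mul_of_nonneg_left ((hB v m).trans (le_abs_self B)) (by positivity)
  have hβ' : ∀ v m, ‖b v m‖ ≤ |B| := fun v m => (hB v m).trans (le_abs_self B)
  have hr0 : ∀ v m, |r v m| ≤ |R| := fun v m => by
    have := hR v m
    rw [Complex.norm_real, Real.norm_eq_abs] at this
    exact this.trans (le_abs_self R)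
  have hfin : {v | ¬ ∀ σ, IsFrob v σ → r v 0 = 𝓕.trV σ}.Finite := by
    refine hrf.subset fun v hv hc => hv fun σ hσ => ?_
    have h1 := hc σ hσ 0
    beta_reduce at h1
    rw [zero_add, pow_one, chV_res F 𝓕 hx] at h1
    exact_mod_cast h1
  refine ⟨GG (𝓕.data (abs_nonneg R) hr0 hfin) (fun v m => (k : ℂ) * b v m), GG_diff _ hβ, ?_, ?_, ?_, ?_⟩
  · have hrb : ∀ v m, ‖(r v m : ℂ) * ((k : ℂ) * b v m)‖ ≤ |R| * ((k : ℝ) * |B|) := fun v m => by
      rw [norm_mul, Complex.norm_real, Real.norm_eq_abs]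
      exact mul_le_mul (hr0 v m) (hβ v m) (norm_nonneg _) (by positivity)
    have hcb : ∀ (v : HeightOneSpectrum (𝓞 K)) m, ‖cc (fun m => (k : ℂ) * b v m) m‖ ≤ (((k : ℝ) * |B|) ^ 2 + (k : ℝ) * |B|) / 2 :=
      fun v m => cc_le (hβ v) m
    have d1 := (art_diff hrb).inv fun s hs => art_ne hrb hs
    have d2 : DifferentiableOn ℂ (fun s => artin (fun v => cc fun m => (k : ℂ) * b v m) (2 * s - 1)) {s : ℂ | 1 < s.re} := by
      refine (art_diff hcb).comp (by fun_prop) fun s hs => ?_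
      have hs' : 1 < s.re := hs
      show 1 < (2 * s - 1).re
      simp
      linarith
    have d3 := (GG_diff (𝓕.data (abs_nonneg R) hr0 hfin) hβ).mono (fun s hs => (by
      have hs' : 1 < s.re := hs
      show 5 / 6 < s.re
      linarith : s ∈ {s : ℂ | 5 / 6 < s.re}))
    exact (d1.mul d2).mul d3
  · intro σ hσ ε hε
    obtain ⟨M, hM⟩ := main1 𝓕 (abs_nonneg R) hr0 hfin ω hβ (by positivity) hσ hε
    refine ⟨M, fun H hH s hs => ?_⟩
    have h := hM H hH s hs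
    have e : (fun t => twLSeries (𝓕.member t) (fun v m => (k : ℂ) * b v m) s) = fun t => twLSeries (𝓕.member t) b s ^ k := by
      funext t
      exact twLSeries_pow 𝓕 hβ' (abs_nonneg B) (abs_nonneg R) hr0 hfin k (by linarith) t
    rw [e] at h
    exact h
  · intro θ hθ σ hσ ε hε
    obtain ⟨Z₀, hZ₀⟩ := main2 𝓕 (abs_nonneg R) hr0 hfin ω hβ (by positivity) hσ hθ hε
    refine ⟨Z₀, fun Z hZ H hH s hs => ?_⟩
    have h := hZ₀ Z hZ H hH s hs
    simp only [twPartial_pow] at h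
    exact h
  · intro him
    have hb' : ∀ v m, (k : ℂ) * b v m = (((k : ℝ) * (b v m).re : ℝ) : ℂ) := fun v m => by
      have : b v m = (((b v m).re : ℝ) : ℂ) := Complex.ext (by simp) (by simp [him v m])
      rw [this]
      push_cast
      simp
    -- the mean values
    have h1 : HasAvg K (fun v => r v 0 * ((k : ℝ) * (b v 0).re)) (k * multV F 𝓕 χ) := by
      have h := avg_gal F (fun g => (𝓕.chV F g : ℝ) * ((k : ℝ) * (χ g).re)) (fun g h => by
        rw [chV_conj F 𝓕 hx, hχc]) (fun v => r v 0 * ((k : ℝ) * (b v 0).re)) ((hbf.union hrf).subset fun v hv => by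
          by_contra hc
          rw [Set.mem_union, not_or] at hc
          obtain ⟨c1, c2⟩ := hc
          simp only [Set.mem_ofPred_eq, not_not] at c1 c2
          apply hv
          intro σ hσ
          have e1 := c1 σ hσ 0
          have e2 := c2 σ hσ 0
          rw [zero_add, pow_one] at e1 e2
          have e3 : r v 0 = (𝓕.chV F (res F σ) : ℝ) := by exact_mod_cast e2
          rw [e3, e1, hχ])
      have e : (∑ g, (𝓕.chV F g : ℝ) * ((k : ℝ) * (χ g).re)) / Fintype.card Gal(F/K) = k * multV F 𝓕 χ := by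
        unfold multV
        rw [← mul_div_assoc, Finset.mul_sum]
        congr 1
        refine Finset.sum_congr rfl fun g _ => ?_
        ring
      rw [e] at h
      exact h
    have h2 : HasAvg K (fun v => (((k : ℝ) * (b v 0).re) ^ 2 - (k : ℝ) * (b v 1).re) / 2) (multExt F k χ) := by
      refine avg_gal F (fun g => (((k : ℝ) * (χ g).re) ^ 2 - (k : ℝ) * (χ (g ^ 2)).re) / 2) (fun g h => by
        rw [hχc, show (h * g * h⁻¹) ^ 2 = h * g ^ 2 * h⁻¹ by rw [conj_pow], hχc]) _ (hbf.subset fun v hv hc => by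
          apply hv
          intro σ hσ
          have e1 := hc σ hσ 0
          have e2 := hc σ hσ 1
          rw [zero_add, pow_one] at e1
          rw [e1, e2, hχ])
    refine ⟨fun x hx' => GG_real _ hβ (b' := fun v m => (k : ℝ) * (b v m).re) hb' hx', ?_, ?_⟩
    · have h := order1 𝓕 (abs_nonneg R) hr0 hfin hβ (b' := fun v m => (k : ℝ) * (b v m).re) hb' h1 h2
      have h' := h.neg
      have e0 : -(multExt F k χ - k * multV F 𝓕 χ) = k * multV F 𝓕 χ - multExt F k χ := by ring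
      rw [e0] at h'
      refine h'.congr fun x => ?_
      rw [one_div, Real.log_inv, div_neg, neg_neg]
      rfl
    · intro θ hθ ε hε
      obtain ⟨Z₀, hZ₀⟩ := order2 𝓕 (abs_nonneg R) hr0 hfin ω hβ (by positivity) (b' := fun v m => (k : ℝ) * (b v m).re) hb' h1 h2 hθ hε
      refine ⟨Z₀, fun Z hZ H hH => ?_⟩
      have h := hZ₀ Z hZ H hH
      simp only [twPartial_pow] at h
      rw [show ∀ a c d : ℝ, a + (c - d) = a - (d - c) from fun a c d => by ring]
      exact h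

end

end Run7.h61.TW
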