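import Pool.Agent.Run7.h61.TW.Orb

/-!
# Averages of the L-functions of elliptic curves over a fixed extension
-/

set_option autoImplicit false
set_option linter.unusedSectionVars false

namespace Run7.h61.TW

open NumberField IsDedekindDomain Finset Filter Topology Polynomial
open Pool.Agent.W401.Cheb (GK IsFrob IsInert)
open Run7.h876.MM (nv kv card_kv instFieldKv instFintypeKv instDecKv nv_pos xv SZ mem_SZ two_le_nv)
open Run7.h876.EN (mean)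

section
variable {K : Type} [Field K] [NumberField K] (F : Type) [Field F] [NumberField F] [Algebra K F]

theorem appB (k : ℕ) {ι : Type} [Fintype ι] [DecidableEq ι] (ω : Module.Basis ι ℤ (𝓞 K)) :
    ∃ G : ℂ → ℂ, DifferentiableOn ℂ G {s | 5 / 6 < s.re} ∧ (∀ x : ℝ, 5 / 6 < x → ∃ r : ℝ, 0 < r ∧ G x = r) ∧
      (∀ σ : ℝ, 3 / 2 < σ → ∀ ε : ℝ, 0 < ε → ∃ M : ℕ, ∀ H : Fin 2 ⊕ Empty → ℕ, (∀ j, M ≤ H j) → ∀ s : ℂ, σ ≤ s.re →
        ‖mean ω H (ellFam K).smooth (fun t => Run7.h876.HY.LSeries (((ellFam K).member t).map (algebraMap (𝓞 K) (𝓞 F))) s ^ k) -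
          eulerL (fun v : HeightOneSpectrum (𝓞 K) => ext2 fun m => (k : ℂ) * bF F v m) (2 * s - 1) * G s‖ ≤ ε) ∧
      (∀ θ : ℝ, 0 < θ → ∀ σ : ℝ, 5 / 6 < σ → ∀ ε : ℝ, 0 < ε → ∃ Z₀ : ℕ, ∀ Z : ℕ, Z₀ ≤ Z → ∀ H : Fin 2 ⊕ Empty → ℕ,
        (∀ j, Real.exp ((Z : ℝ) ^ (1 + θ)) ≤ H j) → ∀ s : ℂ, σ ≤ s.re →
        ‖mean ω H (ellFam K).smooth (fun t => fPartial F Z ((ellFam K).member t) s ^ k) *
          (eulerZ Z (fun v : HeightOneSpectrum (𝓞 K) => ext2 fun m => (k : ℂ) * bF F v m) (2 * s - 1))⁻¹ - G s‖ ≤ ε) ∧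
      Tendsto (fun x : ℝ => Real.log ‖eulerL (fun v : HeightOneSpectrum (𝓞 K) => ext2 fun m => (k : ℂ) * bF F v m) (2 * x - 1) * G x‖ /
        Real.log (1 / (x - 1))) (𝓝[>] 1) (𝓝 (((k : ℝ) ^ 2 * pairOrbits K F - k * selfOrbits K F) / 2)) ∧
      (∀ θ : ℝ, 0 < θ → ∀ ε : ℝ, 0 < ε → ∃ Z₀ : ℕ, ∀ Z : ℕ, Z₀ ≤ Z → ∀ H : Fin 2 ⊕ Empty → ℕ,
        (∀ j, Real.exp ((Z : ℝ) ^ (1 + θ)) ≤ H j) →
        |Real.log ‖mean ω H (ellFam K).smooth (fun t => fPartial F Z ((ellFam K).member t) 1 ^ k)‖ /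
          Real.log (Real.log Z) - ((k : ℝ) ^ 2 * pairOrbits K F - k * selfOrbits K F) / 2| ≤ ε) := by
  classical
  obtain ⟨b, hb⟩ : ∃ b : HeightOneSpectrum (𝓞 K) → ℕ → ℂ, b = fun v m => (k : ℂ) * bF F v m := ⟨_, rfl⟩
  have hbb : ∀ v m, b v m = (((k : ℝ) * (bF F v m).re : ℝ) : ℂ) := by
    intro v m
    have h := bF_re (F := F) v m
    calc b v m = (k : ℂ) * bF F v m := by rw [hb]
      _ = (k : ℂ) * (((bF F v m).re : ℝ) : ℂ) := congrArg (fun z : ℂ => (k : ℂ) * z) h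
      _ = _ := by push_cast; rfl
  obtain ⟨β, hβd⟩ : ∃ β : ℝ, β = (k : ℝ) * Module.finrank K F := ⟨_, rfl⟩
  have hβ0 : 0 ≤ β := by rw [hβd]; positivity
  have hβ : ∀ v m, ‖b v m‖ ≤ β := by
    intro v m
    rw [hb, hβd, norm_mul, Complex.norm_natCast]
    exact mul_le_mul_of_nonneg_left (bF_le v m) (by positivity)
  have hr0 : ∀ (v : HeightOneSpectrum (𝓞 K)) (m : ℕ), |(fun _ _ => (0 : ℝ) : HeightOneSpectrum (𝓞 K) → ℕ → ℝ) v m| ≤ 0 := by
    intro v m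
    simp
  have hfin : {v | ¬ ∀ σ, IsFrob v σ → (fun _ _ => (0 : ℝ) : HeightOneSpectrum (𝓞 K) → ℕ → ℝ) v 0 = (ellFam K).trV σ}.Finite := ellFam_fin
  have h1 : HasAvg K (fun v => (fun _ _ => (0 : ℝ) : HeightOneSpectrum (𝓞 K) → ℕ → ℝ) v 0 * ((k : ℝ) * (bF F v 0).re)) 0 := by
    have : Tendsto (fun _ : ℕ => (0 : ℝ)) atTop (𝓝 0) := tendsto_const_nhds
    refine Filter.Tendsto.congr (fun N => ?_) this
    simp
  have h2 := avg_perm K F (k : ℝ)
  refine ⟨GG ((ellFam K).data le_rfl hr0 hfin) b, GG_diff _ hβ, fun x hx => GG_real _ hβ (b' := fun v m => (k : ℝ) * (bF F v m).re) hbb hx,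
    ?_, ?_, ?_, ?_⟩
  · intro σ hσ ε hε
    obtain ⟨M, hM⟩ := main1 (ellFam K) le_rfl hr0 hfin ω hβ hβ0 hσ hε
    refine ⟨M, fun H hH s hs => ?_⟩
    have h := hM H hH s hs
    rw [eulerL_zero, inv_one, one_mul] at h
    have e : (fun t => twLSeries ((ellFam K).member t) b s) =
        fun t => Run7.h876.HY.LSeries (((ellFam K).member t).map (algebraMap (𝓞 K) (𝓞 F))) s ^ k := by
      funext t
      rw [LSeries_bc (F := F) t (by linarith), hb]
      exact twLSeries_pow (ellFam K) (b := bF F) (β := Module.finrank K F) (fun v m => bF_le v m) (by positivity) le_rfl hr0 hfin k (by linarith) t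
    rw [e, hb] at h
    rw [hb]
    exact h
  · intro θ hθ σ hσ ε hε
    obtain ⟨Z₀, hZ₀⟩ := main2 (ellFam K) le_rfl hr0 hfin ω hβ hβ0 hσ hθ hε
    refine ⟨Z₀, fun Z hZ H hH s hs => ?_⟩
    have h := hZ₀ Z hZ H hH s hs
    rw [eulerZ_zero, one_mul] at h
    have e : (fun t => twPartial Z ((ellFam K).member t) b s) =
        fun t => fPartial F Z ((ellFam K).member t) s ^ k := by
      funext t
      rw [fPartial_eq (ellFam K) Z t (by linarith), hb]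
      exact twPartial_pow Z _ (bF F) k s
    rw [e, hb] at h
    rw [hb]
    exact h
  · have h := order1 (ellFam K) le_rfl hr0 hfin hβ (b' := fun v m => (k : ℝ) * (bF F v m).re) hbb h1 h2
    rw [sub_zero] at h
    refine h.congr fun x => ?_
    rw [eulerL_zero, inv_one, one_mul, hb]
  · intro θ hθ ε hε
    obtain ⟨Z₀, hZ₀⟩ := order2 (ellFam K) le_rfl hr0 hfin ω hβ hβ0 (b' := fun v m => (k : ℝ) * (bF F v m).re) hbb h1 h2 hθ hε
    refine ⟨Z₀, fun Z hZ H hH => ?_⟩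
    have h := hZ₀ Z hZ H hH
    rw [sub_zero] at h
    have e : (fun t => twPartial Z ((ellFam K).member t) b 1) =
        fun t => fPartial F Z ((ellFam K).member t) 1 ^ k := by
      funext t
      rw [fPartial_eq (ellFam K) Z t (by norm_num), hb]
      exact twPartial_pow Z _ (bF F) k 1
    rw [e] at h
    exact h

end

end Run7.h61.TW
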