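import Mathlib
import Pool.Agent.W540.BE.Rep

/-!
# Orthogonality of the real parts of irreducible characters
-/

set_option autoImplicit false
set_option linter.unusedSectionVars false

namespace Run7.h61.TW

open CategoryTheory

section
variable {G : Type} [Group G] [Fintype G]

theorem ch_inv (V : FDRep ℂ G) (g : G) : V.character g⁻¹ = (starRingEnd ℂ) (V.character g) := by
  classical
  let b := Module.finBasis ℂ V
  have e : ∀ x : G, V.character x = ((LinearMap.toMatrix b b) (V.ρ x)).trace := fun x =>
    LinearMap.trace_eq_matrix_trace ℂ b _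
  obtain ⟨k, hk⟩ : ∃ k, Nat.card G = k + 1 := ⟨Nat.card G - 1, by
    have := Nat.card_pos (α := G); omega⟩
  have h1 := Pool.Agent.W540.BE.trace_conj_matrix (LinearMap.toMatrix b b (V.ρ g))
    (LinearMap.toMatrix b b (V.ρ g⁻¹)) (by
      rw [← LinearMap.toMatrix_mul, ← map_mul, mul_inv_cancel, map_one, LinearMap.toMatrix_one])
    (k := k) (by
      have : (LinearMap.toMatrix b b (V.ρ g)) ^ (k + 1) = LinearMap.toMatrix b b (V.ρ g ^ (k + 1)) :=
        (map_pow (LinearMap.toMatrixAlgEquiv b) (V.ρ g) (k + 1)).symm
      rw [this, ← map_pow, ← hk, pow_card_eq_one', map_one, LinearMap.toMatrix_one])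
  rw [e, e]
  exact h1.symm

/-- the dual representation -/
noncomputable def du (V : FDRep ℂ G) : FDRep ℂ G := FDRep.of (Representation.dual V.ρ)

theorem du_char (V : FDRep ℂ G) (g : G) : (du V).character g = V.character g⁻¹ := FDRep.char_dual V g

theorem du_simple (V : FDRep ℂ G) [Simple V] : Simple (du V) := by
  rw [FDRep.simple_iff_char_is_norm_one]
  have h := (FDRep.simple_iff_char_is_norm_one V).1 inferInstance
  rw [← h, ← Equiv.sum_comp (Equiv.inv G)]
  refine Finset.sum_congr rfl fun g _ => ?_
  rw [du_char, du_char, Equiv.inv_apply, inv_inv]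

/-- the orthogonality relations -/
theorem orth1 (V W : FDRep ℂ G) [Simple V] [Simple W] (h : IsEmpty (V ≅ W)) :
    ∑ g : G, V.character g * (starRingEnd ℂ) (W.character g) = 0 := by
  classical
  have : Invertible (Nat.card G : ℂ) := invertibleOfNonzero (by exact_mod_cast Nat.card_pos.ne')
  have h1 := FDRep.char_orthonormal V W
  rw [if_neg (not_nonempty_iff.2 h), mul_eq_zero] at h1
  rcases h1 with h1 | h1
  · exact absurd h1 (inv_ne_zero (by exact_mod_cast Nat.card_pos.ne'))
  · rw [← h1]
    exact Finset.sum_congr rfl fun g _ => by rw [ch_inv]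

theorem orth2 (V W : FDRep ℂ G) [Simple V] [Simple W] (h : IsEmpty (V ≅ du W)) :
    ∑ g : G, V.character g * W.character g = 0 := by
  have := du_simple W
  rw [← orth1 V (du W) h]
  refine Finset.sum_congr rfl fun g _ => ?_
  rw [du_char, ch_inv, Complex.conj_conj]

theorem orth3 (V : FDRep ℂ G) [Simple V] :
    ∑ g : G, V.character g * (starRingEnd ℂ) (V.character g) = Fintype.card G := by
  have h := (FDRep.simple_iff_char_is_norm_one V).1 inferInstance
  rw [Nat.card_eq_fintype_card] at h
  rw [← h]
  exact Finset.sum_congr rfl fun g _ => by rw [ch_inv]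

theorem real_of_du {V : FDRep ℂ G} (h : Nonempty (V ≅ du V)) (g : G) : V.character g = (((V.character g).re : ℝ) : ℂ) := by
  obtain ⟨i⟩ := h
  have h1 := congrFun (FDRep.char_iso i) g
  rw [du_char, ch_inv] at h1
  exact (Complex.conj_eq_iff_real.1 h1.symm).elim fun r hr => by rw [hr, Complex.ofReal_re]

theorem re_mul (z w : ℂ) : (z.re : ℝ) * w.re = ((z * w).re + (z * (starRingEnd ℂ) w).re) / 2 := by
  simp only [Complex.mul_re, Complex.conj_re, Complex.conj_im]
  ring

/-- **Orthogonality of the real parts.** -/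
theorem re_orth (V W : FDRep ℂ G) [Simple V] [Simple W] (h : IsEmpty (V ≅ W)) (h' : IsEmpty (V ≅ du W)) :
    ∑ g : G, (V.character g).re * (W.character g).re = 0 := by
  have h1 : ∑ g : G, (V.character g).re * (W.character g).re =
      ((∑ g : G, V.character g * W.character g).re + (∑ g : G, V.character g * (starRingEnd ℂ) (W.character g)).re) / 2 := by
    rw [Complex.re_sum, Complex.re_sum, ← Finset.sum_add_distrib, Finset.sum_div]
    exact Finset.sum_congr rfl fun g _ => re_mul _ _
  rw [h1, orth1 V W h, orth2 V W h']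
  simp

open Classical in
/-- the square of the real part -/
theorem re_sq (V : FDRep ℂ G) [Simple V] :
    ∑ g : G, (V.character g).re ^ 2 = if Nonempty (V ≅ du V) then (Fintype.card G : ℝ) else Fintype.card G / 2 := by
  have h1 : ∑ g : G, (V.character g).re ^ 2 =
      ((∑ g : G, V.character g * V.character g).re + (∑ g : G, V.character g * (starRingEnd ℂ) (V.character g)).re) / 2 := by
    rw [Complex.re_sum, Complex.re_sum, ← Finset.sum_add_distrib, Finset.sum_div]
    exact Finset.sum_congr rfl fun g _ => by rw [sq, re_mul]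
  have h3 := orth3 V
  split_ifs with h
  · have h2 : ∑ g : G, V.character g * V.character g = Fintype.card G := by
      rw [← h3]
      refine Finset.sum_congr rfl fun g _ => ?_
      rw [real_of_du h g, Complex.conj_ofReal]
    rw [h1, h2, h3]
    simp
  · rw [h1, orth2 V V (not_nonempty_iff.1 h), h3]
    simp

end

/-! ### the indicator of Frobenius and Schur -/

open TensorProduct

theorem trace_comm_map {V : Type} [AddCommGroup V] [Module ℂ V] [FiniteDimensional ℂ V] (f g : V →ₗ[ℂ] V) :
    LinearMap.trace ℂ (V ⊗[ℂ] V) ((TensorProduct.comm ℂ V V).toLinearMap ∘ₗ TensorProduct.map f g) =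
      LinearMap.trace ℂ V (f ∘ₗ g) := by
  classical
  let b := Module.finBasis ℂ V
  rw [LinearMap.trace_eq_matrix_trace ℂ (b.tensorProduct b), LinearMap.trace_eq_matrix_trace ℂ b,
    LinearMap.toMatrix_comp b b b]
  unfold Matrix.trace
  simp only [Matrix.diag_apply, Matrix.mul_apply, LinearMap.toMatrix_apply, Module.Basis.tensorProduct_apply', Fintype.sum_prod_type,
    LinearMap.comp_apply, TensorProduct.map_tmul, LinearEquiv.coe_coe, TensorProduct.comm_tmul, Module.Basis.tensorProduct_repr_tmul_apply]
  rw [Finset.sum_comm]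
  refine Finset.sum_congr rfl fun i _ => Finset.sum_congr rfl fun j _ => ?_
  simp

section
variable {G : Type} [Group G] [Fintype G]

/-- The Frobenius–Schur indicator. -/
noncomputable def ind (V : FDRep ℂ G) : ℂ := (∑ g : G, V.character (g ^ 2)) / Fintype.card G

theorem fs {W : Type} [AddCommGroup W] [Module ℂ W] [FiniteDimensional ℂ W] (ρ : Representation ℂ G W) :
    (((Nat.card G : ℂ)⁻¹ * ∑ g : G, ρ.character g ^ 2 = 0 → (Nat.card G : ℂ)⁻¹ * ∑ g : G, ρ.character (g ^ 2) = 0)) ∧
    (((Nat.card G : ℂ)⁻¹ * ∑ g : G, ρ.character g ^ 2 = 1 →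
      (Nat.card G : ℂ)⁻¹ * ∑ g : G, ρ.character (g ^ 2) = 1 ∨ (Nat.card G : ℂ)⁻¹ * ∑ g : G, ρ.character (g ^ 2) = -1)) := by
  classical
  have hI : Invertible (Nat.card G : ℂ) := invertibleOfNonzero (by exact_mod_cast Nat.card_pos.ne')
  have hI' : Invertible (Fintype.card G : ℂ) := invertibleOfNonzero (by exact_mod_cast Fintype.card_pos.ne')
  let T : Representation ℂ G (W ⊗[ℂ] W) := Representation.tprod ρ ρ
  let S : W ⊗[ℂ] W →ₗ[ℂ] W ⊗[ℂ] W := (TensorProduct.comm ℂ W W).toLinearMap
  have hd : (Nat.card G : ℂ)⁻¹ * ∑ g : G, ρ.character g ^ 2 = Module.finrank ℂ (Representation.invariants T) := by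
    rw [← Representation.card_inv_mul_sum_char_eq_finrank T]
    congr 1
    refine Finset.sum_congr rfl fun g _ => ?_
    rw [Representation.char_tensor, Pi.mul_apply, sq]
  have hproj := Representation.isProj_averageMap T
  have havg : Representation.averageMap T = (Fintype.card G : ℂ)⁻¹ • ∑ g : G, T g := by
    unfold Representation.averageMap GroupAlgebra.average
    rw [map_smul, map_sum]
    simp
  have htr : (Nat.card G : ℂ)⁻¹ * ∑ g : G, ρ.character (g ^ 2) = LinearMap.trace ℂ _ (S ∘ₗ Representation.averageMap T) := by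
    have hcs : S ∘ₗ (∑ g : G, T g) = ∑ g : G, S ∘ₗ T g := by
      refine LinearMap.ext fun x => ?_
      rw [LinearMap.comp_apply, LinearMap.sum_apply, LinearMap.sum_apply, map_sum]
      rfl
    rw [havg, LinearMap.comp_smul, map_smul, smul_eq_mul, Nat.card_eq_fintype_card, hcs, map_sum]
    congr 1
    refine Finset.sum_congr rfl fun g _ => ?_
    have h1 : T g = TensorProduct.map (ρ g) (ρ g) := rfl
    rw [h1, trace_comm_map]
    unfold Representation.character
    rw [sq, map_mul]
    rfl
  have hS : ∀ x ∈ Representation.invariants T, S x ∈ Representation.invariants T := by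
    intro x hx g
    have h1 : T g (S x) = S (T g x) := by
      have : T g ∘ₗ S = S ∘ₗ T g := by
        refine TensorProduct.ext' fun a b => ?_
        rfl
      exact congrArg (fun f : W ⊗[ℂ] W →ₗ[ℂ] W ⊗[ℂ] W => f x) this
    rw [h1, hx g]
  constructor
  · intro h0
    rw [hd] at h0
    have h1 : Representation.invariants T = ⊥ := by
      rw [← Submodule.finrank_eq_zero (R := ℂ)]
      exact_mod_cast h0
    have h2 : Representation.averageMap T = 0 := by
      refine LinearMap.ext fun x => ?_
      have := hproj.map_mem x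
      rw [h1, Submodule.mem_bot] at this
      rw [this, LinearMap.zero_apply]
    rw [htr, h2, LinearMap.comp_zero, map_zero]
  · intro h1
    rw [hd] at h1
    have h1' : Module.finrank ℂ (Representation.invariants T) = 1 := by exact_mod_cast h1
    obtain ⟨x, hx0, hx⟩ := finrank_eq_one_iff'.1 h1'
    obtain ⟨c, hc⟩ := hx ⟨S x, hS x x.2⟩
    have hc' : c • (x : W ⊗[ℂ] W) = S x := congrArg Subtype.val hc
    have hx0' : (x : W ⊗[ℂ] W) ≠ 0 := fun h => hx0 (Subtype.ext h)
    have hcc : c * c = 1 := by
      have h3 : S (S x) = (x : W ⊗[ℂ] W) := (TensorProduct.comm ℂ W W).symm_apply_apply (x : W ⊗[ℂ] W)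
      rw [← hc', map_smul, ← hc', smul_smul] at h3
      have h4 : (c * c - 1) • (x : W ⊗[ℂ] W) = 0 := by rw [sub_smul, h3, one_smul, sub_self]
      rcases smul_eq_zero.1 h4 with h5 | h5
      · exact sub_eq_zero.1 h5
      · exact absurd h5 hx0'
    have hSP : S ∘ₗ Representation.averageMap T = c • Representation.averageMap T := by
      refine LinearMap.ext fun y => ?_
      obtain ⟨a, ha⟩ := hx ⟨Representation.averageMap T y, hproj.map_mem y⟩
      have ha' : a • (x : W ⊗[ℂ] W) = Representation.averageMap T y := congrArg Subtype.val ha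
      rw [LinearMap.comp_apply, LinearMap.smul_apply, ← ha', map_smul, ← hc', smul_smul, smul_smul, mul_comm]
    have htrP : LinearMap.trace ℂ _ (Representation.averageMap T) = 1 := by
      rw [hproj.trace, h1', Nat.cast_one]
    rw [htr, hSP, map_smul, htrP, smul_eq_mul, mul_one]
    rcases mul_self_eq_one_iff.1 hcc with h | h
    · exact Or.inl h
    · exact Or.inr h

/-- **The theorem of Frobenius and Schur.** -/
theorem fs_simple (V : FDRep ℂ G) [Simple V] : (IsEmpty (V ≅ du V) → ind V = 0) ∧
    (Nonempty (V ≅ du V) → ind V = 1 ∨ ind V = -1) := by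
  classical
  have hc : (Fintype.card G : ℂ) ≠ 0 := by exact_mod_cast Fintype.card_pos.ne'
  have hf := fs V.ρ
  have e1 : (Nat.card G : ℂ)⁻¹ * ∑ g : G, Representation.character V.ρ (g ^ 2) = ind V := by
    unfold ind
    rw [Nat.card_eq_fintype_card, mul_comm, ← div_eq_mul_inv]
    rfl
  rw [e1] at hf
  constructor
  · intro h
    refine hf.1 ?_
    have h1 := orth2 V V h
    have h2 : ∑ g : G, Representation.character V.ρ g ^ 2 = 0 := by
      rw [← h1]
      exact Finset.sum_congr rfl fun g _ => sq _
    rw [h2, mul_zero]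
  · intro h
    refine hf.2 ?_
    have h2 : ∑ g : G, Representation.character V.ρ g ^ 2 = Fintype.card G := by
      rw [← orth3 V]
      refine Finset.sum_congr rfl fun g _ => ?_
      have h3 : Representation.character V.ρ g = V.character g := rfl
      rw [h3, real_of_du h g, Complex.conj_ofReal, sq]
    rw [h2, Nat.card_eq_fintype_card, inv_mul_cancel₀ hc]

end

end Run7.h61.TW
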