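import Pool.Agent.Run7.h61.TW.AppA
import Pool.Agent.Run7.h61.TW.Chars

/-!
# Mixed moments of Artin twists: families without marked points
-/

set_option autoImplicit false
set_option linter.unusedSectionVars false

namespace Run7.h61.TW

open NumberField IsDedekindDomain Finset Filter Topology Polynomial CategoryTheory
open Pool.Agent.W401.Cheb (GK IsFrob IsInert)
open Run7.h876.MM (nv kv card_kv instFieldKv instFintypeKv instDecKv nv_pos xv SZ mem_SZ two_le_nv y0_lt mult_of)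
open Run7.h876.EN (rd Thin mean ell ell_summable)
open Run7.h876.HY (GoodAt frobTrace)

section
variable {K : Type} [Field K] [NumberField K]

variable (K) in
/-- The family of all curves `y² = x³ + t₀ x + t₁`. -/
noncomputable def ellFam : TFam K Empty where
  F₀ := X ^ 3
  m := 1
  P := Empty.elim
  r := 0
  x := Fin.elim0
  y := Fin.elim0
  monic := monic_X_pow 3
  odd := by rw [natDegree_X_pow]; decide
  deg := by rw [natDegree_X_pow]; norm_num
  deg_P := fun j => j.elim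
  split := by simp
  x_inj := fun i => i.elim0
  y_ne := fun i => i.elim0
  on_curve := fun i => i.elim0

theorem ellFam_member (t : Fin 2 ⊕ Empty → 𝓞 K) :
    (ellFam K).member t = X ^ 3 + (C (t (Sum.inl 0)) * X + C (t (Sum.inl 1))) := by
  unfold TFam.member
  have h : (ellFam K).m = 1 := rfl
  have h' : (ellFam K).F₀ = X ^ 3 := rfl
  rw [h, h', one_mul, Finset.univ_eq_empty, Finset.sum_empty, add_zero]

theorem ellFam_trV (σ : GK K) : (ellFam K).trV σ = 0 := by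
  unfold TFam.trV
  exact Finset.sum_eq_zero fun i => i.elim0

theorem ellFam_fin : {v : HeightOneSpectrum (𝓞 K) | ¬ ∀ σ, IsFrob v σ → (0 : ℝ) = (ellFam K).trV σ}.Finite := by
  refine Set.Finite.subset Set.finite_empty fun v hv => hv fun σ _ => ?_
  rw [ellFam_trV, Int.cast_zero]

theorem eulerL_zero (b : HeightOneSpectrum (𝓞 K) → ℕ → ℂ) (s : ℂ) :
    eulerL (fun v m => (((0 : ℝ)) : ℂ) * b v m) s = 1 := by
  unfold eulerL
  simp

theorem eulerZ_zero (Z : ℕ) (b : HeightOneSpectrum (𝓞 K) → ℕ → ℂ) (s : ℂ) :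
    eulerZ Z (fun v m => (((0 : ℝ)) : ℂ) * b v m) s = 1 := by
  unfold eulerZ
  simp

/-! ### products of L-series -/

variable {J : Type} [Fintype J] [DecidableEq J] (𝓕 : TFam K J) {I : Type} [Fintype I]

theorem twFactor_prod {b : I → HeightOneSpectrum (𝓞 K) → ℕ → ℂ} {β : ℝ} (hβ : ∀ i v m, ‖b i v m‖ ≤ β) (k : I → ℕ)
    {s : ℂ} (hs : 1 / 2 < s.re) (t : Fin 2 ⊕ J → 𝓞 K) (v : HeightOneSpectrum (𝓞 K)) :
    twFactor (𝓕.member t) (fun m => ∑ i, (k i : ℂ) * b i v m) v s = ∏ i, twFactor (𝓕.member t) (b i v) v s ^ k i := by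
  classical
  unfold twFactor
  split_ifs with h
  · have hsum : ∀ i, Summable fun m : ℕ => (frobTrace (𝓕.member t) v (m + 1) : ℂ) * b i v m * ((nv v : ℂ) ^ (-s)) ^ (m + 1) / ((m : ℂ) + 1) := by
      intro i
      obtain ⟨h1, h2, h3, h4⟩ := basic (σ := s.re) hs v (s := s) le_rfl
      have hy := y0_lt hs
      have hβ0 : 0 ≤ β := (norm_nonneg _).trans (hβ i v 0)
      refine ell_summable (a := fun m => (frobTrace (𝓕.member t) v (m + 1) : ℂ) * b i v m) (D := (5 * 𝓕.F₀.natDegree + 1) * β)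
        (Q := Real.sqrt (nv v)) (by positivity) (Real.sqrt_nonneg _) (fun m => ?_) (lt_of_le_of_lt h2 hy)
      have e1 := 𝓕.frobTrace_eq h m
      have e2 : ((frobTrace (𝓕.member t) v (m + 1) : ℤ) : ℂ) = ((𝓕.av v (rd v t) m : ℝ) : ℂ) := by
        rw [← e1]; push_cast; rfl
      rw [e2, norm_mul, Complex.norm_real, Real.norm_eq_abs]
      calc _ ≤ ((5 * 𝓕.F₀.natDegree + 1) * Real.sqrt (nv v) ^ (m + 1)) * β :=
            mul_le_mul (𝓕.av_le v _ m) (hβ i v m) (norm_nonneg _) (by positivity)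
        _ = _ := by ring
    have e : (fun m : ℕ => (frobTrace (𝓕.member t) v (m + 1) : ℂ) * (∑ i, (k i : ℂ) * b i v m) * ((nv v : ℂ) ^ (-s)) ^ (m + 1) / ((m : ℂ) + 1)) =
        fun m => ∑ i, (k i : ℂ) * ((frobTrace (𝓕.member t) v (m + 1) : ℂ) * b i v m * ((nv v : ℂ) ^ (-s)) ^ (m + 1) / ((m : ℂ) + 1)) := by
      funext m
      rw [Finset.mul_sum, Finset.sum_mul, Finset.sum_div]
      refine Finset.sum_congr rfl fun i _ => ?_
      ring
    rw [e, Summable.tsum_finsetSum fun i _ => (hsum i).mul_left _, Complex.exp_sum]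
    refine Finset.prod_congr rfl fun i _ => ?_
    rw [tsum_mul_left, Complex.exp_nat_mul]
  · simp

theorem twPartial_prod {b : I → HeightOneSpectrum (𝓞 K) → ℕ → ℂ} {β : ℝ} (hβ : ∀ i v m, ‖b i v m‖ ≤ β) (k : I → ℕ)
    {s : ℂ} (hs : 1 / 2 < s.re) (t : Fin 2 ⊕ J → 𝓞 K) (Z : ℕ) :
    twPartial Z (𝓕.member t) (fun v m => ∑ i, (k i : ℂ) * b i v m) s = ∏ i, twPartial Z (𝓕.member t) (b i) s ^ k i := by
  simp only [twPartial_eq]
  rw [Finset.prod_congr rfl fun v _ => twFactor_prod 𝓕 hβ k hs t v, Finset.prod_comm]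
  exact Finset.prod_congr rfl fun i _ => by rw [Finset.prod_pow]

theorem twLSeries_prod {b : I → HeightOneSpectrum (𝓞 K) → ℕ → ℂ} {β : ℝ} (hβ : ∀ i v m, ‖b i v m‖ ≤ β) (hβ0 : 0 ≤ β)
    {R : ℝ} (hR : 0 ≤ R) {r : HeightOneSpectrum (𝓞 K) → ℕ → ℝ} (hr : ∀ v m, |r v m| ≤ R)
    (hfin : {v | ¬ ∀ σ, IsFrob v σ → r v 0 = 𝓕.trV σ}.Finite) (k : I → ℕ) {s : ℂ} (hs : 3 / 2 < s.re) (t : Fin 2 ⊕ J → 𝓞 K) :
    twLSeries (𝓕.member t) (fun v m => ∑ i, (k i : ℂ) * b i v m) s = ∏ i, twLSeries (𝓕.member t) (b i) s ^ k i := by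
  have h := hasProd_prod (s := Finset.univ) (f := fun (i : I) (v : HeightOneSpectrum (𝓞 K)) => twFactor (𝓕.member t) (b i v) v s ^ k i)
    (a := fun i => twLSeries (𝓕.member t) (b i) s ^ k i)
    (fun i _ => hasProd_pow (mult_factor 𝓕 (hβ i) hβ0 hR hr hfin hs t).hasProd (k i))
  rw [← h.tprod_eq]
  unfold twLSeries
  congr 1
  funext v
  exact twFactor_prod 𝓕 hβ k (by linarith) t v

end

section
variable {K : Type} [Field K] [NumberField K] (F : IntermediateField K (AlgebraicClosure K)) [FiniteDimensional K F] [IsGalois K F]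

open Classical in
/-- The traces on `ρ` if `ρ` is self-dual, and on `ρ ⊕ ρ*` if not; `a v (m - 1)` are the traces on `ρ`. -/
noncomputable def selfTrace (ρ : FDRep ℂ Gal(F/K)) (a : HeightOneSpectrum (𝓞 K) → ℕ → ℂ) (v : HeightOneSpectrum (𝓞 K)) (m : ℕ) : ℂ :=
  if Nonempty (ρ ≅ du ρ) then ((a v m).re : ℂ) else 2 * ((a v m).re : ℂ)

open Classical in
/-- The exponent of random matrix theory: `k (k - 1) / 2` if `ρ` is orthogonal, `k (k + 1) / 2` if `ρ` is symplectic,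
and `k ^ 2` if `ρ` is not self-dual (for the square of the absolute value). -/
noncomputable def rmt (ρ : FDRep ℂ Gal(F/K)) (k : ℕ) : ℝ :=
  if Nonempty (ρ ≅ du ρ) then (if ind ρ = 1 then k * (k - 1) / 2 else k * (k + 1) / 2) else k ^ 2

variable {I : Type} [Fintype I]

open Classical in
/-- the factor -/
noncomputable def cf (ρ : FDRep ℂ Gal(F/K)) : ℝ := if Nonempty (ρ ≅ du ρ) then 1 else 2

theorem selfTrace_eq (ρ : FDRep ℂ Gal(F/K)) (a : HeightOneSpectrum (𝓞 K) → ℕ → ℂ) (v : HeightOneSpectrum (𝓞 K)) (m : ℕ) :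
    selfTrace F ρ a v m = ((cf F ρ * (a v m).re : ℝ) : ℂ) := by
  unfold selfTrace cf
  split_ifs <;> push_cast <;> ring

theorem rmt_eq (ρ : FDRep ℂ Gal(F/K)) [Simple ρ] (k : ℕ) :
    rmt F ρ k = (k ^ 2 * (cf F ρ ^ 2 * ((∑ g, (ρ.character g).re ^ 2) / Fintype.card Gal(F/K))) -
      k * (cf F ρ * ((∑ g, (ρ.character (g ^ 2)).re) / Fintype.card Gal(F/K)))) / 2 := by
  classical
  have hc : (Fintype.card Gal(F/K) : ℝ) ≠ 0 := by exact_mod_cast Fintype.card_pos.ne'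
  have h1 := re_sq ρ
  obtain ⟨f1, f2⟩ := fs_simple ρ
  have h2 : (∑ g, (ρ.character (g ^ 2)).re) / Fintype.card Gal(F/K) = (ind ρ).re := by
    unfold ind
    rw [← Complex.re_sum, ← Complex.ofReal_natCast, Complex.div_ofReal_re]
  rw [h2, h1]
  unfold rmt cf
  by_cases h : Nonempty (ρ ≅ du ρ)
  · simp only [if_pos h]
    rcases f2 h with h3 | h3
    · rw [if_pos h3, h3, Complex.one_re]
      field_simp
    · rw [if_neg (by rw [h3]; norm_num), h3, Complex.neg_re, Complex.one_re]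
      field_simp
      ring
  · simp only [if_neg h]
    rw [f1 (not_nonempty_iff.1 h), Complex.zero_re]
    field_simp
    ring

/-- the order of the mixed moment -/
theorem sum_orders (ρ : I → FDRep ℂ Gal(F/K)) [∀ i, Simple (ρ i)]
    (hρ : ∀ i j, i ≠ j → IsEmpty (ρ i ≅ ρ j) ∧ IsEmpty (ρ i ≅ du (ρ j))) (k : I → ℕ) :
    (∑ g, ((∑ i, k i * (cf F (ρ i) * ((ρ i).character g).re)) ^ 2 -
      ∑ i, k i * (cf F (ρ i) * ((ρ i).character (g ^ 2)).re)) / 2) / (Fintype.card Gal(F/K) : ℝ) = ∑ i, rmt F (ρ i) (k i) := by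
  classical
  have h1 : ∀ g : Gal(F/K), (∑ i, k i * (cf F (ρ i) * ((ρ i).character g).re)) ^ 2 =
      ∑ i, ∑ j, (k i * cf F (ρ i)) * (k j * cf F (ρ j)) * (((ρ i).character g).re * ((ρ j).character g).re) := by
    intro g
    rw [sq, Finset.sum_mul_sum]
    refine Finset.sum_congr rfl fun i _ => Finset.sum_congr rfl fun j _ => ?_
    ring
  have h2 : ∑ g : Gal(F/K), (∑ i, k i * (cf F (ρ i) * ((ρ i).character g).re)) ^ 2 =
      ∑ i, (k i : ℝ) ^ 2 * (cf F (ρ i) ^ 2 * ∑ g, ((ρ i).character g).re ^ 2) := by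
    simp only [h1]
    rw [Finset.sum_comm]
    refine Finset.sum_congr rfl fun i _ => ?_
    rw [Finset.sum_comm, Finset.sum_eq_single i]
    · rw [← Finset.mul_sum]
      have : ∑ g : Gal(F/K), ((ρ i).character g).re * ((ρ i).character g).re = ∑ g, ((ρ i).character g).re ^ 2 :=
        Finset.sum_congr rfl fun g _ => (sq _).symm
      rw [this]
      ring
    · intro j _ hj
      rw [← Finset.mul_sum, re_orth (ρ i) (ρ j) (hρ i j hj.symm).1 (hρ i j hj.symm).2, mul_zero]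
    · intro h
      exact absurd (Finset.mem_univ i) h
  have h3 : ∑ g : Gal(F/K), ∑ i, (k i : ℝ) * (cf F (ρ i) * ((ρ i).character (g ^ 2)).re) =
      ∑ i, (k i : ℝ) * (cf F (ρ i) * ∑ g : Gal(F/K), ((ρ i).character (g ^ 2)).re) := by
    rw [Finset.sum_comm]
    refine Finset.sum_congr rfl fun i _ => ?_
    rw [Finset.mul_sum, Finset.mul_sum]
  rw [← Finset.sum_div, Finset.sum_sub_distrib, h2, h3, ← Finset.sum_sub_distrib, Finset.sum_div, Finset.sum_div]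
  refine Finset.sum_congr rfl fun i _ => ?_
  rw [rmt_eq]
  ring

theorem appC (ρ : I → FDRep ℂ Gal(F/K)) [∀ i, Simple (ρ i)]
    (hρ : ∀ i j, i ≠ j → IsEmpty (ρ i ≅ ρ j) ∧ IsEmpty (ρ i ≅ du (ρ j)))
    (a : I → HeightOneSpectrum (𝓞 K) → ℕ → ℂ) (ha : ∀ i, IsTrace F (ρ i).character (a i)) (k : I → ℕ)
    {ι : Type} [Fintype ι] [DecidableEq ι] (ω : Module.Basis ι ℤ (𝓞 K)) :
    ∃ G : ℂ → ℂ, DifferentiableOn ℂ G {s | 5 / 6 < s.re} ∧ (∀ x : ℝ, 5 / 6 < x → ∃ r : ℝ, 0 < r ∧ G x = r) ∧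
      (∀ σ : ℝ, 3 / 2 < σ → ∀ ε : ℝ, 0 < ε → ∃ M : ℕ, ∀ H : Fin 2 ⊕ Empty → ℕ, (∀ j, M ≤ H j) → ∀ s : ℂ, σ ≤ s.re →
        ‖mean ω H (ellFam K).smooth (fun t => ∏ i, twLSeries ((ellFam K).member t) (selfTrace F (ρ i) (a i)) s ^ k i) -
          eulerL (fun v => ext2 fun m => ∑ i, (k i : ℂ) * selfTrace F (ρ i) (a i) v m) (2 * s - 1) * G s‖ ≤ ε) ∧
      (∀ θ : ℝ, 0 < θ → ∀ σ : ℝ, 5 / 6 < σ → ∀ ε : ℝ, 0 < ε → ∃ Z₀ : ℕ, ∀ Z : ℕ, Z₀ ≤ Z → ∀ H : Fin 2 ⊕ Empty → ℕ,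
        (∀ j, Real.exp ((Z : ℝ) ^ (1 + θ)) ≤ H j) → ∀ s : ℂ, σ ≤ s.re →
        ‖mean ω H (ellFam K).smooth (fun t => ∏ i, twPartial Z ((ellFam K).member t) (selfTrace F (ρ i) (a i)) s ^ k i) *
          (eulerZ Z (fun v => ext2 fun m => ∑ i, (k i : ℂ) * selfTrace F (ρ i) (a i) v m) (2 * s - 1))⁻¹ - G s‖ ≤ ε) ∧
      Tendsto (fun x : ℝ => Real.log ‖eulerL (fun v => ext2 fun m => ∑ i, (k i : ℂ) * selfTrace F (ρ i) (a i) v m) (2 * x - 1) * G x‖ /
        Real.log (1 / (x - 1))) (𝓝[>] 1) (𝓝 (∑ i, rmt F (ρ i) (k i))) ∧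
      (∀ θ : ℝ, 0 < θ → ∀ ε : ℝ, 0 < ε → ∃ Z₀ : ℕ, ∀ Z : ℕ, Z₀ ≤ Z → ∀ H : Fin 2 ⊕ Empty → ℕ,
        (∀ j, Real.exp ((Z : ℝ) ^ (1 + θ)) ≤ H j) →
        |Real.log ‖mean ω H (ellFam K).smooth (fun t => ∏ i, twPartial Z ((ellFam K).member t) (selfTrace F (ρ i) (a i)) 1 ^ k i)‖ /
          Real.log (Real.log Z) - ∑ i, rmt F (ρ i) (k i)| ≤ ε) := by
  classical
  choose B hB using fun i => (ha i).1
  obtain ⟨C, hC⟩ : ∃ C : ℝ, C = ∑ i, 2 * |B i| := ⟨_, rfl⟩
  have hC0 : 0 ≤ C := by rw [hC]; positivity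
  have hcf : ∀ i, |cf F (ρ i)| ≤ 2 := by
    intro i
    unfold cf
    split_ifs <;> norm_num
  have hb1 : ∀ i v m, ‖selfTrace F (ρ i) (a i) v m‖ ≤ C := by
    intro i v m
    rw [selfTrace_eq, Complex.norm_real, Real.norm_eq_abs, abs_mul]
    calc |cf F (ρ i)| * |(a i v m).re| ≤ 2 * |B i| :=
          mul_le_mul (hcf i) ((Complex.abs_re_le_norm _).trans ((hB i v m).trans (le_abs_self _))) (abs_nonneg _) (by norm_num)
      _ ≤ C := by
          rw [hC]
          exact Finset.single_le_sum (f := fun i => 2 * |B i|) (fun i _ => by positivity) (Finset.mem_univ i)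
  obtain ⟨b, hb⟩ : ∃ b : HeightOneSpectrum (𝓞 K) → ℕ → ℂ, b = fun v m => ∑ i, (k i : ℂ) * selfTrace F (ρ i) (a i) v m := ⟨_, rfl⟩
  obtain ⟨b', hb'⟩ : ∃ b' : HeightOneSpectrum (𝓞 K) → ℕ → ℝ, b' = fun v m => ∑ i, k i * (cf F (ρ i) * (a i v m).re) := ⟨_, rfl⟩
  have hbb : ∀ v m, b v m = b' v m := by
    intro v m
    rw [hb, hb']
    push_cast
    refine Finset.sum_congr rfl fun i _ => ?_
    rw [selfTrace_eq]
    push_cast
    rfl
  obtain ⟨β, hβd⟩ : ∃ β : ℝ, β = ∑ i, (k i : ℝ) * C := ⟨_, rfl⟩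
  have hβ0 : 0 ≤ β := by rw [hβd]; positivity
  have hβ : ∀ v m, ‖b v m‖ ≤ β := by
    intro v m
    rw [hb, hβd]
    refine (norm_sum_le _ _).trans (Finset.sum_le_sum fun i _ => ?_)
    rw [norm_mul, Complex.norm_natCast]
    exact mul_le_mul_of_nonneg_left (hb1 i v m) (by positivity)
  have hr0 : ∀ (v : HeightOneSpectrum (𝓞 K)) (m : ℕ), |(fun _ _ => (0 : ℝ) : HeightOneSpectrum (𝓞 K) → ℕ → ℝ) v m| ≤ 0 := by
    intro v m
    simp
  have hfin : {v | ¬ ∀ σ, IsFrob v σ → (fun _ _ => (0 : ℝ) : HeightOneSpectrum (𝓞 K) → ℕ → ℝ) v 0 = (ellFam K).trV σ}.Finite := ellFam_fin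
  -- the mean values
  have h1 : HasAvg K (fun v => (fun _ _ => (0 : ℝ) : HeightOneSpectrum (𝓞 K) → ℕ → ℝ) v 0 * b' v 0) 0 := by
    have : Tendsto (fun _ : ℕ => (0 : ℝ)) atTop (𝓝 0) := tendsto_const_nhds
    refine Filter.Tendsto.congr (fun N => ?_) this
    simp
  have h2 : HasAvg K (fun v => (b' v 0 ^ 2 - b' v 1) / 2) (∑ i, rmt F (ρ i) (k i)) := by
    rw [← sum_orders F ρ hρ k]
    refine avg_gal F (fun g => ((∑ i, k i * (cf F (ρ i) * ((ρ i).character g).re)) ^ 2 -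
      ∑ i, k i * (cf F (ρ i) * ((ρ i).character (g ^ 2)).re)) / 2) (fun g h => ?_) _ ?_
    · have e1 : ∀ i, (ρ i).character (h * g * h⁻¹) = (ρ i).character g := fun i => FDRep.char_conj _ _ _
      have e2 : ∀ i, (ρ i).character ((h * g * h⁻¹) ^ 2) = (ρ i).character (g ^ 2) := fun i => by
        rw [conj_pow]
        exact FDRep.char_conj _ _ _
      simp only [e1, e2]
    · refine (Set.finite_iUnion fun i => (ha i).2).subset fun v hv => ?_
      by_contra hc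
      rw [Set.mem_iUnion, not_exists] at hc
      apply hv
      intro σ hσ
      have e1 : ∀ i, a i v 0 = (ρ i).character (res F σ) := by
        intro i
        have h3 := hc i
        simp only [Set.mem_ofPred_eq, not_not] at h3
        have h4 := h3 σ hσ 0
        rwa [zero_add, pow_one] at h4
      have e2 : ∀ i, a i v 1 = (ρ i).character (res F σ ^ 2) := by
        intro i
        have h3 := hc i
        simp only [Set.mem_ofPred_eq, not_not] at h3
        exact h3 σ hσ 1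
      rw [hb']
      simp only [e1, e2]
  refine ⟨GG ((ellFam K).data le_rfl hr0 hfin) b, GG_diff _ hβ, fun x hx => GG_real _ hβ hbb hx, ?_, ?_, ?_, ?_⟩
  · intro σ hσ ε hε
    obtain ⟨M, hM⟩ := main1 (ellFam K) le_rfl hr0 hfin ω hβ hβ0 hσ hε
    refine ⟨M, fun H hH s hs => ?_⟩
    have h := hM H hH s hs
    rw [eulerL_zero, inv_one, one_mul] at h
    have e : (fun t => twLSeries ((ellFam K).member t) b s) =
        fun t => ∏ i, twLSeries ((ellFam K).member t) (selfTrace F (ρ i) (a i)) s ^ k i := by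
      funext t
      rw [hb]
      exact twLSeries_prod (ellFam K) hb1 hC0 le_rfl hr0 hfin k (by linarith) t
    rw [e, hb] at h
    rw [hb]
    exact h
  · intro θ hθ σ hσ ε hε
    obtain ⟨Z₀, hZ₀⟩ := main2 (ellFam K) le_rfl hr0 hfin ω hβ hβ0 hσ hθ hε
    refine ⟨Z₀, fun Z hZ H hH s hs => ?_⟩
    have h := hZ₀ Z hZ H hH s hs
    rw [eulerZ_zero, one_mul] at h
    have e : (fun t => twPartial Z ((ellFam K).member t) b s) =
        fun t => ∏ i, twPartial Z ((ellFam K).member t) (selfTrace F (ρ i) (a i)) s ^ k i := by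
      funext t
      rw [hb]
      exact twPartial_prod (ellFam K) hb1 k (by linarith) t Z
    rw [e, hb] at h
    rw [hb]
    exact h
  · have h := order1 (ellFam K) le_rfl hr0 hfin hβ hbb h1 h2
    rw [sub_zero] at h
    refine h.congr fun x => ?_
    rw [eulerL_zero, inv_one, one_mul, hb]
  · intro θ hθ ε hε
    obtain ⟨Z₀, hZ₀⟩ := order2 (ellFam K) le_rfl hr0 hfin ω hβ hβ0 hbb h1 h2 hθ hε
    refine ⟨Z₀, fun Z hZ H hH => ?_⟩
    have h := hZ₀ Z hZ H hH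
    rw [sub_zero] at h
    have e : (fun t => twPartial Z ((ellFam K).member t) b 1) =
        fun t => ∏ i, twPartial Z ((ellFam K).member t) (selfTrace F (ρ i) (a i)) 1 ^ k i := by
      funext t
      rw [hb]
      exact twPartial_prod (ellFam K) hb1 k (by norm_num) t Z
    rw [e] at h
    exact h

end

end Run7.h61.TW
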