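import Pool.Agent.Run7.h61.TW.AppB

/-!
# Averages of products of powers of the L-functions of elliptic curves over several fixed extensions
-/

set_option autoImplicit false
set_option linter.unusedSectionVars false

namespace Run7.h61.TW

open NumberField IsDedekindDomain Finset Filter Topology Polynomial
open Pool.Agent.W401.Cheb (GK IsFrob IsInert)
open Pool.Agent.W353.NF (act act_apply fixn ker_act_open)
open Run7.h876.MM (nv kv card_kv instFieldKv instFintypeKv instDecKv nv_pos xv SZ mem_SZ two_le_nv)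
open Run7.h876.EN (mean rd)

/-! ### integral exponents -/

section
variable {K : Type} [Field K] [NumberField K]

theorem twFactor_zpow (f : (𝓞 K)[X]) (b : ℕ → ℂ) (k : ℤ) (v : HeightOneSpectrum (𝓞 K)) (s : ℂ) :
    twFactor f (fun m => (k : ℂ) * b m) v s = twFactor f b v s ^ k := by
  unfold twFactor
  split_ifs with h
  · rw [← Complex.exp_int_mul, ← tsum_mul_left]
    congr 2
    funext m
    ring
  · rw [one_zpow]

theorem twPartial_zpow (Z : ℕ) (f : (𝓞 K)[X]) (b : HeightOneSpectrum (𝓞 K) → ℕ → ℂ) (k : ℤ) (s : ℂ) :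
    twPartial Z f (fun v m => (k : ℂ) * b v m) s = twPartial Z f b s ^ k := by
  rw [twPartial_eq, twPartial_eq, ← Finset.prod_zpow]
  exact Finset.prod_congr rfl fun v _ => twFactor_zpow f (b v) k v s

variable {J : Type} [Fintype J] [DecidableEq J] (𝓕 : TFam K J)

theorem twLSeries_neg {b : HeightOneSpectrum (𝓞 K) → ℕ → ℂ} {β : ℝ} (hβ : ∀ v m, ‖b v m‖ ≤ β) (hβ0 : 0 ≤ β)
    {R : ℝ} (hR : 0 ≤ R) {r : HeightOneSpectrum (𝓞 K) → ℕ → ℝ} (hr : ∀ v m, |r v m| ≤ R)
    (hfin : {v | ¬ ∀ σ, IsFrob v σ → r v 0 = 𝓕.trV σ}.Finite) {s : ℂ} (hs : 3 / 2 < s.re) (t : Fin 2 ⊕ J → 𝓞 K) :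
    twLSeries (𝓕.member t) b s * twLSeries (𝓕.member t) (fun v m => ((-1 : ℤ) : ℂ) * b v m) s = 1 := by
  have h1 := mult_factor 𝓕 hβ hβ0 hR hr hfin hs t
  have h2 := mult_factor 𝓕 (b := fun v m => ((-1 : ℤ) : ℂ) * b v m) (fun v m => by
    rw [norm_mul]
    simpa using hβ v m) hβ0 hR hr hfin hs t
  have h3 := h1.hasProd.mul h2.hasProd
  unfold twLSeries
  rw [← h3.tprod_eq]
  have e : (fun v : HeightOneSpectrum (𝓞 K) => twFactor (𝓕.member t) (b v) v s *
      twFactor (𝓕.member t) (fun m => ((-1 : ℤ) : ℂ) * b v m) v s) = fun _ => 1 := by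
    funext v
    rw [twFactor_zpow, zpow_neg_one, mul_inv_cancel₀]
    unfold twFactor
    split_ifs
    · exact Complex.exp_ne_zero _
    · exact one_ne_zero
  rw [e, tprod_one]

theorem twLSeries_zpow {b : HeightOneSpectrum (𝓞 K) → ℕ → ℂ} {β : ℝ} (hβ : ∀ v m, ‖b v m‖ ≤ β) (hβ0 : 0 ≤ β)
    {R : ℝ} (hR : 0 ≤ R) {r : HeightOneSpectrum (𝓞 K) → ℕ → ℝ} (hr : ∀ v m, |r v m| ≤ R)
    (hfin : {v | ¬ ∀ σ, IsFrob v σ → r v 0 = 𝓕.trV σ}.Finite) (k : ℤ) {s : ℂ} (hs : 3 / 2 < s.re) (t : Fin 2 ⊕ J → 𝓞 K) :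
    twLSeries (𝓕.member t) (fun v m => (k : ℂ) * b v m) s = twLSeries (𝓕.member t) b s ^ k := by
  obtain ⟨n, rfl | rfl⟩ := Int.eq_nat_or_neg k
  · rw [zpow_natCast]
    exact twLSeries_pow 𝓕 hβ hβ0 hR hr hfin n hs t
  · have h1 := twLSeries_neg 𝓕 hβ hβ0 hR hr hfin hs t
    have h2 := twLSeries_pow 𝓕 (b := fun v m => ((-1 : ℤ) : ℂ) * b v m) (fun v m => by
      rw [norm_mul]
      simpa using hβ v m) hβ0 hR hr hfin n hs t
    have e : (fun (v : HeightOneSpectrum (𝓞 K)) (m : ℕ) => (((-(n : ℤ)) : ℤ) : ℂ) * b v m) =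
        fun v m => (n : ℂ) * (((-1 : ℤ) : ℂ) * b v m) := by
      funext v m
      push_cast
      ring
    rw [e, h2, zpow_neg, zpow_natCast, ← inv_pow]
    congr 1
    exact eq_inv_of_mul_eq_one_right h1

variable {I : Type} [Fintype I]

theorem twLSeries_prodZ {b : I → HeightOneSpectrum (𝓞 K) → ℕ → ℂ} {β : ℝ} (hβ : ∀ i v m, ‖b i v m‖ ≤ β) (hβ0 : 0 ≤ β)
    {R : ℝ} (hR : 0 ≤ R) {r : HeightOneSpectrum (𝓞 K) → ℕ → ℝ} (hr : ∀ v m, |r v m| ≤ R)
    (hfin : {v | ¬ ∀ σ, IsFrob v σ → r v 0 = 𝓕.trV σ}.Finite) (k : I → ℤ) {s : ℂ} (hs : 3 / 2 < s.re) (t : Fin 2 ⊕ J → 𝓞 K) :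
    twLSeries (𝓕.member t) (fun v m => ∑ i, (k i : ℂ) * b i v m) s = ∏ i, twLSeries (𝓕.member t) (b i) s ^ k i := by
  have h := twLSeries_prod 𝓕 (b := fun i v m => (k i : ℂ) * b i v m) (β := (∑ i, |(k i : ℝ)|) * β) (fun i v m => by
    rw [norm_mul]
    refine mul_le_mul ?_ (hβ i v m) (norm_nonneg _) (Finset.sum_nonneg fun i _ => abs_nonneg _)
    rw [Complex.norm_intCast]
    exact Finset.single_le_sum (f := fun i => |(k i : ℝ)|) (fun i _ => abs_nonneg _) (Finset.mem_univ i))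
    (mul_nonneg (Finset.sum_nonneg fun i _ => abs_nonneg _) hβ0) hR hr hfin (fun _ => 1) hs t
  simp only [Nat.cast_one, one_mul, pow_one] at h
  rw [h]
  exact Finset.prod_congr rfl fun i _ => twLSeries_zpow 𝓕 (hβ i) hβ0 hR hr hfin (k i) hs t

theorem twPartial_prodZ {b : I → HeightOneSpectrum (𝓞 K) → ℕ → ℂ} {β : ℝ} (hβ : ∀ i v m, ‖b i v m‖ ≤ β) (hβ0 : 0 ≤ β)
    (k : I → ℤ) {s : ℂ} (hs : 1 / 2 < s.re) (t : Fin 2 ⊕ J → 𝓞 K) (Z : ℕ) :
    twPartial Z (𝓕.member t) (fun v m => ∑ i, (k i : ℂ) * b i v m) s = ∏ i, twPartial Z (𝓕.member t) (b i) s ^ k i := by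
  have h := twPartial_prod 𝓕 (b := fun i v m => (k i : ℂ) * b i v m) (β := (∑ i, |(k i : ℝ)|) * β) (fun i v m => by
    rw [norm_mul]
    refine mul_le_mul ?_ (hβ i v m) (norm_nonneg _) (Finset.sum_nonneg fun i _ => abs_nonneg _)
    rw [Complex.norm_intCast]
    exact Finset.single_le_sum (f := fun i => |(k i : ℝ)|) (fun i _ => abs_nonneg _) (Finset.mem_univ i))
    (fun _ => 1) hs t Z
  simp only [Nat.cast_one, one_mul, pow_one] at h
  rw [h]
  exact Finset.prod_congr rfl fun i _ => twPartial_zpow Z _ (b i) (k i) s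

end

/-! ### the pairs of embeddings of two fields -/

section
variable (K F E : Type) [Field K] [NumberField K] [Field F] [NumberField F] [Algebra K F] [Field E] [NumberField E] [Algebra K E]

/-- Two pairs, of a `K`-embedding of `F` and a `K`-embedding of `E` in the algebraic closure, are equivalent if an
element of the Galois group maps one to the other. -/
def crossRel : Setoid ((F →ₐ[K] AlgebraicClosure K) × (E →ₐ[K] AlgebraicClosure K)) where
  r z w := ∃ σ : GK K, act K F σ z.1 = w.1 ∧ act K E σ z.2 = w.2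
  iseqv :=
    { refl := fun z => ⟨1, by rw [map_one, map_one]; exact ⟨rfl, rfl⟩⟩
      symm := fun {z w} ⟨g, h1, h2⟩ => ⟨g⁻¹, by
        rw [map_inv, map_inv, ← h1, ← h2]
        exact ⟨(act K F g).symm_apply_apply _, (act K E g).symm_apply_apply _⟩⟩
      trans := fun {x y z} ⟨g, h1, h2⟩ ⟨h, h3, h4⟩ => ⟨h * g, by
        rw [map_mul, map_mul, Equiv.Perm.mul_apply, Equiv.Perm.mul_apply, h1, h2, h3, h4]
        exact ⟨rfl, rfl⟩⟩ }

/-- The number of the orbits of the Galois group on the pairs of an embedding of `F` and an embedding of `E`. -/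
noncomputable def crossOrbits : ℕ := Nat.card (Quotient (crossRel K F E))

theorem cross_self : crossOrbits K F F = pairOrbits K F := by
  unfold crossOrbits pairOrbits
  rfl

/-- the action on the pairs -/
noncomputable def cact : GK K →* Equiv.Perm ((F →ₐ[K] AlgebraicClosure K) × (E →ₐ[K] AlgebraicClosure K)) where
  toFun g := Equiv.prodCongr (act K F g) (act K E g)
  map_one' := by rw [map_one, map_one]; rfl
  map_mul' g h := by rw [map_mul, map_mul]; rfl

theorem cact_ker : (act K F).ker ⊓ (act K E).ker ≤ (cact K F E).ker := by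
  intro σ hσ
  obtain ⟨h1, h2⟩ := Subgroup.mem_inf.1 hσ
  rw [MonoidHom.mem_ker] at h1 h2 ⊢
  show Equiv.prodCongr (act K F σ) (act K E σ) = 1
  rw [h1, h2]
  rfl

theorem cact_open : IsOpen ((cact K F E).ker : Set (GK K)) := by
  refine Subgroup.isOpen_mono (cact_ker K F E) ?_
  exact (ker_act_open K F).inter (ker_act_open K E)

noncomputable instance : Fintype (cact K F E).range :=
  have : Finite (cact K F E).range := Subtype.finite
  Fintype.ofFinite _

theorem fix_cross (σ : GK K) : Nat.card {z // cact K F E σ z = z} = fixn K F σ * fixn K E σ := by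
  unfold fixn
  rw [← Nat.card_prod]
  exact Nat.card_congr
    { toFun := fun z => (⟨z.1.1, congrArg Prod.fst z.2⟩, ⟨z.1.2, congrArg Prod.snd z.2⟩)
      invFun := fun p => ⟨(p.1.1, p.2.1), Prod.ext p.1.2 p.2.2⟩
      left_inv := fun z => rfl
      right_inv := fun p => rfl }

/-- **The mean value of the product of two permutation characters.** -/
theorem avg_cross : HasAvg K (fun v => (bF F v 0).re * (bF E v 0).re) (crossOrbits K F E) := by
  classical
  have hc : (Fintype.card (cact K F E).range : ℝ) ≠ 0 := by exact_mod_cast Fintype.card_pos.ne'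
  have h := avg_class (K := K) (G := (cact K F E).range) (cact K F E).rangeRestrict (cact K F E).rangeRestrict_surjective (by
    have : (cact K F E).rangeRestrict.ker = (cact K F E).ker := MonoidHom.ker_rangeRestrict _
    rw [this]
    exact cact_open K F E)
    (fun g => (Nat.card {z // (cact K F E).range.subtype g z = z} : ℝ))
    (fun g h => by
      congr 1
      refine Nat.card_congr (Equiv.subtypeEquiv ((cact K F E).range.subtype h⁻¹) fun y => ?_)
      rw [map_mul, map_mul, Equiv.Perm.mul_apply, Equiv.Perm.mul_apply, map_inv, Equiv.Perm.eq_inv_iff_eq])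
    (fun v => (bF F v 0).re * (bF E v 0).re) (((bF_ae K F).union (bF_ae K E)).subset fun v hv => by
      by_contra hc
      rw [Set.mem_union, not_or] at hc
      obtain ⟨c1, c2⟩ := hc
      simp only [Set.mem_ofPred_eq, not_not] at c1 c2
      apply hv
      intro σ hσ
      have e1 := c1 σ hσ 0
      have e2 := c2 σ hσ 0
      rw [e1, e2, Complex.natCast_re, Complex.natCast_re, zero_add, pow_one, ← Nat.cast_mul, ← fix_cross]
      rfl)
  have s1 := burn (cact K F E).range.subtype (crossRel K F E) fun z w => by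
    constructor
    · rintro ⟨σ, h1, h2⟩
      exact ⟨⟨cact K F E σ, ⟨σ, rfl⟩⟩, Prod.ext h1 h2⟩
    · rintro ⟨⟨_, ⟨σ, rfl⟩⟩, h1⟩
      exact ⟨σ, congrArg Prod.fst h1, congrArg Prod.snd h1⟩
  have s1' : ∑ g : (cact K F E).range, (Nat.card {z // (cact K F E).range.subtype g z = z} : ℝ) =
      crossOrbits K F E * Fintype.card (cact K F E).range := by
    exact_mod_cast s1
  rw [s1', mul_div_cancel_right₀ _ hc] at h
  exact h

/-- the mean value of the fixed points of the squares -/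
theorem avg_two : HasAvg K (fun v => (bF F v 1).re) (selfOrbits K F) := by
  have h1 := avg_perm K F 1
  have h2 := avg_cross K F F
  rw [cross_self] at h2
  have h3 := HasAvg.sum (K := K) (Finset.univ : Finset (Fin 2))
    (fun i v => if i = 0 then 1 * ((bF F v 0).re * (bF F v 0).re) else (-2) * (((1 * (bF F v 0).re) ^ 2 - 1 * (bF F v 1).re) / 2))
    (fun i => if i = 0 then 1 * (pairOrbits K F : ℝ) else (-2) * (((1 : ℝ) ^ 2 * pairOrbits K F - 1 * selfOrbits K F) / 2)) (fun i _ => by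
      fin_cases i
      · exact h2.const_mul 1
      · exact h1.const_mul (-2))
  have e1 : (fun v : HeightOneSpectrum (𝓞 K) => ∑ i : Fin 2, if i = 0 then 1 * ((bF F v 0).re * (bF F v 0).re) else
      (-2) * (((1 * (bF F v 0).re) ^ 2 - 1 * (bF F v 1).re) / 2)) = fun v => (bF F v 1).re := by
    funext v
    rw [Fin.sum_univ_two]
    simp
    ring
  have e2 : (∑ i : Fin 2, if i = 0 then 1 * (pairOrbits K F : ℝ) else (-2) * (((1 : ℝ) ^ 2 * pairOrbits K F - 1 * selfOrbits K F) / 2)) =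
      selfOrbits K F := by
    rw [Fin.sum_univ_two]
    simp
    ring
  rw [e1, e2] at h3
  exact h3

end

section
variable {K : Type} [Field K] [NumberField K] {I : Type} [Fintype I] (F : I → Type) [∀ i, Field (F i)] [∀ i, NumberField (F i)]
  [∀ i, Algebra K (F i)]

variable (K) in
/-- `(∑ k_i k_j r_ij - ∑ k_i s_i) / 2`, where `r_ij` is the number of the orbits of the Galois group on the pairs of
an embedding of `F_i` and an embedding of `F_j`, and `s_i` is the number of the self-paired orbits on the pairs of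
embeddings of `F_i`. -/
noncomputable def mixedOrder (k : I → ℤ) : ℝ :=
  ((∑ i, ∑ j, (k i : ℝ) * k j * crossOrbits K (F i) (F j)) - ∑ i, (k i : ℝ) * selfOrbits K (F i)) / 2

theorem avg_mixed (k : I → ℤ) : HasAvg K (fun v => ((∑ i, (k i : ℝ) * (bF (F i) v 0).re) ^ 2 - ∑ i, (k i : ℝ) * (bF (F i) v 1).re) / 2)
    (mixedOrder K F k) := by
  classical
  have h1 := HasAvg.sum (K := K) (Finset.univ : Finset (I × I))
    (fun p v => ((k p.1 : ℝ) * k p.2) * ((bF (F p.1) v 0).re * (bF (F p.2) v 0).re))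
    (fun p => ((k p.1 : ℝ) * k p.2) * crossOrbits K (F p.1) (F p.2)) (fun p _ => (avg_cross K (F p.1) (F p.2)).const_mul _)
  have h2 := HasAvg.sum (K := K) (Finset.univ : Finset I)
    (fun i v => (k i : ℝ) * (bF (F i) v 1).re)
    (fun i => (k i : ℝ) * selfOrbits K (F i)) (fun i _ => (avg_two K (F i)).const_mul _)
  have h3 := HasAvg.sum (K := K) (Finset.univ : Finset (Fin 2))
    (fun j v => if j = 0 then (1 / 2) * (∑ p : I × I, ((k p.1 : ℝ) * k p.2) * ((bF (F p.1) v 0).re * (bF (F p.2) v 0).re)) else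
      (-1 / 2) * ∑ i, (k i : ℝ) * (bF (F i) v 1).re)
    (fun j => if j = 0 then (1 / 2) * (∑ p : I × I, ((k p.1 : ℝ) * k p.2) * crossOrbits K (F p.1) (F p.2)) else
      (-1 / 2) * ∑ i, (k i : ℝ) * selfOrbits K (F i)) (fun i _ => by
      fin_cases i
      · exact h1.const_mul (1 / 2)
      · exact h2.const_mul (-1 / 2))
  have e1 : (fun v : HeightOneSpectrum (𝓞 K) => ∑ j : Fin 2,
      if j = 0 then (1 / 2) * (∑ p : I × I, ((k p.1 : ℝ) * k p.2) * ((bF (F p.1) v 0).re * (bF (F p.2) v 0).re)) else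
      (-1 / 2) * ∑ i, (k i : ℝ) * (bF (F i) v 1).re) =
      fun v => ((∑ i, (k i : ℝ) * (bF (F i) v 0).re) ^ 2 - ∑ i, (k i : ℝ) * (bF (F i) v 1).re) / 2 := by
    funext v
    rw [Fin.sum_univ_two, if_pos rfl, if_neg (by decide), sq, Finset.sum_mul_sum, Fintype.sum_prod_type]
    have : ∀ i j : I, (k i : ℝ) * (bF (F i) v 0).re * ((k j : ℝ) * (bF (F j) v 0).re) =
        ((k i : ℝ) * k j) * ((bF (F i) v 0).re * (bF (F j) v 0).re) := fun i j => by ring
    simp only [this]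
    ring
  have e2 : (∑ j : Fin 2, if j = 0 then (1 / 2) * (∑ p : I × I, ((k p.1 : ℝ) * k p.2) * crossOrbits K (F p.1) (F p.2)) else
      (-1 / 2) * ∑ i, (k i : ℝ) * selfOrbits K (F i)) = mixedOrder K F k := by
    rw [Fin.sum_univ_two, if_pos rfl, if_neg (by decide), Fintype.sum_prod_type]
    unfold mixedOrder
    ring
  rw [e1, e2] at h3
  exact h3

theorem appM (k : I → ℤ) {ι : Type} [Fintype ι] [DecidableEq ι] (ω : Module.Basis ι ℤ (𝓞 K)) :
    ∃ G : ℂ → ℂ, DifferentiableOn ℂ G {s | 5 / 6 < s.re} ∧ (∀ x : ℝ, 5 / 6 < x → ∃ r : ℝ, 0 < r ∧ G x = r) ∧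
      (∀ σ : ℝ, 3 / 2 < σ → ∀ ε : ℝ, 0 < ε → ∃ M : ℕ, ∀ H : Fin 2 ⊕ Empty → ℕ, (∀ j, M ≤ H j) → ∀ s : ℂ, σ ≤ s.re →
        ‖mean ω H (ellFam K).smooth (fun t => ∏ i, Run7.h876.HY.LSeries (((ellFam K).member t).map (algebraMap (𝓞 K) (𝓞 (F i)))) s ^ k i) -
          eulerL (fun v : HeightOneSpectrum (𝓞 K) => ext2 fun m => ∑ i, (k i : ℂ) * bF (F i) v m) (2 * s - 1) * G s‖ ≤ ε) ∧
      (∀ θ : ℝ, 0 < θ → ∀ σ : ℝ, 5 / 6 < σ → ∀ ε : ℝ, 0 < ε → ∃ Z₀ : ℕ, ∀ Z : ℕ, Z₀ ≤ Z → ∀ H : Fin 2 ⊕ Empty → ℕ,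
        (∀ j, Real.exp ((Z : ℝ) ^ (1 + θ)) ≤ H j) → ∀ s : ℂ, σ ≤ s.re →
        ‖mean ω H (ellFam K).smooth (fun t => ∏ i, fPartial (F i) Z ((ellFam K).member t) s ^ k i) *
          (eulerZ Z (fun v : HeightOneSpectrum (𝓞 K) => ext2 fun m => ∑ i, (k i : ℂ) * bF (F i) v m) (2 * s - 1))⁻¹ - G s‖ ≤ ε) ∧
      Tendsto (fun x : ℝ => Real.log ‖eulerL (fun v : HeightOneSpectrum (𝓞 K) => ext2 fun m => ∑ i, (k i : ℂ) * bF (F i) v m) (2 * x - 1) * G x‖ /
        Real.log (1 / (x - 1))) (𝓝[>] 1) (𝓝 (mixedOrder K F k)) ∧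
      (∀ θ : ℝ, 0 < θ → ∀ ε : ℝ, 0 < ε → ∃ Z₀ : ℕ, ∀ Z : ℕ, Z₀ ≤ Z → ∀ H : Fin 2 ⊕ Empty → ℕ,
        (∀ j, Real.exp ((Z : ℝ) ^ (1 + θ)) ≤ H j) →
        |Real.log ‖mean ω H (ellFam K).smooth (fun t => ∏ i, fPartial (F i) Z ((ellFam K).member t) 1 ^ k i)‖ /
          Real.log (Real.log Z) - mixedOrder K F k| ≤ ε) := by
  classical
  obtain ⟨b, hb⟩ : ∃ b : HeightOneSpectrum (𝓞 K) → ℕ → ℂ, b = fun v m => ∑ i, (k i : ℂ) * bF (F i) v m := ⟨_, rfl⟩
  obtain ⟨b', hb'⟩ : ∃ b' : HeightOneSpectrum (𝓞 K) → ℕ → ℝ, b' = fun v m => ∑ i, (k i : ℝ) * (bF (F i) v m).re := ⟨_, rfl⟩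
  have hbb : ∀ v m, b v m = ((b' v m : ℝ) : ℂ) := by
    intro v m
    rw [hb, hb']
    push_cast
    exact Finset.sum_congr rfl fun i _ => congrArg (fun z : ℂ => (k i : ℂ) * z) (bF_re (F := F i) v m)
  obtain ⟨β₁, hβ₁d⟩ : ∃ β₁ : ℝ, β₁ = ∑ i, (Module.finrank K (F i) : ℝ) := ⟨_, rfl⟩
  have hβ₁0 : 0 ≤ β₁ := by rw [hβ₁d]; positivity
  have hβ₁ : ∀ i v m, ‖bF (K := K) (F i) v m‖ ≤ β₁ := by
    intro i v m
    refine (bF_le v m).trans ?_
    rw [hβ₁d]
    exact Finset.single_le_sum (f := fun i => (Module.finrank K (F i) : ℝ)) (fun i _ => by positivity) (Finset.mem_univ i)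
  obtain ⟨β, hβd⟩ : ∃ β : ℝ, β = ∑ i, |(k i : ℝ)| * β₁ := ⟨_, rfl⟩
  have hβ0 : 0 ≤ β := by rw [hβd]; positivity
  have hβ : ∀ v m, ‖b v m‖ ≤ β := by
    intro v m
    rw [hb, hβd]
    refine (norm_sum_le _ _).trans (Finset.sum_le_sum fun i _ => ?_)
    rw [norm_mul, Complex.norm_intCast]
    exact mul_le_mul_of_nonneg_left (hβ₁ i v m) (abs_nonneg _)
  have hr0 : ∀ (v : HeightOneSpectrum (𝓞 K)) (m : ℕ), |(fun _ _ => (0 : ℝ) : HeightOneSpectrum (𝓞 K) → ℕ → ℝ) v m| ≤ 0 := by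
    intro v m
    simp
  have hfin : {v | ¬ ∀ σ, IsFrob v σ → (fun _ _ => (0 : ℝ) : HeightOneSpectrum (𝓞 K) → ℕ → ℝ) v 0 = (ellFam K).trV σ}.Finite := ellFam_fin
  have h1 : HasAvg K (fun v => (fun _ _ => (0 : ℝ) : HeightOneSpectrum (𝓞 K) → ℕ → ℝ) v 0 * b' v 0) 0 := by
    have : Tendsto (fun _ : ℕ => (0 : ℝ)) atTop (𝓝 0) := tendsto_const_nhds
    refine Filter.Tendsto.congr (fun N => ?_) this
    simp
  have h2 : HasAvg K (fun v => (b' v 0 ^ 2 - b' v 1) / 2) (mixedOrder K F k) := by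
    rw [hb']
    exact avg_mixed F k
  refine ⟨GG ((ellFam K).data le_rfl hr0 hfin) b, GG_diff _ hβ, fun x hx => GG_real _ hβ hbb hx, ?_, ?_, ?_, ?_⟩
  · intro σ hσ ε hε
    obtain ⟨M, hM⟩ := main1 (ellFam K) le_rfl hr0 hfin ω hβ hβ0 hσ hε
    refine ⟨M, fun H hH s hs => ?_⟩
    have h := hM H hH s hs
    rw [eulerL_zero, inv_one, one_mul] at h
    have e : (fun t => twLSeries ((ellFam K).member t) b s) =
        fun t => ∏ i, Run7.h876.HY.LSeries (((ellFam K).member t).map (algebraMap (𝓞 K) (𝓞 (F i)))) s ^ k i := by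
      funext t
      rw [hb, twLSeries_prodZ (ellFam K) (b := fun i => bF (F i)) hβ₁ hβ₁0 le_rfl hr0 hfin k (by linarith) t]
      exact Finset.prod_congr rfl fun i _ => by rw [LSeries_bc (F := F i) t (by linarith)]
    rw [e, hb] at h
    rw [hb]
    exact h
  · intro θ hθ σ hσ ε hε
    obtain ⟨Z₀, hZ₀⟩ := main2 (ellFam K) le_rfl hr0 hfin ω hβ hβ0 hσ hθ hε
    refine ⟨Z₀, fun Z hZ H hH s hs => ?_⟩
    have h := hZ₀ Z hZ H hH s hs
    rw [eulerZ_zero, one_mul] at h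
    have e : (fun t => twPartial Z ((ellFam K).member t) b s) =
        fun t => ∏ i, fPartial (F i) Z ((ellFam K).member t) s ^ k i := by
      funext t
      rw [hb, twPartial_prodZ (ellFam K) (b := fun i => bF (F i)) hβ₁ hβ₁0 k (by linarith) t Z]
      exact Finset.prod_congr rfl fun i _ => by rw [fPartial_eq (ellFam K) Z t (by linarith)]
    rw [e, hb] at h
    rw [hb]
    exact h
  · have h := order1 (ellFam K) le_rfl hr0 hfin hβ hbb h1 h2
    rw [sub_zero] at h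
    refine h.congr fun x => ?_
    rw [eulerL_zero, inv_one, one_mul, hb]
  · intro θ hθ ε hε
    obtain ⟨Z₀, hZ₀⟩ := order2 (ellFam K) le_rfl hr0 hfin ω hβ hβ0 hbb h1 h2 hθ hε
    refine ⟨Z₀, fun Z hZ H hH => ?_⟩
    have h := hZ₀ Z hZ H hH
    rw [sub_zero] at h
    have e : (fun t => twPartial Z ((ellFam K).member t) b 1) =
        fun t => ∏ i, fPartial (F i) Z ((ellFam K).member t) 1 ^ k i := by
      funext t
      rw [hb, twPartial_prodZ (ellFam K) (b := fun i => bF (F i)) hβ₁ hβ₁0 k (by norm_num) t Z]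
      exact Finset.prod_congr rfl fun i _ => by rw [fPartial_eq (ellFam K) Z t (by norm_num)]
    rw [e] at h
    exact h

end

end Run7.h61.TW
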