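import Pool.Agent.Run7.h61.TW.Eng

/-!
# The twisted moments: the means over boxes
-/

set_option autoImplicit false
set_option linter.unusedSectionVars false

namespace Run7.h61.TW

open NumberField IsDedekindDomain Finset Filter Topology
open Run7.h876.MM (nv kv two_le_nv nv_pos avg card_kv xv norm_xv instFieldKv instFintypeKv instDecKv norm_avg_le avg_sub'
  tail_bound tail_small mult_of tprod_ne xv_real SZ mem_SZ nv_rpow_le y0_lt)
open Run7.h876.EN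
open Run7.h876.HY (one_le_nv ell_diff ell_real)

/-- the exponential of a small series -/
theorem exp_ell_sub {a : ℕ → ℂ} {X : ℂ} {D Q y y₀ : ℝ} (hD : 0 ≤ D) (hQ : 0 ≤ Q) (ha : ∀ m, ‖a m‖ ≤ D * Q ^ (m + 1))
    (h1 : Q * ‖X‖ ≤ y) (h2 : y ≤ y₀) (hy₀ : y₀ < 1) :
    ‖Complex.exp (ell a X) - 1‖ ≤ (D * (1 - y₀)⁻¹) * Real.exp (D * (1 - y₀)⁻¹) * y := by
  have hw : 0 < (1 - y₀)⁻¹ := inv_pos.2 (by linarith)
  have h3 := ell_le hD hQ ha (h1.trans h2) hy₀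
  have hy0 : 0 ≤ y := le_trans (by positivity) h1
  have h4 : ‖ell a X‖ ≤ D * (1 - y₀)⁻¹ * y := by
    refine h3.trans ?_
    rw [div_eq_mul_inv]
    calc D * (Q * ‖X‖) * (1 - y₀)⁻¹ ≤ D * y * (1 - y₀)⁻¹ := by gcongr
      _ = _ := by ring
  have h5 : ‖ell a X‖ ≤ D * (1 - y₀)⁻¹ := h4.trans (mul_le_of_le_one_right (by positivity) (by linarith))
  have h6 := Complex.norm_exp_sub_sum_le_norm_mul_exp (ell a X) 1
  simp only [Finset.sum_range_one, pow_zero, Nat.factorial_zero, Nat.cast_one, div_one, pow_one] at h6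
  refine h6.trans ?_
  calc ‖ell a X‖ * Real.exp ‖ell a X‖ ≤ (D * (1 - y₀)⁻¹ * y) * Real.exp (D * (1 - y₀)⁻¹) := by gcongr
    _ = _ := by ring

section
variable {K : Type} [Field K] [NumberField K]

/-- The Euler product `∏ exp (∑ a_v(m) Nv^(-ms) / m)`, where `a v (m - 1)` stands for `a_v(m)`. -/
noncomputable def artin (a : HeightOneSpectrum (𝓞 K) → ℕ → ℂ) (s : ℂ) : ℂ :=
  ∏' v : HeightOneSpectrum (𝓞 K), Complex.exp (ell (a v) (xv v s))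

/-- The part `Nv ≤ Z` of the Euler product. -/
noncomputable def artinZ (Z : ℕ) (a : HeightOneSpectrum (𝓞 K) → ℕ → ℂ) (s : ℂ) : ℂ :=
  ∏ v ∈ SZ K Z, Complex.exp (ell (a v) (xv v s))

variable {a : HeightOneSpectrum (𝓞 K) → ℕ → ℂ} {B : ℝ}

theorem xv_le {σ : ℝ} (hσ : 1 ≤ σ) (v : HeightOneSpectrum (𝓞 K)) {s : ℂ} (hs : σ ≤ s.re) :
    1 * ‖xv v s‖ ≤ (nv v : ℝ) ^ (-σ) ∧ (nv v : ℝ) ^ (-σ) ≤ 1 / 2 := by
  have h2 : (2 : ℝ) ≤ nv v := by exact_mod_cast two_le_nv v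
  rw [one_mul, norm_xv]
  refine ⟨Real.rpow_le_rpow_of_exponent_le (one_le_nv v) (by linarith), ?_⟩
  calc (nv v : ℝ) ^ (-σ) ≤ (nv v : ℝ) ^ (-1 : ℝ) := Real.rpow_le_rpow_of_exponent_le (one_le_nv v) (by linarith)
    _ ≤ 2 ^ (-1 : ℝ) := Real.rpow_le_rpow_of_nonpos (by norm_num) h2 (by norm_num)
    _ = 1 / 2 := by rw [Real.rpow_neg_one]; norm_num

/-- the majorant of the Euler factors -/
noncomputable def ua (B σ : ℝ) (v : HeightOneSpectrum (𝓞 K)) : ℝ :=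
  (B * (1 - 1 / 2)⁻¹) * Real.exp (B * (1 - 1 / 2)⁻¹) * (nv v : ℝ) ^ (-σ)

theorem ua_summable (B : ℝ) {σ : ℝ} (hσ : 1 < σ) : Summable (ua B σ : HeightOneSpectrum (𝓞 K) → ℝ) :=
  (Pool.Agent.H921R2.TatePole.nm_summable (K := K) (x := σ) hσ).mul_left _

theorem art_sub (ha : ∀ v m, ‖a v m‖ ≤ B) {σ : ℝ} (hσ : 1 ≤ σ) (v : HeightOneSpectrum (𝓞 K)) {s : ℂ} (hs : σ ≤ s.re) :
    ‖Complex.exp (ell (a v) (xv v s)) - 1‖ ≤ ua B σ v := by
  obtain ⟨h1, h2⟩ := xv_le hσ v hs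
  exact exp_ell_sub ((norm_nonneg _).trans (ha v 0)) zero_le_one (fun m => by rw [one_pow, mul_one]; exact ha v m) h1 h2
    (by norm_num)

theorem art_hasProd (ha : ∀ v m, ‖a v m‖ ≤ B) {s : ℂ} (hs : 1 < s.re) :
    HasProd (fun v : HeightOneSpectrum (𝓞 K) => Complex.exp (ell (a v) (xv v s))) (artin a s) :=
  (mult_of (ua_summable B hs) (fun v => art_sub ha hs.le v le_rfl)).hasProd

theorem art_ne (ha : ∀ v m, ‖a v m‖ ≤ B) {s : ℂ} (hs : 1 < s.re) : artin a s ≠ 0 :=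
  tprod_ne (ua_summable B hs) (fun v => art_sub ha hs.le v le_rfl) fun v => Complex.exp_ne_zero _

theorem art_diff (ha : ∀ v m, ‖a v m‖ ≤ B) : DifferentiableOn ℂ (artin a) {s | 1 < s.re} := by
  intro s₀ hs₀
  have hs₀' : 1 < s₀.re := hs₀
  set σ : ℝ := (1 + s₀.re) / 2 with hσ
  have hσ1 : 1 < σ := by rw [hσ]; linarith
  have hσ2 : σ < s₀.re := by rw [hσ]; linarith
  have hopen : IsOpen {s : ℂ | σ < s.re} := isOpen_lt continuous_const Complex.continuous_re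
  have hT : TendstoUniformlyOn (fun (F : Finset (HeightOneSpectrum (𝓞 K))) s => ∏ v ∈ F, Complex.exp (ell (a v) (xv v s)))
      (artin a) atTop {s : ℂ | σ < s.re} := by
    rw [Metric.tendstoUniformlyOn_iff]
    intro ε hε
    obtain ⟨S, hS⟩ := tail_small (ua_summable (K := K) B hσ1) hε
    filter_upwards [Filter.eventually_ge_atTop S] with F hF s hs
    rw [dist_eq_norm]
    have hs' : σ < s.re := hs
    exact (tail_bound (ua_summable B hσ1) (fun v => art_sub ha hσ1.le v hs'.le) F).trans_lt (hS F hF)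
  have hd := hT.tendstoLocallyUniformlyOn.differentiableOn (Filter.Eventually.of_forall fun F s hs => by
    have hs' : σ < s.re := hs
    refine (DifferentiableAt.fun_finsetProd fun v _ => ?_).differentiableWithinAt
    obtain ⟨h1, h2⟩ := xv_le hσ1.le v hs'.le
    exact ((ell_diff ((norm_nonneg _).trans (ha v 0)) zero_le_one (fun m => by rw [one_pow, mul_one]; exact ha v m)
      ((h1.trans h2).trans_lt (by norm_num))).comp s (Run7.h876.MM.xv_diff v s)).cexp) hopen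
  exact ((hd s₀ hσ2).differentiableAt (hopen.mem_nhds hσ2)).differentiableWithinAt

theorem xv_two (v : HeightOneSpectrum (𝓞 K)) (s : ℂ) : xv v (2 * s - 1) = (((nv v : ℝ)) : ℂ) * xv v s ^ 2 := by
  have h : (nv v : ℂ) ≠ 0 := by exact_mod_cast (nv_pos v).ne'
  unfold xv
  rw [show -(2 * s - 1) = 1 + 2 * (-s) by ring, Complex.cpow_add _ _ h, Complex.cpow_one]
  congr 1
  rw [show (2 : ℂ) * (-s) = ((2 : ℕ) : ℂ) * (-s) by push_cast; rfl, Complex.cpow_nat_mul]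

end

section
variable {K : Type} [Field K] [NumberField K] {J : Type} [Fintype J] [DecidableEq J]
variable (𝓓 : TD K J) {b : HeightOneSpectrum (𝓞 K) → ℕ → ℂ} {β : ℝ}

/-- the first L-function -/
noncomputable def rb (𝓓 : TD K J) (b : HeightOneSpectrum (𝓞 K) → ℕ → ℂ) (v : HeightOneSpectrum (𝓞 K)) (m : ℕ) : ℂ :=
  (𝓓.r v m : ℂ) * b v m

theorem rb_le (hβ : ∀ v m, ‖b v m‖ ≤ β) (v : HeightOneSpectrum (𝓞 K)) (m : ℕ) : ‖rb 𝓓 b v m‖ ≤ 𝓓.R * β := by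
  have := rb_bound 𝓓 hβ v m
  rwa [one_pow, mul_one] at this

/-- the factor of the main term -/
theorem avg_exp_lf (v : HeightOneSpectrum (𝓞 K)) (s : ℂ) :
    avg Finset.univ (fun t => Complex.exp (lf 𝓓 b v s t)) =
      (Complex.exp (ell (rb 𝓓 b v) (xv v s)))⁻¹ * Complex.exp (ell (cc (b v)) (xv v (2 * s - 1))) * hv 𝓓 b v s := by
  have h1 : ∀ t, Complex.exp (lf 𝓓 b v s t) =
      (Complex.exp (ell (rb 𝓓 b v) (xv v s)))⁻¹ * Complex.exp (ell (cc (b v)) (xv v (2 * s - 1))) * Complex.exp (zz 𝓓 b v s t) := by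
    intro t
    rw [← Complex.exp_neg, ← Complex.exp_add, ← Complex.exp_add, xv_two]
    congr 1
    unfold zz lr lc
    have : rb 𝓓 b v = fun m => (𝓓.r v m : ℂ) * b v m := rfl
    rw [this]
    ring
  unfold hv avg
  rw [Finset.sum_congr rfl fun t _ => h1 t, ← Finset.mul_sum]
  ring

variable {ι : Type} [Fintype ι] [DecidableEq ι] (ω : Module.Basis ι ℤ (𝓞 K))

theorem tprod_mean (hβ : ∀ v m, ‖b v m‖ ≤ β) {s : ℂ} (hs : 1 < s.re) :
    ∏' v : HeightOneSpectrum (𝓞 K), avg Finset.univ (fun t => Complex.exp (lf 𝓓 b v s t)) =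
      (artin (rb 𝓓 b) s)⁻¹ * artin (fun v => cc (b v)) (2 * s - 1) * GG 𝓓 b s := by
  have hs2 : 1 < (2 * s - 1).re := by simp; linarith
  have h1 := (art_hasProd (rb_le 𝓓 hβ) hs).inv₀ (art_ne (rb_le 𝓓 hβ) hs)
  have h2 := art_hasProd (a := fun v => cc (b v)) (fun v m => cc_le (hβ v) m) hs2
  obtain ⟨u, hu, hub⟩ := exists_maj 𝓓 hβ (σ := s.re) (by linarith)
  have h3 := (mult_of hu (fun v => hub v s le_rfl)).hasProd
  have h4 := (h1.mul h2).mul h3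
  refine HasProd.tprod_eq (h4.congr_fun fun v => ?_)
  rw [avg_exp_lf]

/-- **The twisted moments in the region of convergence.** -/
theorem part1 (hβ : ∀ v m, ‖b v m‖ ≤ β) (hβ0 : 0 ≤ β) {G : Set (J → 𝓞 K)} {Cb : ℝ} (hG : Thin ω G Cb) {σ : ℝ} (hσ : 3 / 2 < σ)
    {ε : ℝ} (hε : 0 < ε) :
    ∃ M : ℕ, ∀ H : J → ℕ, (∀ j, M ≤ H j) → ∀ s : ℂ, σ ≤ s.re →
      ‖mean ω H G (fun t => ∏' v, Complex.exp (lf 𝓓 b v s (rd v t))) -
        (artin (rb 𝓓 b) s)⁻¹ * artin (fun v => cc (b v)) (2 * s - 1) * GG 𝓓 b s‖ ≤ ε := by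
  have hD := 𝓓.D_nonneg
  have hy := y0_lt (σ := σ) (by linarith)
  obtain ⟨u, hu⟩ : ∃ u : HeightOneSpectrum (𝓞 K) → ℝ, u = fun v => (𝓓.D * β * (1 - 2 ^ (1 / 2 - σ))⁻¹) *
    Real.exp (𝓓.D * β * (1 - 2 ^ (1 / 2 - σ))⁻¹) * (nv v : ℝ) ^ (1 / 2 - σ) := ⟨_, rfl⟩
  have hus : Summable u := by
    rw [hu]
    have := (Pool.Agent.H921R2.TatePole.nm_summable (K := K) (x := σ - 1 / 2) (by linarith)).mul_left
      ((𝓓.D * β * (1 - 2 ^ (1 / 2 - σ))⁻¹) * Real.exp (𝓓.D * β * (1 - 2 ^ (1 / 2 - σ))⁻¹))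
    refine this.congr fun v => ?_
    rw [Run7.h876.MM.nv_eq]
    congr 2
    ring
  have hb : ∀ (v : HeightOneSpectrum (𝓞 K)) (p : {s : ℂ // σ ≤ s.re}) (t : J → kv v),
      ‖Complex.exp (lf 𝓓 b v p.1 t) - 1‖ ≤ u v := by
    intro v p t
    obtain ⟨h1, h2, h3, h4⟩ := basic (σ := σ) (by linarith) v p.2
    have h2nv : (2 : ℝ) ≤ nv v := by exact_mod_cast two_le_nv v
    rw [hu]
    exact exp_ell_sub (by positivity) (Real.sqrt_nonneg _) (ab_bound 𝓓 hβ v t) h1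
      (Real.rpow_le_rpow_of_nonpos (by norm_num) h2nv (by linarith)) hy
  obtain ⟨M, hM⟩ := meanA (P := {s : ℂ // σ ≤ s.re}) ω hG u hus (fun v p t => Complex.exp (lf 𝓓 b v p.1 t)) hb hε
  refine ⟨M, fun H hH s hs => ?_⟩
  have h := hM H hH ⟨s, hs⟩
  simp only at h
  rw [tprod_mean 𝓓 hβ (by linarith)] at h
  exact h

/-- **The twisted moments of the partial Euler products.** -/
theorem part2 (hβ : ∀ v m, ‖b v m‖ ≤ β) (hβ0 : 0 ≤ β) {G : Set (J → 𝓞 K)} {Cb : ℝ} (hCb : 0 ≤ Cb) (hG : Thin ω G Cb) {σ : ℝ} (hσ : 5 / 6 < σ)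
    {θ : ℝ} (hθ : 0 < θ) {ε : ℝ} (hε : 0 < ε) :
    ∃ Z₀ : ℕ, ∀ Z : ℕ, Z₀ ≤ Z → ∀ H : J → ℕ, (∀ j, Real.exp ((Z : ℝ) ^ (1 + θ)) ≤ H j) → ∀ s : ℂ, σ ≤ s.re →
      ‖mean ω H G (fun t => ∏ v ∈ SZ K Z, Complex.exp (lf 𝓓 b v s (rd v t))) *
        (artinZ Z (rb 𝓓 b) s * (artinZ Z (fun v => cc (b v)) (2 * s - 1))⁻¹) - GG 𝓓 b s‖ ≤ ε := by
  obtain ⟨u, hu, hub⟩ := exists_maj 𝓓 hβ hσ
  obtain ⟨Z₀, hZ₀⟩ := meanB (P := {s : ℂ // σ ≤ s.re}) ω hCb hG u hu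
    (fun v p t => Complex.exp (zz 𝓓 b v p.1 t)) (D := Real.exp (EB 𝓓 β σ))
    (Real.one_le_exp (EB_nonneg 𝓓 hβ0 (by linarith))) (fun v p t => exp_zz_le 𝓓 hβ (by linarith) v p.2 t)
    (fun v p => hub v p.1 p.2) hθ hε
  refine ⟨Z₀, fun Z hZ H hH s hs => ?_⟩
  have h := hZ₀ Z hZ H hH ⟨s, hs⟩
  have e1 : (fun t : J → 𝓞 K => ∏ v ∈ SZ K Z, Complex.exp (zz 𝓓 b v s (rd v t))) =
      fun t => (∏ v ∈ SZ K Z, Complex.exp (lf 𝓓 b v s (rd v t))) *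
        (artinZ Z (rb 𝓓 b) s * (artinZ Z (fun v => cc (b v)) (2 * s - 1))⁻¹) := by
    funext t
    unfold artinZ
    rw [← Finset.prod_inv_distrib, ← Finset.prod_mul_distrib, ← Finset.prod_mul_distrib]
    refine Finset.prod_congr rfl fun v _ => ?_
    rw [← Complex.exp_neg, ← Complex.exp_add, ← Complex.exp_add, xv_two]
    congr 1
    unfold zz lr lc
    have : rb 𝓓 b v = fun m => (𝓓.r v m : ℂ) * b v m := rfl
    rw [this]
    ring
  simp only at h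
  rw [e1, Run7.h876.GN.mean_mul_const] at h
  exact h

end

end Run7.h61.TW
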