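import Pool.Agent.Run7.h61.TW.AppC

/-!
# Base change of L-series to a finite extension
-/

set_option autoImplicit false
set_option linter.unusedSectionVars false

namespace Run7.h61.TW

open NumberField IsDedekindDomain Finset Filter Topology Polynomial
open Run7.h876.MM (nv kv card_kv instFieldKv instFintypeKv instDecKv nv_pos xv SZ mem_SZ two_le_nv)
open Run7.h876.EN (affinePoints)
open Run7.h876.HY (GoodAt frobTrace factor)

theorem affinePoints_bc {k k' : Type} [Field k] [Field k'] [Algebra k k'] [Algebra.IsAlgebraic k k'] (q d : ℕ) (f : k[X])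
    (m : ℕ) : affinePoints (q ^ d) (f.map (algebraMap k k')) m = affinePoints q f (d * m) := by
  have h1 : IsAlgClosure k (AlgebraicClosure k') := ⟨inferInstance, Algebra.IsAlgebraic.trans k k' (AlgebraicClosure k')⟩
  let e : AlgebraicClosure k ≃ₐ[k] AlgebraicClosure k' := IsAlgClosure.equiv k (AlgebraicClosure k) (AlgebraicClosure k')
  unfold affinePoints
  symm
  refine Nat.card_congr (Equiv.subtypeEquiv (e.toEquiv.prodCongr e.toEquiv) fun P => ?_)
  have h2 : ∀ (x : AlgebraicClosure k) (n : ℕ), (e x) ^ n = e x ↔ x ^ n = x := by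
    intro x n
    rw [← map_pow]
    exact e.injective.eq_iff
  have h3 : aeval (e P.1) (f.map (algebraMap k k')) = e (aeval P.1 f) := by
    rw [aeval_map_algebraMap]
    exact aeval_algHom_apply e.toAlgHom P.1 f
  show P.1 ^ (q ^ (d * m)) = P.1 ∧ P.2 ^ (q ^ (d * m)) = P.2 ∧ P.2 ^ 2 = aeval P.1 f ↔
    (e P.1) ^ ((q ^ d) ^ m) = e P.1 ∧ (e P.2) ^ ((q ^ d) ^ m) = e P.2 ∧ (e P.2) ^ 2 = aeval (e P.1) (f.map (algebraMap k k'))
  rw [← pow_mul, h2, h2, h3, ← map_pow, e.injective.eq_iff]

section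
variable {K F : Type} [Field K] [NumberField K] [Field F] [NumberField F] [Algebra K F]

theorem alg_injKF : Function.Injective (algebraMap (𝓞 K) (𝓞 F)) := by
  intro a b h
  have h1 : algebraMap (𝓞 K) F a = algebraMap (𝓞 K) F b := by
    have := congrArg (algebraMap (𝓞 F) F) h
    rwa [← IsScalarTower.algebraMap_apply, ← IsScalarTower.algebraMap_apply] at this
  rw [IsScalarTower.algebraMap_apply (𝓞 K) K F, IsScalarTower.algebraMap_apply (𝓞 K) K F] at h1
  exact RingOfIntegers.coe_injective ((algebraMap K F).injective h1)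

variable (K) in
/-- The place of `K` under a place of `F`. -/
noncomputable def below (w : HeightOneSpectrum (𝓞 F)) : HeightOneSpectrum (𝓞 K) where
  asIdeal := w.asIdeal.comap (algebraMap (𝓞 K) (𝓞 F))
  isPrime := w.isPrime.comap _
  ne_bot := by
    intro h
    have h1 : w.asIdeal.under (𝓞 K) = ⊥ := h
    exact w.ne_bot (Ideal.eq_bot_of_comap_eq_bot h1)

theorem below_over (w : HeightOneSpectrum (𝓞 F)) : w.asIdeal.LiesOver (below K w).asIdeal := ⟨rfl⟩

variable (K) in
/-- The degree of the residue field of `w` over the residue field of the place of `K` under `w`. -/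
noncomputable def resDeg (w : HeightOneSpectrum (𝓞 F)) : ℕ := (below K w).asIdeal.inertiaDeg' w.asIdeal

theorem nv_bc (w : HeightOneSpectrum (𝓞 F)) : nv w = nv (below K w) ^ resDeg K w := by
  have := below_over (K := K) w
  exact Ideal.absNorm_eq_pow_inertiaDeg'_of_liesOver w.asIdeal (below K w).asIdeal (below K w).isPrime (below K w).ne_bot

theorem resDeg_pos (w : HeightOneSpectrum (𝓞 F)) : 0 < resDeg K w := by
  by_contra h
  have h0 : resDeg K w = 0 := by omega
  have h1 := nv_bc (K := K) w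
  rw [h0, pow_zero] at h1
  have := two_le_nv w
  omega

/-- the map of the residue fields -/
noncomputable def iw (w : HeightOneSpectrum (𝓞 F)) : kv (below K w) →+* kv w :=
  Ideal.quotientMap w.asIdeal (algebraMap (𝓞 K) (𝓞 F)) le_rfl

theorem map_bc (f : (𝓞 K)[X]) (w : HeightOneSpectrum (𝓞 F)) :
    (f.map (algebraMap (𝓞 K) (𝓞 F))).map (Ideal.Quotient.mk w.asIdeal) = (f.map (Ideal.Quotient.mk (below K w).asIdeal)).map (iw w) := by
  rw [Polynomial.map_map, Polynomial.map_map]
  congr 1

theorem goodAt_bc (f : (𝓞 K)[X]) (w : HeightOneSpectrum (𝓞 F)) :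
    GoodAt (f.map (algebraMap (𝓞 K) (𝓞 F))) w ↔ GoodAt f (below K w) := by
  unfold GoodAt
  rw [map_bc, Polynomial.separable_map]
  refine and_congr_left fun _ => not_congr ?_
  show (2 : 𝓞 F) ∈ w.asIdeal ↔ algebraMap (𝓞 K) (𝓞 F) 2 ∈ w.asIdeal
  rw [map_ofNat]

theorem frobTrace_bc (f : (𝓞 K)[X]) (w : HeightOneSpectrum (𝓞 F)) (m : ℕ) :
    frobTrace (f.map (algebraMap (𝓞 K) (𝓞 F))) w m = frobTrace f (below K w) (resDeg K w * m) := by
  let _ : Algebra (kv (below K w)) (kv w) := (iw w).toAlgebra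
  have h1 : Module.Finite (kv (below K w)) (kv w) := Module.Finite.of_finite
  have h2 : Algebra.IsAlgebraic (kv (below K w)) (kv w) := Algebra.IsAlgebraic.of_finite _ _
  unfold frobTrace
  have h3 : affinePoints (nv w) ((f.map (algebraMap (𝓞 K) (𝓞 F))).map (Ideal.Quotient.mk w.asIdeal)) m =
      affinePoints (nv (below K w)) (f.map (Ideal.Quotient.mk (below K w).asIdeal)) (resDeg K w * m) := by
    rw [map_bc, nv_bc (K := K) w]
    exact affinePoints_bc (nv (below K w)) (resDeg K w) (f.map (Ideal.Quotient.mk (below K w).asIdeal)) m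
  rw [h3, natDegree_map_eq_of_injective alg_injKF, nv_bc (K := K) w, pow_mul]
  push_cast
  rfl

theorem pow_cpow (n d : ℕ) (s : ℂ) : (((n ^ d : ℕ)) : ℂ) ^ s = ((n : ℂ) ^ s) ^ d := by
  induction d with
  | zero => simp
  | succ d ih =>
    rw [pow_succ, pow_succ, Nat.cast_mul, Complex.natCast_mul_natCast_cpow, ih]

/-- reindexing -/
theorem tsum_reindex (A : ℕ → ℂ) (x : ℂ) {d : ℕ} (hd : 0 < d) :
    ∑' m : ℕ, A (d * (m + 1)) * (x ^ d) ^ (m + 1) / ((m : ℂ) + 1) =
      ∑' n : ℕ, A (n + 1) * (if d ∣ n + 1 then (d : ℂ) else 0) * x ^ (n + 1) / ((n : ℂ) + 1) := by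
  have hinj : Function.Injective (fun m : ℕ => d * (m + 1) - 1) := by
    intro a b h
    simp only at h
    have h1 : 0 < d * (a + 1) := Nat.mul_pos hd (Nat.succ_pos _)
    have h2 : 0 < d * (b + 1) := Nat.mul_pos hd (Nat.succ_pos _)
    have h3 : d * (a + 1) = d * (b + 1) := by omega
    have := Nat.eq_of_mul_eq_mul_left hd h3
    omega
  rw [← hinj.tsum_eq (f := fun n : ℕ => A (n + 1) * (if d ∣ n + 1 then (d : ℂ) else 0) * x ^ (n + 1) / ((n : ℂ) + 1))]
  · refine tsum_congr fun m => ?_
    have h1 : 0 < d * (m + 1) := Nat.mul_pos hd (Nat.succ_pos _)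
    have h2 : d * (m + 1) - 1 + 1 = d * (m + 1) := by omega
    have h3 : (((d * (m + 1) - 1 : ℕ)) : ℂ) + 1 = (d : ℂ) * (m + 1) := by
      have : (((d * (m + 1) - 1 + 1 : ℕ)) : ℂ) = ((d * (m + 1) : ℕ) : ℂ) := by rw [h2]
      push_cast at this ⊢
      exact this
    have hd' : (d : ℂ) ≠ 0 := by exact_mod_cast hd.ne'
    have hm : (m : ℂ) + 1 ≠ 0 := by exact_mod_cast (by omega : m + 1 ≠ 0)
    simp only [h2, h3]
    rw [if_pos (Dvd.intro _ rfl), pow_mul]
    field_simp
  · intro n hn
    rw [Function.mem_support] at hn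
    have hdvd : d ∣ n + 1 := by
      by_contra hc
      apply hn
      rw [if_neg hc]
      ring
    obtain ⟨c, hc⟩ := hdvd
    have hc0 : 0 < c := by
      rcases Nat.eq_zero_or_pos c with h | h
      · rw [h, mul_zero] at hc; omega
      · exact h
    refine ⟨c - 1, ?_⟩
    simp only
    have : c - 1 + 1 = c := by omega
    rw [this, ← hc]
    omega

/-- The Euler factor over `F` in terms of the place of `K`. -/
theorem factor_bc (f : (𝓞 K)[X]) (w : HeightOneSpectrum (𝓞 F)) (s : ℂ) :
    factor (f.map (algebraMap (𝓞 K) (𝓞 F))) w s =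
      twFactor f (fun n => if resDeg K w ∣ n + 1 then (resDeg K w : ℂ) else 0) (below K w) s := by
  classical
  unfold Run7.h876.HY.factor twFactor
  by_cases h : GoodAt f (below K w)
  · rw [if_pos ((goodAt_bc f w).2 h), if_pos h]
    congr 1
    rw [← tsum_reindex (fun n => (frobTrace f (below K w) n : ℂ)) ((nv (below K w) : ℂ) ^ (-s)) (resDeg_pos w)]
    refine tsum_congr fun m => ?_
    rw [frobTrace_bc, nv_bc (K := K) w, pow_cpow]
  · rw [if_neg (fun h' => h ((goodAt_bc f w).1 h')), if_neg h]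

/-! ### the places over a place -/

theorem fib_finite (v : HeightOneSpectrum (𝓞 K)) : Finite {w : HeightOneSpectrum (𝓞 F) // below K w = v} := by
  classical
  have : v.asIdeal.IsMaximal := v.isMaximal
  refine Finite.of_injective (β := {P // P ∈ IsDedekindDomain.primesOverFinset v.asIdeal (𝓞 F)})
    (fun w => ⟨w.1.asIdeal, (IsDedekindDomain.mem_primesOverFinset_iff v.ne_bot _).2 ⟨w.1.isPrime, ⟨(congrArg HeightOneSpectrum.asIdeal w.2).symm⟩⟩⟩) ?_
  intro w w' h
  exact Subtype.ext (HeightOneSpectrum.ext (congrArg Subtype.val h))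

noncomputable instance fibFin (v : HeightOneSpectrum (𝓞 K)) : Fintype {w : HeightOneSpectrum (𝓞 F) // below K w = v} :=
  have := fib_finite (F := F) v
  Fintype.ofFinite _

variable (F) in
/-- `bF v (n - 1)`: the sum of the degrees `d` of the places of `F` over `v` with `d ∣ n`, the trace of `Frob_v^n` on the
module of the embeddings of `F` over `K` (on the inertia invariants). -/
noncomputable def bF (v : HeightOneSpectrum (𝓞 K)) (n : ℕ) : ℂ :=
  ∑ w : {w : HeightOneSpectrum (𝓞 F) // below K w = v}, if resDeg K w.1 ∣ n + 1 then (resDeg K w.1 : ℂ) else 0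

theorem bF_mem (v : HeightOneSpectrum (𝓞 K)) (w : {w : HeightOneSpectrum (𝓞 F) // below K w = v}) (f : (𝓞 K)[X]) (s : ℂ) :
    factor (f.map (algebraMap (𝓞 K) (𝓞 F))) w.1 s =
      twFactor f (fun n => if resDeg K w.1 ∣ n + 1 then (resDeg K w.1 : ℂ) else 0) v s := by
  rw [factor_bc (K := K), w.2]

end

end Run7.h61.TW
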