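import Pool.Agent.Run7.h61.TW.BC

/-!
# Base change of L-series to a finite extension, part two
-/

set_option autoImplicit false
set_option linter.unusedSectionVars false

namespace Run7.h61.TW

open NumberField IsDedekindDomain Finset Filter Topology Polynomial
open Pool.Agent.W401.Cheb (GK IsFrob IsInert)
open Run7.h876.MM (nv kv card_kv instFieldKv instFintypeKv instDecKv nv_pos xv SZ mem_SZ two_le_nv)
open Run7.h876.EN (affinePoints)
open Run7.h876.HY (GoodAt frobTrace factor LSeries)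

section
variable {K F : Type} [Field K] [NumberField K] [Field F] [NumberField F] [Algebra K F]

set_option linter.deprecated false in
theorem sum_resDeg_le (v : HeightOneSpectrum (𝓞 K)) :
    ∑ w : {w : HeightOneSpectrum (𝓞 F) // below K w = v}, resDeg K w.1 ≤ Module.finrank K F := by
  classical
  have hm : v.asIdeal.IsMaximal := v.isMaximal
  rw [← Ideal.sum_ramification_inertia (𝓞 F) K F v.ne_bot]
  have hinj : Function.Injective (fun w : {w : HeightOneSpectrum (𝓞 F) // below K w = v} => w.1.asIdeal) :=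
    fun w w' h => Subtype.ext (HeightOneSpectrum.ext h)
  have hdeg : ∀ w : {w : HeightOneSpectrum (𝓞 F) // below K w = v}, resDeg K w.1 = v.asIdeal.inertiaDeg' w.1.asIdeal := by
    rintro ⟨w, rfl⟩
    rfl
  calc ∑ w : {w : HeightOneSpectrum (𝓞 F) // below K w = v}, resDeg K w.1
      = ∑ P ∈ Finset.univ.image (fun w : {w : HeightOneSpectrum (𝓞 F) // below K w = v} => w.1.asIdeal), v.asIdeal.inertiaDeg' P := by
        rw [Finset.sum_image fun a _ b _ h => hinj h]
        exact Finset.sum_congr rfl fun w _ => hdeg w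
    _ ≤ ∑ P ∈ IsDedekindDomain.primesOverFinset v.asIdeal (𝓞 F), v.asIdeal.inertiaDeg' P := by
        refine Finset.sum_le_sum_of_subset fun P hP => ?_
        obtain ⟨w, _, rfl⟩ := Finset.mem_image.1 hP
        exact (IsDedekindDomain.mem_primesOverFinset_iff v.ne_bot _).2 ⟨w.1.isPrime, ⟨(congrArg HeightOneSpectrum.asIdeal w.2).symm⟩⟩
    _ ≤ _ := by
        refine Finset.sum_le_sum fun P hP => ?_
        obtain ⟨h1, h2⟩ := (IsDedekindDomain.mem_primesOverFinset_iff v.ne_bot _).1 hP
        exact Nat.le_mul_of_pos_left _ (Nat.pos_of_ne_zero (Ideal.IsDedekindDomain.ramificationIdx'_ne_zero_of_liesOver _ v.ne_bot))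

theorem bF_le (v : HeightOneSpectrum (𝓞 K)) (n : ℕ) : ‖bF F v n‖ ≤ Module.finrank K F := by
  unfold bF
  refine (norm_sum_le _ _).trans ?_
  have h := sum_resDeg_le (F := F) v
  refine le_trans (Finset.sum_le_sum (g := fun w : {w : HeightOneSpectrum (𝓞 F) // below K w = v} => ((resDeg K w.1 : ℕ) : ℝ)) fun w _ => ?_)
    (by exact_mod_cast h)
  split_ifs
  · rw [Complex.norm_natCast]
  · simp

theorem bF_re (v : HeightOneSpectrum (𝓞 K)) (n : ℕ) : bF F v n = (((bF F v n).re : ℝ) : ℂ) := by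
  have h : bF F v n = (((∑ w : {w : HeightOneSpectrum (𝓞 F) // below K w = v},
      if resDeg K w.1 ∣ n + 1 then resDeg K w.1 else 0 : ℕ)) : ℂ) := by
    unfold bF
    push_cast
    rfl
  rw [h, Complex.natCast_re, Complex.ofReal_natCast]

variable {J : Type} [Fintype J] [DecidableEq J] (𝓕 : TFam K J)

theorem fib_prod (t : Fin 2 ⊕ J → 𝓞 K) (v : HeightOneSpectrum (𝓞 K)) {s : ℂ} (hs : 1 / 2 < s.re) :
    ∏ w : {w : HeightOneSpectrum (𝓞 F) // below K w = v}, factor ((𝓕.member t).map (algebraMap (𝓞 K) (𝓞 F))) w.1 s =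
      twFactor (𝓕.member t) (bF F v) v s := by
  have h := twFactor_prod 𝓕 (I := {w : HeightOneSpectrum (𝓞 F) // below K w = v})
    (b := fun w _ n => if resDeg K w.1 ∣ n + 1 then (resDeg K w.1 : ℂ) else 0) (β := Module.finrank K F) (fun w v' n => by
      have h1 := sum_resDeg_le (F := F) v
      have h2 : resDeg K w.1 ≤ Module.finrank K F :=
        (Finset.single_le_sum (f := fun w : {w : HeightOneSpectrum (𝓞 F) // below K w = v} => resDeg K w.1)
          (fun _ _ => Nat.zero_le _) (Finset.mem_univ w)).trans h1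
      have h3 : ((resDeg K w.1 : ℕ) : ℝ) ≤ Module.finrank K F := by exact_mod_cast h2
      split_ifs
      · rw [Complex.norm_natCast]; exact h3
      · rw [norm_zero]; positivity) (fun _ => 1) hs t v
  simp only [Nat.cast_one, one_mul, pow_one] at h
  rw [Finset.prod_congr rfl fun w _ => bF_mem v w (𝓕.member t) s, ← h]
  rfl

/-- The part of the Euler product over `F` at the places over the places of `K` of norm at most `Z`. -/
noncomputable def fPartial (F : Type) [Field F] [NumberField F] [Algebra K F] (Z : ℕ) (f : (𝓞 K)[X]) (s : ℂ) : ℂ :=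
  ∏' v : HeightOneSpectrum (𝓞 K), if nv v ≤ Z then
    ∏ w : {w : HeightOneSpectrum (𝓞 F) // below K w = v}, factor (f.map (algebraMap (𝓞 K) (𝓞 F))) w.1 s else 1

theorem fPartial_eq (Z : ℕ) (t : Fin 2 ⊕ J → 𝓞 K) {s : ℂ} (hs : 1 / 2 < s.re) :
    fPartial F Z (𝓕.member t) s = twPartial Z (𝓕.member t) (bF F) s := by
  unfold fPartial twPartial
  congr 1
  funext v
  split_ifs
  · exact fib_prod 𝓕 t v hs
  · rfl

/-- The L-series over `F`. -/
theorem LSeries_bc (t : Fin 2 ⊕ Empty → 𝓞 K) {s : ℂ} (hs : 3 / 2 < s.re) :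
    Run7.h876.HY.LSeries (((ellFam K).member t).map (algebraMap (𝓞 K) (𝓞 F))) s = twLSeries ((ellFam K).member t) (bF F) s := by
  have e1 : ((ellFam K).member t).map (algebraMap (𝓞 K) (𝓞 F)) =
      (ellFam F).member (fun j => algebraMap (𝓞 K) (𝓞 F) (t j)) := by
    rw [ellFam_member, ellFam_member]
    simp
  have hr0 : ∀ (v : HeightOneSpectrum (𝓞 F)) (m : ℕ), |(fun _ _ => (0 : ℝ) : HeightOneSpectrum (𝓞 F) → ℕ → ℝ) v m| ≤ 0 := by
    intro v m
    simp
  have hfin : {v | ¬ ∀ σ, IsFrob v σ → (fun _ _ => (0 : ℝ) : HeightOneSpectrum (𝓞 F) → ℕ → ℝ) v 0 = (ellFam F).trV σ}.Finite := ellFam_fin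
  have hm := mult_factor (ellFam F) (b := fun _ _ => (1 : ℂ)) (β := 1) (fun _ _ => by simp) zero_le_one le_rfl hr0 hfin hs
    (fun j => algebraMap (𝓞 K) (𝓞 F) (t j))
  have e2 : (fun w : HeightOneSpectrum (𝓞 F) => twFactor ((ellFam F).member (fun j => algebraMap (𝓞 K) (𝓞 F) (t j))) ((fun _ _ => (1 : ℂ) : HeightOneSpectrum (𝓞 F) → ℕ → ℂ) w) w s) =
      fun w => factor (((ellFam K).member t).map (algebraMap (𝓞 K) (𝓞 F))) w s := by
    funext w
    rw [e1]
    unfold twFactor Run7.h876.HY.factor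
    simp only [mul_one]
  rw [e2] at hm
  have hp := hm.hasProd
  have hp2 := (Equiv.sigmaFiberEquiv (below K : HeightOneSpectrum (𝓞 F) → HeightOneSpectrum (𝓞 K))).hasProd_iff.2 hp
  have hp3 := hp2.sigma (g := fun v => ∏ w : {w : HeightOneSpectrum (𝓞 F) // below K w = v},
    factor (((ellFam K).member t).map (algebraMap (𝓞 K) (𝓞 F))) w.1 s) fun v => hasProd_fintype _
  have hp4 := hp3.tprod_eq
  unfold Run7.h876.HY.LSeries
  rw [← hp4]
  unfold twLSeries
  congr 1
  funext v
  exact fib_prod (ellFam K) t v (by linarith)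

end

end Run7.h61.TW
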