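import Pool.Agent.Run7.h61.TW.BC2
import Pool.Agent.W353.NF.Act

/-!
# The degrees of the places over a place and the fixed embeddings
-/

set_option autoImplicit false
set_option linter.unusedSectionVars false

namespace Run7.h61.TW

open NumberField IsDedekindDomain Finset Filter Topology Polynomial
open Pool.Agent.W401.Cheb (GK IsFrob IsInert)
open Pool.Agent.W353.NF (act act_apply fixn)
open Run7.h876.MM (nv kv card_kv instFieldKv instFintypeKv instDecKv nv_pos xv SZ mem_SZ two_le_nv)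

theorem ker_inj {A B C : Type} [CommRing A] [CommRing B] [CommRing C] [IsDomain C] [Algebra A B] [Algebra A C]
    (p : Ideal A) (P : Ideal B) [P.LiesOver p] [Algebra (A ⧸ p) C] [IsScalarTower A (A ⧸ p) C] :
    ∃ g : {ψ : B →ₐ[A] C // RingHom.ker (ψ : B →+* C) = P} → ((B ⧸ P) →ₐ[A ⧸ p] C), Function.Injective g := by
  let g : {ψ : B →ₐ[A] C // RingHom.ker (ψ : B →+* C) = P} → ((B ⧸ P) →ₐ[A ⧸ p] C) := fun ψ =>
    { Ideal.Quotient.lift P (ψ.1 : B →+* C) (fun a ha => RingHom.mem_ker.1 (by rw [ψ.2]; exact ha)) with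
      commutes' := fun r => by
        obtain ⟨a, rfl⟩ := Ideal.Quotient.mk_surjective r
        rw [Ideal.Quotient.algebraMap_mk_of_liesOver]
        show Ideal.Quotient.lift P (ψ.1 : B →+* C) _ (Ideal.Quotient.mk P (algebraMap A B a)) = _
        rw [Ideal.Quotient.lift_mk]
        show ψ.1 (algebraMap A B a) = _
        rw [ψ.1.commutes, IsScalarTower.algebraMap_apply A (A ⧸ p) C]
        rfl }
  refine ⟨g, fun ψ ψ' h => Subtype.ext (AlgHom.ext fun b => ?_)⟩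
  have h1 := congrArg (fun f : (B ⧸ P) →ₐ[A ⧸ p] C => f (Ideal.Quotient.mk P b)) h
  exact h1

theorem card_ker_le {A B C : Type} [CommRing A] [CommRing B] [CommRing C] [IsDomain C] [Algebra A B] [Algebra A C]
    (p : Ideal A) (P : Ideal B) [hp : p.IsMaximal] [P.LiesOver p] [Algebra (A ⧸ p) C] [IsScalarTower A (A ⧸ p) C]
    [Module.Finite (A ⧸ p) (B ⧸ P)] :
    Finite {ψ : B →ₐ[A] C // RingHom.ker (ψ : B →+* C) = P} ∧
    Nat.card {ψ : B →ₐ[A] C // RingHom.ker (ψ : B →+* C) = P} ≤ Module.finrank (A ⧸ p) (B ⧸ P) := by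
  let _ : Field (A ⧸ p) := Ideal.Quotient.field p
  obtain ⟨g, hg⟩ := ker_inj (C := C) p P
  have hfin : Finite ((B ⧸ P) →ₐ[A ⧸ p] C) := inferInstance
  exact ⟨Finite.of_injective g hg, (Nat.card_le_card_of_injective g hg).trans (card_algHom_le_finrank (A ⧸ p) (B ⧸ P) C)⟩

section
variable {K F : Type} [Field K] [NumberField K] [Field F] [NumberField F] [Algebra K F]

/-- the reduction of an embedding -/
noncomputable def redE (Q : Ideal (OB K)) (τ : F →ₐ[K] AlgebraicClosure K) : 𝓞 F →ₐ[𝓞 K] (OB K ⧸ Q) :=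
  (Ideal.Quotient.mkₐ (𝓞 K) Q).comp (RingOfIntegers.mapAlgHom τ)

theorem redE_apply (Q : Ideal (OB K)) (τ : F →ₐ[K] AlgebraicClosure K) (x : 𝓞 F) :
    redE Q τ x = Ideal.Quotient.mk Q (RingOfIntegers.mapAlgHom τ x) := rfl

theorem map_act (σ : GK K) (τ : F →ₐ[K] AlgebraicClosure K) (x : 𝓞 F) :
    (RingOfIntegers.mapAlgHom (act K F σ τ) x : OB K) = σ • (RingOfIntegers.mapAlgHom τ x : OB K) := by
  apply RingOfIntegers.ext
  rfl

variable (K F) in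
/-- the differences of the embeddings at integers -/
theorem exists_diff : ∃ c : 𝓞 K, c ≠ 0 ∧ ∀ v : HeightOneSpectrum (𝓞 K), c ∉ v.asIdeal → ∀ Q : Ideal (OB K), Q.IsPrime →
    Q.comap (algebraMap (𝓞 K) (OB K)) = v.asIdeal → Function.Injective (redE (K := K) (F := F) Q) := by
  classical
  have h1 : ∀ p : (F →ₐ[K] AlgebraicClosure K) × (F →ₐ[K] AlgebraicClosure K), p.1 ≠ p.2 → ∃ x : 𝓞 F,
      (RingOfIntegers.mapAlgHom p.1 x : OB K) ≠ RingOfIntegers.mapAlgHom p.2 x := by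
    intro p hp
    by_contra hc
    push Not at hc
    apply hp
    refine AlgHom.ext fun z => ?_
    obtain ⟨x, y, _, rfl⟩ := IsFractionRing.div_surjective (𝓞 F) z
    have h2 : ∀ x : 𝓞 F, p.1 (algebraMap (𝓞 F) F x) = p.2 (algebraMap (𝓞 F) F x) := fun x =>
      congrArg (fun a : OB K => (a : AlgebraicClosure K)) (hc x)
    rw [map_div₀, map_div₀, h2, h2]
  choose! x hx using h1
  obtain ⟨c, hc0, hc⟩ := TFam.exists_cst (K := K) (∏ p ∈ (Finset.univ : Finset ((F →ₐ[K] AlgebraicClosure K) × (F →ₐ[K] AlgebraicClosure K))).filter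
      (fun p => p.1 ≠ p.2), ((RingOfIntegers.mapAlgHom p.1 (x p) : OB K) - RingOfIntegers.mapAlgHom p.2 (x p)))
    (Finset.prod_ne_zero_iff.2 fun p hp => sub_ne_zero.2 (hx p (Finset.mem_filter.1 hp).2))
  refine ⟨c, hc0, fun v hv Q hQ hQv τ τ' h => ?_⟩
  by_contra hne
  apply hv
  rw [← hQv]
  refine hc Q (Ideal.mem_of_dvd _ (Finset.dvd_prod_of_mem _ (Finset.mem_filter.2 ⟨Finset.mem_univ (τ, τ'), hne⟩)) ?_)
  rw [← Ideal.Quotient.eq_zero_iff_mem, map_sub, sub_eq_zero]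
  exact DFunLike.congr_fun h (x (τ, τ'))

/-- the place of a homomorphism -/
noncomputable def plc {v : HeightOneSpectrum (𝓞 K)} {Q : Ideal (OB K)} (hQ : Q.IsPrime)
    (hQv : Q.comap (algebraMap (𝓞 K) (OB K)) = v.asIdeal) (ψ : 𝓞 F →ₐ[𝓞 K] (OB K ⧸ Q)) :
    {w : HeightOneSpectrum (𝓞 F) // below K w = v} :=
  have hdom : IsDomain (OB K ⧸ Q) := Ideal.Quotient.isDomain Q
  have hcomap : (RingHom.ker (ψ : 𝓞 F →+* OB K ⧸ Q)).comap (algebraMap (𝓞 K) (𝓞 F)) = v.asIdeal := by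
    ext a
    rw [Ideal.mem_comap, RingHom.mem_ker, ← hQv, Ideal.mem_comap, ← Ideal.Quotient.eq_zero_iff_mem]
    have : (ψ : 𝓞 F →+* OB K ⧸ Q) (algebraMap (𝓞 K) (𝓞 F) a) = Ideal.Quotient.mk Q (algebraMap (𝓞 K) (OB K) a) := ψ.commutes a
    rw [this]
  ⟨⟨RingHom.ker (ψ : 𝓞 F →+* OB K ⧸ Q), RingHom.ker_isPrime _, by
    intro h
    rw [h] at hcomap
    apply v.ne_bot
    rw [← hcomap]
    exact Ideal.comap_bot_of_injective _ alg_injKF⟩, HeightOneSpectrum.ext hcomap⟩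

theorem plc_ker {v : HeightOneSpectrum (𝓞 K)} {Q : Ideal (OB K)} (hQ : Q.IsPrime)
    (hQv : Q.comap (algebraMap (𝓞 K) (OB K)) = v.asIdeal) (ψ : 𝓞 F →ₐ[𝓞 K] (OB K ⧸ Q)) :
    (plc hQ hQv ψ).1.asIdeal = RingHom.ker (ψ : 𝓞 F →+* OB K ⧸ Q) := rfl

theorem card_plc_le {v : HeightOneSpectrum (𝓞 K)} {Q : Ideal (OB K)} (hQ : Q.IsPrime)
    (hQv : Q.comap (algebraMap (𝓞 K) (OB K)) = v.asIdeal) (w : {w : HeightOneSpectrum (𝓞 F) // below K w = v}) :
    Finite {ψ : 𝓞 F →ₐ[𝓞 K] (OB K ⧸ Q) // plc hQ hQv ψ = w} ∧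
    Nat.card {ψ : 𝓞 F →ₐ[𝓞 K] (OB K ⧸ Q) // plc hQ hQv ψ = w} ≤ resDeg K w.1 := by
  obtain ⟨w, rfl⟩ := w
  have hdom : IsDomain (OB K ⧸ Q) := Ideal.Quotient.isDomain Q
  have i1 : Q.LiesOver (below K w).asIdeal := ⟨hQv.symm⟩
  have i2 : w.asIdeal.LiesOver (below K w).asIdeal := below_over w
  have i3 : (below K w).asIdeal.IsMaximal := (below K w).isMaximal
  have i4 : Finite (𝓞 F ⧸ w.asIdeal) := Ideal.finiteQuotientOfFreeOfNeBot w.asIdeal w.ne_bot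
  have i5 : Module.Finite (𝓞 K ⧸ (below K w).asIdeal) (𝓞 F ⧸ w.asIdeal) := Module.Finite.of_finite
  obtain ⟨h0, h⟩ := card_ker_le (A := 𝓞 K) (B := 𝓞 F) (C := OB K ⧸ Q) (below K w).asIdeal w.asIdeal
  have h2 : resDeg K w = Module.finrank (𝓞 K ⧸ (below K w).asIdeal) (𝓞 F ⧸ w.asIdeal) := by
    unfold resDeg
    exact Ideal.inertiaDeg'_algebraMap _ _
  let e : {ψ : 𝓞 F →ₐ[𝓞 K] (OB K ⧸ Q) // plc hQ hQv ψ = ⟨w, rfl⟩} ≃ {ψ : 𝓞 F →ₐ[𝓞 K] (OB K ⧸ Q) // RingHom.ker (ψ : 𝓞 F →+* OB K ⧸ Q) = w.asIdeal} :=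
    Equiv.subtypeEquivRight fun ψ => ⟨fun h3 => by rw [← plc_ker hQ hQv ψ, h3], fun h3 => Subtype.ext (HeightOneSpectrum.ext h3)⟩
  refine ⟨Finite.of_equiv _ e.symm, ?_⟩
  rw [h2, Nat.card_congr e]
  exact h

theorem fin_hom {v : HeightOneSpectrum (𝓞 K)} {Q : Ideal (OB K)} (hQ : Q.IsPrime)
    (hQv : Q.comap (algebraMap (𝓞 K) (OB K)) = v.asIdeal) : Finite (𝓞 F →ₐ[𝓞 K] (OB K ⧸ Q)) := by
  have h := fun w => (card_plc_le (F := F) hQ hQv w).1
  exact Finite.of_equiv _ (Equiv.sigmaFiberEquiv (plc (F := F) hQ hQv))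

/-- the powers of the Frobenius element -/
theorem frob_pow {v : HeightOneSpectrum (𝓞 K)} {Q : Ideal (OB K)} {σ : GK K}
    (hσ : ∀ x : OB K, σ • x - x ^ Ideal.absNorm v.asIdeal ∈ Q) (m : ℕ) (x : OB K) :
    Ideal.Quotient.mk Q ((σ ^ m) • x) = Ideal.Quotient.mk Q x ^ (nv v ^ m) := by
  induction m with
  | zero => simp
  | succ m ih =>
    have h1 := hσ ((σ ^ m) • x)
    rw [← Ideal.Quotient.mk_eq_mk_iff_sub_mem, map_pow, ih, ← pow_mul, smul_smul, ← pow_succ'] at h1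
    rw [h1, pow_succ]
    rfl

/-- the degree of a finite field divides -/
theorem deg_dvd {k k' : Type} [Field k] [Field k'] [Fintype k] [Finite k'] [Algebra k k'] (m : ℕ) :
    (∀ x : k', x ^ (Fintype.card k ^ m) = x) ↔ Module.finrank k k' ∣ m := by
  rw [← FiniteField.orderOf_frobeniusAlgHom k k', orderOf_dvd_iff_pow_eq_one]
  have h : ∀ x : k', (FiniteField.frobeniusAlgHom k k' ^ m) x = x ^ (Fintype.card k ^ m) := by
    intro x
    rw [AlgHom.coe_pow, FiniteField.coe_frobeniusAlgHom, pow_iterate]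
  constructor
  · intro h1
    refine AlgHom.ext fun x => ?_
    rw [h, h1]
    rfl
  · intro h1 x
    rw [← h, h1]
    rfl

theorem fix_iff {v : HeightOneSpectrum (𝓞 K)} {Q : Ideal (OB K)} (hQ : Q.IsPrime)
    (hQv : Q.comap (algebraMap (𝓞 K) (OB K)) = v.asIdeal) (ψ : 𝓞 F →ₐ[𝓞 K] (OB K ⧸ Q)) (m : ℕ) :
    (∀ x, ψ x ^ (nv v ^ m) = ψ x) ↔ resDeg K (plc hQ hQv ψ).1 ∣ m := by
  classical
  obtain ⟨w, hw⟩ : ∃ w, w = plc hQ hQv ψ := ⟨_, rfl⟩
  rw [← hw]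
  have hker : RingHom.ker (ψ : 𝓞 F →+* OB K ⧸ Q) = w.1.asIdeal := by rw [hw]; rfl
  obtain ⟨w, rfl⟩ := w
  have i2 : w.asIdeal.LiesOver (below K w).asIdeal := below_over w
  have i3 : (below K w).asIdeal.IsMaximal := (below K w).isMaximal
  have i3' : w.asIdeal.IsMaximal := w.isMaximal
  have i4 : Finite (𝓞 F ⧸ w.asIdeal) := Ideal.finiteQuotientOfFreeOfNeBot w.asIdeal w.ne_bot
  have i6 : Finite (𝓞 K ⧸ (below K w).asIdeal) := Ideal.finiteQuotientOfFreeOfNeBot _ (below K w).ne_bot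
  let _ : Field (𝓞 K ⧸ (below K w).asIdeal) := Ideal.Quotient.field _
  let _ : Field (𝓞 F ⧸ w.asIdeal) := Ideal.Quotient.field _
  let _ : Fintype (𝓞 K ⧸ (below K w).asIdeal) := Fintype.ofFinite _
  have hc : Fintype.card (𝓞 K ⧸ (below K w).asIdeal) = nv (below K w) := by
    have : nv (below K w) = Ideal.absNorm (below K w).asIdeal := rfl
    rw [this, Ideal.absNorm_apply, Submodule.cardQuot_apply, Nat.card_eq_fintype_card]
  have h2 : resDeg K w = Module.finrank (𝓞 K ⧸ (below K w).asIdeal) (𝓞 F ⧸ w.asIdeal) := by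
    unfold resDeg
    exact Ideal.inertiaDeg'_algebraMap _ _
  show (∀ x, ψ x ^ (nv (below K w) ^ m) = ψ x) ↔ resDeg K w ∣ m
  rw [h2, ← deg_dvd (k := 𝓞 K ⧸ (below K w).asIdeal) (k' := 𝓞 F ⧸ w.asIdeal) m, hc]
  have hiff : ∀ x : 𝓞 F, ψ x ^ (nv (below K w) ^ m) = ψ x ↔
      (Ideal.Quotient.mk w.asIdeal x) ^ (nv (below K w) ^ m) = Ideal.Quotient.mk w.asIdeal x := by
    intro x
    have hk : ∀ y, ψ y = 0 ↔ y ∈ w.asIdeal := by
      intro y
      rw [show w.asIdeal = RingHom.ker (ψ : 𝓞 F →+* OB K ⧸ Q) from hker.symm, RingHom.mem_ker]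
      rfl
    rw [← map_pow, ← map_pow, ← sub_eq_zero, ← map_sub, hk, Ideal.Quotient.mk_eq_mk_iff_sub_mem]
  constructor
  · intro h x
    obtain ⟨y, rfl⟩ := Ideal.Quotient.mk_surjective x
    exact (hiff y).1 (h y)
  · intro h x
    exact (hiff x).2 (h _)

/-- **The degrees of the places over `v` and the fixed embeddings.** -/
theorem bF_eq {v : HeightOneSpectrum (𝓞 K)} {Q : Ideal (OB K)} (hQ : Q.IsPrime)
    (hQv : Q.comap (algebraMap (𝓞 K) (OB K)) = v.asIdeal) (hinj : Function.Injective (redE (K := K) (F := F) Q)) {σ : GK K}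
    (hσ : ∀ x : OB K, σ • x - x ^ Ideal.absNorm v.asIdeal ∈ Q) (n : ℕ) : bF F v n = fixn K F (σ ^ (n + 1)) := by
  classical
  have hfin := fin_hom (F := F) hQ hQv
  have hfin2 := fun w => (card_plc_le (F := F) hQ hQv w).1
  -- the total number
  have h1 : Module.finrank K F ≤ Nat.card (𝓞 F →ₐ[𝓞 K] (OB K ⧸ Q)) := by
    rw [← AlgHom.card K F (AlgebraicClosure K), ← Nat.card_eq_fintype_card]
    exact Nat.card_le_card_of_injective _ hinj
  have h2 : Nat.card (𝓞 F →ₐ[𝓞 K] (OB K ⧸ Q)) = ∑ w : {w : HeightOneSpectrum (𝓞 F) // below K w = v},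
      Nat.card {ψ : 𝓞 F →ₐ[𝓞 K] (OB K ⧸ Q) // plc hQ hQv ψ = w} := by
    rw [← Nat.card_congr (Equiv.sigmaFiberEquiv (plc (F := F) hQ hQv)), Nat.card_sigma]
  have h3 := sum_resDeg_le (F := F) v
  have h4 : ∀ w : {w : HeightOneSpectrum (𝓞 F) // below K w = v},
      Nat.card {ψ : 𝓞 F →ₐ[𝓞 K] (OB K ⧸ Q) // plc hQ hQv ψ = w} = resDeg K w.1 := by
    intro w
    refine le_antisymm (card_plc_le hQ hQv w).2 ?_
    by_contra hc
    push Not at hc
    have h5 : ∑ w : {w : HeightOneSpectrum (𝓞 F) // below K w = v},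
        Nat.card {ψ : 𝓞 F →ₐ[𝓞 K] (OB K ⧸ Q) // plc hQ hQv ψ = w} <
        ∑ w : {w : HeightOneSpectrum (𝓞 F) // below K w = v}, resDeg K w.1 :=
      Finset.sum_lt_sum (fun w _ => (card_plc_le hQ hQv w).2) ⟨w, Finset.mem_univ w, hc⟩
    omega
  have h6 : Nat.card (𝓞 F →ₐ[𝓞 K] (OB K ⧸ Q)) = Module.finrank K F := by
    have : ∑ w : {w : HeightOneSpectrum (𝓞 F) // below K w = v},
        Nat.card {ψ : 𝓞 F →ₐ[𝓞 K] (OB K ⧸ Q) // plc hQ hQv ψ = w} ≤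
        ∑ w : {w : HeightOneSpectrum (𝓞 F) // below K w = v}, resDeg K w.1 :=
      Finset.sum_le_sum fun w _ => (card_plc_le hQ hQv w).2
    omega
  have hbij : Function.Bijective (redE (K := K) (F := F) Q) := by
    have hf : Fintype (𝓞 F →ₐ[𝓞 K] (OB K ⧸ Q)) := Fintype.ofFinite _
    rw [Fintype.bijective_iff_injective_and_card]
    refine ⟨hinj, ?_⟩
    rw [AlgHom.card K F (AlgebraicClosure K), ← h6, Nat.card_eq_fintype_card]
  -- the fixed embeddings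
  have h7 : fixn K F (σ ^ (n + 1)) = Nat.card {ψ : 𝓞 F →ₐ[𝓞 K] (OB K ⧸ Q) // ∀ x, ψ x ^ (nv v ^ (n + 1)) = ψ x} := by
    unfold fixn
    refine Nat.card_congr (Equiv.subtypeEquiv (Equiv.ofBijective _ hbij) fun τ => ?_)
    have h8 : ∀ x, redE Q (act K F (σ ^ (n + 1)) τ) x = redE Q τ x ^ (nv v ^ (n + 1)) := by
      intro x
      rw [redE_apply, redE_apply, map_act, frob_pow hσ]
    constructor
    · intro h9 x
      show redE Q τ x ^ (nv v ^ (n + 1)) = redE Q τ x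
      rw [← h8, h9]
    · intro h9
      refine hinj (AlgHom.ext fun x => ?_)
      rw [h8]
      exact h9 x
  have h8 : Nat.card {ψ : 𝓞 F →ₐ[𝓞 K] (OB K ⧸ Q) // ∀ x, ψ x ^ (nv v ^ (n + 1)) = ψ x} =
      ∑ w : {w : HeightOneSpectrum (𝓞 F) // below K w = v}, if resDeg K w.1 ∣ n + 1 then resDeg K w.1 else 0 := by
    have e1 : Nat.card {ψ : 𝓞 F →ₐ[𝓞 K] (OB K ⧸ Q) // ∀ x, ψ x ^ (nv v ^ (n + 1)) = ψ x} =
        ∑ w : {w : HeightOneSpectrum (𝓞 F) // below K w = v},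
          Nat.card {ψ : {ψ : 𝓞 F →ₐ[𝓞 K] (OB K ⧸ Q) // ∀ x, ψ x ^ (nv v ^ (n + 1)) = ψ x} // plc hQ hQv ψ.1 = w} := by
      rw [← Nat.card_congr (Equiv.sigmaFiberEquiv (fun ψ : {ψ : 𝓞 F →ₐ[𝓞 K] (OB K ⧸ Q) // ∀ x, ψ x ^ (nv v ^ (n + 1)) = ψ x} =>
        plc hQ hQv ψ.1)), Nat.card_sigma]
    rw [e1]
    refine Finset.sum_congr rfl fun w _ => ?_
    split_ifs with hd
    · rw [← h4 w]
      refine Nat.card_congr
        { toFun := fun ψ => ⟨ψ.1.1, ψ.2⟩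
          invFun := fun ψ => ⟨⟨ψ.1, (fix_iff hQ hQv ψ.1 (n + 1)).2 (by rw [ψ.2]; exact hd)⟩, ψ.2⟩
          left_inv := fun ψ => rfl
          right_inv := fun ψ => rfl }
    · rw [Nat.card_eq_zero]
      left
      refine ⟨fun ψ => hd ?_⟩
      have := (fix_iff hQ hQv ψ.1.1 (n + 1)).1 ψ.1.2
      rwa [ψ.2] at this
  unfold bF
  rw [h7, h8]
  push_cast
  rfl

variable (K F) in
theorem bF_ae : {v : HeightOneSpectrum (𝓞 K) | ¬ ∀ σ, IsFrob v σ → ∀ n, bF F v n = fixn K F (σ ^ (n + 1))}.Finite := by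
  obtain ⟨c, hc0, hc⟩ := exists_diff K F
  have h1 := Ideal.finite_factors (R := 𝓞 K) (I := Ideal.span {c}) (by
    rw [Ne, Ideal.zero_eq_bot, Ideal.span_singleton_eq_bot]
    exact hc0)
  refine h1.subset fun v hv => ?_
  show v.asIdeal ∣ Ideal.span {c}
  rw [Ideal.dvd_span_singleton]
  by_contra hcv
  apply hv
  rintro σ ⟨Q, hQm, hQv, hσ⟩ n
  exact bF_eq hQm.isPrime hQv (hc v hcv Q hQm.isPrime hQv) hσ n

end

end Run7.h61.TW
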