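import Pool.Agent.Run7.h61.TW.Ord
import Pool.Agent.W352.ChAbs.Main
import Pool.Agent.W401.Cheb.Main
import Pool.Agent.W401.Cheb.Frob
import Pool.Agent.K4H40.ST.Count

/-!
# The mean values of class functions of Frobenius elements
-/

set_option autoImplicit false
set_option linter.unusedSectionVars false

namespace Run7.h61.TW

open NumberField IsDedekindDomain Finset Filter Topology
open Pool.Agent.W401.Cheb (GK IsFrob IsInert ChebK chebotarev torsor)
open Run7.h876.MM (nv SZ mem_SZ two_le_nv)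

theorem chebK : ChebK := Pool.Agent.W352.ChAbs.main chebotarev fun L => torsor L

section
variable {K : Type} [Field K] [NumberField K]

theorem nv_eq' (v : HeightOneSpectrum (𝓞 K)) : nv v = Ideal.absNorm v.asIdeal := rfl

theorem pi_atTop : Tendsto (fun N : ℕ => (Nat.primeCounting N : ℝ)) atTop atTop :=
  tendsto_natCast_atTop_atTop.comp Nat.tendsto_primeCounting

/-- finitely many places do not matter -/
theorem HasAvg.congr {φ ψ : HeightOneSpectrum (𝓞 K) → ℝ} {c : ℝ} (h : HasAvg K φ c) (hf : {v | φ v ≠ ψ v}.Finite) :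
    HasAvg K ψ c := by
  classical
  have h1 : Tendsto (fun N : ℕ => (∑ v ∈ SZ K N, (ψ v - φ v)) / (Nat.primeCounting N : ℝ)) atTop (𝓝 0) := by
    have h2 : Tendsto (fun N : ℕ => (∑ v ∈ hf.toFinset, |ψ v - φ v|) / (Nat.primeCounting N : ℝ)) atTop (𝓝 0) :=
      tendsto_const_nhds.div_atTop pi_atTop
    refine squeeze_zero_norm' ?_ h2
    filter_upwards [pi_atTop.eventually_gt_atTop 0] with N hN
    rw [norm_div, Real.norm_eq_abs, Real.norm_eq_abs, abs_of_pos hN]
    refine div_le_div_of_nonneg_right ?_ hN.le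
    refine (Finset.abs_sum_le_sum_abs _ _).trans ?_
    have h3 : ∑ v ∈ SZ K N, |ψ v - φ v| = ∑ v ∈ (SZ K N).filter (fun v => v ∈ hf.toFinset), |ψ v - φ v| := by
      rw [Finset.sum_filter]
      refine Finset.sum_congr rfl fun v _ => ?_
      split_ifs with hv
      · rfl
      · have : φ v = ψ v := by
          by_contra hne
          exact hv (hf.mem_toFinset.2 hne)
        rw [this, sub_self, abs_zero]
    rw [h3]
    exact Finset.sum_le_sum_of_subset_of_nonneg (fun v hv => (Finset.mem_filter.1 hv).2) fun v _ _ => abs_nonneg _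
  have h4 := h.add h1
  rw [add_zero] at h4
  refine h4.congr fun N => ?_
  rw [← add_div, ← Finset.sum_add_distrib]
  congr 1
  refine Finset.sum_congr rfl fun v _ => ?_
  ring

theorem HasAvg.sum {ι : Type*} (s : Finset ι) (φ : ι → HeightOneSpectrum (𝓞 K) → ℝ) (c : ι → ℝ)
    (h : ∀ i ∈ s, HasAvg K (φ i) (c i)) : HasAvg K (fun v => ∑ i ∈ s, φ i v) (∑ i ∈ s, c i) := by
  have h1 := tendsto_finsetSum s h
  refine h1.congr fun N => ?_
  rw [Finset.sum_comm, Finset.sum_div]

theorem HasAvg.const_mul {φ : HeightOneSpectrum (𝓞 K) → ℝ} {c : ℝ} (h : HasAvg K φ c) (k : ℝ) : HasAvg K (fun v => k * φ v) (k * c) := by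
  have h1 := Filter.Tendsto.const_mul k h
  refine h1.congr fun N => ?_
  rw [← Finset.mul_sum]
  ring

open Classical in
theorem dens_eq (P : HeightOneSpectrum (𝓞 K) → Prop) (N : ℕ) :
    Pool.Agent.W401.Cheb.dens P N = (∑ v ∈ SZ K N, if P v then (1 : ℝ) else 0) / (Nat.primeCounting N : ℝ) := by
  unfold Pool.Agent.W401.Cheb.dens
  congr 1
  rw [← Finset.sum_filter, Finset.sum_const, nsmul_eq_mul, mul_one]
  congr 1
  refine Nat.subtype_card _ fun v => ?_
  rw [Finset.mem_filter, mem_SZ]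
  rfl

variable {G : Type} [Group G] [Fintype G]

open Classical in
/-- the number of the conjugates -/
noncomputable def ncl (g : G) : ℕ := #{h : G | IsConj h g}

theorem ncl_pos (g : G) : 0 < ncl g := by
  classical
  unfold ncl
  exact Finset.card_pos.2 ⟨g, Finset.mem_filter.2 ⟨Finset.mem_univ _, IsConj.refl g⟩⟩

theorem ncl_congr {g g' : G} (h : IsConj g g') : ncl g = ncl g' := by
  classical
  unfold ncl
  congr 1
  ext x
  simp only [Finset.mem_filter, Finset.mem_univ, true_and]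
  exact ⟨fun h1 => h1.trans h, fun h1 => h1.trans h.symm⟩

open Classical in
theorem avg_one (π : GK K →* G) (hs : Function.Surjective π) (ho : IsOpen (π.ker : Set (GK K))) (g : G) :
    HasAvg K (fun v => if ∃ σ, IsConj (π σ) g ∧ IsFrob v σ then (1 : ℝ) else 0) (ncl g / Fintype.card G) := by
  have h1 := chebK K π.ker ho {σ | IsConj (π σ) g} (fun σ hσ τ => by
    have hσ' : IsConj (π σ) g := hσ
    change IsConj (π (τ * σ * τ⁻¹)) g
    refine IsConj.trans ?_ hσ'
    refine (isConj_iff.2 ⟨(π τ)⁻¹, ?_⟩)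
    simp only [map_mul, map_inv]
    group) (fun σ hσ u hu => by
    have hσ' : IsConj (π σ) g := hσ
    change IsConj (π (σ * u)) g
    rw [map_mul, MonoidHom.mem_ker.mp hu, mul_one]
    exact hσ')
  have hcard : Nat.card (GK K ⧸ π.ker) = Fintype.card G := by
    rw [← Nat.card_eq_fintype_card]
    exact Nat.card_congr (QuotientGroup.quotientKerEquivOfSurjective π hs).toEquiv
  have hcl : ((QuotientGroup.mk : GK K → GK K ⧸ π.ker) '' {σ | IsConj (π σ) g}).ncard = ncl g := by
    have h2 : ((QuotientGroup.quotientKerEquivOfSurjective π hs) '' ((QuotientGroup.mk : GK K → GK K ⧸ π.ker) '' {σ | IsConj (π σ) g})) =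
        (({h : G | IsConj h g} : Finset G) : Set G) := by
      ext x
      simp only [Set.mem_image, Set.mem_ofPred_eq, Finset.coe_filter, Finset.mem_univ, true_and]
      constructor
      · rintro ⟨y, ⟨σ, hσ, rfl⟩, rfl⟩
        exact hσ
      · intro hx
        obtain ⟨σ, rfl⟩ := hs x
        exact ⟨QuotientGroup.mk σ, ⟨σ, hx, rfl⟩, rfl⟩
    rw [← Set.ncard_image_of_injective _ (QuotientGroup.quotientKerEquivOfSurjective π hs).injective, h2,
      Set.ncard_coe_finset]
    rfl
  rw [hcard, hcl] at h1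
  refine h1.congr fun N => ?_
  rw [dens_eq]
  rfl

open Classical in
/-- **Chebotarev's theorem for class functions.** -/
theorem avg_class (π : GK K →* G) (hs : Function.Surjective π) (ho : IsOpen (π.ker : Set (GK K))) (χ : G → ℝ)
    (hχ : ∀ g h, χ (h * g * h⁻¹) = χ g) (φ : HeightOneSpectrum (𝓞 K) → ℝ)
    (hφ : {v | ¬ ∀ σ, IsFrob v σ → φ v = χ (π σ)}.Finite) : HasAvg K φ ((∑ g, χ g) / Fintype.card G) := by
  have h1 := HasAvg.sum (K := K) (Finset.univ : Finset G)
    (fun g v => χ g / ncl g * (if ∃ σ, IsConj (π σ) g ∧ IsFrob v σ then (1 : ℝ) else 0))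
    (fun g => χ g / ncl g * (ncl g / Fintype.card G)) (fun g _ => (avg_one π hs ho g).const_mul _)
  have h2 : ∑ g : G, χ g / ncl g * (ncl g / Fintype.card G) = (∑ g, χ g) / Fintype.card G := by
    rw [Finset.sum_div]
    refine Finset.sum_congr rfl fun g _ => ?_
    have : (0 : ℝ) < ncl g := by exact_mod_cast ncl_pos g
    field_simp
  rw [h2] at h1
  refine h1.congr ?_
  have hun := Pool.Agent.K4H40.ST.Count.task_inertia π.ker ho
  refine (hφ.union hun).subset fun v hv => ?_
  by_contra hc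
  rw [Set.mem_union, not_or] at hc
  obtain ⟨c1, c2⟩ := hc
  simp only [Set.mem_ofPred_eq, not_not] at c1
  have c2' : ∀ σ, IsInert v σ → π σ = 1 := by
    intro σ hσ
    by_contra hne
    exact c2 ⟨σ, hσ, fun hk => hne (MonoidHom.mem_ker.mp hk)⟩
  apply hv
  obtain ⟨σ₀, hσ₀⟩ := Pool.Agent.W401.Frob.exists_frob v
  have hiff : ∀ g, (∃ σ, IsConj (π σ) g ∧ IsFrob v σ) ↔ IsConj g (π σ₀) := by
    intro g
    constructor
    · rintro ⟨σ, h3, h4⟩
      obtain ⟨ρ, ι, h5, rfl⟩ := Pool.Agent.W401.Frob.conj_frob v σ₀ σ hσ₀ h4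
      rw [map_mul, c2' ι h5, mul_one] at h3
      refine h3.symm.trans (isConj_iff.2 ⟨(π ρ)⁻¹, ?_⟩)
      simp only [map_mul, map_inv]
      group
    · intro h3
      exact ⟨σ₀, h3.symm, hσ₀⟩
  rw [c1 σ₀ hσ₀]
  have h5 : ∀ g ∈ (Finset.univ : Finset G), χ g / ncl g * (if ∃ σ, IsConj (π σ) g ∧ IsFrob v σ then (1 : ℝ) else 0) =
      if IsConj g (π σ₀) then χ (π σ₀) / ncl (π σ₀) else 0 := by
    intro g _
    by_cases hg : IsConj g (π σ₀)
    · rw [if_pos ((hiff g).2 hg), if_pos hg, mul_one, ncl_congr hg]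
      obtain ⟨c, hc⟩ := isConj_iff.1 hg
      rw [← hc, hχ]
    · rw [if_neg fun h => hg ((hiff g).1 h), if_neg hg, mul_zero]
  rw [Finset.sum_congr rfl h5, ← Finset.sum_filter, Finset.sum_const, nsmul_eq_mul]
  have : (0 : ℝ) < ncl (π σ₀) := by exact_mod_cast ncl_pos (π σ₀)
  have h6 : ((Finset.univ.filter fun g : G => IsConj g (π σ₀)).card : ℝ) = ncl (π σ₀) := rfl
  rw [h6]
  field_simp

end

end Run7.h61.TW
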