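import Pool.Agent.Run7.h61.TW.Red

/-!
# The data of a family with marked points
-/

set_option autoImplicit false
set_option linter.unusedSectionVars false

namespace Run7.h61.TW

open NumberField IsDedekindDomain Polynomial Finset
open Pool.Agent.W401.Cheb (GK IsFrob IsInert)
open Run7.h876.MM (nv kv card_kv instFieldKv instFintypeKv instDecKv nv_pos ring_char_two card_iota_pos avg xv SZ mem_SZ)
open Run7.h876.EN (trc trc_le trc_eq rd Thin thin_of_fiber box tuple ell)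
open Run7.h876.HY (GoodAt frobTrace factor fiber_bound)

section
variable {k : Type} [Field k]

theorem wronskian_ne_field {U m : k[X]} (hU : U.Monic) (hm : m.Monic) (hd : m.natDegree + 2 ≤ U.natDegree)
    (hp : ((U.natDegree - m.natDegree : ℕ) : k) ≠ 0) :
    derivative U * m - U * derivative m ≠ 0 ∧
    (derivative U * m - U * derivative m).natDegree ≤ U.natDegree + m.natDegree := by
  set d := U.natDegree with hdd
  set r := m.natDegree with hr
  have e1 : (derivative U * m).coeff ((d - 1) + r) = d := by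
    rw [coeff_mul_add_eq_of_natDegree_le (natDegree_derivative_le U) le_rfl, coeff_derivative]
    have h1 : d - 1 + 1 = d := by omega
    rw [h1, hdd, hU.coeff_natDegree, hm.coeff_natDegree]
    have : ((U.natDegree - 1 : ℕ) : k) + 1 = U.natDegree := by
      have h2 : 1 ≤ U.natDegree := by omega
      push_cast [Nat.cast_sub h2]
      ring
    rw [this]
    ring
  have e2 : (U * derivative m).coeff ((d - 1) + r) = r := by
    rcases Nat.eq_zero_or_pos r with h0 | h0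
    · have : m = 1 := hm.natDegree_eq_zero.1 (hr ▸ h0)
      rw [this]
      simp [h0]
    · have h1 : (d - 1) + r = d + (r - 1) := by omega
      rw [h1, coeff_mul_add_eq_of_natDegree_le le_rfl (natDegree_derivative_le _), coeff_derivative]
      have h2 : r - 1 + 1 = r := by omega
      have h3 : m.coeff r = 1 := hm.coeff_natDegree
      rw [h2, h3, hU.coeff_natDegree]
      have : ((r - 1 : ℕ) : k) + 1 = r := by
        push_cast [Nat.cast_sub h0]
        ring
      rw [this]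
      ring
  constructor
  · intro h0
    have h1 : (derivative U * m - U * derivative m).coeff ((d - 1) + r) = 0 := by rw [h0, coeff_zero]
    rw [coeff_sub, e1, e2] at h1
    apply hp
    rw [Nat.cast_sub (by omega)]
    exact h1
  · refine (natDegree_sub_le _ _).trans (max_le ?_ ?_)
    · refine natDegree_mul_le.trans ?_
      have := natDegree_derivative_le U
      omega
    · refine natDegree_mul_le.trans ?_
      have := natDegree_derivative_le m
      omega


end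

namespace TFam
variable {K : Type} [Field K] [NumberField K] {J : Type} [Fintype J] (𝓕 : TFam K J)

/-- the exceptional number -/
noncomputable def N0 : 𝓞 K := 𝓕.exists_bad.choose

theorem N0_ne : 𝓕.N0 ≠ 0 := 𝓕.exists_bad.choose_spec.1

theorem N0_spec : ∀ (v : HeightOneSpectrum (𝓞 K)), 𝓕.N0 ∉ v.asIdeal →
    ringChar (kv v) ≠ 2 ∧ ((𝓕.F₀.natDegree - 𝓕.m.natDegree : ℕ) : kv v) ≠ 0 ∧
    ∀ Q : Ideal (OB K), Q.comap (algebraMap (𝓞 K) (OB K)) = v.asIdeal → Q.IsPrime →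
      (2 : OB K) ∉ Q ∧ (∀ i, 𝓕.y i ∉ Q) ∧ ∀ i j, 𝓕.x i - 𝓕.x j ∈ Q → i = j := 𝓕.exists_bad.choose_spec.2

theorem finite_bad : {v : HeightOneSpectrum (𝓞 K) | 𝓕.N0 ∈ v.asIdeal}.Finite := by
  have h1 := Ideal.finite_factors (R := 𝓞 K) (I := Ideal.span {𝓕.N0}) (by
    rw [Ne, Ideal.zero_eq_bot, Ideal.span_singleton_eq_bot]
    exact 𝓕.N0_ne)
  refine h1.subset fun v hv => ?_
  show v.asIdeal ∣ Ideal.span {𝓕.N0}
  rw [Ideal.dvd_span_singleton]
  exact hv

/-! ### the fibres over the further parameters -/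

theorem fpol_fm {v : HeightOneSpectrum (𝓞 K)} (w : J → kv v) (p : kv v × kv v) :
    𝓕.fpol v (Sum.elim ![p.1, p.2] w) = fm (𝓕.fpol v (Sum.elim ![0, 0] w)) (𝓕.m.map (Ideal.Quotient.mk v.asIdeal)) p := by
  unfold fm fpol
  simp only [Sum.elim_inl, Sum.elim_inr, Matrix.cons_val_zero, Matrix.cons_val_one, C_0, zero_mul, zero_add]
  ring

theorem sR_fpol {v : HeightOneSpectrum (𝓞 K)} (t : Fin 2 ⊕ J → kv v) :
    sR (𝓕.fpol v t) (𝓕.m.map (Ideal.Quotient.mk v.asIdeal)) =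
      sR (𝓕.F₀.map (Ideal.Quotient.mk v.asIdeal)) (𝓕.m.map (Ideal.Quotient.mk v.asIdeal)) := by
  unfold sR
  refine Finset.sum_congr rfl fun x _ => ?_
  split_ifs with h
  · unfold fpol
    rw [eval_add, eval_mul, h, zero_mul, add_zero]
  · rfl

theorem coprime_fpol {v : HeightOneSpectrum (𝓞 K)} (hc : IsCoprime (𝓕.m.map (Ideal.Quotient.mk v.asIdeal)) (𝓕.F₀.map (Ideal.Quotient.mk v.asIdeal)))
    (t : Fin 2 ⊕ J → kv v) : IsCoprime (𝓕.m.map (Ideal.Quotient.mk v.asIdeal)) (𝓕.fpol v t) := by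
  unfold fpol
  exact hc.add_mul_left_right _

theorem fiber_real [DecidableEq J] {k : Type} [Fintype k] [DecidableEq k] [Nonempty k] (φ : (Fin 2 ⊕ J → k) → ℝ) (c B : ℝ) (hB : 0 ≤ B)
    (h : ∀ w : J → k, |(∑ p : k × k, φ (Sum.elim ![p.1, p.2] w)) / (Fintype.card k : ℝ) ^ 2 + c| ≤ B) :
    |(∑ t, φ t) / (Fintype.card (Fin 2 ⊕ J → k) : ℝ) + c| ≤ B := by
  classical
  have h1 := fiber_bound φ c B hB h
  have h2 : avg Finset.univ (fun t => (φ t : ℂ)) + c = (((∑ t, φ t) / (Fintype.card (Fin 2 ⊕ J → k) : ℝ) + c : ℝ) : ℂ) := by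
    unfold avg
    rw [Finset.card_univ]
    push_cast
    rfl
  rw [h2, Complex.norm_real, Real.norm_eq_abs] at h1
  exact h1

theorem local_moments [DecidableEq J] {v : HeightOneSpectrum (𝓞 K)} (hv : 𝓕.N0 ∉ v.asIdeal) {ρ : ℝ} (hρ : ∀ σ, IsFrob v σ → ρ = 𝓕.trV σ) :
    |(∑ t, 𝓕.av v t 0) / (Fintype.card (Fin 2 ⊕ J → kv v) : ℝ) + ρ| ≤ CM 𝓕.F₀.natDegree / Real.sqrt (nv v) ∧
    |(∑ t, (𝓕.av v t 0) ^ 2) / (Fintype.card (Fin 2 ⊕ J → kv v) : ℝ) - nv v| ≤ CM 𝓕.F₀.natDegree * Real.sqrt (nv v) ∧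
    |(∑ t, 𝓕.av v t 1) / (Fintype.card (Fin 2 ⊕ J → kv v) : ℝ) + nv v| ≤ CM 𝓕.F₀.natDegree * Real.sqrt (nv v) := by
  classical
  obtain ⟨σ, hσ⟩ := Pool.Agent.W401.Frob.exists_frob v
  obtain ⟨h1, h2⟩ := 𝓕.sR_eq 𝓕.N0_spec hv hσ
  obtain ⟨c1, c2, _⟩ := 𝓕.N0_spec v hv
  have hC := CM_nonneg 𝓕.F₀.natDegree
  have hmd : (𝓕.m.map (Ideal.Quotient.mk v.asIdeal)).natDegree = 𝓕.r := by
    rw [𝓕.m_monic.natDegree_map, 𝓕.m_deg]
  have key : ∀ w : J → kv v,
      |(∑ p : kv v × kv v, (trc (𝓕.fpol v (Sum.elim ![p.1, p.2] w)) 0 : ℝ)) / (Fintype.card (kv v) : ℝ) ^ 2 + ρ| ≤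
        CM 𝓕.F₀.natDegree / Real.sqrt (nv v) ∧
      |(∑ p : kv v × kv v, (trc (𝓕.fpol v (Sum.elim ![p.1, p.2] w)) 0 : ℝ) ^ 2) / (Fintype.card (kv v) : ℝ) ^ 2 +
        (-(nv v : ℝ))| ≤ CM 𝓕.F₀.natDegree * Real.sqrt (nv v) ∧
      |(∑ p : kv v × kv v, (trc (𝓕.fpol v (Sum.elim ![p.1, p.2] w)) 1 : ℝ)) / (Fintype.card (kv v) : ℝ) ^ 2 + (nv v : ℝ)| ≤
        CM 𝓕.F₀.natDegree * Real.sqrt (nv v) := by
    intro w
    have hU := 𝓕.fpol_monic v (Sum.elim ![0, 0] w)
    have hm := moments (U := 𝓕.fpol v (Sum.elim ![0, 0] w)) (m := 𝓕.m.map (Ideal.Quotient.mk v.asIdeal)) c1 hU.1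
      (𝓕.m_monic.map _) (by rw [hU.2]; exact 𝓕.odd) (by rw [hU.2, hmd]; exact 𝓕.deg) (𝓕.coprime_fpol h2 _) (by
        rw [hU.2, hmd, ← 𝓕.m_deg]; exact c2)
    rw [hU.2, card_kv, 𝓕.sR_fpol, h1, ← hρ σ hσ] at hm
    simp only [𝓕.fpol_fm w, card_kv]
    exact hm
  have hav : ∀ t m, 𝓕.av v t m = (trc (𝓕.fpol v t) m : ℝ) := by
    intro t m
    unfold av
    rw [if_pos c1]
  simp only [hav]
  refine ⟨?_, ?_, ?_⟩
  · exact fiber_real (fun t => (trc (𝓕.fpol v t) 0 : ℝ)) ρ _ (by positivity) (fun w => (key w).1)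
  · exact fiber_real (fun t => (trc (𝓕.fpol v t) 0 : ℝ) ^ 2) (-(nv v : ℝ)) _ (by positivity) (fun w => (key w).2.1)
  · exact fiber_real (fun t => (trc (𝓕.fpol v t) 1 : ℝ)) (nv v : ℝ) _ (by positivity) (fun w => (key w).2.2)

/-- The local data of the family. -/
noncomputable def data [DecidableEq J] {R : ℝ} (hR : 0 ≤ R) {r : HeightOneSpectrum (𝓞 K) → ℕ → ℝ} (hr : ∀ v m, |r v m| ≤ R)
    (hfin : {v | ¬ ∀ σ, IsFrob v σ → r v 0 = 𝓕.trV σ}.Finite) : TD K (Fin 2 ⊕ J) where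
  D := 5 * 𝓕.F₀.natDegree + 1
  D_nonneg := by positivity
  a := 𝓕.av
  bound := 𝓕.av_le
  R := R
  R_nonneg := hR
  r := r
  r_le := hr
  C := CM 𝓕.F₀.natDegree
  C_nonneg := CM_nonneg _
  B := {v | 𝓕.N0 ∈ v.asIdeal} ∪ {v | ¬ ∀ σ, IsFrob v σ → r v 0 = 𝓕.trV σ}
  B_fin := 𝓕.finite_bad.union hfin
  m1 := fun v hv => by
    rw [Set.mem_union, not_or] at hv
    exact (𝓕.local_moments hv.1 (not_not.1 hv.2)).1
  m2 := fun v hv => by
    rw [Set.mem_union, not_or] at hv
    exact (𝓕.local_moments hv.1 (not_not.1 hv.2)).2.1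
  m3 := fun v hv => by
    rw [Set.mem_union, not_or] at hv
    exact (𝓕.local_moments hv.1 (not_not.1 hv.2)).2.2

/-! ### singular members -/

theorem member_update [DecidableEq J] (t : Fin 2 ⊕ J → 𝓞 K) (b : 𝓞 K) :
    𝓕.member (Function.update t (Sum.inl 1) b) = 𝓕.member (Function.update t (Sum.inl 1) 0) + 𝓕.m * C b := by
  unfold member
  have h1 : ∀ c : 𝓞 K, Function.update t (Sum.inl 1) c (Sum.inl 0) = t (Sum.inl 0) := by
    intro c
    rw [Function.update_of_ne]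
    intro h
    exact absurd (Sum.inl_injective h) (by decide)
  have h2 : ∀ (c : 𝓞 K) (j : J), Function.update t (Sum.inl 1) c (Sum.inr j) = t (Sum.inr j) := by
    intro c j
    rw [Function.update_of_ne]
    intro h
    cases h
  simp only [h1, h2, Function.update_self, C_0]
  ring

theorem thin_smooth [DecidableEq J] {ι : Type} [Fintype ι] [DecidableEq ι] (ω : Module.Basis ι ℤ (𝓞 K)) :
    Thin ω 𝓕.smooth ((𝓕.F₀.natDegree + 𝓕.r : ℕ) : ℝ) := by
  classical
  have : Nonempty ι := Fintype.card_pos_iff.1 (card_iota_pos ω)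
  refine thin_of_fiber ω _ (Sum.inl 1 : Fin 2 ⊕ J) (𝓕.F₀.natDegree + 𝓕.r) fun t B hB => ?_
  set φ : 𝓞 K →+* K := algebraMap (𝓞 K) K with hφ
  have hinj : Function.Injective φ := NumberField.RingOfIntegers.coe_injective
  set V : K[X] := (𝓕.member (Function.update t (Sum.inl 1) 0)).map φ with hV
  have hm := 𝓕.member_monic (Function.update t (Sum.inl 1) 0)
  have hVm : V.Monic := hm.1.map φ
  have hVd : V.natDegree = 𝓕.F₀.natDegree := by rw [hV, hm.1.natDegree_map, hm.2]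
  have hmm : (𝓕.m.map φ).Monic := 𝓕.m_monic.map φ
  have hmd : (𝓕.m.map φ).natDegree = 𝓕.r := by rw [𝓕.m_monic.natDegree_map, 𝓕.m_deg]
  -- the marked points
  have hcop : IsCoprime (𝓕.m.map φ) V := by
    rw [← Polynomial.isCoprime_map (algebraMap K (AlgebraicClosure K))]
    have hcomp : (algebraMap K (AlgebraicClosure K)).comp φ =
        (algebraMap (OB K) (AlgebraicClosure K)).comp (algebraMap (𝓞 K) (OB K)) := by
      ext a
      rfl
    have e1 : (𝓕.m.map φ).map (algebraMap K (AlgebraicClosure K)) =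
        ∏ i, (X - C (algebraMap (OB K) (AlgebraicClosure K) (𝓕.x i))) := by
      rw [Polynomial.map_map, hcomp, ← Polynomial.map_map, 𝓕.split, Polynomial.map_prod]
      simp only [Polynomial.map_sub, Polynomial.map_X, Polynomial.map_C]
    rw [e1]
    refine IsCoprime.prod_left fun i _ => ?_
    refine ((irreducible_X_sub_C (algebraMap (OB K) (AlgebraicClosure K) (𝓕.x i))).coprime_iff_not_dvd).2 ?_
    rw [dvd_iff_isRoot, IsRoot.def]
    have e2 : (V.map (algebraMap K (AlgebraicClosure K))).eval (algebraMap (OB K) (AlgebraicClosure K) (𝓕.x i)) =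
        algebraMap (OB K) (AlgebraicClosure K) (𝓕.y i ^ 2) := by
      rw [hV, Polynomial.map_map, hcomp, ← Polynomial.map_map, eval_map, eval₂_at_apply]
      congr 1
      unfold member
      rw [Polynomial.map_add, Polynomial.map_mul, eval_add, eval_mul, 𝓕.split, eval_prod,
        Finset.prod_eq_zero (Finset.mem_univ i) (by simp), zero_mul, add_zero, 𝓕.on_curve]
    rw [e2]
    intro h
    exact pow_ne_zero 2 (𝓕.y_ne i) ((map_eq_zero_iff _ RingOfIntegers.coe_injective).1 h)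
  have hw := wronskian_ne_field (U := V) (m := 𝓕.m.map φ) hVm hmm (by rw [hVd, hmd]; exact 𝓕.deg) (by
    rw [hVd, hmd]
    have := 𝓕.deg
    exact_mod_cast (by omega : 𝓕.F₀.natDegree - 𝓕.r ≠ 0))
  have h := nonsep_fiber hcop hw.1 hw.2 (B.image φ) (fun b hb => by
      obtain ⟨b', hb', rfl⟩ := Finset.mem_image.1 hb
      have h1 := hB b' hb'
      intro h2
      apply h1
      show ((𝓕.member (Function.update t (Sum.inl 1) b')).map φ).Separable
      rw [member_update, Polynomial.map_add, Polynomial.map_mul, Polynomial.map_C]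
      exact h2)
  rw [Finset.card_image_of_injective _ hinj, hVd, hmd] at h
  exact h

end TFam

end Run7.h61.TW
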