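import Pool.Agent.Run7.h876.HY.Defs

/-!
# L-series of Jacobians twisted by Galois representations
-/

set_option autoImplicit false

namespace Run7.h61.TW

open NumberField IsDedekindDomain Polynomial
open Run7.h876.MM (nv instFieldKv)
open Run7.h876.HY (GoodAt frobTrace)

section
variable {K : Type} [Field K] [NumberField K]

open Classical in
/-- The Euler factor of the L-series of the Jacobian of `y² = f(x)` twisted by `τ` at a place `v` of `GoodAt`,
`det(1 - Frob_v Nv^(-s))⁻¹ = exp(∑ tr(Frob_v^m | H¹) tr(Frob_v^m | τ) Nv^(-ms) / m)`, where `b (m - 1)` is the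
trace of `Frob_v^m` on `τ` (on the inertia invariants), and `1` at the other places. -/
noncomputable def twFactor (f : (𝓞 K)[X]) (b : ℕ → ℂ) (v : HeightOneSpectrum (𝓞 K)) (s : ℂ) : ℂ :=
  if GoodAt f v then
    Complex.exp (∑' m : ℕ, (frobTrace f v (m + 1) : ℂ) * b m * ((nv v : ℂ) ^ (-s)) ^ (m + 1) / ((m : ℂ) + 1))
  else 1

/-- The twisted L-series of the Jacobian of `y² = f(x)`, without the Euler factors at the places that are not
`GoodAt`; `b v (m - 1)` is the trace of `Frob_v^m`. -/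
noncomputable def twLSeries (f : (𝓞 K)[X]) (b : HeightOneSpectrum (𝓞 K) → ℕ → ℂ) (s : ℂ) : ℂ :=
  ∏' v : HeightOneSpectrum (𝓞 K), twFactor f (b v) v s

open Classical in
/-- The part `Nv ≤ Z` of the Euler product, a finite product. -/
noncomputable def twPartial (Z : ℕ) (f : (𝓞 K)[X]) (b : HeightOneSpectrum (𝓞 K) → ℕ → ℂ) (s : ℂ) : ℂ :=
  ∏' v : HeightOneSpectrum (𝓞 K), if nv v ≤ Z then twFactor f (b v) v s else 1

/-- The Euler product `∏ exp (∑ a_v(m) Nv^(-ms) / m)` over all places, where `a v (m - 1)` stands for `a_v(m)`. -/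
noncomputable def eulerL (a : HeightOneSpectrum (𝓞 K) → ℕ → ℂ) (s : ℂ) : ℂ :=
  ∏' v : HeightOneSpectrum (𝓞 K), Complex.exp (∑' m : ℕ, a v m * ((nv v : ℂ) ^ (-s)) ^ (m + 1) / ((m : ℂ) + 1))

open Classical in
/-- The part `Nv ≤ Z` of this Euler product. -/
noncomputable def eulerZ (Z : ℕ) (a : HeightOneSpectrum (𝓞 K) → ℕ → ℂ) (s : ℂ) : ℂ :=
  ∏' v : HeightOneSpectrum (𝓞 K), if nv v ≤ Z then
    Complex.exp (∑' m : ℕ, a v m * ((nv v : ℂ) ^ (-s)) ^ (m + 1) / ((m : ℂ) + 1)) else 1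

/-- The traces of the powers of Frobenius on the exterior square: if `b (m - 1)` is the trace of `Frob^m` on `τ`,
then `ext2 b (m - 1)` is the trace of `Frob^m` on the exterior square of `τ`. -/
noncomputable def ext2 (b : ℕ → ℂ) (m : ℕ) : ℂ := (b m ^ 2 - b (2 * m + 1)) / 2

/-- `L(V ⊗ τ, s)^(-k) L(∧²(kτ), 2s - 1) G(s)`, where `r v (m - 1)` and `b v (m - 1)` are the traces of `Frob_v^m`
on `V` and on `τ`, and `kτ` is the direct sum of `k` copies of `τ`. -/
noncomputable def mainTerm (k : ℕ) (r : HeightOneSpectrum (𝓞 K) → ℕ → ℝ) (b : HeightOneSpectrum (𝓞 K) → ℕ → ℂ)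
    (G : ℂ → ℂ) (s : ℂ) : ℂ :=
  (eulerL (fun v m => (r v m : ℂ) * ((k : ℂ) * b v m)) s)⁻¹ * eulerL (fun v => ext2 fun m => (k : ℂ) * b v m) (2 * s - 1) * G s

/-- The part `Nv ≤ Z` of the first two factors of `mainTerm`, inverted. -/
noncomputable def mainPartial (Z : ℕ) (k : ℕ) (r : HeightOneSpectrum (𝓞 K) → ℕ → ℝ) (b : HeightOneSpectrum (𝓞 K) → ℕ → ℂ)
    (s : ℂ) : ℂ :=
  eulerZ Z (fun v m => (r v m : ℂ) * ((k : ℂ) * b v m)) s * (eulerZ Z (fun v => ext2 fun m => (k : ℂ) * b v m) (2 * s - 1))⁻¹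

end

end Run7.h61.TW
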