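import Pool.Agent.Run7.h61.TW.Cheb
import Pool.Agent.H921R2.TatePole.Dedekind

/-!
# The growth of Euler products at the point one from the right
-/

set_option autoImplicit false
set_option linter.unusedSectionVars false

namespace Run7.h61.TW

open NumberField IsDedekindDomain Finset Filter Topology
open Run7.h876.MM (nv kv two_le_nv nv_pos xv norm_xv SZ mem_SZ)
open Run7.h876.EN
open Run7.h876.HY (one_le_nv)
open Pool.Agent.W401.Cheb (GK)

/-- telescoping -/
theorem tele_gen (g : ℕ → ℝ) {m Z : ℕ} (h : m ≤ Z) :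
    g m = (∑ n ∈ range (Z + 1), if m ≤ n then g n - g (n + 1) else 0) + g (Z + 1) := by
  induction Z, h using Nat.le_induction with
  | base =>
    rw [Finset.sum_range_succ, if_pos le_rfl, Finset.sum_eq_zero fun n hn => if_neg (by
      have := Finset.mem_range.1 hn; omega)]
    ring
  | succ Z hZ ih =>
    rw [Finset.sum_range_succ, if_pos (by omega), ih]
    ring

section
variable {K : Type} [Field K] [NumberField K]

/-- summation by parts -/
theorem sum_tele_gen (g : ℕ → ℝ) (φ : HeightOneSpectrum (𝓞 K) → ℝ) (Z : ℕ) :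
    ∑ v ∈ SZ K Z, φ v * g (nv v) = (∑ n ∈ range (Z + 1), (g n - g (n + 1)) * ∑ v ∈ SZ K n, φ v) +
      (∑ v ∈ SZ K Z, φ v) * g (Z + 1) := by
  classical
  have h1 : ∀ v ∈ SZ K Z, φ v * g (nv v) = (∑ n ∈ range (Z + 1), (g n - g (n + 1)) * (if nv v ≤ n then φ v else 0)) +
      φ v * g (Z + 1) := by
    intro v hv
    rw [tele_gen g (mem_SZ.1 hv), mul_add, Finset.mul_sum]
    congr 1
    refine Finset.sum_congr rfl fun n _ => ?_
    split_ifs <;> ring
  rw [Finset.sum_congr rfl h1, Finset.sum_add_distrib, Finset.sum_comm, Finset.sum_mul]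
  congr 1
  refine Finset.sum_congr rfl fun n hn => ?_
  rw [← Finset.mul_sum]
  congr 1
  rw [← Finset.sum_filter]
  refine Finset.sum_congr ?_ fun _ _ => rfl
  ext v
  rw [Finset.mem_filter, mem_SZ, mem_SZ]
  have := Finset.mem_range.1 hn
  constructor
  · exact fun h => h.2
  · exact fun h => ⟨by omega, h⟩

theorem SZ_tendsto : Tendsto (SZ K) atTop atTop :=
  tendsto_atTop_finset_of_monotone (fun n Z hnZ v hv => mem_SZ.2 ((mem_SZ.1 hv).trans hnZ)) fun v => ⟨nv v, mem_SZ.2 le_rfl⟩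

theorem avg_const : HasAvg K (fun _ => (1 : ℝ)) 1 := by
  have h := avg_class (K := K) (G := Unit) 1 (fun _ => ⟨1, rfl⟩) (by
    have : (((1 : GK K →* Unit).ker : Subgroup (GK K)) : Set (GK K)) = Set.univ := by
      ext σ; simp
    rw [this]
    exact isOpen_univ) (fun _ => 1) (fun _ _ => rfl) (fun _ => 1) (by simp)
  simpa using h

theorem card_ratio : Tendsto (fun N : ℕ => ((SZ K N).card : ℝ) / (Nat.primeCounting N : ℝ)) atTop (𝓝 1) := by
  refine Filter.Tendsto.congr (fun N => ?_) (avg_const (K := K))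
  rw [Finset.sum_const, nsmul_eq_mul, mul_one]

/-- **Abelian means.** -/
theorem edge_avg {φ : HeightOneSpectrum (𝓞 K) → ℝ} {B : ℝ} (hφ : ∀ v, |φ v| ≤ B) {c : ℝ} (h : HasAvg K φ c) :
    Tendsto (fun x : ℝ => (∑' v : HeightOneSpectrum (𝓞 K), φ v * (nv v : ℝ) ^ (-x)) / Real.log (1 / (x - 1))) (𝓝[>] 1) (𝓝 c) := by
  have hsum : ∀ {x : ℝ}, 1 < x → Summable (fun v : HeightOneSpectrum (𝓞 K) => (nv v : ℝ) ^ (-x)) := fun {x} hx =>
    Pool.Agent.H921R2.TatePole.nm_summable (K := K) (x := x) hx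
  have hsum2 : ∀ {x : ℝ}, 1 < x → ∀ d : ℝ, Summable (fun v : HeightOneSpectrum (𝓞 K) => (φ v - d) * (nv v : ℝ) ^ (-x)) := by
    intro x hx d
    refine Summable.of_norm_bounded ((hsum hx).mul_left (B + |d|)) fun v => ?_
    rw [norm_mul, Real.norm_eq_abs, Real.norm_of_nonneg (by positivity)]
    refine mul_le_mul_of_nonneg_right ?_ (by positivity)
    have := abs_sub (φ v) d
    linarith [hφ v]
  -- the error
  have hE : ∀ δ : ℝ, 0 < δ → ∃ C₀ : ℝ, 0 ≤ C₀ ∧ ∀ n : ℕ, |∑ v ∈ SZ K n, (φ v - c)| ≤ δ * ((SZ K n).card : ℝ) + C₀ := by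
    intro δ hδ
    have h1 : Tendsto (fun N : ℕ => (∑ v ∈ SZ K N, (φ v - c)) / (Nat.primeCounting N : ℝ)) atTop (𝓝 0) := by
      have h2 := h.sub ((card_ratio (K := K)).const_mul c)
      rw [mul_one, sub_self] at h2
      refine h2.congr fun N => ?_
      rw [Finset.sum_sub_distrib, Finset.sum_const, nsmul_eq_mul, sub_div]
      ring
    have h3 : Tendsto (fun N : ℕ => (∑ v ∈ SZ K N, (φ v - c)) / ((SZ K N).card : ℝ)) atTop (𝓝 0) := by
      have h4 := h1.div (card_ratio (K := K)) one_ne_zero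
      rw [zero_div] at h4
      refine h4.congr' ?_
      filter_upwards [pi_atTop.eventually_gt_atTop 0] with N hN
      simp only [Pi.div_apply]
      rw [div_div_div_cancel_right₀ hN.ne']
    have h5 : ∀ᶠ N in atTop, |∑ v ∈ SZ K N, (φ v - c)| ≤ δ * ((SZ K N).card : ℝ) := by
      have h6 : ∀ᶠ N : ℕ in atTop, (0 : ℝ) < (SZ K N).card := by
        have h7 := (card_ratio (K := K)).eventually (lt_mem_nhds (show (1 / 2 : ℝ) < 1 by norm_num))
        filter_upwards [h7, pi_atTop.eventually_gt_atTop 0] with N h8 h9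
        have : (0 : ℝ) < ((SZ K N).card : ℝ) / (Nat.primeCounting N : ℝ) := by linarith
        exact (div_pos_iff_of_pos_right h9).1 this
      filter_upwards [h3.eventually (Metric.ball_mem_nhds 0 hδ), h6] with N h8 h9
      rw [dist_zero_right, Real.norm_eq_abs, abs_div, abs_of_pos h9, div_lt_iff₀ h9] at h8
      exact h8.le
    obtain ⟨n₀, hn₀⟩ := eventually_atTop.1 h5
    refine ⟨∑ n ∈ range n₀, |∑ v ∈ SZ K n, (φ v - c)|, Finset.sum_nonneg fun _ _ => abs_nonneg _, fun n => ?_⟩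
    by_cases hn : n₀ ≤ n
    · have := hn₀ n hn
      have h6 : 0 ≤ ∑ n ∈ range n₀, |∑ v ∈ SZ K n, (φ v - c)| := Finset.sum_nonneg fun _ _ => abs_nonneg _
      linarith
    · have h6 := Finset.single_le_sum (f := fun n => |∑ v ∈ SZ K n, (φ v - c)|) (fun _ _ => abs_nonneg _)
        (Finset.mem_range.2 (by omega : n < n₀))
      have h7 : 0 ≤ δ * ((SZ K n).card : ℝ) := by positivity
      exact h6.trans (by linarith)
  -- the bound
  have hmain : ∀ δ : ℝ, 0 < δ → ∃ C₀ : ℝ, ∀ x : ℝ, 1 < x →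
      |∑' v : HeightOneSpectrum (𝓞 K), (φ v - c) * (nv v : ℝ) ^ (-x)| ≤ δ * ∑' v : HeightOneSpectrum (𝓞 K), (nv v : ℝ) ^ (-x) + C₀ := by
    intro δ hδ
    obtain ⟨C₀, hC0, hC⟩ := hE δ hδ
    refine ⟨C₀, fun x hx => ?_⟩
    have hlim := ((hsum2 hx c).hasSum.comp SZ_tendsto).abs
    refine le_of_tendsto hlim (Filter.Eventually.of_forall fun Z => ?_)
    simp only [Function.comp_apply]
    set g : ℕ → ℝ := fun n => if n = 0 then 1 else (n : ℝ) ^ (-x) with hg
    have hgv : ∀ v : HeightOneSpectrum (𝓞 K), g (nv v) = (nv v : ℝ) ^ (-x) := by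
      intro v
      rw [hg]
      simp only
      rw [if_neg (by have := two_le_nv v; omega)]
    have hg1 : ∀ n, 0 ≤ g n - g (n + 1) := by
      intro n
      rw [hg]
      simp only
      rw [if_neg (Nat.succ_ne_zero n)]
      rcases Nat.eq_zero_or_pos n with h0 | h0
      · rw [if_pos h0, h0]
        simp
      · rw [if_neg h0.ne', sub_nonneg]
        have hn : (0 : ℝ) < n := by exact_mod_cast h0
        refine Real.rpow_le_rpow_of_nonpos hn ?_ (by linarith)
        push_cast; linarith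
    have hg2 : ∀ n, 0 ≤ g n := by
      intro n; rw [hg]; simp only; split_ifs <;> positivity
    have e1 : ∑ v ∈ SZ K Z, (φ v - c) * (nv v : ℝ) ^ (-x) = (∑ n ∈ range (Z + 1), (g n - g (n + 1)) * ∑ v ∈ SZ K n, (φ v - c)) +
        (∑ v ∈ SZ K Z, (φ v - c)) * g (Z + 1) := by
      rw [← sum_tele_gen]
      exact Finset.sum_congr rfl fun v _ => by rw [hgv]
    have e2 : ∑ v ∈ SZ K Z, (nv v : ℝ) ^ (-x) = (∑ n ∈ range (Z + 1), (g n - g (n + 1)) * ((SZ K n).card : ℝ)) +
        ((SZ K Z).card : ℝ) * g (Z + 1) := by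
      have := sum_tele_gen (K := K) g (fun _ => 1) Z
      simp only [Finset.sum_const, nsmul_eq_mul, mul_one, one_mul] at this
      rw [← this]
      exact Finset.sum_congr rfl fun v _ => by rw [hgv]
    have e3 : (∑ n ∈ range (Z + 1), (g n - g (n + 1))) + g (Z + 1) = 1 := by
      have := tele_gen g (Nat.zero_le Z)
      simp only [Nat.zero_le, if_true] at this
      rw [← this, hg]
      simp
    rw [e1]
    calc |(∑ n ∈ range (Z + 1), (g n - g (n + 1)) * ∑ v ∈ SZ K n, (φ v - c)) + (∑ v ∈ SZ K Z, (φ v - c)) * g (Z + 1)| ≤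
        (∑ n ∈ range (Z + 1), (g n - g (n + 1)) * (δ * ((SZ K n).card : ℝ) + C₀)) + (δ * ((SZ K Z).card : ℝ) + C₀) * g (Z + 1) := by
          refine (abs_add_le _ _).trans (add_le_add ?_ ?_)
          · refine (Finset.abs_sum_le_sum_abs _ _).trans (Finset.sum_le_sum fun n _ => ?_)
            rw [abs_mul, abs_of_nonneg (hg1 n)]
            exact mul_le_mul_of_nonneg_left (hC n) (hg1 n)
          · rw [abs_mul, abs_of_nonneg (hg2 _)]
            exact mul_le_mul_of_nonneg_right (hC Z) (hg2 _)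
      _ = δ * ((∑ n ∈ range (Z + 1), (g n - g (n + 1)) * ((SZ K n).card : ℝ)) + ((SZ K Z).card : ℝ) * g (Z + 1)) +
          C₀ * ((∑ n ∈ range (Z + 1), (g n - g (n + 1))) + g (Z + 1)) := by
          simp only [mul_add, add_mul, Finset.mul_sum, Finset.sum_add_distrib]
          have : ∑ n ∈ range (Z + 1), (g n - g (n + 1)) * (δ * ((SZ K n).card : ℝ)) =
              ∑ n ∈ range (Z + 1), δ * ((g n - g (n + 1)) * ((SZ K n).card : ℝ)) :=
            Finset.sum_congr rfl fun n _ => by ring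
          rw [this]
          have : ∑ n ∈ range (Z + 1), (g n - g (n + 1)) * C₀ = ∑ n ∈ range (Z + 1), C₀ * (g n - g (n + 1)) :=
            Finset.sum_congr rfl fun n _ => by ring
          rw [this]
          ring
      _ = δ * (∑ v ∈ SZ K Z, (nv v : ℝ) ^ (-x)) + C₀ := by rw [← e2, e3, mul_one]
      _ ≤ _ := by
          have := (hsum hx).sum_le_tsum (SZ K Z) fun v _ => by positivity
          have := mul_le_mul_of_nonneg_left this hδ.le
          linarith
  -- the prime sum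
  obtain ⟨C₁, hC₁⟩ := Pool.Agent.H921R2.TatePole.prime_sum_bdd (K := K)
  have hLam := Pool.Agent.H921R2.TatePole.Lam_tendsto
  have hLd : Pool.Agent.H921R2.TatePole.Lam = fun x => Real.log (1 / (x - 1)) := rfl
  rw [hLd] at hLam
  have hP : Tendsto (fun x : ℝ => (∑' v : HeightOneSpectrum (𝓞 K), (nv v : ℝ) ^ (-x)) / Real.log (1 / (x - 1))) (𝓝[>] 1) (𝓝 1) := by
    have h1 : Tendsto (fun x : ℝ => ((∑' v : HeightOneSpectrum (𝓞 K), (nv v : ℝ) ^ (-x)) - Real.log (1 / (x - 1))) / Real.log (1 / (x - 1)))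
        (𝓝[>] 1) (𝓝 0) := by
      refine squeeze_zero_norm' ?_ ((tendsto_const_nhds (x := C₁)).div_atTop hLam)
      filter_upwards [hC₁, hLam.eventually_gt_atTop 0] with x h2 h3
      rw [norm_div, Real.norm_eq_abs, Real.norm_eq_abs, abs_of_pos h3]
      exact div_le_div_of_nonneg_right h2 h3.le
    have h2 := h1.add_const 1
    rw [zero_add] at h2
    refine h2.congr' ?_
    filter_upwards [hLam.eventually_gt_atTop 0] with x h3
    field_simp
    ring
  have hD : Tendsto (fun x : ℝ => (∑' v : HeightOneSpectrum (𝓞 K), (φ v - c) * (nv v : ℝ) ^ (-x)) / Real.log (1 / (x - 1)))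
      (𝓝[>] 1) (𝓝 0) := by
    rw [Metric.tendsto_nhds]
    intro ε hε
    obtain ⟨C₀, hC₀⟩ := hmain (ε / 4) (by positivity)
    have h1 := hP.eventually (gt_mem_nhds (show (1 : ℝ) < 2 by norm_num))
    have h2 := (tendsto_const_nhds (x := C₀)).div_atTop hLam
    have h3 := h2.eventually (gt_mem_nhds (show (0 : ℝ) < ε / 2 by positivity))
    filter_upwards [h1, h3, hLam.eventually_gt_atTop 0, self_mem_nhdsWithin] with x h4 h5 h6 h7
    rw [dist_zero_right, norm_div, Real.norm_eq_abs, Real.norm_eq_abs, abs_of_pos h6]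
    calc _ ≤ (ε / 4 * (∑' v : HeightOneSpectrum (𝓞 K), (nv v : ℝ) ^ (-x)) + C₀) / Real.log (1 / (x - 1)) :=
          div_le_div_of_nonneg_right (hC₀ x h7) h6.le
      _ = ε / 4 * ((∑' v : HeightOneSpectrum (𝓞 K), (nv v : ℝ) ^ (-x)) / Real.log (1 / (x - 1))) + C₀ / Real.log (1 / (x - 1)) := by
          ring
      _ < ε / 4 * 2 + ε / 2 := add_lt_add_of_le_of_lt (mul_le_mul_of_nonneg_left h4.le (by positivity)) h5
      _ = ε := by ring
  have hall := hD.add (hP.const_mul c)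
  rw [mul_one, zero_add] at hall
  refine hall.congr' ?_
  filter_upwards [self_mem_nhdsWithin] with x hx
  have hx' : 1 < x := hx
  have e1 : ∑' v : HeightOneSpectrum (𝓞 K), φ v * (nv v : ℝ) ^ (-x) =
      ∑' v : HeightOneSpectrum (𝓞 K), (φ v - c) * (nv v : ℝ) ^ (-x) + c * ∑' v : HeightOneSpectrum (𝓞 K), (nv v : ℝ) ^ (-x) := by
    rw [← tsum_mul_left, ← (hsum2 hx' c).tsum_add ((hsum hx').mul_left c)]
    refine tsum_congr fun v => ?_
    ring
  rw [e1]
  ring

/-- **The growth of Euler products at the point one from the right.** -/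
theorem log_artin {a : HeightOneSpectrum (𝓞 K) → ℕ → ℂ} {B : ℝ} (ha : ∀ v m, ‖a v m‖ ≤ B) {c : ℝ}
    (hc : HasAvg K (fun v => (a v 0).re) c) :
    Tendsto (fun x : ℝ => Real.log ‖artin a x‖ / Real.log (1 / (x - 1))) (𝓝[>] 1) (𝓝 c) := by
  by_cases hne : Nonempty (HeightOneSpectrum (𝓞 K))
  swap
  · exfalso
    have h1 : Tendsto (fun N : ℕ => ((SZ K N).card : ℝ) / (Nat.primeCounting N : ℝ)) atTop (𝓝 0) := by
      refine tendsto_const_nhds.congr fun N => ?_
      have : SZ K N = ∅ := by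
        ext v
        exact (hne ⟨v⟩).elim
      rw [this]
      simp
    exact absurd (tendsto_nhds_unique h1 card_ratio) (by norm_num)
  have hB : 0 ≤ B := by
    obtain ⟨v⟩ := hne
    exact (norm_nonneg _).trans (ha v 0)
  have hφ : ∀ v, |(a v 0).re| ≤ B := fun v => (Complex.abs_re_le_norm _).trans (ha v 0)
  have h1 := edge_avg hφ hc
  have hsum : ∀ {x : ℝ}, 1 < x → Summable (fun v : HeightOneSpectrum (𝓞 K) => (nv v : ℝ) ^ (-x)) := fun {x} hx =>
    Pool.Agent.H921R2.TatePole.nm_summable (K := K) (x := x) hx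
  obtain ⟨C, hC⟩ : ∃ C : ℝ, C = 2 * B * ∑' v : HeightOneSpectrum (𝓞 K), (nv v : ℝ) ^ (-(2 : ℝ)) := ⟨_, rfl⟩
  have hnx : ∀ (x : ℝ) (v : HeightOneSpectrum (𝓞 K)), xv v (x : ℂ) = (((nv v : ℝ) ^ (-x) : ℝ) : ℂ) := by
    intro x v
    unfold xv
    rw [Complex.ofReal_cpow (nv_pos v).le]
    push_cast
    rfl
  have hbd : ∀ (x : ℝ), 1 < x → ∀ v : HeightOneSpectrum (𝓞 K),
      ‖ell (a v) (xv v x)‖ ≤ 2 * B * (nv v : ℝ) ^ (-x) ∧
      |(ell (a v) (xv v x)).re - (a v 0).re * (nv v : ℝ) ^ (-x)| ≤ 2 * B * (nv v : ℝ) ^ (-(2 : ℝ)) := by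
    intro x hx v
    obtain ⟨x1, x2⟩ := xv_le (σ := 1) le_rfl v (s := (x : ℂ)) (by rw [Complex.ofReal_re]; exact hx.le)
    have hn : ‖xv v (x : ℂ)‖ = (nv v : ℝ) ^ (-x) := by
      rw [hnx, Complex.norm_real, Real.norm_of_nonneg (by positivity)]
    constructor
    · have h4 := ell_le hB zero_le_one (fun m => by rw [one_pow, mul_one]; exact ha v m) (x1.trans x2) (by norm_num)
      rw [one_mul, hn] at h4
      refine h4.trans (le_of_eq ?_)
      ring
    · have h4 := ell_tail hB zero_le_one (fun m => by rw [one_pow, mul_one]; exact ha v m) (x1.trans x2) (by norm_num) 1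
      rw [Finset.sum_range_one] at h4
      have e1 : a v 0 * xv v (x : ℂ) ^ (0 + 1) / (((0 : ℕ) : ℂ) + 1) = a v 0 * (((nv v : ℝ) ^ (-x) : ℝ) : ℂ) := by
        rw [hnx]; simp
      rw [e1, one_mul, hn] at h4
      have e3 : (a v 0 * (((nv v : ℝ) ^ (-x) : ℝ) : ℂ)).re = (a v 0).re * (nv v : ℝ) ^ (-x) := Complex.re_mul_ofReal _ _
      rw [← e3, ← Complex.sub_re]
      refine (Complex.abs_re_le_norm _).trans (h4.trans ?_)
      have h5 : ((nv v : ℝ) ^ (-x)) ^ (1 + 1) ≤ (nv v : ℝ) ^ (-(2 : ℝ)) := by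
        rw [← Real.rpow_natCast, ← Real.rpow_mul (nv_pos v).le]
        refine Real.rpow_le_rpow_of_exponent_le (one_le_nv v) ?_
        push_cast
        linarith
      calc B * ((nv v : ℝ) ^ (-x)) ^ (1 + 1) / (1 - 1 / 2) = 2 * B * (((nv v : ℝ) ^ (-x)) ^ (1 + 1)) := by ring
        _ ≤ _ := mul_le_mul_of_nonneg_left h5 (by positivity)
  have hlog : ∀ x : ℝ, 1 < x → Real.log ‖artin a x‖ = ∑' v : HeightOneSpectrum (𝓞 K), (ell (a v) (xv v x)).re := by
    intro x hx
    have hs : Summable (fun v : HeightOneSpectrum (𝓞 K) => ell (a v) (xv v x)) :=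
      Summable.of_norm_bounded ((hsum hx).mul_left (2 * B)) fun v => (hbd x hx v).1
    have h2 : HasProd (fun v : HeightOneSpectrum (𝓞 K) => Complex.exp (ell (a v) (xv v x))) (Complex.exp (∑' v, ell (a v) (xv v x))) :=
      hs.hasSum.cexp
    have h3 : artin a x = Complex.exp (∑' v : HeightOneSpectrum (𝓞 K), ell (a v) (xv v x)) := h2.tprod_eq
    rw [h3, Complex.norm_exp, Real.log_exp, Complex.re_tsum hs]
  have hdiff : ∀ x : ℝ, 1 < x → |Real.log ‖artin a x‖ - ∑' v : HeightOneSpectrum (𝓞 K), (a v 0).re * (nv v : ℝ) ^ (-x)| ≤ C := by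
    intro x hx
    have hs : Summable (fun v : HeightOneSpectrum (𝓞 K) => ell (a v) (xv v x)) :=
      Summable.of_norm_bounded ((hsum hx).mul_left (2 * B)) fun v => (hbd x hx v).1
    have hs1 : Summable (fun v : HeightOneSpectrum (𝓞 K) => (ell (a v) (xv v x)).re) := (Complex.hasSum_re hs.hasSum).summable
    have hs2 : Summable (fun v : HeightOneSpectrum (𝓞 K) => (a v 0).re * (nv v : ℝ) ^ (-x)) :=
      Summable.of_norm_bounded ((hsum hx).mul_left B) fun v => by
        rw [norm_mul, Real.norm_eq_abs, Real.norm_of_nonneg (by positivity)]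
        exact mul_le_mul_of_nonneg_right (hφ v) (by positivity)
    rw [hlog x hx, ← hs1.tsum_sub hs2, hC, ← tsum_mul_left]
    have hs3 : Summable (fun v : HeightOneSpectrum (𝓞 K) => 2 * B * (nv v : ℝ) ^ (-(2 : ℝ))) := (hsum (by norm_num)).mul_left _
    have := tsum_of_norm_bounded hs3.hasSum (fun v => by rw [Real.norm_eq_abs]; exact (hbd x hx v).2)
    rwa [Real.norm_eq_abs] at this
  have hLam := Pool.Agent.H921R2.TatePole.Lam_tendsto
  have hLd : Pool.Agent.H921R2.TatePole.Lam = fun x => Real.log (1 / (x - 1)) := rfl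
  rw [hLd] at hLam
  have h0 : Tendsto (fun x : ℝ => (Real.log ‖artin a x‖ - ∑' v : HeightOneSpectrum (𝓞 K), (a v 0).re * (nv v : ℝ) ^ (-x)) /
      Real.log (1 / (x - 1))) (𝓝[>] 1) (𝓝 0) := by
    refine squeeze_zero_norm' ?_ ((tendsto_const_nhds (x := C)).div_atTop hLam)
    filter_upwards [self_mem_nhdsWithin, hLam.eventually_gt_atTop 0] with x h2 h3
    rw [norm_div, Real.norm_eq_abs, Real.norm_eq_abs, abs_of_pos h3]
    exact div_le_div_of_nonneg_right (hdiff x h2) h3.le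
  have h2 := h0.add h1
  rw [zero_add] at h2
  refine h2.congr fun x => ?_
  ring

end

end Run7.h61.TW
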