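import Pool.Agent.Run7.h61.JL.Sec

/-!
# The twisted moments: the local means and the limit function
-/

set_option autoImplicit false
set_option linter.unusedSectionVars false

namespace Run7.h61.TW

open NumberField IsDedekindDomain Finset Filter Topology
open Run7.h876.MM (nv kv two_le_nv nv_pos avg card_kv xv norm_xv instFieldKv instFintypeKv instDecKv norm_avg_le avg_sub'
  tail_bound tail_small mult_of tprod_ne xv_real SZ mem_SZ nv_rpow_le y0_lt)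
open Run7.h876.EN
open Run7.h876.HY (one_le_nv ell_diff ell_real)
open Run7.h61.JL (avg_exp_close BE)

/-- Local data of weight one: the traces of Frobenius on the members of a family, as functions of the
residues, and the traces `r` on the module of the marked points. -/
structure TD (K : Type) [Field K] [NumberField K] (J : Type) [Fintype J] [DecidableEq J] where
  D : ℝ
  D_nonneg : 0 ≤ D
  a : ∀ v : HeightOneSpectrum (𝓞 K), (J → kv v) → ℕ → ℝ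
  bound : ∀ v t m, |a v t m| ≤ D * Real.sqrt (nv v) ^ (m + 1)
  R : ℝ
  R_nonneg : 0 ≤ R
  r : HeightOneSpectrum (𝓞 K) → ℕ → ℝ
  r_le : ∀ v m, |r v m| ≤ R
  C : ℝ
  C_nonneg : 0 ≤ C
  B : Set (HeightOneSpectrum (𝓞 K))
  B_fin : B.Finite
  m1 : ∀ v, v ∉ B → |(∑ t, a v t 0) / (Fintype.card (J → kv v) : ℝ) + r v 0| ≤ C / Real.sqrt (nv v)
  m2 : ∀ v, v ∉ B → |(∑ t, (a v t 0) ^ 2) / (Fintype.card (J → kv v) : ℝ) - nv v| ≤ C * Real.sqrt (nv v)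
  m3 : ∀ v, v ∉ B → |(∑ t, a v t 1) / (Fintype.card (J → kv v) : ℝ) + nv v| ≤ C * Real.sqrt (nv v)

/-- the traces on the exterior square -/
noncomputable def cc (b : ℕ → ℂ) (m : ℕ) : ℂ := (b m ^ 2 - b (2 * m + 1)) / 2

theorem cc_le {b : ℕ → ℂ} {β : ℝ} (hb : ∀ m, ‖b m‖ ≤ β) (m : ℕ) : ‖cc b m‖ ≤ (β ^ 2 + β) / 2 := by
  have n2 : ‖(2 : ℂ)‖ = 2 := by simp
  unfold cc
  rw [norm_div, n2]
  refine div_le_div_of_nonneg_right ((norm_sub_le _ _).trans (add_le_add ?_ (hb _))) (by norm_num)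
  rw [norm_pow]
  exact pow_le_pow_left₀ (norm_nonneg _) (hb m) 2

section
variable {K : Type} [Field K] [NumberField K] {J : Type} [Fintype J] [DecidableEq J]
variable (𝓓 : TD K J) (b : HeightOneSpectrum (𝓞 K) → ℕ → ℂ)

/-- the logarithm of the Euler factor -/
noncomputable def lf (v : HeightOneSpectrum (𝓞 K)) (s : ℂ) (t : J → kv v) : ℂ :=
  ell (fun m => (𝓓.a v t m : ℂ) * b v m) (xv v s)

/-- the logarithm of the Euler factor of the first L-function -/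
noncomputable def lr (v : HeightOneSpectrum (𝓞 K)) (s : ℂ) : ℂ := ell (fun m => (𝓓.r v m : ℂ) * b v m) (xv v s)

/-- the logarithm of the Euler factor of the second L-function -/
noncomputable def lc (v : HeightOneSpectrum (𝓞 K)) (s : ℂ) : ℂ := ell (cc (b v)) ((((nv v : ℝ)) : ℂ) * xv v s ^ 2)

/-- the exponent of the normalised local factor -/
noncomputable def zz (v : HeightOneSpectrum (𝓞 K)) (s : ℂ) (t : J → kv v) : ℂ := lf 𝓓 b v s t + lr 𝓓 b v s - lc b v s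

/-- the normalised local mean -/
noncomputable def hv (v : HeightOneSpectrum (𝓞 K)) (s : ℂ) : ℂ := avg Finset.univ (fun t => Complex.exp (zz 𝓓 b v s t))

/-- the limit function -/
noncomputable def GG (s : ℂ) : ℂ := ∏' v : HeightOneSpectrum (𝓞 K), hv 𝓓 b v s

variable {b}
variable {β : ℝ}

theorem sqrt_xv (v : HeightOneSpectrum (𝓞 K)) (s : ℂ) : Real.sqrt (nv v) * ‖xv v s‖ = (nv v : ℝ) ^ (1 / 2 - s.re) := by
  rw [norm_xv, Real.sqrt_eq_rpow, ← Real.rpow_add (nv_pos v)]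
  congr 1

theorem ab_bound (hβ : ∀ v m, ‖b v m‖ ≤ β) (v : HeightOneSpectrum (𝓞 K)) (t : J → kv v) (m : ℕ) :
    ‖(𝓓.a v t m : ℂ) * b v m‖ ≤ (𝓓.D * β) * Real.sqrt (nv v) ^ (m + 1) := by
  have hD := 𝓓.D_nonneg
  rw [norm_mul, Complex.norm_real, Real.norm_eq_abs]
  calc |𝓓.a v t m| * ‖b v m‖ ≤ (𝓓.D * Real.sqrt (nv v) ^ (m + 1)) * β :=
        mul_le_mul (𝓓.bound v t m) (hβ v m) (norm_nonneg _) (by positivity)
    _ = _ := by ring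

theorem rb_bound (hβ : ∀ v m, ‖b v m‖ ≤ β) (v : HeightOneSpectrum (𝓞 K)) (m : ℕ) :
    ‖(𝓓.r v m : ℂ) * b v m‖ ≤ (𝓓.R * β) * (1 : ℝ) ^ (m + 1) := by
  have hR := 𝓓.R_nonneg
  rw [norm_mul, Complex.norm_real, Real.norm_eq_abs, one_pow, mul_one]
  exact mul_le_mul (𝓓.r_le v m) (hβ v m) (norm_nonneg _) hR

theorem cb_bound (hβ : ∀ v m, ‖b v m‖ ≤ β) (v : HeightOneSpectrum (𝓞 K)) (m : ℕ) :
    ‖cc (b v) m‖ ≤ ((β ^ 2 + β) / 2) * (1 : ℝ) ^ (m + 1) := by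
  rw [one_pow, mul_one]
  exact cc_le (hβ v) m

theorem beta_nonneg (hβ : ∀ v m, ‖b v m‖ ≤ β) (v : HeightOneSpectrum (𝓞 K)) : 0 ≤ β := (norm_nonneg _).trans (hβ v 0)

/-- the basic inequalities -/
theorem basic {σ : ℝ} (hσ : 1 / 2 < σ) (v : HeightOneSpectrum (𝓞 K)) {s : ℂ} (hs : σ ≤ s.re) :
    Real.sqrt (nv v) * ‖xv v s‖ ≤ (nv v : ℝ) ^ (1 / 2 - σ) ∧ Real.sqrt (nv v) * ‖xv v s‖ ≤ 2 ^ (1 / 2 - σ) ∧
    1 * ‖xv v s‖ ≤ Real.sqrt (nv v) * ‖xv v s‖ ∧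
    ‖(((nv v : ℝ)) : ℂ) * xv v s ^ 2‖ = (Real.sqrt (nv v) * ‖xv v s‖) ^ 2 := by
  obtain ⟨h1, h2⟩ := nv_rpow_le hσ v hs
  have hs1 : 1 ≤ Real.sqrt (nv v) := Real.one_le_sqrt.2 (one_le_nv v)
  rw [← sqrt_xv] at h1
  refine ⟨h1, h1.trans h2, mul_le_mul_of_nonneg_right hs1 (norm_nonneg _), ?_⟩
  rw [norm_mul, norm_pow, Complex.norm_real, Real.norm_of_nonneg (nv_pos v).le, mul_pow, Real.sq_sqrt (nv_pos v).le]

/-- the constant -/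
noncomputable def EB (𝓓 : TD K J) (β σ : ℝ) : ℝ :=
  (𝓓.D * β + 𝓓.R * β + (β ^ 2 + β) / 2) * (1 - 2 ^ (1 / 2 - σ))⁻¹

theorem EB_nonneg (hβ0 : 0 ≤ β) {σ : ℝ} (hσ : 1 / 2 < σ) : 0 ≤ EB 𝓓 β σ := by
  have h1 := 𝓓.D_nonneg
  have h2 := 𝓓.R_nonneg
  have h3 := y0_lt hσ
  have : 0 < (1 - (2 : ℝ) ^ (1 / 2 - σ))⁻¹ := inv_pos.2 (by linarith)
  unfold EB
  positivity

theorem parts_le (hβ : ∀ v m, ‖b v m‖ ≤ β) {σ : ℝ} (hσ : 1 / 2 < σ) (v : HeightOneSpectrum (𝓞 K)) {s : ℂ}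
    (hs : σ ≤ s.re) (t : J → kv v) :
    ‖lf 𝓓 b v s t‖ ≤ 𝓓.D * β * (Real.sqrt (nv v) * ‖xv v s‖) * (1 - 2 ^ (1 / 2 - σ))⁻¹ ∧
    ‖lr 𝓓 b v s‖ ≤ 𝓓.R * β * (1 * ‖xv v s‖) * (1 - 2 ^ (1 / 2 - σ))⁻¹ ∧
    ‖lc b v s‖ ≤ (β ^ 2 + β) / 2 * (Real.sqrt (nv v) * ‖xv v s‖) ^ 2 * (1 - 2 ^ (1 / 2 - σ))⁻¹ := by
  have hβ0 := beta_nonneg hβ v
  have hD := 𝓓.D_nonneg
  have hR := 𝓓.R_nonneg
  obtain ⟨h1, h2, h3, h4⟩ := basic hσ v hs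
  have hy := y0_lt hσ
  have hq : 0 ≤ Real.sqrt (nv v) := Real.sqrt_nonneg _
  have hY0 : 0 ≤ Real.sqrt (nv v) * ‖xv v s‖ := by positivity
  refine ⟨?_, ?_, ?_⟩
  · have := ell_le (by positivity) hq (ab_bound 𝓓 hβ v t) h2 hy
    rwa [div_eq_mul_inv] at this
  · have := ell_le (by positivity) zero_le_one (rb_bound 𝓓 hβ v) (h3.trans h2) hy
    rwa [div_eq_mul_inv] at this
  · have h5 : 1 * ‖(((nv v : ℝ)) : ℂ) * xv v s ^ 2‖ ≤ 2 ^ (1 / 2 - σ) := by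
      rw [one_mul, h4, sq]
      calc Real.sqrt (nv v) * ‖xv v s‖ * (Real.sqrt (nv v) * ‖xv v s‖) ≤ 1 * (Real.sqrt (nv v) * ‖xv v s‖) :=
            mul_le_mul_of_nonneg_right (h2.trans hy.le) hY0
        _ ≤ _ := by rw [one_mul]; exact h2
    have := ell_le (by positivity) zero_le_one (cb_bound hβ v) h5 hy
    rwa [div_eq_mul_inv, one_mul, h4] at this

theorem zz_le (hβ : ∀ v m, ‖b v m‖ ≤ β) {σ : ℝ} (hσ : 1 / 2 < σ) (v : HeightOneSpectrum (𝓞 K)) {s : ℂ}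
    (hs : σ ≤ s.re) (t : J → kv v) : ‖zz 𝓓 b v s t‖ ≤ EB 𝓓 β σ * (Real.sqrt (nv v) * ‖xv v s‖) := by
  have hβ0 := beta_nonneg hβ v
  have hD := 𝓓.D_nonneg
  have hR := 𝓓.R_nonneg
  obtain ⟨h1, h2, h3, h4⟩ := basic hσ v hs
  have hy := y0_lt hσ
  have hw : 0 < (1 - (2 : ℝ) ^ (1 / 2 - σ))⁻¹ := inv_pos.2 (by linarith)
  obtain ⟨p1, p2, p3⟩ := parts_le 𝓓 hβ hσ v hs t
  have hY0 : 0 ≤ Real.sqrt (nv v) * ‖xv v s‖ := by positivity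
  have hYs : (Real.sqrt (nv v) * ‖xv v s‖) ^ 2 ≤ Real.sqrt (nv v) * ‖xv v s‖ := by
    rw [sq]; exact mul_le_of_le_one_left hY0 (h2.trans hy.le)
  obtain ⟨Y, hY⟩ : ∃ Y, Y = Real.sqrt (nv v) * ‖xv v s‖ := ⟨_, rfl⟩
  obtain ⟨w, hw'⟩ : ∃ w, w = (1 - (2 : ℝ) ^ (1 / 2 - σ))⁻¹ := ⟨_, rfl⟩
  unfold zz EB
  rw [← hw'] at hw
  rw [← hY, ← hw'] at p1 p3 ⊢
  rw [← hY] at hY0 hYs h3
  rw [← hw'] at p2
  refine (norm_sub_le _ _).trans ((add_le_add ((norm_add_le _ _).trans (add_le_add p1 p2)) p3).trans ?_)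
  have q2 : 𝓓.R * β * (1 * ‖xv v s‖) * w ≤ 𝓓.R * β * Y * w := by gcongr
  have q3 : (β ^ 2 + β) / 2 * Y ^ 2 * w ≤ (β ^ 2 + β) / 2 * Y * w := by gcongr
  refine (add_le_add (add_le_add le_rfl q2) q3).trans (le_of_eq ?_)
  ring

theorem exp_zz_le (hβ : ∀ v m, ‖b v m‖ ≤ β) {σ : ℝ} (hσ : 1 / 2 < σ) (v : HeightOneSpectrum (𝓞 K)) {s : ℂ}
    (hs : σ ≤ s.re) (t : J → kv v) : ‖Complex.exp (zz 𝓓 b v s t)‖ ≤ Real.exp (EB 𝓓 β σ) := by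
  rw [Complex.norm_exp]
  refine Real.exp_le_exp.2 ((Complex.re_le_norm _).trans ((zz_le 𝓓 hβ hσ v hs t).trans ?_))
  have h := (basic hσ v hs).2.1
  exact mul_le_of_le_one_right (EB_nonneg 𝓓 (beta_nonneg hβ v) hσ) (h.trans (y0_lt hσ).le)

/-- the constant of the second order -/
noncomputable def C2 (𝓓 : TD K J) (β : ℝ) : ℝ :=
  β * (𝓓.C + 𝓓.R) + β ^ 2 * (𝓓.C + 2 * 𝓓.R * (𝓓.R + 𝓓.C) + 𝓓.R ^ 2)

theorem C2_nonneg (hβ0 : 0 ≤ β) : 0 ≤ C2 𝓓 β := by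
  have h1 := 𝓓.C_nonneg
  have h2 := 𝓓.R_nonneg
  unfold C2
  positivity

/-- **The local means are close to one.** -/
theorem hv_close (hβ : ∀ v m, ‖b v m‖ ≤ β) {σ : ℝ} (hσ : 1 / 2 < σ) (v : HeightOneSpectrum (𝓞 K)) (hv' : v ∉ 𝓓.B) {s : ℂ}
    (hs : σ ≤ s.re) : ‖hv 𝓓 b v s - 1‖ ≤ β * 𝓓.C / nv v * (nv v : ℝ) ^ (1 / 2 - σ) +
      C2 𝓓 β / Real.sqrt (nv v) * ((nv v : ℝ) ^ (1 / 2 - σ)) ^ 2 +
      BE (EB 𝓓 β σ) ((𝓓.D + 𝓓.R) * β) ((𝓓.D + 𝓓.R) * β + (β ^ 2 + β) / 2) * ((nv v : ℝ) ^ (1 / 2 - σ)) ^ 3 := by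
  have hβ0 := beta_nonneg hβ v
  have hD := 𝓓.D_nonneg
  have hR := 𝓓.R_nonneg
  have hC := 𝓓.C_nonneg
  obtain ⟨h1, h2, h3, h4⟩ := basic hσ v hs
  have hy := y0_lt hσ
  have hw0 : 0 < (1 - (2 : ℝ) ^ (1 / 2 - σ))⁻¹ := inv_pos.2 (by linarith)
  have hnv := nv_pos v
  have h1nv := one_le_nv v
  obtain ⟨Q, hQ⟩ : ∃ Q : ℝ, Q = Real.sqrt (nv v) := ⟨_, rfl⟩
  have hQ1 : 1 ≤ Q := by rw [hQ]; exact Real.one_le_sqrt.2 h1nv
  have hQ0 : 0 < Q := by linarith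
  have hQQ : (nv v : ℝ) = Q * Q := by rw [hQ, Real.mul_self_sqrt hnv.le]
  obtain ⟨X, hX⟩ : ∃ X : ℂ, X = xv v s := ⟨_, rfl⟩
  obtain ⟨Y, hY⟩ : ∃ Y : ℂ, Y = (Q : ℂ) * X := ⟨_, rfl⟩
  have hYn : ‖Y‖ = Q * ‖X‖ := by rw [hY, norm_mul, Complex.norm_real, Real.norm_of_nonneg hQ0.le]
  have hYσ : ‖Y‖ ≤ (nv v : ℝ) ^ (1 / 2 - σ) := by rw [hYn, hQ, hX]; exact h1
  have hYy : ‖Y‖ ≤ 2 ^ (1 / 2 - σ) := by rw [hYn, hQ, hX]; exact h2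
  have hY1 : ‖Y‖ ≤ 1 := hYy.trans hy.le
  have hXY : 1 * ‖X‖ ≤ ‖Y‖ := by rw [hYn, hQ, hX]; exact h3
  have hQc : (Q : ℂ) ≠ 0 := by exact_mod_cast hQ0.ne'
  have hXe : X = Y / Q := by rw [hY]; field_simp
  have hcY : (((nv v : ℝ)) : ℂ) * xv v s ^ 2 = Y ^ 2 := by rw [hQQ, ← hX, hY]; push_cast; ring
  -- the linear forms
  obtain ⟨l₁, hl₁⟩ : ∃ l₁ : (J → kv v) → ℂ, l₁ = fun t => ((𝓓.a v t 0 / Q : ℝ) : ℂ) * b v 0 + ((𝓓.r v 0 / Q : ℝ) : ℂ) * b v 0 := ⟨_, rfl⟩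
  obtain ⟨l₂, hl₂⟩ : ∃ l₂ : (J → kv v) → ℂ, l₂ = fun t => ((𝓓.a v t 1 / (Q * Q) : ℝ) : ℂ) * b v 1 / 2 +
    ((𝓓.r v 1 / (Q * Q) : ℝ) : ℂ) * b v 1 / 2 - cc (b v) 0 := ⟨_, rfl⟩
  have n2 : ‖(2 : ℂ)‖ = 2 := by simp
  have ha0 : ∀ t, |𝓓.a v t 0 / Q| ≤ 𝓓.D := by
    intro t
    rw [abs_div, abs_of_pos hQ0, div_le_iff₀ hQ0]
    have := 𝓓.bound v t 0
    rw [← hQ, zero_add, pow_one] at this
    exact this
  have ha1 : ∀ t, |𝓓.a v t 1 / (Q * Q)| ≤ 𝓓.D := by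
    intro t
    rw [abs_div, abs_of_pos (mul_pos hQ0 hQ0), div_le_iff₀ (mul_pos hQ0 hQ0)]
    have := 𝓓.bound v t 1
    rw [← hQ, show (1 + 1 : ℕ) = 2 from rfl, sq] at this
    exact this
  have hQQ1 : 1 ≤ Q * Q := one_le_mul_of_one_le_of_one_le hQ1 hQ1
  have hr0 : |𝓓.r v 0 / Q| ≤ 𝓓.R := by
    rw [abs_div, abs_of_pos hQ0, div_le_iff₀ hQ0]
    exact (𝓓.r_le v 0).trans (le_mul_of_one_le_right hR hQ1)
  have hr1 : |𝓓.r v 1 / (Q * Q)| ≤ 𝓓.R := by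
    rw [abs_div, abs_of_pos (mul_pos hQ0 hQ0), div_le_iff₀ (mul_pos hQ0 hQ0)]
    exact (𝓓.r_le v 1).trans (le_mul_of_one_le_right hR hQQ1)
  have hb1l : ∀ t, ‖l₁ t‖ ≤ (𝓓.D + 𝓓.R) * β := by
    intro t
    rw [hl₁]
    refine (norm_add_le _ _).trans ?_
    rw [norm_mul, norm_mul, Complex.norm_real, Complex.norm_real, Real.norm_eq_abs, Real.norm_eq_abs, add_mul]
    exact add_le_add (mul_le_mul (ha0 t) (hβ v 0) (norm_nonneg _) hD) (mul_le_mul hr0 (hβ v 0) (norm_nonneg _) hR)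
  have hb2l : ∀ t, ‖l₂ t‖ ≤ (𝓓.D + 𝓓.R) * β + (β ^ 2 + β) / 2 := by
    intro t
    rw [hl₂]
    refine (norm_sub_le _ _).trans (add_le_add ((norm_add_le _ _).trans ?_) (cc_le (hβ v) 0))
    rw [norm_div, norm_div, norm_mul, norm_mul, n2, Complex.norm_real, Complex.norm_real, Real.norm_eq_abs, Real.norm_eq_abs]
    have i1 := mul_le_mul (ha1 t) (hβ v 1) (norm_nonneg _) hD
    have i2 := mul_le_mul hr1 (hβ v 1) (norm_nonneg _) hR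
    have i3 : 0 ≤ 𝓓.D * β := by positivity
    have i4 : 0 ≤ 𝓓.R * β := by positivity
    have i5 : 0 ≤ |𝓓.a v t 1 / (Q * Q)| * ‖b v 1‖ := by positivity
    have i6 : 0 ≤ |𝓓.r v 1 / (Q * Q)| * ‖b v 1‖ := by positivity
    rw [add_mul]
    linarith
  -- the expansion
  have hz : ∀ t, ‖zz 𝓓 b v s t‖ ≤ EB 𝓓 β σ * ‖Y‖ := by
    intro t
    rw [hYn, hQ, hX]
    exact zz_le 𝓓 hβ hσ v hs t
  have hE : ∀ t, ‖zz 𝓓 b v s t - (l₁ t * Y + l₂ t * Y ^ 2)‖ ≤ EB 𝓓 β σ * ‖Y‖ ^ 3 := by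
    intro t
    have h5 : 1 * ‖(((nv v : ℝ)) : ℂ) * xv v s ^ 2‖ ≤ 2 ^ (1 / 2 - σ) := by
      rw [one_mul, hcY, norm_pow, sq]
      exact (mul_le_of_le_one_left (norm_nonneg _) hY1).trans hYy
    obtain ⟨y₀, hy₀⟩ : ∃ y : ℝ, y = 2 ^ (1 / 2 - σ) := ⟨_, rfl⟩
    have h2' := h2
    have hy' := hy
    have hwy : (1 - (2 : ℝ) ^ (1 / 2 - σ))⁻¹ = (1 - y₀)⁻¹ := by rw [hy₀]
    rw [← hy₀] at h2' hy' h5
    have k1 := ell_tail (by positivity) (Real.sqrt_nonneg _) (ab_bound 𝓓 hβ v t) h2' hy' 2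
    have k2 := ell_tail (by positivity) zero_le_one (rb_bound 𝓓 hβ v) (h3.trans h2') hy' 2
    have k3 := ell_tail (by positivity) zero_le_one (cb_bound hβ v) h5 hy' 1
    rw [← hQ, ← hX, ← hYn] at k1
    rw [← hX] at k2
    rw [hcY] at k3
    simp only [Finset.sum_range_succ, Finset.sum_range_zero, zero_add, Nat.cast_zero, Nat.cast_one, div_eq_mul_inv,
      pow_one, one_mul, inv_one, mul_one, norm_pow] at k1 k2 k3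
    have e : zz 𝓓 b v s t - (l₁ t * Y + l₂ t * Y ^ 2) =
        (ell (fun m => (𝓓.a v t m : ℂ) * b v m) X - ((𝓓.a v t 0 : ℂ) * b v 0 * X + (𝓓.a v t 1 : ℂ) * b v 1 * X ^ (1 + 1) * (1 + 1)⁻¹)) +
        (ell (fun m => (𝓓.r v m : ℂ) * b v m) X - ((𝓓.r v 0 : ℂ) * b v 0 * X + (𝓓.r v 1 : ℂ) * b v 1 * X ^ (1 + 1) * (1 + 1)⁻¹)) -
        (ell (cc (b v)) (Y ^ 2) - cc (b v) 0 * Y ^ 2) := by
      unfold zz lf lr lc
      rw [hcY, ← hX, hl₁, hl₂, hY]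
      push_cast
      field_simp
      ring
    rw [e]
    obtain ⟨w, hw'⟩ : ∃ w, w = (1 - y₀)⁻¹ := ⟨_, rfl⟩
    have hEBw : EB 𝓓 β σ = (𝓓.D * β + 𝓓.R * β + (β ^ 2 + β) / 2) * w := by rw [hw', ← hwy]; rfl
    rw [← hw'] at k1 k2 k3
    have hwp : 0 ≤ w := by rw [hw', ← hwy]; exact hw0.le
    rw [hEBw]
    refine (norm_sub_le _ _).trans ((add_le_add ((norm_add_le _ _).trans (add_le_add k1 k2)) k3).trans ?_)
    have hX3 : ‖X‖ ^ 3 ≤ ‖Y‖ ^ 3 := pow_le_pow_left₀ (norm_nonneg _) (by rwa [one_mul] at hXY) 3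
    have hY43 : (‖Y‖ ^ 2) ^ 2 ≤ ‖Y‖ ^ 3 := by
      rw [← pow_mul]
      exact pow_le_pow_of_le_one (norm_nonneg _) hY1 (by norm_num)
    have j2 : 𝓓.R * β * ‖X‖ ^ 3 * w ≤ 𝓓.R * β * ‖Y‖ ^ 3 * w := by gcongr
    have j3 : (β ^ 2 + β) / 2 * (‖Y‖ ^ 2) ^ 2 * w ≤ (β ^ 2 + β) / 2 * ‖Y‖ ^ 3 * w := by gcongr
    have e3 : (𝓓.D * β + 𝓓.R * β + (β ^ 2 + β) / 2) * w * ‖Y‖ ^ 3 =
      𝓓.D * β * ‖Y‖ ^ 3 * w + 𝓓.R * β * ‖Y‖ ^ 3 * w + (β ^ 2 + β) / 2 * ‖Y‖ ^ 3 * w := by ring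
    rw [e3]
    refine add_le_add (add_le_add (le_of_eq ?_) (le_trans (le_of_eq ?_) j2)) (le_trans (le_of_eq ?_) j3)
    · ring
    · ring
    · ring
  -- the means
  have q1 := 𝓓.m1 v hv'
  have q2 := 𝓓.m2 v hv'
  have q3 := 𝓓.m3 v hv'
  have hcard : (0 : ℝ) < (Fintype.card (J → kv v) : ℝ) := by exact_mod_cast Fintype.card_pos
  obtain ⟨E₁, hE₁⟩ : ∃ E : ℝ, E = (∑ t, 𝓓.a v t 0) / (Fintype.card (J → kv v) : ℝ) := ⟨_, rfl⟩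
  obtain ⟨E₂, hE₂⟩ : ∃ E : ℝ, E = (∑ t, (𝓓.a v t 0) ^ 2) / (Fintype.card (J → kv v) : ℝ) := ⟨_, rfl⟩
  obtain ⟨E₃, hE₃⟩ : ∃ E : ℝ, E = (∑ t, 𝓓.a v t 1) / (Fintype.card (J → kv v) : ℝ) := ⟨_, rfl⟩
  rw [← hE₁, ← hQ] at q1
  rw [← hE₂, ← hQ, hQQ] at q2
  rw [← hE₃, ← hQ, hQQ] at q3
  have M1 : ‖avg Finset.univ l₁‖ ≤ β * 𝓓.C / nv v := by
    have e : avg Finset.univ l₁ = b v 0 * (((E₁ + 𝓓.r v 0) / Q : ℝ) : ℂ) := by
      unfold avg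
      rw [hl₁, hE₁]
      have g : ∀ t : J → kv v, ((𝓓.a v t 0 / Q : ℝ) : ℂ) * b v 0 + ((𝓓.r v 0 / Q : ℝ) : ℂ) * b v 0 =
          (b v 0 / Q) * (𝓓.a v t 0 : ℂ) + (b v 0 / Q) * 𝓓.r v 0 := by
        intro t; push_cast; ring
      rw [Finset.sum_congr rfl fun t _ => g t, Finset.sum_add_distrib, ← Finset.mul_sum, Finset.sum_const, nsmul_eq_mul,
        Finset.card_univ]
      have hc : (Fintype.card (J → kv v) : ℂ) ≠ 0 := by exact_mod_cast hcard.ne'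
      push_cast
      field_simp
    rw [e, norm_mul, Complex.norm_real, Real.norm_eq_abs, abs_div, abs_of_pos hQ0, hQQ]
    calc ‖b v 0‖ * (|E₁ + 𝓓.r v 0| / Q) ≤ β * (𝓓.C / Q / Q) := by gcongr; exact hβ v 0
      _ = _ := by field_simp
  have M2 : ‖avg Finset.univ (fun t => l₂ t + l₁ t ^ 2 / 2)‖ ≤ C2 𝓓 β / Real.sqrt (nv v) := by
    have e : avg Finset.univ (fun t => l₂ t + l₁ t ^ 2 / 2) =
        b v 1 * (((E₃ + Q * Q) / (Q * Q) / 2 : ℝ) : ℂ) + b v 1 * ((𝓓.r v 1 / (Q * Q) / 2 : ℝ) : ℂ) +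
        b v 0 ^ 2 * ((((E₂ - Q * Q) + 2 * 𝓓.r v 0 * E₁ + 𝓓.r v 0 ^ 2) / (Q * Q) / 2 : ℝ) : ℂ) := by
      unfold avg
      rw [hl₁, hl₂, hE₁, hE₂, hE₃]
      have g : ∀ t : J → kv v, ((𝓓.a v t 1 / (Q * Q) : ℝ) : ℂ) * b v 1 / 2 + ((𝓓.r v 1 / (Q * Q) : ℝ) : ℂ) * b v 1 / 2 - cc (b v) 0 +
          (((𝓓.a v t 0 / Q : ℝ) : ℂ) * b v 0 + ((𝓓.r v 0 / Q : ℝ) : ℂ) * b v 0) ^ 2 / 2 =
          (b v 1 / (Q * Q) / 2) * (𝓓.a v t 1 : ℂ) + (b v 0 ^ 2 / (Q * Q) / 2) * ((𝓓.a v t 0 : ℂ)) ^ 2 +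
          (b v 0 ^ 2 * 𝓓.r v 0 / (Q * Q)) * (𝓓.a v t 0 : ℂ) +
          (b v 1 * 𝓓.r v 1 / (Q * Q) / 2 + b v 0 ^ 2 * 𝓓.r v 0 ^ 2 / (Q * Q) / 2 - (b v 0 ^ 2 - b v 1) / 2) := by
        intro t
        unfold cc
        push_cast
        field_simp
        ring
      simp only [g]
      rw [Finset.sum_add_distrib, Finset.sum_add_distrib, Finset.sum_add_distrib, ← Finset.mul_sum, ← Finset.mul_sum,
        ← Finset.mul_sum, Finset.sum_const, nsmul_eq_mul, Finset.card_univ]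
      have hc : (Fintype.card (J → kv v) : ℂ) ≠ 0 := by exact_mod_cast hcard.ne'
      push_cast
      field_simp
      ring
    have hE₁le : |E₁| ≤ 𝓓.R + 𝓓.C := by
      have e1 : E₁ = (E₁ + 𝓓.r v 0) - 𝓓.r v 0 := by ring
      rw [e1]
      refine (abs_sub _ _).trans ?_
      have := q1.trans (div_le_self hC hQ1)
      linarith [𝓓.r_le v 0]
    rw [e, ← hQ]
    have t1 : ‖b v 1 * (((E₃ + Q * Q) / (Q * Q) / 2 : ℝ) : ℂ)‖ ≤ β * 𝓓.C / Q := by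
      rw [norm_mul, Complex.norm_real, Real.norm_eq_abs, abs_div, abs_div, abs_of_pos (mul_pos hQ0 hQ0), abs_two]
      have i1 : |E₃ + Q * Q| / (Q * Q) / 2 ≤ 𝓓.C * Q / (Q * Q) := by
        have i0 : |E₃ + Q * Q| / (Q * Q) ≤ 𝓓.C * Q / (Q * Q) := by gcongr
        have i00 : 0 ≤ |E₃ + Q * Q| / (Q * Q) := by positivity
        linarith
      calc ‖b v 1‖ * (|E₃ + Q * Q| / (Q * Q) / 2) ≤ β * (𝓓.C * Q / (Q * Q)) := by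
            refine mul_le_mul (hβ v 1) i1 (by positivity) hβ0
        _ = _ := by field_simp
    have t2 : ‖b v 1 * ((𝓓.r v 1 / (Q * Q) / 2 : ℝ) : ℂ)‖ ≤ β * 𝓓.R / Q := by
      rw [norm_mul, Complex.norm_real, Real.norm_eq_abs, abs_div, abs_div, abs_of_pos (mul_pos hQ0 hQ0), abs_two]
      have i1 : |𝓓.r v 1| / (Q * Q) / 2 ≤ 𝓓.R / Q := by
        have i0 : |𝓓.r v 1| / (Q * Q) ≤ 𝓓.R / Q := by
          rw [div_le_div_iff₀ (mul_pos hQ0 hQ0) hQ0]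
          calc |𝓓.r v 1| * Q ≤ 𝓓.R * (Q * Q) := by
                refine mul_le_mul (𝓓.r_le v 1) (le_mul_of_one_le_left hQ0.le hQ1) hQ0.le hR
            _ = _ := rfl
        have i00 : 0 ≤ |𝓓.r v 1| / (Q * Q) := by positivity
        linarith
      calc ‖b v 1‖ * (|𝓓.r v 1| / (Q * Q) / 2) ≤ β * (𝓓.R / Q) := mul_le_mul (hβ v 1) i1 (by positivity) hβ0
        _ = _ := by ring
    have t3 : ‖b v 0 ^ 2 * ((((E₂ - Q * Q) + 2 * 𝓓.r v 0 * E₁ + 𝓓.r v 0 ^ 2) / (Q * Q) / 2 : ℝ) : ℂ)‖ ≤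
        β ^ 2 * (𝓓.C + 2 * 𝓓.R * (𝓓.R + 𝓓.C) + 𝓓.R ^ 2) / Q := by
      rw [norm_mul, norm_pow, Complex.norm_real, Real.norm_eq_abs, abs_div, abs_div, abs_of_pos (mul_pos hQ0 hQ0), abs_two]
      have i0 : |(E₂ - Q * Q) + 2 * 𝓓.r v 0 * E₁ + 𝓓.r v 0 ^ 2| ≤ 𝓓.C * Q + 2 * 𝓓.R * (𝓓.R + 𝓓.C) + 𝓓.R ^ 2 := by
        refine (abs_add_le _ _).trans (add_le_add ((abs_add_le _ _).trans (add_le_add q2 ?_)) ?_)
        · rw [abs_mul, abs_mul, abs_two]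
          have := 𝓓.r_le v 0
          gcongr
        · rw [abs_pow]; exact pow_le_pow_left₀ (abs_nonneg _) (𝓓.r_le v 0) 2
      have i1 : |(E₂ - Q * Q) + 2 * 𝓓.r v 0 * E₁ + 𝓓.r v 0 ^ 2| / (Q * Q) / 2 ≤ (𝓓.C + 2 * 𝓓.R * (𝓓.R + 𝓓.C) + 𝓓.R ^ 2) / Q := by
        have i2 : |(E₂ - Q * Q) + 2 * 𝓓.r v 0 * E₁ + 𝓓.r v 0 ^ 2| / (Q * Q) ≤ (𝓓.C + 2 * 𝓓.R * (𝓓.R + 𝓓.C) + 𝓓.R ^ 2) / Q := by
          rw [div_le_div_iff₀ (mul_pos hQ0 hQ0) hQ0]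
          have i3 : 𝓓.C * Q + 2 * 𝓓.R * (𝓓.R + 𝓓.C) + 𝓓.R ^ 2 ≤ (𝓓.C + 2 * 𝓓.R * (𝓓.R + 𝓓.C) + 𝓓.R ^ 2) * Q := by
            have i4 : 0 ≤ 2 * 𝓓.R * (𝓓.R + 𝓓.C) + 𝓓.R ^ 2 := by positivity
            nlinarith
          calc |(E₂ - Q * Q) + 2 * 𝓓.r v 0 * E₁ + 𝓓.r v 0 ^ 2| * Q ≤ ((𝓓.C + 2 * 𝓓.R * (𝓓.R + 𝓓.C) + 𝓓.R ^ 2) * Q) * Q :=
                mul_le_mul_of_nonneg_right (i0.trans i3) hQ0.le
            _ = _ := by ring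
        have i00 : 0 ≤ |(E₂ - Q * Q) + 2 * 𝓓.r v 0 * E₁ + 𝓓.r v 0 ^ 2| / (Q * Q) := by positivity
        linarith
      calc ‖b v 0‖ ^ 2 * (|(E₂ - Q * Q) + 2 * 𝓓.r v 0 * E₁ + 𝓓.r v 0 ^ 2| / (Q * Q) / 2) ≤
            β ^ 2 * ((𝓓.C + 2 * 𝓓.R * (𝓓.R + 𝓓.C) + 𝓓.R ^ 2) / Q) :=
            mul_le_mul (pow_le_pow_left₀ (norm_nonneg _) (hβ v 0) 2) i1 (by positivity) (by positivity)
        _ = _ := by ring
    refine (norm_add_le _ _).trans ((add_le_add ((norm_add_le _ _).trans (add_le_add t1 t2)) t3).trans (le_of_eq ?_))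
    unfold C2
    ring
  have hA0 := EB_nonneg 𝓓 hβ0 hσ
  have hfin := avg_exp_close (fun t => zz 𝓓 b v s t) l₁ l₂ Y hA0 (by positivity) (by positivity) hY1 hz hE hb1l hb2l M1 M2
  unfold Run7.h61.TW.hv
  have hBE : 0 ≤ BE (EB 𝓓 β σ) ((𝓓.D + 𝓓.R) * β) ((𝓓.D + 𝓓.R) * β + (β ^ 2 + β) / 2) := by unfold BE; positivity
  have hC2 := C2_nonneg 𝓓 hβ0
  refine hfin.trans (add_le_add (add_le_add ?_ ?_) ?_)
  · exact mul_le_mul_of_nonneg_left hYσ (by positivity)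
  · exact mul_le_mul_of_nonneg_left (pow_le_pow_left₀ (norm_nonneg _) hYσ 2) (by positivity)
  · exact mul_le_mul_of_nonneg_left (pow_le_pow_left₀ (norm_nonneg _) hYσ 3) hBE

open Classical in
/-- **The majorant.** -/
theorem exists_maj (hβ : ∀ v m, ‖b v m‖ ≤ β) {σ : ℝ} (hσ : 5 / 6 < σ) :
    ∃ u : HeightOneSpectrum (𝓞 K) → ℝ, Summable u ∧
      ∀ (v : HeightOneSpectrum (𝓞 K)) (s : ℂ), σ ≤ s.re → ‖hv 𝓓 b v s - 1‖ ≤ u v := by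
  have hσ2 : 1 / 2 < σ := by linarith
  obtain ⟨D₀, hD₀⟩ : ∃ D₀ : ℝ, D₀ = Real.exp (EB 𝓓 β σ) + 1 := ⟨_, rfl⟩
  obtain ⟨B₃, hB₃⟩ : ∃ B₃ : ℝ, B₃ = BE (EB 𝓓 β σ) ((𝓓.D + 𝓓.R) * β) ((𝓓.D + 𝓓.R) * β + (β ^ 2 + β) / 2) := ⟨_, rfl⟩
  obtain ⟨u, hu⟩ : ∃ u : HeightOneSpectrum (𝓞 K) → ℝ, u = fun v => β * 𝓓.C * (nv v : ℝ) ^ (-(1 / 2 + σ)) +
    C2 𝓓 β * (nv v : ℝ) ^ (-(2 * σ - 1 / 2)) + B₃ * (nv v : ℝ) ^ (-(3 * σ - 3 / 2)) := ⟨_, rfl⟩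
  have hsum : Summable u := by
    rw [hu]
    exact (((Pool.Agent.H921R2.TatePole.nm_summable (K := K) (x := 1 / 2 + σ) (by linarith)).mul_left _).add
        ((Pool.Agent.H921R2.TatePole.nm_summable (K := K) (x := 2 * σ - 1 / 2) (by linarith)).mul_left _)).add
        ((Pool.Agent.H921R2.TatePole.nm_summable (K := K) (x := 3 * σ - 3 / 2) (by linarith)).mul_left _)
  refine ⟨fun v => |u v| + (if v ∈ 𝓓.B then D₀ else 0), hsum.abs.add ?_, fun v s hs => ?_⟩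
  · refine summable_of_hasFiniteSupport (𝓓.B_fin.subset fun v hv => ?_)
    by_contra hc
    apply hv
    exact if_neg hc
  · have hβ0 := beta_nonneg hβ v
    by_cases hvB : v ∈ 𝓓.B
    · simp only [if_pos hvB]
      have h1 : ‖hv 𝓓 b v s - 1‖ ≤ D₀ := by
        unfold Run7.h61.TW.hv
        refine (norm_sub_le _ _).trans ?_
        rw [norm_one, hD₀]
        refine add_le_add_left ?_ _
        exact norm_avg_le _ _ _ (Real.exp_pos _).le fun t _ => exp_zz_le 𝓓 hβ hσ2 v hs t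
      have h2 := abs_nonneg (u v)
      linarith
    · simp only [if_neg hvB, add_zero]
      refine (hv_close 𝓓 hβ hσ2 v hvB hs).trans (le_trans (le_of_eq ?_) (le_abs_self _))
      have hnv := nv_pos v
      rw [hu, ← hB₃]
      have e1 : (nv v : ℝ) ^ (-(1 / 2 + σ)) = (nv v : ℝ) ^ (1 / 2 - σ) / nv v := by
        rw [show -(1 / 2 + σ) = (1 / 2 - σ) - 1 by ring, Real.rpow_sub hnv, Real.rpow_one]
      have e2 : (nv v : ℝ) ^ (-(2 * σ - 1 / 2)) = ((nv v : ℝ) ^ (1 / 2 - σ)) ^ 2 / Real.sqrt (nv v) := by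
        rw [← Real.rpow_natCast ((nv v : ℝ) ^ (1 / 2 - σ)) 2, ← Real.rpow_mul hnv.le, Real.sqrt_eq_rpow, ← Real.rpow_sub hnv]
        congr 1
        push_cast
        ring
      have e3 : (nv v : ℝ) ^ (-(3 * σ - 3 / 2)) = ((nv v : ℝ) ^ (1 / 2 - σ)) ^ 3 := by
        rw [← Real.rpow_natCast ((nv v : ℝ) ^ (1 / 2 - σ)) 3, ← Real.rpow_mul hnv.le]
        congr 1
        push_cast
        ring
      simp only [e1, e2, e3]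
      ring

/-! ### holomorphy -/

theorem zz_diff (hβ : ∀ v m, ‖b v m‖ ≤ β) {σ : ℝ} (hσ : 1 / 2 < σ) (v : HeightOneSpectrum (𝓞 K)) (t : J → kv v)
    {s : ℂ} (hs : σ ≤ s.re) : DifferentiableAt ℂ (fun s => zz 𝓓 b v s t) s := by
  have hβ0 := beta_nonneg hβ v
  have hD := 𝓓.D_nonneg
  have hR := 𝓓.R_nonneg
  obtain ⟨h1, h2, h3, h4⟩ := basic hσ v hs
  have hy := y0_lt hσ
  have hx := Run7.h876.MM.xv_diff v s
  have d1 : DifferentiableAt ℂ (fun s => lf 𝓓 b v s t) s :=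
    (ell_diff (by positivity) (Real.sqrt_nonneg _) (ab_bound 𝓓 hβ v t) (h2.trans_lt hy)).comp s hx
  have d2 : DifferentiableAt ℂ (fun s => lr 𝓓 b v s) s :=
    (ell_diff (by positivity) zero_le_one (rb_bound 𝓓 hβ v) ((h3.trans h2).trans_lt hy)).comp s hx
  have d3 : DifferentiableAt ℂ (fun s => lc b v s) s := by
    refine DifferentiableAt.comp (f := fun s => (((nv v : ℝ)) : ℂ) * xv v s ^ 2) (g := ell (cc (b v))) s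
      (ell_diff (by positivity) zero_le_one (cb_bound hβ v) ?_) (by fun_prop)
    rw [one_mul, h4, sq]
    have hY0 : 0 ≤ Real.sqrt (nv v) * ‖xv v s‖ := by positivity
    exact (mul_le_of_le_one_left hY0 (h2.trans hy.le)).trans_lt (h2.trans_lt hy)
  unfold zz
  exact (d1.add d2).sub d3

theorem hv_diff (hβ : ∀ v m, ‖b v m‖ ≤ β) {σ : ℝ} (hσ : 1 / 2 < σ) (v : HeightOneSpectrum (𝓞 K)) {s : ℂ}
    (hs : σ ≤ s.re) : DifferentiableAt ℂ (hv 𝓓 b v) s := by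
  unfold hv avg
  exact (DifferentiableAt.fun_sum fun t _ => (zz_diff 𝓓 hβ hσ v t hs).cexp).div_const _

theorem GG_diff (hβ : ∀ v m, ‖b v m‖ ≤ β) : DifferentiableOn ℂ (GG 𝓓 b) {s | 5 / 6 < s.re} := by
  classical
  intro s₀ hs₀
  have hs₀' : 5 / 6 < s₀.re := hs₀
  set σ : ℝ := (5 / 6 + s₀.re) / 2 with hσ
  have hσ1 : 5 / 6 < σ := by rw [hσ]; linarith
  have hσ2 : σ < s₀.re := by rw [hσ]; linarith
  obtain ⟨u, hu, hub⟩ := exists_maj 𝓓 hβ hσ1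
  have hopen : IsOpen {s : ℂ | σ < s.re} := isOpen_lt continuous_const Complex.continuous_re
  have hT : TendstoUniformlyOn (fun (F : Finset (HeightOneSpectrum (𝓞 K))) s => ∏ v ∈ F, hv 𝓓 b v s) (GG 𝓓 b) atTop
      {s : ℂ | σ < s.re} := by
    rw [Metric.tendstoUniformlyOn_iff]
    intro ε hε
    obtain ⟨S, hS⟩ := tail_small hu hε
    filter_upwards [Filter.eventually_ge_atTop S] with F hF s hs
    rw [dist_eq_norm]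
    have hs' : σ < s.re := hs
    exact (tail_bound hu (fun v => hub v s hs'.le) F).trans_lt (hS F hF)
  have hd := hT.tendstoLocallyUniformlyOn.differentiableOn (Filter.Eventually.of_forall fun F s hs => by
    have hs' : σ < s.re := hs
    exact (DifferentiableAt.fun_finsetProd fun v _ => hv_diff 𝓓 hβ (by linarith) v hs'.le).differentiableWithinAt) hopen
  exact ((hd s₀ hσ2).differentiableAt (hopen.mem_nhds hσ2)).differentiableWithinAt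

/-! ### positivity -/

theorem zz_real {b' : HeightOneSpectrum (𝓞 K) → ℕ → ℝ} (hb : ∀ v m, b v m = b' v m) (x : ℝ) (v : HeightOneSpectrum (𝓞 K)) (t : J → kv v) :
    ∃ r : ℝ, zz 𝓓 b v x t = (r : ℂ) := by
  obtain ⟨r1, h1⟩ := ell_real (fun m => 𝓓.a v t m * b' v m) ((nv v : ℝ) ^ (-x))
  obtain ⟨r2, h2⟩ := ell_real (fun m => 𝓓.r v m * b' v m) ((nv v : ℝ) ^ (-x))
  obtain ⟨r3, h3⟩ := ell_real (fun m => (b' v m ^ 2 - b' v (2 * m + 1)) / 2) ((nv v : ℝ) * ((nv v : ℝ) ^ (-x)) ^ 2)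
  refine ⟨r1 + r2 - r3, ?_⟩
  have e1 : (fun m => (𝓓.a v t m : ℂ) * b v m) = fun m => ((𝓓.a v t m * b' v m : ℝ) : ℂ) := by
    funext m; rw [hb]; push_cast; rfl
  have e2 : (fun m => (𝓓.r v m : ℂ) * b v m) = fun m => ((𝓓.r v m * b' v m : ℝ) : ℂ) := by
    funext m; rw [hb]; push_cast; rfl
  have e3 : cc (b v) = fun m => (((b' v m ^ 2 - b' v (2 * m + 1)) / 2 : ℝ) : ℂ) := by
    funext m; unfold cc; rw [hb, hb]; push_cast; rfl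
  have e4 : (((nv v : ℝ)) : ℂ) * ((((nv v : ℝ) ^ (-x) : ℝ)) : ℂ) ^ 2 = (((nv v : ℝ) * ((nv v : ℝ) ^ (-x)) ^ 2 : ℝ) : ℂ) := by
    push_cast; rfl
  unfold zz lf lr lc
  rw [e1, e2, e3, xv_real, e4, h1, h2, h3]
  push_cast
  rfl

theorem hv_real {b' : HeightOneSpectrum (𝓞 K) → ℕ → ℝ} (hb : ∀ v m, b v m = b' v m) (x : ℝ) (v : HeightOneSpectrum (𝓞 K)) :
    ∃ r : ℝ, 0 < r ∧ hv 𝓓 b v (x : ℂ) = (r : ℂ) := by
  choose r hr using fun t => zz_real 𝓓 hb x v t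
  refine ⟨(∑ t, Real.exp (r t)) / (Fintype.card (J → kv v)), ?_, ?_⟩
  · have h1 : 0 < ∑ t, Real.exp (r t) := Finset.sum_pos (fun t _ => Real.exp_pos _) ⟨fun _ => 0, Finset.mem_univ _⟩
    have h2 : (0 : ℝ) < Fintype.card (J → kv v) := by exact_mod_cast Fintype.card_pos
    positivity
  · unfold hv avg
    simp only [hr]
    rw [Finset.card_univ]
    push_cast
    rfl

theorem GG_real (hβ : ∀ v m, ‖b v m‖ ≤ β) {b' : HeightOneSpectrum (𝓞 K) → ℕ → ℝ} (hb : ∀ v m, b v m = b' v m) {x : ℝ} (hx : 5 / 6 < x) :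
    ∃ r : ℝ, 0 < r ∧ GG 𝓓 b (x : ℂ) = (r : ℂ) := by
  obtain ⟨u, hu, hub⟩ := exists_maj 𝓓 hβ hx
  have hbd : ∀ v, ‖hv 𝓓 b v (x : ℂ) - 1‖ ≤ u v := fun v => hub v _ (by simp)
  have h1 := (mult_of hu hbd).hasProd
  choose r hr hr2 using fun v => hv_real 𝓓 hb x v
  have hne : GG 𝓓 b (x : ℂ) ≠ 0 := tprod_ne hu hbd fun v => by
    rw [hr2 v]; exact_mod_cast (hr v).ne'
  have hprod : ∀ F : Finset (HeightOneSpectrum (𝓞 K)), ∏ v ∈ F, hv 𝓓 b v (x : ℂ) = ((∏ v ∈ F, r v : ℝ) : ℂ) := by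
    intro F
    rw [Finset.prod_congr rfl fun v _ => hr2 v]
    push_cast; rfl
  have hre : Tendsto (fun F : Finset (HeightOneSpectrum (𝓞 K)) => (∏ v ∈ F, r v : ℝ)) atTop
      (𝓝 (GG 𝓓 b (x : ℂ)).re) := by
    have := (Complex.continuous_re.tendsto _).comp h1
    refine this.congr fun F => ?_
    simp only [Function.comp_apply, hprod, Complex.ofReal_re]
  have him : Tendsto (fun _ : Finset (HeightOneSpectrum (𝓞 K)) => (0 : ℝ)) atTop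
      (𝓝 (GG 𝓓 b (x : ℂ)).im) := by
    have := (Complex.continuous_im.tendsto _).comp h1
    refine this.congr fun F => ?_
    simp only [Function.comp_apply, hprod, Complex.ofReal_im]
  have him0 : (GG 𝓓 b (x : ℂ)).im = 0 := tendsto_nhds_unique him tendsto_const_nhds
  have hre0 : 0 ≤ (GG 𝓓 b (x : ℂ)).re := ge_of_tendsto' hre fun F => (Finset.prod_pos fun v _ => hr v).le
  have he : GG 𝓓 b (x : ℂ) = ((GG 𝓓 b (x : ℂ)).re : ℂ) := by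
    apply Complex.ext
    · simp
    · simp [him0]
  refine ⟨(GG 𝓓 b (x : ℂ)).re, lt_of_le_of_ne hre0 fun h => hne ?_, he⟩
  rw [he, ← h]; simp

end

end Run7.h61.TW
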