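import Pool.Agent.Run7.h876.EN.FF3

/-!
# The moments of the traces of Frobenius in the family `U + m (a X + b)`, `m` any monic polynomial
-/

set_option autoImplicit false
set_option linter.unusedSectionVars false

namespace Run7.h61.TW

open Finset Polynomial
open Pool.Agent.H341R2.Sharp
open Run7.h876.EN (IsCSq sum_sq_chi trc T_le_of T_one exists_ext one_le_sq dlt trc_le)

section
variable {k : Type} [Field k] [Fintype k] [DecidableEq k]

/-- The polynomial `U + m (a X + b)`. -/
noncomputable def fm (U m : k[X]) (t : k × k) : k[X] := U + m * (C t.1 * X + C t.2)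

/-- the sum over the roots of `m` -/
noncomputable def sR (U m : k[X]) : ℤ := ∑ x : k, if m.eval x = 0 then quadraticChar k (U.eval x) else 0

/-- the number of the roots of `m` -/
noncomputable def nR (m : k[X]) : ℕ := #{x : k | m.eval x = 0}

theorem nR_le {m : k[X]} (hm : m ≠ 0) : nR m ≤ m.natDegree := by
  unfold nR
  have h1 : ({x : k | m.eval x = 0} : Finset k) ⊆ m.roots.toFinset := by
    intro x hx
    rw [Multiset.mem_toFinset, mem_roots hm]
    exact (Finset.mem_filter.1 hx).2
  exact (Finset.card_le_card h1).trans ((Multiset.toFinset_card_le _).trans (card_roots' _))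

theorem qc_le_one (x : k) : |((quadraticChar k x : ℤ) : ℝ)| ≤ 1 := by
  by_cases h0 : x = 0
  · rw [h0, MulChar.map_zero]; simp
  · rcases quadraticChar_dichotomy h0 with h | h <;> rw [h] <;> simp

theorem sR_le (U : k[X]) {m : k[X]} (hm : m ≠ 0) : |((sR U m : ℤ) : ℝ)| ≤ m.natDegree := by
  have h1 : |((sR U m : ℤ) : ℝ)| ≤ nR m := by
    unfold sR nR
    push_cast
    refine (Finset.abs_sum_le_sum_abs _ _).trans ?_
    rw [Finset.card_filter]
    push_cast
    refine Finset.sum_le_sum fun x _ => ?_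
    split_ifs
    · exact qc_le_one _
    · simp
  exact h1.trans (by exact_mod_cast nR_le hm)

theorem fm_eval (U m : k[X]) (t : k × k) (x : k) : (fm U m t).eval x = U.eval x + m.eval x * (t.1 * x + t.2) := by
  unfold fm
  simp

theorem fm_aeval {E : Type} [Field E] [Algebra k E] (U m : k[X]) (t : k × k) (x : E) :
    aeval x (fm U m t) = aeval x U + aeval x m * (algebraMap k E t.1 * x + algebraMap k E t.2) := by
  unfold fm
  simp

theorem fm_monic {U m : k[X]} (hU : U.Monic) (hd : m.natDegree + 2 ≤ U.natDegree) (t : k × k) :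
    (fm U m t).Monic ∧ (fm U m t).natDegree = U.natDegree := by
  have h1 : (C t.1 * X + C t.2 : k[X]).natDegree ≤ 1 := by compute_degree
  have h2 : (m * (C t.1 * X + C t.2)).natDegree ≤ m.natDegree + 1 := natDegree_mul_le.trans (by omega)
  have h3 : (m * (C t.1 * X + C t.2)).degree < U.degree := by
    rw [degree_eq_natDegree hU.ne_zero]
    exact (degree_le_natDegree).trans_lt (by exact_mod_cast (by omega : (m * (C t.1 * X + C t.2)).natDegree < U.natDegree))
  unfold fm
  refine ⟨hU.add_of_left h3, ?_⟩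
  rw [natDegree_eq_of_degree_eq (degree_add_eq_left_of_degree_lt h3)]

/-! ### the first and second moments -/

theorem sum_chi_one (hk : ringChar k ≠ 2) (U m : k[X]) (x : k) :
    ∑ t : k × k, quadraticChar k ((fm U m t).eval x) =
      (if m.eval x = 0 then quadraticChar k (U.eval x) else 0) * (Fintype.card k : ℤ) ^ 2 := by
  split_ifs with h
  · have h1 : ∀ t : k × k, quadraticChar k ((fm U m t).eval x) = quadraticChar k (U.eval x) := by
      intro t
      rw [fm_eval, h, zero_mul, add_zero]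
    rw [Finset.sum_congr rfl fun t _ => h1 t, Finset.sum_const, Finset.card_univ, Fintype.card_prod, nsmul_eq_mul]
    push_cast
    ring
  · rw [Fintype.sum_prod_type, zero_mul]
    refine Finset.sum_eq_zero fun a _ => ?_
    rw [← quadraticChar_sum_zero hk]
    refine Fintype.sum_equiv ((Equiv.addLeft (a * x)).trans ((Equiv.mulLeft₀ _ h).trans (Equiv.addLeft (U.eval x)))) _ _ fun b => ?_
    rw [fm_eval]
    rfl

theorem sum_chi_two (hk : ringChar k ≠ 2) (U m : k[X]) (x y : k) :
    ∑ t : k × k, quadraticChar k ((fm U m t).eval x) * quadraticChar k ((fm U m t).eval y) =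
      if m.eval x = 0 then (if m.eval y = 0 then quadraticChar k (U.eval x) * quadraticChar k (U.eval y) * (Fintype.card k : ℤ) ^ 2 else 0)
        else (if x = y then (Fintype.card k : ℤ) ^ 2 - Fintype.card k else 0) := by
  by_cases hx : m.eval x = 0
  · rw [if_pos hx]
    have h1 : ∀ t : k × k, quadraticChar k ((fm U m t).eval x) = quadraticChar k (U.eval x) := by
      intro t
      rw [fm_eval, hx, zero_mul, add_zero]
    rw [Finset.sum_congr rfl fun t _ => by rw [h1 t], ← Finset.mul_sum, sum_chi_one hk U m y]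
    split_ifs <;> ring
  rw [if_neg hx]
  by_cases hy : m.eval y = 0
  · have hne : x ≠ y := fun h => hx (h ▸ hy)
    rw [if_neg hne]
    have h1 : ∀ t : k × k, quadraticChar k ((fm U m t).eval y) = quadraticChar k (U.eval y) := by
      intro t
      rw [fm_eval, hy, zero_mul, add_zero]
    rw [Finset.sum_congr rfl fun t _ => by rw [h1 t], ← Finset.sum_mul, sum_chi_one hk U m x, if_neg hx]
    ring
  split_ifs with hxy
  · subst hxy
    rw [Fintype.sum_prod_type]
    have h1 : ∀ a : k, ∑ b : k, quadraticChar k ((fm U m (a, b)).eval x) * quadraticChar k ((fm U m (a, b)).eval x) =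
        (Fintype.card k : ℤ) - 1 := by
      intro a
      rw [← sum_sq_chi (k := k)]
      refine Fintype.sum_equiv ((Equiv.addLeft (a * x)).trans ((Equiv.mulLeft₀ _ hx).trans (Equiv.addLeft (U.eval x)))) _ _ fun b => ?_
      rw [fm_eval, ← sq]
      rfl
    simp only [h1]
    rw [Finset.sum_const, Finset.card_univ, nsmul_eq_mul]
    ring
  · have hxy' : x - y ≠ 0 := sub_ne_zero.2 hxy
    let e : k × k ≃ k × k :=
      { toFun := fun t => (U.eval x + m.eval x * (t.1 * x + t.2), U.eval y + m.eval y * (t.1 * y + t.2))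
        invFun := fun d => (((d.1 - U.eval x) / m.eval x - (d.2 - U.eval y) / m.eval y) / (x - y),
          (d.1 - U.eval x) / m.eval x -
            ((d.1 - U.eval x) / m.eval x - (d.2 - U.eval y) / m.eval y) / (x - y) * x)
        left_inv := fun t => by
          ext
          · simp only; field_simp; ring
          · simp only; field_simp; ring
        right_inv := fun d => by
          ext
          · simp only; field_simp; ring
          · simp only; field_simp; ring }
    have h5 : ∑ t : k × k, quadraticChar k ((fm U m t).eval x) * quadraticChar k ((fm U m t).eval y) =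
        ∑ d : k × k, quadraticChar k d.1 * quadraticChar k d.2 :=
      Fintype.sum_equiv e _ _ fun t => by rw [fm_eval, fm_eval]; rfl
    rw [h5, Fintype.sum_prod_type, ← Finset.sum_mul_sum, quadraticChar_sum_zero hk, zero_mul]

/-- the character sum -/
noncomputable def T1 (U m : k[X]) (t : k × k) : ℤ := ∑ x : k, quadraticChar k ((fm U m t).eval x)

theorem sum_T1 (hk : ringChar k ≠ 2) (U m : k[X]) :
    ∑ t : k × k, T1 U m t = sR U m * (Fintype.card k : ℤ) ^ 2 := by
  unfold T1 sR
  rw [Finset.sum_comm, Finset.sum_congr rfl fun x _ => sum_chi_one hk U m x, ← Finset.sum_mul]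

theorem sum_T1_sq (hk : ringChar k ≠ 2) (U m : k[X]) :
    ∑ t : k × k, (T1 U m t) ^ 2 = (sR U m) ^ 2 * (Fintype.card k : ℤ) ^ 2 +
      ((Fintype.card k : ℤ) - nR m) * ((Fintype.card k : ℤ) ^ 2 - Fintype.card k) := by
  have h1 : ∑ t : k × k, (T1 U m t) ^ 2 = ∑ x : k, ∑ y : k, ∑ t : k × k,
      quadraticChar k ((fm U m t).eval x) * quadraticChar k ((fm U m t).eval y) := by
    have h2 : ∀ t : k × k, (T1 U m t) ^ 2 = ∑ x : k, ∑ y : k,
        quadraticChar k ((fm U m t).eval x) * quadraticChar k ((fm U m t).eval y) := by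
      intro t
      unfold T1
      rw [sq, Finset.sum_mul_sum]
    rw [Finset.sum_congr rfl fun c _ => h2 c, Finset.sum_comm]
    refine Finset.sum_congr rfl fun x _ => ?_
    rw [Finset.sum_comm]
  rw [h1]
  have h3 : ∀ x : k, ∑ y : k, ∑ t : k × k,
      quadraticChar k ((fm U m t).eval x) * quadraticChar k ((fm U m t).eval y) =
      (if m.eval x = 0 then quadraticChar k (U.eval x) else 0) * (sR U m * (Fintype.card k : ℤ) ^ 2) +
        (((Fintype.card k : ℤ) ^ 2 - Fintype.card k) - if m.eval x = 0 then ((Fintype.card k : ℤ) ^ 2 - Fintype.card k) else 0) := by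
    intro x
    rw [Finset.sum_congr rfl fun y _ => sum_chi_two hk U m x y]
    by_cases hx : m.eval x = 0
    · simp only [if_pos hx]
      unfold sR
      rw [Finset.sum_mul, Finset.mul_sum, sub_self, add_zero]
      refine Finset.sum_congr rfl fun y _ => ?_
      split_ifs <;> ring
    · simp only [if_neg hx]
      rw [Finset.sum_ite_eq Finset.univ x]
      simp
  have hn : (nR m : ℤ) = ∑ x : k, if m.eval x = 0 then (1 : ℤ) else 0 := by
    unfold nR
    rw [Finset.card_filter]
    push_cast; rfl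
  rw [Finset.sum_congr rfl fun x _ => h3 x, Finset.sum_add_distrib, ← Finset.sum_mul, Finset.sum_sub_distrib, Finset.sum_const,
    Finset.card_univ, nsmul_eq_mul, hn]
  have h4 : ∑ x : k, (if m.eval x = 0 then ((Fintype.card k : ℤ) ^ 2 - Fintype.card k) else 0) =
      ∑ x : k, (if m.eval x = 0 then (1 : ℤ) else 0) * ((Fintype.card k : ℤ) ^ 2 - Fintype.card k) := by
    refine Finset.sum_congr rfl fun x _ => ?_
    split_ifs <;> ring
  have h5 : ∑ x : k, (if m.eval x = 0 then quadraticChar k (U.eval x) else 0) = sR U m := rfl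
  rw [h4, ← Finset.sum_mul, h5]
  ring

/-! ### the quadratic extension -/

theorem sum_T2 (hk : ringChar k ≠ 2) {U m : k[X]} (hm0 : m ≠ 0) (hc : IsCoprime m U)
    (E : Type) [Field E] [Fintype E] [DecidableEq E] [Algebra k E] (hE : Module.finrank k E = 2) :
    |((∑ t : k × k, ∑ x : E, quadraticChar E (aeval x (fm U m t)) : ℤ) : ℝ) - (Fintype.card k : ℝ) ^ 3| ≤
      (1 + 2 * m.natDegree) * (Fintype.card k : ℝ) ^ 2 := by
  classical
  have hchar : ringChar E ≠ 2 := by rwa [← Algebra.ringChar_eq k E]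
  rw [Finset.sum_comm]
  -- values at the points of the small field
  have hqc : ∀ y : k, y ≠ 0 → quadraticChar E (algebraMap k E y) = 1 := by
    intro y hy
    have h1 := qc_norm (E := E) hk (algebraMap k E y)
    rw [Algebra.norm_algebraMap, hE, map_pow, quadraticChar_sq_one hy] at h1
    exact h1
  have hin : ∀ x : k, ∑ t : k × k, quadraticChar E (aeval (algebraMap k E x) (fm U m t)) =
      ((Fintype.card k : ℤ) ^ 2 - Fintype.card k) + if m.eval x = 0 then (Fintype.card k : ℤ) else 0 := by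
    intro x
    have h0 : ∀ t : k × k, quadraticChar E (aeval (algebraMap k E x) (fm U m t)) =
        quadraticChar k ((fm U m t).eval x) * quadraticChar k ((fm U m t).eval x) := by
      intro t
      rw [aeval_algebraMap_apply, ← sq]
      have e : aeval x (fm U m t) = (fm U m t).eval x := by rw [coe_aeval_eq_eval]
      rw [e]
      by_cases h : (fm U m t).eval x = 0
      · rw [h, map_zero, MulChar.map_zero, MulChar.map_zero]; norm_num
      · rw [hqc _ h, quadraticChar_sq_one h]
    rw [Finset.sum_congr rfl fun t _ => h0 t, sum_chi_two hk U m x x]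
    by_cases hx : m.eval x = 0
    · rw [if_pos hx, if_pos hx, if_pos hx]
      have hU : U.eval x ≠ 0 := by
        intro h0
        obtain ⟨a, b, hab⟩ := hc
        have := congrArg (eval x) hab
        rw [eval_add, eval_mul, eval_mul, hx, h0] at this
        simp at this
      rw [← sq, quadraticChar_sq_one hU]
      ring
    · rw [if_neg hx, if_neg hx, if_pos rfl, add_zero]
  have hout : ∀ x : E, x ∉ Set.range (algebraMap k E) → aeval x m ≠ 0 →
      ∑ t : k × k, quadraticChar E (aeval x (fm U m t)) = 0 := by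
    intro x hx hm
    have hinj : Function.Injective (fun t : k × k => algebraMap k E t.1 * x + algebraMap k E t.2) := by
      intro s t hst
      simp only at hst
      by_cases h1 : s.1 = t.1
      · rw [h1] at hst
        exact Prod.ext h1 ((algebraMap k E).injective (add_left_cancel hst))
      · exfalso
        apply hx
        have h2 : algebraMap k E (s.1 - t.1) ≠ 0 := by
          rw [Ne, map_eq_zero]; exact sub_ne_zero.2 h1
        refine ⟨(t.2 - s.2) / (s.1 - t.1), ?_⟩
        rw [map_div₀, div_eq_iff h2, map_sub, map_sub]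
        linear_combination -hst
    have hcard : Fintype.card (k × k) = Fintype.card E := by
      rw [Fintype.card_prod, Module.card_eq_pow_finrank (K := k) (V := E), hE, sq]
    have hbij : Function.Bijective (fun t : k × k => algebraMap k E t.1 * x + algebraMap k E t.2) :=
      (Fintype.bijective_iff_injective_and_card _).2 ⟨hinj, hcard⟩
    rw [← quadraticChar_sum_zero hchar]
    refine Fintype.sum_equiv ((Equiv.ofBijective _ hbij).trans ((Equiv.mulLeft₀ _ hm).trans (Equiv.addLeft (aeval x U)))) _ _ fun t => ?_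
    rw [fm_aeval]
    rfl
  set Φ : E → ℤ := fun x => ∑ t : k × k, quadraticChar E (aeval x (fm U m t)) with hΦ
  have hΦle : ∀ x : E, |((Φ x : ℤ) : ℝ)| ≤ (Fintype.card k : ℝ) ^ 2 := by
    intro x
    rw [hΦ]
    push_cast
    refine (Finset.abs_sum_le_sum_abs _ _).trans ((Finset.sum_le_sum fun t _ => qc_le_one _).trans ?_)
    rw [Finset.sum_const, Finset.card_univ, Fintype.card_prod, nsmul_eq_mul, mul_one]
    push_cast
    rw [sq]
  -- split the sum
  set I : Finset E := Finset.univ.image (algebraMap k E) with hI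
  have hsum1 : ∑ x ∈ I, Φ x = ∑ x : k, Φ (algebraMap k E x) := by
    rw [hI, Finset.sum_image fun x _ y _ h => (algebraMap k E).injective h]
  have hsplit : ∑ x : E, Φ x = ∑ x : k, Φ (algebraMap k E x) + ∑ x ∈ Finset.univ \ I, Φ x := by
    rw [← hsum1, add_comm, Finset.sum_sdiff (Finset.subset_univ I)]
  have hroots : ∑ x ∈ Finset.univ \ I, Φ x = ∑ x ∈ (Finset.univ \ I).filter (fun x => aeval x m = 0), Φ x := by
    rw [Finset.sum_filter]
    refine Finset.sum_congr rfl fun x hx => ?_
    split_ifs with h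
    · rfl
    · refine hout x ?_ h
      rintro ⟨y, hy⟩
      exact (Finset.mem_sdiff.1 hx).2 (Finset.mem_image.2 ⟨y, Finset.mem_univ _, hy⟩)
  have hcardr : ((Finset.univ \ I).filter (fun x : E => aeval x m = 0)).card ≤ m.natDegree := by
    have hmE : m.map (algebraMap k E) ≠ 0 := (Polynomial.map_ne_zero_iff (algebraMap k E).injective).2 hm0
    have h1 : (Finset.univ \ I).filter (fun x : E => aeval x m = 0) ⊆ (m.map (algebraMap k E)).roots.toFinset := by
      intro x hx
      rw [Multiset.mem_toFinset, mem_roots hmE, IsRoot, eval_map_algebraMap]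
      exact (Finset.mem_filter.1 hx).2
    exact (Finset.card_le_card h1).trans ((Multiset.toFinset_card_le _).trans ((card_roots' _).trans natDegree_map_le))
  have hr1 : |((∑ x ∈ Finset.univ \ I, Φ x : ℤ) : ℝ)| ≤ m.natDegree * (Fintype.card k : ℝ) ^ 2 := by
    rw [hroots]
    push_cast
    refine (Finset.abs_sum_le_sum_abs _ _).trans ((Finset.sum_le_sum fun x _ => hΦle x).trans ?_)
    rw [Finset.sum_const, nsmul_eq_mul]
    exact mul_le_mul_of_nonneg_right (by exact_mod_cast hcardr) (by positivity)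
  have hn : (nR m : ℤ) * Fintype.card k = ∑ x : k, if m.eval x = 0 then (Fintype.card k : ℤ) else 0 := by
    unfold nR
    rw [Finset.card_filter]
    push_cast
    rw [Finset.sum_mul]
    refine Finset.sum_congr rfl fun x _ => ?_
    split_ifs <;> ring
  have hmain : ∑ x : k, Φ (algebraMap k E x) = Fintype.card k * ((Fintype.card k : ℤ) ^ 2 - Fintype.card k) + nR m * Fintype.card k := by
    rw [Finset.sum_congr rfl fun x _ => hin x, Finset.sum_add_distrib, Finset.sum_const, Finset.card_univ, nsmul_eq_mul, hn]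
  rw [hsplit, hmain]
  have hq1 : (1 : ℝ) ≤ Fintype.card k := by exact_mod_cast Fintype.card_pos
  have hnr : ((nR m : ℕ) : ℝ) ≤ m.natDegree := by exact_mod_cast nR_le hm0
  have hnr0 : (0 : ℝ) ≤ (nR m : ℕ) := by positivity
  obtain ⟨W, hW⟩ : ∃ W : ℝ, W = ((∑ x ∈ Finset.univ \ I, Φ x : ℤ) : ℝ) := ⟨_, rfl⟩
  rw [← hW] at hr1
  have e : (((Fintype.card k * ((Fintype.card k : ℤ) ^ 2 - Fintype.card k) + nR m * Fintype.card k) + ∑ x ∈ Finset.univ \ I, Φ x : ℤ) : ℝ) -
      (Fintype.card k : ℝ) ^ 3 = -(Fintype.card k : ℝ) ^ 2 + (nR m : ℕ) * (Fintype.card k : ℝ) + W := by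
    rw [hW]; push_cast; ring
  rw [e]
  have hqq : (Fintype.card k : ℝ) ≤ (Fintype.card k : ℝ) ^ 2 := by
    rw [sq]; exact le_mul_of_one_le_left (by linarith) hq1
  have h6 : (nR m : ℕ) * (Fintype.card k : ℝ) ≤ m.natDegree * (Fintype.card k : ℝ) ^ 2 :=
    mul_le_mul hnr hqq (by positivity) (by positivity)
  have h7 : 0 ≤ (nR m : ℕ) * (Fintype.card k : ℝ) := by positivity
  obtain ⟨h8, h9⟩ := abs_le.1 hr1
  have h10 : (0 : ℝ) ≤ (Fintype.card k : ℝ) ^ 2 := by positivity
  rw [abs_le]
  have h11 : (1 + 2 * (m.natDegree : ℝ)) * (Fintype.card k : ℝ) ^ 2 = (Fintype.card k : ℝ) ^ 2 +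
    m.natDegree * (Fintype.card k : ℝ) ^ 2 + m.natDegree * (Fintype.card k : ℝ) ^ 2 := by ring
  rw [h11]
  constructor <;> linarith

/-! ### non-separable members -/

theorem wronskian_ne {U m : k[X]} (hU : U.Monic) (hm : m.Monic) (hd : m.natDegree + 2 ≤ U.natDegree)
    (hp : ((U.natDegree - m.natDegree : ℕ) : k) ≠ 0) :
    derivative U * m - U * derivative m ≠ 0 ∧
    (derivative U * m - U * derivative m).natDegree ≤ U.natDegree + m.natDegree := by
  set d := U.natDegree with hdd
  set r := m.natDegree with hr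
  have e1 : (derivative U * m).coeff ((d - 1) + r) = d := by
    rw [coeff_mul_add_eq_of_natDegree_le (natDegree_derivative_le U) le_rfl, coeff_derivative]
    have h1 : d - 1 + 1 = d := by omega
    rw [h1, hdd, hU.coeff_natDegree, hm.coeff_natDegree]
    have : ((U.natDegree - 1 : ℕ) : k) + 1 = U.natDegree := by
      have h2 : 1 ≤ U.natDegree := by omega
      push_cast [Nat.cast_sub h2]
      ring
    rw [this]
    ring
  have e2 : (U * derivative m).coeff ((d - 1) + r) = r := by
    rcases Nat.eq_zero_or_pos r with h0 | h0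
    · have : m = 1 := hm.natDegree_eq_zero.1 (hr ▸ h0)
      rw [this]
      simp [h0]
    · have h1 : (d - 1) + r = d + (r - 1) := by omega
      rw [h1, coeff_mul_add_eq_of_natDegree_le le_rfl (natDegree_derivative_le _), coeff_derivative]
      have h2 : r - 1 + 1 = r := by omega
      have h3 : m.coeff r = 1 := hm.coeff_natDegree
      rw [h2, h3, hU.coeff_natDegree]
      have : ((r - 1 : ℕ) : k) + 1 = r := by
        push_cast [Nat.cast_sub h0]
        ring
      rw [this]
      ring
  constructor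
  · intro h0
    have h1 : (derivative U * m - U * derivative m).coeff ((d - 1) + r) = 0 := by rw [h0, coeff_zero]
    rw [coeff_sub, e1, e2] at h1
    apply hp
    rw [Nat.cast_sub (by omega)]
    exact h1
  · refine (natDegree_sub_le _ _).trans (max_le ?_ ?_)
    · refine natDegree_mul_le.trans ?_
      have := natDegree_derivative_le U
      omega
    · refine natDegree_mul_le.trans ?_
      have := natDegree_derivative_le m
      omega

end

section
variable {k : Type} [Field k]

/-- At most `deg V + deg m` values of `b` make `V + m b` non-separable. -/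
theorem nonsep_fiber {V m : k[X]} (hc : IsCoprime m V)
    (hW0 : derivative V * m - V * derivative m ≠ 0)
    (hWd : (derivative V * m - V * derivative m).natDegree ≤ V.natDegree + m.natDegree) (B : Finset k)
    (hB : ∀ b ∈ B, ¬ (V + m * C b).Separable) : B.card ≤ V.natDegree + m.natDegree := by
  classical
  set W := derivative V * m - V * derivative m with hW
  let A := AlgebraicClosure k
  have hWA : W.map (algebraMap k A) ≠ 0 := (Polynomial.map_ne_zero_iff (algebraMap k A).injective).2 hW0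
  have hex : ∀ b ∈ B, ∃ θ : A, θ ∈ (W.map (algebraMap k A)).roots.toFinset ∧ aeval θ m ≠ 0 ∧
        algebraMap k A b * aeval θ m = -(aeval θ V) := by
    intro b hb
    have hns := hB b hb
    rw [Separable, isCoprime_iff_aeval_ne_zero_of_isAlgClosed k A] at hns
    push Not at hns
    obtain ⟨θ, h1, h2⟩ := hns
    simp only [map_add, map_mul, aeval_C, derivative_add, derivative_mul, derivative_C, mul_zero, add_zero] at h1 h2
    have hm0 : aeval θ m ≠ 0 := by
      intro h0
      rw [h0, zero_mul, add_zero] at h1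
      obtain ⟨a, b, hab⟩ := hc
      have := congrArg (aeval θ) hab
      rw [map_add, map_mul, map_mul, h0, h1] at this
      simp at this
    refine ⟨θ, ?_, hm0, ?_⟩
    · rw [Multiset.mem_toFinset, mem_roots hWA, IsRoot, eval_map_algebraMap, hW]
      simp only [map_sub, map_mul]
      linear_combination (aeval θ m) * h2 - (aeval θ (derivative m)) * h1
    · linear_combination h1
  choose! θ hθ1 hθ2 hθ3 using hex
  calc _ ≤ (W.map (algebraMap k A)).roots.toFinset.card := by
        refine Finset.card_le_card_of_injOn θ (fun t ht => hθ1 t ht) ?_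
        intro t ht t' ht' h
        have e1 := hθ3 t ht
        have e2 := hθ3 t' ht'
        rw [← h] at e2
        have e3 := mul_right_cancel₀ (hθ2 t ht) (e1.trans e2.symm)
        exact (algebraMap k A).injective e3
    _ ≤ (W.map (algebraMap k A)).roots.card := Multiset.toFinset_card_le _
    _ ≤ (W.map (algebraMap k A)).natDegree := card_roots' _
    _ ≤ W.natDegree := natDegree_map_le
    _ ≤ _ := hWd

end

section
variable {k : Type} [Field k] [Fintype k] [DecidableEq k]

theorem coprime_fm {U m : k[X]} (hc : IsCoprime m U) (t : k × k) : IsCoprime m (fm U m t) := by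
  unfold fm
  exact (IsCoprime.add_mul_left_right_iff (z := C t.1 * X + C t.2)).2 hc

open Classical in
/-- **Non-separable members.** -/
theorem card_nonsep {U m : k[X]} (hU : U.Monic) (hm : m.Monic) (hd : m.natDegree + 2 ≤ U.natDegree)
    (hc : IsCoprime m U) (hp : ((U.natDegree - m.natDegree : ℕ) : k) ≠ 0) :
    #{t : k × k | ¬ (fm U m t).Separable} ≤ (U.natDegree + m.natDegree) * Fintype.card k := by
  classical
  have h5 : #{t : k × k | ¬ (fm U m t).Separable} = ∑ a : k,
      #{t ∈ ({t : k × k | ¬ (fm U m t).Separable} : Finset (k × k)) | t.1 = a} :=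
    Finset.card_eq_sum_card_fiberwise (fun _ _ => Finset.mem_coe.2 (Finset.mem_univ _))
  have h6 : ∀ a : k, #{t ∈ ({t : k × k | ¬ (fm U m t).Separable} : Finset (k × k)) | t.1 = a} ≤
      U.natDegree + m.natDegree := by
    intro a
    obtain ⟨hVm, hVd⟩ := fm_monic hU hd (a, 0)
    have hcV := coprime_fm hc (a, 0)
    obtain ⟨V, hV⟩ : ∃ V, V = fm U m (a, 0) := ⟨_, rfl⟩
    rw [← hV] at hVm hVd hcV
    obtain ⟨hW0, hWd⟩ := wronskian_ne hVm hm (by rw [hVd]; exact hd) (by rw [hVd]; exact hp)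
    have h1 := nonsep_fiber hcV hW0 hWd
      ((({t ∈ ({t : k × k | ¬ (fm U m t).Separable} : Finset (k × k)) | t.1 = a} : Finset (k × k))).image Prod.snd) (by
      intro b hb
      obtain ⟨t, ht, rfl⟩ := Finset.mem_image.1 hb
      obtain ⟨ht1, ht2⟩ := Finset.mem_filter.1 ht
      have ht3 := (Finset.mem_filter.1 ht1).2
      have e : V + m * C t.2 = fm U m t := by
        rw [hV]
        unfold fm
        rw [ht2]
        simp only [C_0, add_zero]
        ring
      rw [e]
      exact ht3)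
    rw [hVd, Finset.card_image_of_injOn] at h1
    · exact h1
    · intro t ht t' ht' h
      have h2 := (Finset.mem_filter.1 ht).2
      have h3 := (Finset.mem_filter.1 ht').2
      exact Prod.ext (h2.trans h3.symm) h
  rw [h5]
  calc _ ≤ ∑ _a : k, (U.natDegree + m.natDegree) := Finset.sum_le_sum fun a _ => h6 a
    _ = _ := by rw [Finset.sum_const, Finset.card_univ, smul_eq_mul, mul_comm]

theorem not_csq_of_odd {f : k[X]} (hf : f.Monic) (hd : Odd f.natDegree) : ¬ IsCSq f := by
  intro h
  obtain ⟨g, _, hg⟩ := h.monic hf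
  rw [hg, natDegree_pow] at hd
  rw [Nat.odd_mul] at hd
  exact absurd hd.1 (by decide)

/-- the constant of the moments -/
noncomputable def CM (d : ℕ) : ℝ := 100 * (d + 1) ^ 3

theorem CM_nonneg (d : ℕ) : 0 ≤ CM d := by unfold CM; positivity

/-- **The moments of the traces.** -/
theorem moments (hk : ringChar k ≠ 2) {U m : k[X]} (hU : U.Monic) (hm : m.Monic) (hodd : Odd U.natDegree)
    (hd : m.natDegree + 2 ≤ U.natDegree) (hc : IsCoprime m U)
    (hp : ((U.natDegree - m.natDegree : ℕ) : k) ≠ 0) :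
    |(∑ t : k × k, (trc (fm U m t) 0 : ℝ)) / (Fintype.card k : ℝ) ^ 2 + sR U m| ≤
      CM U.natDegree / Real.sqrt (Fintype.card k) ∧
    |(∑ t : k × k, (trc (fm U m t) 0 : ℝ) ^ 2) / (Fintype.card k : ℝ) ^ 2 - Fintype.card k| ≤
      CM U.natDegree * Real.sqrt (Fintype.card k) ∧
    |(∑ t : k × k, (trc (fm U m t) 1 : ℝ)) / (Fintype.card k : ℝ) ^ 2 + Fintype.card k| ≤
      CM U.natDegree * Real.sqrt (Fintype.card k) := by
  classical
  obtain ⟨d, hdd⟩ : ∃ d, d = U.natDegree := ⟨_, rfl⟩
  obtain ⟨r, hr⟩ : ∃ r, r = m.natDegree := ⟨_, rfl⟩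
  rw [← hdd]
  have hd' : r + 2 ≤ d := by rw [hr, hdd]; exact hd
  obtain ⟨Q, hQ⟩ : ∃ Q, Q = Real.sqrt (Fintype.card k) := ⟨_, rfl⟩
  obtain ⟨q, hq⟩ : ∃ q : ℝ, q = Fintype.card k := ⟨_, rfl⟩
  have hQ1 : 1 ≤ Q := by rw [hQ]; exact one_le_sq
  have hQQ : Q * Q = q := by rw [hQ, hq]; exact Real.mul_self_sqrt (by positivity)
  have hq1 : 1 ≤ q := by rw [← hQQ]; exact one_le_mul_of_one_le_of_one_le hQ1 hQ1
  have hq0 : 0 < q := by linarith
  have hQ0 : 0 < Q := by linarith
  have hQq : Q ≤ q := by rw [← hQQ]; exact le_mul_of_one_le_left hQ0.le hQ1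
  have hfd : ∀ t, (fm U m t).Monic ∧ (fm U m t).natDegree = d := fun t => by
    have := fm_monic hU hd t
    rwa [← hdd] at this
  obtain ⟨Bad, hBad⟩ : ∃ Bad : Finset (k × k), Bad = ({t : k × k | ¬ (fm U m t).Separable} : Finset (k × k)) := ⟨_, rfl⟩
  have hd0 : (0 : ℝ) ≤ d := by positivity
  have hrd : (r : ℝ) ≤ d := by exact_mod_cast (by omega : r ≤ d)
  have hr0 : (0 : ℝ) ≤ r := by positivity
  have hBadc : (Bad.card : ℝ) ≤ 2 * d * q := by
    have h := card_nonsep hU hm hd hc hp
    rw [← hdd, ← hr, ← hBad] at h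
    have h2 : (Bad.card : ℝ) ≤ ((d : ℝ) + r) * q := by rw [hq]; exact_mod_cast h
    refine h2.trans (mul_le_mul_of_nonneg_right (by linarith) hq0.le)
  have hs : |((sR U m : ℤ) : ℝ)| ≤ d := by
    have := sR_le U hm.ne_zero
    rw [← hr] at this
    linarith
  obtain ⟨s, hsd⟩ : ∃ s : ℝ, s = ((sR U m : ℤ) : ℝ) := ⟨_, rfl⟩
  rw [← hsd] at hs
  have hn : ((nR m : ℕ) : ℝ) ≤ d := by
    have : ((nR m : ℕ) : ℝ) ≤ m.natDegree := by exact_mod_cast nR_le hm.ne_zero
    rw [← hr] at this
    linarith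
  obtain ⟨n, hnd⟩ : ∃ n : ℝ, n = ((nR m : ℕ) : ℝ) := ⟨_, rfl⟩
  have hn0 : 0 ≤ n := by rw [hnd]; positivity
  rw [← hnd] at hn
  -- the sums over all members
  have hT1 : ∀ t, T (fm U m t) 1 = T1 U m t := fun t => T_one hk _
  have hS1 : ∑ t : k × k, (T (fm U m t) 1 : ℝ) = s * q ^ 2 := by
    have h := sum_T1 hk U m
    rw [Finset.sum_congr rfl fun t _ => by rw [hT1 t], hq, hsd]
    exact_mod_cast h
  have hS2 : ∑ t : k × k, ((T (fm U m t) 1 : ℝ)) ^ 2 = s ^ 2 * q ^ 2 + (q - n) * (q ^ 2 - q) := by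
    have h := sum_T1_sq hk U m
    rw [Finset.sum_congr rfl fun t _ => by rw [hT1 t], hq, hsd, hnd]
    exact_mod_cast h
  have hS3 : |∑ t : k × k, (T (fm U m t) 2 : ℝ) - q ^ 3| ≤ (1 + 2 * d) * q ^ 2 := by
    obtain ⟨E, i1, i2, i3, i4, hfr, hcard⟩ := exists_ext (k := k) 2 (by norm_num)
    have h := sum_T2 hk hm.ne_zero hc E hfr
    have h2 : ∀ t, T (fm U m t) 2 = ∑ x : E, quadraticChar E (aeval x (fm U m t)) := by
      intro t
      have := T_eq_sum (E := E) hk (fm U m t)
      rwa [hfr] at this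
    rw [Finset.sum_congr rfl fun t _ => by rw [h2 t], hq]
    rw [← hr] at h
    have h3 : (1 + 2 * (r : ℝ)) * (Fintype.card k : ℝ) ^ 2 ≤ (1 + 2 * d) * (Fintype.card k : ℝ) ^ 2 :=
      mul_le_mul_of_nonneg_right (by linarith) (by positivity)
    refine le_trans (le_of_eq ?_) (h.trans h3)
    push_cast
    rfl
  -- the bounds
  have hd1 : ∀ t, 1 ≤ (fm U m t).natDegree := fun t => by rw [(hfd t).2]; omega
  have hcsq : ∀ t, ¬ IsCSq (fm U m t) := fun t => not_csq_of_odd (hfd t).1 (by rw [(hfd t).2, hdd]; exact hodd)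
  have hb1 : ∀ t, |(T (fm U m t) 1 : ℝ)| ≤ 5 * d * Q := by
    intro t
    have := T_le_of hk (hfd t).1 (hd1 t) (hcsq t) 0
    rw [(hfd t).2, zero_add, pow_one, ← hQ] at this
    exact this
  have hb2 : ∀ t, |(T (fm U m t) 2 : ℝ)| ≤ 5 * d * q := by
    intro t
    have := T_le_of hk (hfd t).1 (hd1 t) (hcsq t) 1
    rw [(hfd t).2, ← hQ] at this
    have e : Q ^ (1 + 1) = q := by rw [← hQQ]; ring
    rw [e] at this
    exact this
  have hsplit : ∀ (g h : k × k → ℝ), (∀ t, (fm U m t).Separable → g t = h t) → (∀ t, ¬ (fm U m t).Separable → g t = 0) →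
      ∑ t, g t = ∑ t, h t - ∑ t ∈ Bad, h t := by
    intro g h hgh hg0
    rw [hBad, Finset.sum_filter, ← Finset.sum_sub_distrib]
    refine Finset.sum_congr rfl fun t _ => ?_
    by_cases hs : (fm U m t).Separable
    · rw [if_neg (not_not.2 hs), hgh t hs, sub_zero]
    · rw [if_pos hs, hg0 t hs, sub_self]
  have htr : ∀ t j, (fm U m t).Separable → (trc (fm U m t) j : ℝ) = -(T (fm U m t) (j + 1) : ℝ) := by
    intro t j hs
    have h0 : dlt (fm U m t).natDegree = 0 := by
      unfold dlt
      rw [(hfd t).2, hdd, if_pos hodd]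
    unfold trc
    rw [if_pos hs, h0]
    push_cast; ring
  have htr0 : ∀ t j, ¬ (fm U m t).Separable → (trc (fm U m t) j : ℝ) = 0 := by
    intro t j ht
    unfold trc
    rw [if_neg ht, Int.cast_zero]
  have hbad : ∀ (h : k × k → ℝ) (B : ℝ), 0 ≤ B → (∀ t, |h t| ≤ B) → |∑ t ∈ Bad, h t| ≤ 2 * d * q * B := by
    intro h B hB hh
    refine (Finset.abs_sum_le_sum_abs _ _).trans ((Finset.sum_le_sum fun t _ => hh t).trans ?_)
    rw [Finset.sum_const, nsmul_eq_mul]
    exact mul_le_mul_of_nonneg_right hBadc hB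
  rw [← hQ, ← hq, ← hsd]
  have hCM : CM d = 100 * ((d : ℝ) + 1) ^ 3 := rfl
  have hC1 : 100 * ((d : ℝ) + 1) ^ 2 ≤ CM d := by
    rw [hCM]
    have : ((d : ℝ) + 1) ^ 2 ≤ (d + 1) ^ 3 := pow_le_pow_right₀ (by linarith) (by norm_num)
    linarith
  refine ⟨?_, ?_, ?_⟩
  · have e1 := hsplit (fun t => (trc (fm U m t) 0 : ℝ)) (fun t => -(T (fm U m t) 1 : ℝ)) (fun t hs => htr t 0 hs)
      (fun t hs => htr0 t 0 hs)
    rw [Finset.sum_neg_distrib, hS1] at e1
    have e3 := hbad (fun t => -(T (fm U m t) 1 : ℝ)) (5 * d * Q) (by positivity) (fun t => by rw [abs_neg]; exact hb1 t)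
    have e4 : (∑ t : k × k, (trc (fm U m t) 0 : ℝ)) / q ^ 2 + s = -(∑ t ∈ Bad, -(T (fm U m t) 1 : ℝ)) / q ^ 2 := by
      rw [e1]
      field_simp
      ring
    rw [e4, abs_div, abs_neg, abs_of_pos (by positivity : (0 : ℝ) < q ^ 2), div_le_div_iff₀ (by positivity) hQ0]
    calc |∑ t ∈ Bad, -(T (fm U m t) 1 : ℝ)| * Q ≤ (2 * d * q * (5 * d * Q)) * Q := mul_le_mul_of_nonneg_right e3 hQ0.le
      _ = 10 * d ^ 2 * q ^ 2 := by linear_combination 10 * (d : ℝ) ^ 2 * q * hQQ
      _ ≤ CM d * q ^ 2 := by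
        refine mul_le_mul_of_nonneg_right ?_ (by positivity)
        nlinarith
  · have e1 := hsplit (fun t => (trc (fm U m t) 0 : ℝ) ^ 2) (fun t => (T (fm U m t) 1 : ℝ) ^ 2) (fun t hs => by
      rw [htr t 0 hs, zero_add]; ring) (fun t hs => by rw [htr0 t 0 hs]; ring)
    rw [hS2] at e1
    have e3 := hbad (fun t => (T (fm U m t) 1 : ℝ) ^ 2) (25 * d ^ 2 * q) (by positivity) (fun t => by
      rw [abs_of_nonneg (sq_nonneg _), ← sq_abs]
      calc |(T (fm U m t) 1 : ℝ)| ^ 2 ≤ (5 * d * Q) ^ 2 := pow_le_pow_left₀ (abs_nonneg _) (hb1 t) 2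
        _ = 25 * d ^ 2 * q := by linear_combination 25 * (d : ℝ) ^ 2 * hQQ)
    have e4 : (∑ t : k × k, (trc (fm U m t) 0 : ℝ) ^ 2) / q ^ 2 - q =
        ((s ^ 2 - 1 - n) * q ^ 2 + n * q - ∑ t ∈ Bad, (T (fm U m t) 1 : ℝ) ^ 2) / q ^ 2 := by
      rw [e1]
      field_simp
      ring
    rw [e4, abs_div, abs_of_pos (by positivity : (0 : ℝ) < q ^ 2), div_le_iff₀ (by positivity)]
    have h5 : s ^ 2 ≤ d ^ 2 := by
      rw [← sq_abs]; exact pow_le_pow_left₀ (abs_nonneg _) hs 2
    have h6 : 0 ≤ s ^ 2 := sq_nonneg s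
    have h7 : n * q ≤ n * q ^ 2 := mul_le_mul_of_nonneg_left (by rw [sq]; exact le_mul_of_one_le_left hq0.le hq1) hn0
    have h8 : 0 ≤ n * q := by positivity
    have hq2 : 0 ≤ q ^ 2 := by positivity
    have e5 : |(s ^ 2 - 1 - n) * q ^ 2 + n * q| ≤ (d ^ 2 + 1 + d) * q ^ 2 := by
      have i1 : s ^ 2 * q ^ 2 ≤ d ^ 2 * q ^ 2 := mul_le_mul_of_nonneg_right h5 hq2
      have i2 : n * q ^ 2 ≤ d * q ^ 2 := mul_le_mul_of_nonneg_right hn hq2
      have i3 : 0 ≤ s ^ 2 * q ^ 2 := by positivity
      have i4 : 0 ≤ (d : ℝ) * q ^ 2 := by positivity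
      have i5 : 0 ≤ (d : ℝ) ^ 2 * q ^ 2 := by positivity
      rw [abs_le]
      constructor <;> nlinarith
    have e6 : |(s ^ 2 - 1 - n) * q ^ 2 + n * q - ∑ t ∈ Bad, (T (fm U m t) 1 : ℝ) ^ 2| ≤
        (d ^ 2 + 1 + d) * q ^ 2 + 2 * d * q * (25 * d ^ 2 * q) := (abs_sub _ _).trans (add_le_add e5 e3)
    refine e6.trans ?_
    have e7 : (d ^ 2 + 1 + (d : ℝ)) * q ^ 2 + 2 * d * q * (25 * d ^ 2 * q) = (d ^ 2 + 1 + d + 50 * d ^ 3) * q ^ 2 := by ring
    rw [e7]
    refine mul_le_mul_of_nonneg_right ?_ hq2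
    have e8 : CM d ≤ CM d * Q := le_mul_of_one_le_right (CM_nonneg d) hQ1
    refine le_trans ?_ e8
    rw [hCM]
    have : 0 ≤ (d : ℝ) ^ 3 := by positivity
    have : 0 ≤ (d : ℝ) ^ 2 := by positivity
    nlinarith
  · have e1 := hsplit (fun t => (trc (fm U m t) 1 : ℝ)) (fun t => -(T (fm U m t) 2 : ℝ)) (fun t hs => htr t 1 hs)
      (fun t hs => htr0 t 1 hs)
    rw [Finset.sum_neg_distrib] at e1
    have e3 := hbad (fun t => -(T (fm U m t) 2 : ℝ)) (5 * d * q) (by positivity) (fun t => by rw [abs_neg]; exact hb2 t)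
    obtain ⟨X₂, hX₂⟩ : ∃ X₂ : ℝ, X₂ = ∑ t : k × k, (T (fm U m t) 2 : ℝ) := ⟨_, rfl⟩
    rw [← hX₂] at e1 hS3
    have e4 : (∑ t : k × k, (trc (fm U m t) 1 : ℝ)) / q ^ 2 + q =
        (-(X₂ - q ^ 3) - ∑ t ∈ Bad, -(T (fm U m t) 2 : ℝ)) / q ^ 2 := by
      rw [e1]
      field_simp
      ring
    rw [e4, abs_div, abs_of_pos (by positivity : (0 : ℝ) < q ^ 2), div_le_iff₀ (by positivity)]
    have e6 : |-(X₂ - q ^ 3) - ∑ t ∈ Bad, -(T (fm U m t) 2 : ℝ)| ≤ (1 + 2 * d) * q ^ 2 + 2 * d * q * (5 * d * q) := by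
      refine (abs_sub _ _).trans (add_le_add ?_ e3)
      rw [abs_neg]
      exact hS3
    refine e6.trans ?_
    have e7 : (1 + 2 * (d : ℝ)) * q ^ 2 + 2 * d * q * (5 * d * q) = (1 + 2 * d + 10 * d ^ 2) * q ^ 2 := by ring
    rw [e7]
    refine mul_le_mul_of_nonneg_right ?_ (by positivity)
    have e8 : CM d ≤ CM d * Q := le_mul_of_one_le_right (CM_nonneg d) hQ1
    refine le_trans ?_ e8
    refine le_trans ?_ hC1
    nlinarith

end

end Run7.h61.TW
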