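import Pool.Agent.Run7.h61.TW.Cheb
import Pool.Agent.Run7.h61.TW.FF

/-!
# Families of hyperelliptic curves with marked points over an extension
-/

set_option autoImplicit false
set_option linter.unusedSectionVars false

namespace Run7.h61.TW

open NumberField IsDedekindDomain Polynomial
open Pool.Agent.W401.Cheb (GK IsFrob IsInert)
open Run7.h876.MM (nv kv card_kv instFieldKv instFintypeKv instDecKv nv_pos ring_char_two)
open Run7.h876.EN (trc trc_le trc_eq rd)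
open Run7.h876.HY (GoodAt frobTrace)

section
variable (K : Type) [Field K] [NumberField K]

/-- the ring of all algebraic integers -/
abbrev OB : Type := 𝓞 (AlgebraicClosure K)

/-- A family of monic polynomials `f_t = F₀ + m (t₀ X + t₁ + ∑ t_j P_j)` of the same odd degree over the
integers of `K`, where `m = ∏ (X - x_i)` with different algebraic integers `x_i`, and
`F₀(x_i) = y_i² ≠ 0`: the points `(x_i, y_i)` are on all curves `y² = f_t(x)`. -/
structure TFam (J : Type) where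
  /-- a member of the family -/
  F₀ : (𝓞 K)[X]
  /-- the polynomial with the roots `x_i` -/
  m : (𝓞 K)[X]
  /-- further directions -/
  P : J → (𝓞 K)[X]
  /-- the number of the marked points -/
  r : ℕ
  /-- the coordinates of the marked points -/
  x : Fin r → OB K
  /-- the coordinates of the marked points -/
  y : Fin r → OB K
  monic : F₀.Monic
  odd : Odd F₀.natDegree
  deg : r + 2 ≤ F₀.natDegree
  deg_P : ∀ j, r + (P j).natDegree < F₀.natDegree
  split : m.map (algebraMap (𝓞 K) (OB K)) = ∏ i, (X - C (x i))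
  x_inj : Function.Injective x
  y_ne : ∀ i, y i ≠ 0
  on_curve : ∀ i, (F₀.map (algebraMap (𝓞 K) (OB K))).eval (x i) = y i ^ 2

end

namespace TFam
variable {K : Type} [Field K] [NumberField K] {J : Type} [Fintype J] (𝓕 : TFam K J)

/-- The members of the family. -/
noncomputable def member (t : Fin 2 ⊕ J → 𝓞 K) : (𝓞 K)[X] :=
  𝓕.F₀ + 𝓕.m * (C (t (Sum.inl 0)) * X + C (t (Sum.inl 1)) + ∑ j, C (t (Sum.inr j)) * 𝓕.P j)

/-- The parameters for which the curve `y² = f_t(x)` is smooth. -/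
def smooth : Set (Fin 2 ⊕ J → 𝓞 K) := {t | ((𝓕.member t).map (algebraMap (𝓞 K) K)).Separable}

open Classical in
/-- The trace of `σ` on the module `V` of the marked points, of rank `r`, which has a basis `e_i` with
`σ e_i = ± e_j` if `σ x_i = x_j` and `σ y_i = ± y_j`. -/
noncomputable def trV (σ : GK K) : ℤ :=
  ∑ i, if σ • 𝓕.x i = 𝓕.x i then (if σ • 𝓕.y i = 𝓕.y i then 1 else -1) else 0

theorem trV_le (σ : GK K) : |((𝓕.trV σ : ℤ) : ℝ)| ≤ 𝓕.r := by
  classical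
  unfold trV
  push_cast
  refine (Finset.abs_sum_le_sum_abs _ _).trans ?_
  calc _ ≤ ∑ _i : Fin 𝓕.r, (1 : ℝ) := Finset.sum_le_sum fun i _ => by split_ifs <;> simp
    _ = _ := by simp

theorem alg_inj : Function.Injective (algebraMap (𝓞 K) (OB K)) := by
  intro a b h
  have h1 : algebraMap (𝓞 K) (AlgebraicClosure K) a = algebraMap (𝓞 K) (AlgebraicClosure K) b := by
    have := congrArg (algebraMap (OB K) (AlgebraicClosure K)) h
    rwa [← IsScalarTower.algebraMap_apply, ← IsScalarTower.algebraMap_apply] at this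
  rw [IsScalarTower.algebraMap_apply (𝓞 K) K (AlgebraicClosure K), IsScalarTower.algebraMap_apply (𝓞 K) K (AlgebraicClosure K)] at h1
  exact RingOfIntegers.coe_injective ((algebraMap K (AlgebraicClosure K)).injective h1)

theorem m_monic : 𝓕.m.Monic := by
  refine monic_of_injective alg_inj ?_
  rw [𝓕.split]
  exact monic_prod_of_monic _ _ fun i _ => monic_X_sub_C _

theorem m_deg : 𝓕.m.natDegree = 𝓕.r := by
  rw [← natDegree_map_eq_of_injective alg_inj 𝓕.m, 𝓕.split, natDegree_prod_of_monic _ _ fun i _ => monic_X_sub_C _]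
  simp

/-! ### the polynomials over the residue fields -/

/-- the polynomial over the residue field -/
noncomputable def fpol (v : HeightOneSpectrum (𝓞 K)) (t : Fin 2 ⊕ J → kv v) : (kv v)[X] :=
  𝓕.F₀.map (Ideal.Quotient.mk v.asIdeal) + 𝓕.m.map (Ideal.Quotient.mk v.asIdeal) *
    (C (t (Sum.inl 0)) * X + C (t (Sum.inl 1)) + ∑ j, C (t (Sum.inr j)) * (𝓕.P j).map (Ideal.Quotient.mk v.asIdeal))

theorem map_member (v : HeightOneSpectrum (𝓞 K)) (t : Fin 2 ⊕ J → 𝓞 K) :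
    (𝓕.member t).map (Ideal.Quotient.mk v.asIdeal) = 𝓕.fpol v (rd v t) := by
  unfold member fpol rd
  simp only [Polynomial.map_add, Polynomial.map_mul, Polynomial.map_X, Polynomial.map_C, Polynomial.map_sum]

theorem monic_aux {A : Type} [CommRing A] [Nontrivial A] {F m g : A[X]} (hF : F.Monic)
    (hd : m.natDegree + g.natDegree < F.natDegree) :
    (F + m * g).Monic ∧ (F + m * g).natDegree = F.natDegree := by
  have h3 : (m * g).degree < F.degree := by
    rw [degree_eq_natDegree hF.ne_zero]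
    exact (degree_le_natDegree).trans_lt (by exact_mod_cast (natDegree_mul_le.trans_lt hd))
  exact ⟨hF.add_of_left h3, natDegree_eq_of_degree_eq (degree_add_eq_left_of_degree_lt h3)⟩

theorem lin_deg {A : Type} [CommRing A] (P : J → A[X]) (d r : ℕ) (hd : r + 2 ≤ d) (hP : ∀ j, r + (P j).natDegree < d)
    (t : Fin 2 ⊕ J → A) :
    r + (C (t (Sum.inl 0)) * X + C (t (Sum.inl 1)) + ∑ j, C (t (Sum.inr j)) * P j).natDegree < d := by
  have h1 : (C (t (Sum.inl 0)) * X + C (t (Sum.inl 1)) : A[X]).natDegree ≤ 1 := by compute_degree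
  have h2 : (∑ j, C (t (Sum.inr j)) * P j).natDegree ≤ d - r - 1 := by
    refine natDegree_sum_le_of_forall_le _ _ fun j _ => ?_
    refine (natDegree_C_mul_le _ _).trans ?_
    have := hP j
    omega
  have h3 := natDegree_add_le (C (t (Sum.inl 0)) * X + C (t (Sum.inl 1)) : A[X]) (∑ j, C (t (Sum.inr j)) * P j)
  have h4 : max (C (t (Sum.inl 0)) * X + C (t (Sum.inl 1)) : A[X]).natDegree (∑ j, C (t (Sum.inr j)) * P j).natDegree ≤ d - r - 1 :=
    max_le (by omega) h2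
  omega

theorem fpol_monic (v : HeightOneSpectrum (𝓞 K)) (t : Fin 2 ⊕ J → kv v) :
    (𝓕.fpol v t).Monic ∧ (𝓕.fpol v t).natDegree = 𝓕.F₀.natDegree := by
  have hF := 𝓕.monic.map (Ideal.Quotient.mk v.asIdeal)
  have hFd : (𝓕.F₀.map (Ideal.Quotient.mk v.asIdeal)).natDegree = 𝓕.F₀.natDegree := 𝓕.monic.natDegree_map _
  have hmd : (𝓕.m.map (Ideal.Quotient.mk v.asIdeal)).natDegree = 𝓕.r := by
    rw [𝓕.m_monic.natDegree_map, 𝓕.m_deg]
  have h := monic_aux (m := 𝓕.m.map (Ideal.Quotient.mk v.asIdeal)) (g := C (t (Sum.inl 0)) * X + C (t (Sum.inl 1)) +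
      ∑ j, C (t (Sum.inr j)) * (𝓕.P j).map (Ideal.Quotient.mk v.asIdeal)) hF (by
    rw [hFd, hmd]
    exact lin_deg (fun j => (𝓕.P j).map (Ideal.Quotient.mk v.asIdeal)) _ _ 𝓕.deg (fun j =>
      (add_le_add_right natDegree_map_le _).trans_lt (𝓕.deg_P j)) t)
  rw [hFd] at h
  exact h

theorem member_monic (t : Fin 2 ⊕ J → 𝓞 K) :
    (𝓕.member t).Monic ∧ (𝓕.member t).natDegree = 𝓕.F₀.natDegree :=
  monic_aux 𝓕.monic (by rw [𝓕.m_deg]; exact lin_deg 𝓕.P _ _ 𝓕.deg 𝓕.deg_P t)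

/-! ### the traces -/

open Classical in
/-- the traces as functions of the residues -/
noncomputable def av (v : HeightOneSpectrum (𝓞 K)) (t : Fin 2 ⊕ J → kv v) (m : ℕ) : ℝ :=
  if ringChar (kv v) ≠ 2 then (trc (𝓕.fpol v t) m : ℝ) else 0

theorem av_le (v : HeightOneSpectrum (𝓞 K)) (t : Fin 2 ⊕ J → kv v) (m : ℕ) :
    |𝓕.av v t m| ≤ (5 * 𝓕.F₀.natDegree + 1) * Real.sqrt (nv v) ^ (m + 1) := by
  obtain ⟨h1, h2⟩ := 𝓕.fpol_monic v t
  have h3 := 𝓕.deg
  unfold av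
  split_ifs with h
  · have h4 := trc_le h h1 (by omega) m
    rw [h2, card_kv] at h4
    exact h4
  · rw [abs_zero]
    positivity

theorem goodAt_iff (v : HeightOneSpectrum (𝓞 K)) (t : Fin 2 ⊕ J → 𝓞 K) :
    GoodAt (𝓕.member t) v ↔ ringChar (kv v) ≠ 2 ∧ (𝓕.fpol v (rd v t)).Separable := by
  unfold GoodAt
  rw [map_member]
  refine and_congr_left fun _ => ?_
  rw [← not_iff_not, not_not, not_not, ← Ideal.Quotient.eq_zero_iff_mem, map_ofNat]
  constructor
  · intro h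
    by_contra hne
    exact Run7.h876.MM.two_ne (k := kv v) hne h
  · exact fun h => ring_char_two h

theorem frobTrace_eq {v : HeightOneSpectrum (𝓞 K)} {t : Fin 2 ⊕ J → 𝓞 K} (h : GoodAt (𝓕.member t) v) (m : ℕ) :
    (frobTrace (𝓕.member t) v (m + 1) : ℝ) = 𝓕.av v (rd v t) m := by
  obtain ⟨h1, h2⟩ := (𝓕.goodAt_iff v t).1 h
  have h3 : frobTrace (𝓕.member t) v (m + 1) = trc (𝓕.fpol v (rd v t)) m := by
    unfold frobTrace
    rw [trc_eq h1 h2, card_kv, map_member, (𝓕.fpol_monic v _).2, (𝓕.member_monic t).2]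
  rw [h3]
  unfold av
  rw [if_pos h1]

theorem av_bad {v : HeightOneSpectrum (𝓞 K)} {t : Fin 2 ⊕ J → 𝓞 K} (h : ¬ GoodAt (𝓕.member t) v) (m : ℕ) :
    𝓕.av v (rd v t) m = 0 := by
  unfold av
  split_ifs with hc
  · have h2 : ¬ (𝓕.fpol v (rd v t)).Separable := fun h2 => h ((𝓕.goodAt_iff v t).2 ⟨hc, h2⟩)
    unfold trc
    rw [if_neg h2, Int.cast_zero]
  · rfl

/-! ### the exceptional places -/

theorem exists_cst (α : OB K) (hα : α ≠ 0) : ∃ c : 𝓞 K, c ≠ 0 ∧ ∀ Q : Ideal (OB K),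
    α ∈ Q → c ∈ Q.comap (algebraMap (𝓞 K) (OB K)) := by
  have hint : IsIntegral (𝓞 K) α := by
    have h1 : IsIntegral ℤ α := (isIntegral_algebraMap_iff (A := OB K) (B := AlgebraicClosure K)
      (RingOfIntegers.coe_injective)).1 α.2
    exact h1.tower_top
  obtain ⟨p, hp, hp2⟩ := hint
  refine ⟨∏ i ∈ p.support, p.coeff i, Finset.prod_ne_zero_iff.2 fun i hi => mem_support_iff.1 hi, fun Q hQ => ?_⟩
  obtain ⟨i, h1, h2⟩ := Ideal.exists_coeff_ne_zero_mem_comap_of_root_mem (f := algebraMap (𝓞 K) (OB K)) hα hQ hp.ne_zero hp2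
  exact Ideal.mem_of_dvd _ (Finset.dvd_prod_of_mem _ (mem_support_iff.2 h1)) h2

theorem exists_bad : ∃ N : 𝓞 K, N ≠ 0 ∧ ∀ (v : HeightOneSpectrum (𝓞 K)), N ∉ v.asIdeal →
    ringChar (kv v) ≠ 2 ∧ ((𝓕.F₀.natDegree - 𝓕.m.natDegree : ℕ) : kv v) ≠ 0 ∧
    ∀ Q : Ideal (OB K), Q.comap (algebraMap (𝓞 K) (OB K)) = v.asIdeal → Q.IsPrime →
      (2 : OB K) ∉ Q ∧ (∀ i, 𝓕.y i ∉ Q) ∧ ∀ i j, 𝓕.x i - 𝓕.x j ∈ Q → i = j := by
  classical
  obtain ⟨c₁, h1, h2⟩ := exists_cst (∏ i, 𝓕.y i) (Finset.prod_ne_zero_iff.2 fun i _ => 𝓕.y_ne i)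
  obtain ⟨c₂, h3, h4⟩ := exists_cst (∏ p ∈ (Finset.univ : Finset (Fin 𝓕.r × Fin 𝓕.r)).filter (fun p => p.1 ≠ p.2), (𝓕.x p.1 - 𝓕.x p.2))
    (Finset.prod_ne_zero_iff.2 fun p hp => sub_ne_zero.2 fun h => (Finset.mem_filter.1 hp).2 (𝓕.x_inj h))
  have hd := 𝓕.deg
  have hmd := 𝓕.m_deg
  refine ⟨2 * ((𝓕.F₀.natDegree - 𝓕.m.natDegree : ℕ) : 𝓞 K) * c₁ * c₂, ?_, fun v hv => ?_⟩
  · refine mul_ne_zero (mul_ne_zero (mul_ne_zero two_ne_zero ?_) h1) h3
    exact_mod_cast (by omega : 𝓕.F₀.natDegree - 𝓕.m.natDegree ≠ 0)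
  · have k1 : (2 : 𝓞 K) ∉ v.asIdeal := fun h => hv (Ideal.mul_mem_right _ _ (Ideal.mul_mem_right _ _ (Ideal.mul_mem_right _ _ h)))
    have k2 : ((𝓕.F₀.natDegree - 𝓕.m.natDegree : ℕ) : 𝓞 K) ∉ v.asIdeal := fun h =>
      hv (Ideal.mul_mem_right _ _ (Ideal.mul_mem_right _ _ (Ideal.mul_mem_left _ _ h)))
    have k3 : c₁ ∉ v.asIdeal := fun h => hv (Ideal.mul_mem_right _ _ (Ideal.mul_mem_left _ _ h))
    have k4 : c₂ ∉ v.asIdeal := fun h => hv (Ideal.mul_mem_left _ _ h)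
    refine ⟨?_, ?_, fun Q hQ hQp => ⟨?_, ?_, ?_⟩⟩
    · intro h
      apply k1
      rw [← Ideal.Quotient.eq_zero_iff_mem, map_ofNat]
      exact ring_char_two h
    · intro h
      apply k2
      rw [← Ideal.Quotient.eq_zero_iff_mem, map_natCast]
      exact h
    · intro h
      apply k1
      rw [← hQ, Ideal.mem_comap, map_ofNat]
      exact h
    · intro i h
      apply k3
      rw [← hQ]
      exact h2 Q (Ideal.mem_of_dvd _ (Finset.dvd_prod_of_mem _ (Finset.mem_univ i)) h)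
    · intro i j h
      by_contra hne
      apply k4
      rw [← hQ]
      exact h4 Q (Ideal.mem_of_dvd _ (Finset.dvd_prod_of_mem (fun p : Fin 𝓕.r × Fin 𝓕.r => 𝓕.x p.1 - 𝓕.x p.2)
        (Finset.mem_filter.2 ⟨Finset.mem_univ (i, j), hne⟩)) h)

/-! ### reduction of the marked points -/

theorem smul_alg (σ : GK K) (a : 𝓞 K) : σ • (algebraMap (𝓞 K) (OB K) a) = algebraMap (𝓞 K) (OB K) a :=
  Pool.Agent.W401.Frob.smul_alg σ a

theorem smul_eval (σ : GK K) (p : (𝓞 K)[X]) (z : OB K) :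
    σ • ((p.map (algebraMap (𝓞 K) (OB K))).eval z) = (p.map (algebraMap (𝓞 K) (OB K))).eval (σ • z) := by
  rw [eval_map, eval_map, eval₂_eq_sum_range, eval₂_eq_sum_range]
  have h1 : ∀ z : OB K, σ • z = MulSemiringAction.toRingHom (GK K) (OB K) σ z := fun z => rfl
  rw [h1, map_sum]
  refine Finset.sum_congr rfl fun i _ => ?_
  rw [map_mul, map_pow, ← h1, ← h1, smul_alg]

/-- the action on the abscissas -/
theorem exists_perm (σ : GK K) (i : Fin 𝓕.r) : ∃ j, σ • 𝓕.x i = 𝓕.x j := by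
  have h1 : (𝓕.m.map (algebraMap (𝓞 K) (OB K))).eval (σ • 𝓕.x i) = 0 := by
    rw [← smul_eval, 𝓕.split, eval_prod, Finset.prod_eq_zero (Finset.mem_univ i) (by simp), smul_zero]
  rw [𝓕.split, eval_prod, Finset.prod_eq_zero_iff] at h1
  obtain ⟨j, _, hj⟩ := h1
  rw [eval_sub, eval_X, eval_C, sub_eq_zero] at hj
  exact ⟨j, hj⟩

/-- the action on the ordinates -/
theorem smul_y {σ : GK K} {i j : Fin 𝓕.r} (h : σ • 𝓕.x i = 𝓕.x j) : σ • 𝓕.y i = 𝓕.y j ∨ σ • 𝓕.y i = -𝓕.y j := by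
  refine sq_eq_sq_iff_eq_or_eq_neg.1 ?_
  rw [← 𝓕.on_curve j, ← h, ← smul_eval, 𝓕.on_curve i, smul_pow']

end TFam

end Run7.h61.TW
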