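import Pool.Agent.Run7.h61.TW.Main

/-!
# Characters of Galois groups and traces of Frobenius elements
-/

set_option autoImplicit false
set_option linter.unusedSectionVars false

namespace Run7.h61.TW

open NumberField IsDedekindDomain Finset Filter Topology Polynomial
open Pool.Agent.W401.Cheb (GK IsFrob IsInert)
open Run7.h876.MM (nv kv card_kv instFieldKv instFintypeKv instDecKv nv_pos xv SZ mem_SZ)
open Run7.h876.EN (rd Thin mean ell)
open Run7.h876.HY (GoodAt frobTrace)

namespace TFam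
variable {K : Type} [Field K] [NumberField K] {J : Type} [Fintype J] (𝓕 : TFam K J)

theorem smul_neg' (σ : GK K) (a : OB K) : σ • (-a) = -(σ • a) := smul_neg σ a

theorem trV_congr {σ σ' : GK K} (hx : ∀ i, σ • 𝓕.x i = σ' • 𝓕.x i) (hy : ∀ i, σ • 𝓕.y i = σ' • 𝓕.y i) :
    𝓕.trV σ = 𝓕.trV σ' := by
  unfold trV
  refine Finset.sum_congr rfl fun i _ => ?_
  rw [hx i, hy i]

/-- the trace is a class function -/
theorem trV_conj (σ ρ : GK K) : 𝓕.trV (ρ * σ * ρ⁻¹) = 𝓕.trV σ := by
  classical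
  choose p hp using 𝓕.exists_perm ρ
  have hinj : Function.Injective p := by
    intro i j h
    refine 𝓕.x_inj ?_
    have h1 : ρ • 𝓕.x i = ρ • 𝓕.x j := by rw [hp, hp, h]
    exact smul_left_cancel ρ h1
  have hbij : Function.Bijective p := Finite.injective_iff_bijective.1 hinj
  unfold trV
  rw [← Function.Bijective.sum_comp hbij (fun i => if (ρ * σ * ρ⁻¹) • 𝓕.x i = 𝓕.x i then
    (if (ρ * σ * ρ⁻¹) • 𝓕.y i = 𝓕.y i then (1 : ℤ) else -1) else 0)]
  refine Finset.sum_congr rfl fun i _ => ?_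
  have e1 : (ρ * σ * ρ⁻¹) • 𝓕.x (p i) = ρ • σ • 𝓕.x i := by
    rw [← hp i, mul_smul, mul_smul, inv_smul_smul]
  have h1 : (ρ * σ * ρ⁻¹) • 𝓕.x (p i) = 𝓕.x (p i) ↔ σ • 𝓕.x i = 𝓕.x i := by
    rw [e1, ← hp i]
    exact ⟨fun h => smul_left_cancel ρ h, fun h => by rw [h]⟩
  have h2 : (ρ * σ * ρ⁻¹) • 𝓕.y (p i) = 𝓕.y (p i) ↔ σ • 𝓕.y i = 𝓕.y i := by
    rcases 𝓕.smul_y (hp i) with h | h
    · rw [← h, mul_smul, mul_smul, inv_smul_smul]
      exact ⟨fun h => smul_left_cancel ρ h, fun h => by rw [h]⟩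
    · have h' : 𝓕.y (p i) = ρ • (-𝓕.y i) := by rw [smul_neg', h, neg_neg]
      rw [h', mul_smul, mul_smul, inv_smul_smul, smul_neg' σ]
      constructor
      · intro h3
        have h4 := smul_left_cancel ρ h3
        exact neg_injective h4
      · intro h3
        rw [h3]
  simp only [h1, h2]

end TFam

section
variable {K : Type} [Field K] [NumberField K] (F : IntermediateField K (AlgebraicClosure K)) [FiniteDimensional K F] [IsGalois K F]

/-- the restriction to `F` -/
noncomputable def res : GK K →* Gal(F/K) := AlgEquiv.restrictNormalHom F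

theorem res_surj : Function.Surjective (res F) := AlgEquiv.restrictNormalHom_surjective (AlgebraicClosure K)

theorem res_open : IsOpen ((res F).ker : Set (GK K)) := by
  have h : (res F).ker = F.fixingSubgroup := IntermediateField.restrictNormalHom_ker F
  rw [h]
  exact IntermediateField.fixingSubgroup_isOpen F

theorem res_apply (σ : GK K) {x : AlgebraicClosure K} (hx : x ∈ F) : ((res F σ ⟨x, hx⟩ : F) : AlgebraicClosure K) = σ x :=
  AlgEquiv.restrictNormal_commutes σ F ⟨x, hx⟩

theorem res_eq {σ σ' : GK K} (h : res F σ = res F σ') {x : AlgebraicClosure K} (hx : x ∈ F) : σ x = σ' x := by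
  rw [← res_apply F σ hx, ← res_apply F σ' hx, h]

variable {F} in
theorem smul_eq_of_res {σ σ' : GK K} (h : res F σ = res F σ') {x : OB K} (hx : (x : AlgebraicClosure K) ∈ F) : σ • x = σ' • x := by
  apply RingOfIntegers.ext
  exact res_eq F h hx

/-- Chebotarev's theorem for class functions of `Gal(F/K)`. -/
theorem avg_gal (χ : Gal(F/K) → ℝ) (hχ : ∀ g h, χ (h * g * h⁻¹) = χ g) (φ : HeightOneSpectrum (𝓞 K) → ℝ)
    (hφ : {v | ¬ ∀ σ, IsFrob v σ → φ v = χ (res F σ)}.Finite) : HasAvg K φ ((∑ g, χ g) / Fintype.card Gal(F/K)) :=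
  avg_class (res F) (res_surj F) (res_open F) χ hχ φ hφ

end

end Run7.h61.TW
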