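import Pool.Agent.Run7.h61.TW.Defs
import Pool.Agent.Run7.h61.TW.Edge
import Pool.Agent.Run7.h61.TW.Dat

/-!
# The twisted moments of families of Jacobians
-/

set_option autoImplicit false
set_option linter.unusedSectionVars false

namespace Run7.h61.TW

open NumberField IsDedekindDomain Finset Filter Topology Polynomial
open Pool.Agent.W401.Cheb (GK IsFrob IsInert)
open Run7.h876.MM (nv kv card_kv instFieldKv instFintypeKv instDecKv nv_pos xv SZ mem_SZ)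
open Run7.h876.EN (rd Thin mean ell)
open Run7.h876.HY (GoodAt frobTrace)

section
variable {K : Type} [Field K] [NumberField K]

theorem eulerL_eq (a : HeightOneSpectrum (𝓞 K) → ℕ → ℂ) (s : ℂ) : eulerL a s = artin a s := rfl

theorem tprod_SZ (Z : ℕ) (f : HeightOneSpectrum (𝓞 K) → ℂ) :
    (∏' v : HeightOneSpectrum (𝓞 K), if nv v ≤ Z then f v else 1) = ∏ v ∈ SZ K Z, f v := by
  rw [tprod_eq_prod (s := SZ K Z) fun v hv => if_neg fun h => hv (mem_SZ.2 h)]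
  exact Finset.prod_congr rfl fun v hv => if_pos (mem_SZ.1 hv)

theorem eulerZ_eq (Z : ℕ) (a : HeightOneSpectrum (𝓞 K) → ℕ → ℂ) (s : ℂ) : eulerZ Z a s = artinZ Z a s := by
  unfold eulerZ artinZ
  rw [← tprod_SZ]
  rfl

theorem twPartial_eq (Z : ℕ) (f : (𝓞 K)[X]) (b : HeightOneSpectrum (𝓞 K) → ℕ → ℂ) (s : ℂ) :
    twPartial Z f b s = ∏ v ∈ SZ K Z, twFactor f (b v) v s := by
  unfold twPartial
  rw [← tprod_SZ]

theorem cc_eq : (ext2 : (ℕ → ℂ) → ℕ → ℂ) = cc := rfl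

variable {J : Type} [Fintype J] [DecidableEq J] (𝓕 : TFam K J)
  {R : ℝ} (hR : 0 ≤ R) {r : HeightOneSpectrum (𝓞 K) → ℕ → ℝ} (hr : ∀ v m, |r v m| ≤ R)
  (hfin : {v | ¬ ∀ σ, IsFrob v σ → r v 0 = 𝓕.trV σ}.Finite)

theorem factor_eq (b : HeightOneSpectrum (𝓞 K) → ℕ → ℂ) (t : Fin 2 ⊕ J → 𝓞 K) (v : HeightOneSpectrum (𝓞 K)) (s : ℂ) :
    twFactor (𝓕.member t) (b v) v s = Complex.exp (lf (𝓕.data hR hr hfin) b v s (rd v t)) := by
  classical
  unfold twFactor lf ell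
  split_ifs with h
  · congr 2
    funext m
    have h1 := 𝓕.frobTrace_eq h m
    have h2 : (𝓕.data hR hr hfin).a v (rd v t) m = (frobTrace (𝓕.member t) v (m + 1) : ℝ) := h1.symm
    beta_reduce
    rw [h2]
    push_cast
    rfl
  · have h2 : ∀ m, (((𝓕.data hR hr hfin).a v (rd v t) m : ℝ) : ℂ) = 0 := by
      intro m
      have : (𝓕.data hR hr hfin).a v (rd v t) m = 0 := 𝓕.av_bad h m
      rw [this, Complex.ofReal_zero]
    simp [h2]

variable {ι : Type} [Fintype ι] [DecidableEq ι] (ω : Module.Basis ι ℤ (𝓞 K))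
variable {b : HeightOneSpectrum (𝓞 K) → ℕ → ℂ} {β : ℝ}

theorem main1 (hβ : ∀ v m, ‖b v m‖ ≤ β) (hβ0 : 0 ≤ β) {σ : ℝ} (hσ : 3 / 2 < σ) {ε : ℝ} (hε : 0 < ε) :
    ∃ M : ℕ, ∀ H : Fin 2 ⊕ J → ℕ, (∀ j, M ≤ H j) → ∀ s : ℂ, σ ≤ s.re →
      ‖mean ω H 𝓕.smooth (fun t => twLSeries (𝓕.member t) b s) -
        (eulerL (fun v m => (r v m : ℂ) * b v m) s)⁻¹ * eulerL (fun v => ext2 (b v)) (2 * s - 1) *
          GG (𝓕.data hR hr hfin) b s‖ ≤ ε := by
  obtain ⟨M, hM⟩ := part1 (𝓕.data hR hr hfin) ω hβ hβ0 (𝓕.thin_smooth ω) hσ hε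
  refine ⟨M, fun H hH s hs => ?_⟩
  have h := hM H hH s hs
  have e : (fun t => twLSeries (𝓕.member t) b s) =
      fun t => ∏' v, Complex.exp (lf (𝓕.data hR hr hfin) b v s (rd v t)) := by
    funext t
    unfold twLSeries
    congr 1
    funext v
    exact factor_eq 𝓕 hR hr hfin b t v s
  rw [e]
  exact h

theorem main2 (hβ : ∀ v m, ‖b v m‖ ≤ β) (hβ0 : 0 ≤ β) {σ : ℝ} (hσ : 5 / 6 < σ) {θ : ℝ} (hθ : 0 < θ) {ε : ℝ} (hε : 0 < ε) :
    ∃ Z₀ : ℕ, ∀ Z : ℕ, Z₀ ≤ Z → ∀ H : Fin 2 ⊕ J → ℕ, (∀ j, Real.exp ((Z : ℝ) ^ (1 + θ)) ≤ H j) → ∀ s : ℂ, σ ≤ s.re →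
      ‖mean ω H 𝓕.smooth (fun t => twPartial Z (𝓕.member t) b s) *
        (eulerZ Z (fun v m => (r v m : ℂ) * b v m) s * (eulerZ Z (fun v => ext2 (b v)) (2 * s - 1))⁻¹) -
          GG (𝓕.data hR hr hfin) b s‖ ≤ ε := by
  obtain ⟨Z₀, hZ₀⟩ := part2 (𝓕.data hR hr hfin) ω hβ hβ0 (by positivity) (𝓕.thin_smooth ω) hσ hθ hε
  refine ⟨Z₀, fun Z hZ H hH s hs => ?_⟩
  have h := hZ₀ Z hZ H hH s hs
  have e : (fun t => twPartial Z (𝓕.member t) b s) =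
      fun t => ∏ v ∈ SZ K Z, Complex.exp (lf (𝓕.data hR hr hfin) b v s (rd v t)) := by
    funext t
    rw [twPartial_eq]
    refine Finset.prod_congr rfl fun v _ => ?_
    exact factor_eq 𝓕 hR hr hfin b t v s
  rw [e, eulerZ_eq, eulerZ_eq]
  exact h

/-! ### the orders at the point one -/

theorem avg_re {b' : HeightOneSpectrum (𝓞 K) → ℕ → ℝ} (hb : ∀ v m, b v m = b' v m) {c₂ : ℝ}
    (h2 : HasAvg K (fun v => (b' v 0 ^ 2 - b' v 1) / 2) c₂) : HasAvg K (fun v => (cc (b v) 0).re) c₂ := by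
  refine h2.congr (Set.Finite.subset Set.finite_empty fun v hv => ?_)
  apply hv
  unfold cc
  rw [hb, hb, show ((b' v 0 : ℂ) ^ 2 - (b' v (2 * 0 + 1) : ℂ)) / 2 = (((b' v 0 ^ 2 - b' v 1) / 2 : ℝ) : ℂ) by
    push_cast; rfl, Complex.ofReal_re]

theorem avg_re1 {b' : HeightOneSpectrum (𝓞 K) → ℕ → ℝ} (hb : ∀ v m, b v m = b' v m) {c₁ : ℝ}
    (h1 : HasAvg K (fun v => r v 0 * b' v 0) c₁) : HasAvg K (fun v => ((r v 0 : ℂ) * b v 0).re) c₁ := by
  refine h1.congr (Set.Finite.subset Set.finite_empty fun v hv => ?_)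
  apply hv
  rw [hb, ← Complex.ofReal_mul, Complex.ofReal_re]

theorem order1 (hβ : ∀ v m, ‖b v m‖ ≤ β) {b' : HeightOneSpectrum (𝓞 K) → ℕ → ℝ} (hb : ∀ v m, b v m = b' v m) {c₁ c₂ : ℝ}
    (h1 : HasAvg K (fun v => r v 0 * b' v 0) c₁) (h2 : HasAvg K (fun v => (b' v 0 ^ 2 - b' v 1) / 2) c₂) :
    Tendsto (fun x : ℝ => Real.log ‖(eulerL (fun v m => (r v m : ℂ) * b v m) x)⁻¹ * eulerL (fun v => ext2 (b v)) (2 * x - 1) *
      GG (𝓕.data hR hr hfin) b x‖ / Real.log (1 / (x - 1))) (𝓝[>] 1) (𝓝 (c₂ - c₁)) := by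
  have hLam := Pool.Agent.H921R2.TatePole.Lam_tendsto
  have hLd : Pool.Agent.H921R2.TatePole.Lam = fun x => Real.log (1 / (x - 1)) := rfl
  rw [hLd] at hLam
  have hrb : ∀ v m, ‖(r v m : ℂ) * b v m‖ ≤ R * β := fun v m => by
    rw [norm_mul, Complex.norm_real, Real.norm_eq_abs]
    exact mul_le_mul (hr v m) (hβ v m) (norm_nonneg _) hR
  have hcb : ∀ v m, ‖cc (b v) m‖ ≤ (β ^ 2 + β) / 2 := fun v m => cc_le (hβ v) m
  have t1 := log_artin hrb (avg_re1 hb h1)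
  have t2 := log_artin hcb (avg_re hb h2)
  -- the shift
  have hm : Tendsto (fun x : ℝ => 2 * x - 1) (𝓝[>] 1) (𝓝[>] 1) := by
    refine tendsto_nhdsWithin_iff.2 ⟨?_, ?_⟩
    · have : Tendsto (fun x : ℝ => 2 * x - 1) (𝓝 1) (𝓝 (2 * 1 - 1)) := (Continuous.tendsto (by fun_prop) 1)
      have e : (2 : ℝ) * 1 - 1 = 1 := by norm_num
      rw [e] at this
      exact this.mono_left nhdsWithin_le_nhds
    · filter_upwards [self_mem_nhdsWithin] with x hx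
      have : (1 : ℝ) < x := hx
      show (1 : ℝ) < 2 * x - 1
      linarith
  have t3 := t2.comp hm
  have t4 : Tendsto (fun x : ℝ => Real.log (1 / ((2 * x - 1) - 1)) / Real.log (1 / (x - 1))) (𝓝[>] 1) (𝓝 1) := by
    have h3 : Tendsto (fun x : ℝ => -Real.log 2 / Real.log (1 / (x - 1)) + 1) (𝓝[>] 1) (𝓝 (0 + 1)) :=
      ((tendsto_const_nhds (x := -Real.log 2)).div_atTop hLam).add_const 1
    rw [zero_add] at h3
    refine h3.congr' ?_
    filter_upwards [hLam.eventually_gt_atTop 0, self_mem_nhdsWithin] with x hx hx1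
    have hx2 : (0 : ℝ) < x - 1 := by
      have : (1 : ℝ) < x := hx1
      linarith
    have e : Real.log (1 / ((2 * x - 1) - 1)) = -Real.log 2 + Real.log (1 / (x - 1)) := by
      rw [show (2 * x - 1 - 1 : ℝ) = 2 * (x - 1) by ring, one_div, one_div, mul_inv, Real.log_mul (by norm_num) (by positivity),
        Real.log_inv]
    rw [e]
    field_simp
  have t5 := t3.mul t4
  rw [mul_one] at t5
  -- the function `G`
  obtain ⟨g, hg0, hg⟩ := GG_real (𝓕.data hR hr hfin) hβ hb (x := 1) (by norm_num)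
  have t6 : Tendsto (fun x : ℝ => Real.log ‖GG (𝓕.data hR hr hfin) b x‖ / Real.log (1 / (x - 1))) (𝓝[>] 1) (𝓝 0) := by
    have h4 : ContinuousAt (GG (𝓕.data hR hr hfin) b) (((1 : ℝ)) : ℂ) :=
      ((GG_diff (𝓕.data hR hr hfin) hβ).differentiableAt ((isOpen_lt continuous_const Complex.continuous_re).mem_nhds (by
        show (5 / 6 : ℝ) < ((((1 : ℝ)) : ℂ)).re
        rw [Complex.ofReal_re]; norm_num))).continuousAt
    have h5 : Tendsto (fun x : ℝ => (x : ℂ)) (𝓝[>] 1) (𝓝 (((1 : ℝ)) : ℂ)) :=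
      (Complex.continuous_ofReal.tendsto _).mono_left nhdsWithin_le_nhds
    have h6 := (h4.tendsto.comp h5).norm
    have h7 : ‖GG (𝓕.data hR hr hfin) b ((1 : ℝ) : ℂ)‖ = g := by
      rw [hg, Complex.norm_real, Real.norm_of_nonneg hg0.le]
    rw [h7] at h6
    exact (((Real.continuousAt_log hg0.ne').tendsto.comp h6)).div_atTop hLam
  have hall := (t5.sub t1).add t6
  rw [add_zero] at hall
  refine hall.congr' ?_
  have hGne : ∀ᶠ x : ℝ in 𝓝[>] 1, GG (𝓕.data hR hr hfin) b x ≠ 0 := by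
    filter_upwards [self_mem_nhdsWithin] with x hx
    have hx1 : (1 : ℝ) < x := hx
    obtain ⟨g', hg0', hg'⟩ := GG_real (𝓕.data hR hr hfin) hβ hb (x := x) (by linarith)
    rw [hg']
    exact_mod_cast hg0'.ne'
  filter_upwards [hGne, self_mem_nhdsWithin, hLam.eventually_gt_atTop 0, hm.eventually self_mem_nhdsWithin,
    (hLam.comp hm).eventually_gt_atTop 0] with x hG hx hL hx2 hL2
  have hx1 : (1 : ℝ) < x := hx
  have hx3 : (1 : ℝ) < 2 * x - 1 := hx2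
  have n1 : artin (fun v m => (r v m : ℂ) * b v m) (x : ℂ) ≠ 0 := art_ne hrb (by rw [Complex.ofReal_re]; exact hx1)
  have e2 : (((2 * x - 1 : ℝ)) : ℂ) = 2 * (x : ℂ) - 1 := by push_cast; ring
  have n2 : artin (fun v => cc (b v)) (2 * (x : ℂ) - 1) ≠ 0 := by
    rw [← e2]
    exact art_ne hcb (by rw [Complex.ofReal_re]; exact hx3)
  have e4 : artin (fun v => ext2 (b v)) = artin (fun v => cc (b v)) := rfl
  rw [eulerL_eq, eulerL_eq, e4, norm_mul, norm_mul, norm_inv, Real.log_mul (mul_ne_zero (inv_ne_zero (norm_ne_zero_iff.2 n1)) (norm_ne_zero_iff.2 n2))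
    (norm_ne_zero_iff.2 hG), Real.log_mul (inv_ne_zero (norm_ne_zero_iff.2 n1)) (norm_ne_zero_iff.2 n2), Real.log_inv]
  simp only [Function.comp_apply]
  have hL2' : 0 < Real.log (1 / (2 * x - 1 - 1)) := hL2
  have e3 : Real.log ‖artin (fun v => cc (b v)) (((2 * x - 1 : ℝ)) : ℂ)‖ / Real.log (1 / (2 * x - 1 - 1)) *
      (Real.log (1 / (2 * x - 1 - 1)) / Real.log (1 / (x - 1))) =
      Real.log ‖artin (fun v => cc (b v)) (((2 * x - 1 : ℝ)) : ℂ)‖ / Real.log (1 / (x - 1)) := by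
    field_simp
  rw [e3, e2]
  ring

include hR hr hfin in
theorem order2 (hβ : ∀ v m, ‖b v m‖ ≤ β) (hβ0 : 0 ≤ β) {b' : HeightOneSpectrum (𝓞 K) → ℕ → ℝ} (hb : ∀ v m, b v m = b' v m) {c₁ c₂ : ℝ}
    (h1 : HasAvg K (fun v => r v 0 * b' v 0) c₁) (h2 : HasAvg K (fun v => (b' v 0 ^ 2 - b' v 1) / 2) c₂)
    {θ : ℝ} (hθ : 0 < θ) {ε : ℝ} (hε : 0 < ε) :
    ∃ Z₀ : ℕ, ∀ Z : ℕ, Z₀ ≤ Z → ∀ H : Fin 2 ⊕ J → ℕ, (∀ j, Real.exp ((Z : ℝ) ^ (1 + θ)) ≤ H j) →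
      |Real.log ‖mean ω H 𝓕.smooth (fun t => twPartial Z (𝓕.member t) b 1)‖ / Real.log (Real.log Z) - (c₂ - c₁)| ≤ ε := by
  have hrb : ∀ v m, ‖(r v m : ℂ) * b v m‖ ≤ R * β := fun v m => by
    rw [norm_mul, Complex.norm_real, Real.norm_eq_abs]
    exact mul_le_mul (hr v m) (hβ v m) (norm_nonneg _) hR
  have hcb : ∀ v m, ‖cc (b v) m‖ ≤ (β ^ 2 + β) / 2 := fun v m => cc_le (hβ v) m
  have t1 := log_artinZ hrb (avg_re1 hb h1)
  have t2 := log_artinZ hcb (avg_re hb h2)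
  obtain ⟨g, hg0, hg⟩ := GG_real (𝓕.data hR hr hfin) hβ hb (x := 1) (by norm_num)
  rw [Complex.ofReal_one] at hg
  obtain ⟨Z₁, hZ₁⟩ := main2 𝓕 hR hr hfin ω hβ hβ0 (σ := 1) (by norm_num) hθ (ε := g / 2) (by positivity)
  obtain ⟨C, hC⟩ : ∃ C : ℝ, C = |Real.log (g / 2)| + |Real.log (2 * g)| := ⟨_, rfl⟩
  have t3 : Tendsto (fun Z : ℕ => C / Real.log (Real.log Z)) atTop (𝓝 0) := tendsto_const_nhds.div_atTop loglog_atTop
  have e1 := t1.eventually (Metric.ball_mem_nhds c₁ (show (0 : ℝ) < ε / 3 by positivity))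
  have e2 := t2.eventually (Metric.ball_mem_nhds c₂ (show (0 : ℝ) < ε / 3 by positivity))
  have e3 := t3.eventually (gt_mem_nhds (show (0 : ℝ) < ε / 3 by positivity))
  obtain ⟨Z₂, hZ₂⟩ := eventually_atTop.1 (((e1.and e2).and e3).and (loglog_atTop.eventually_gt_atTop 0))
  refine ⟨max Z₁ Z₂, fun Z hZ H hH => ?_⟩
  obtain ⟨⟨⟨a1, a2⟩, a3⟩, a4⟩ := hZ₂ Z ((le_max_right _ _).trans hZ)
  have h3 := hZ₁ Z ((le_max_left _ _).trans hZ) H hH 1 (by simp)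
  rw [hg, show (2 : ℂ) * 1 - 1 = 1 by norm_num, eulerZ_eq, eulerZ_eq] at h3
  obtain ⟨A, hA⟩ : ∃ A : ℂ, A = artinZ Z (fun v m => (r v m : ℂ) * b v m) 1 := ⟨_, rfl⟩
  obtain ⟨B, hB⟩ : ∃ B : ℂ, B = artinZ Z (fun v => cc (b v)) 1 := ⟨_, rfl⟩
  obtain ⟨M, hM⟩ : ∃ M : ℂ, M = mean ω H 𝓕.smooth (fun t => twPartial Z (𝓕.member t) b 1) := ⟨_, rfl⟩
  have hB' : artinZ Z (fun v => ext2 (b v)) 1 = B := by rw [hB]; rfl
  rw [hB', ← hA, ← hM] at h3
  rw [← hM]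
  rw [← hA] at a1
  rw [← hB] at a2
  have nA : A ≠ 0 := by
    rw [hA]
    exact Finset.prod_ne_zero_iff.2 fun v _ => Complex.exp_ne_zero _
  have nB : B ≠ 0 := by
    rw [hB]
    exact Finset.prod_ne_zero_iff.2 fun v _ => Complex.exp_ne_zero _
  have hlow : g / 2 ≤ ‖M * (A * B⁻¹)‖ := by
    have h4 := norm_sub_norm_le ((g : ℝ) : ℂ) (((g : ℝ) : ℂ) - M * (A * B⁻¹))
    rw [sub_sub_cancel, Complex.norm_real, Real.norm_of_nonneg hg0.le, norm_sub_rev] at h4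
    linarith
  have hup : ‖M * (A * B⁻¹)‖ ≤ 2 * g := by
    have h4 := norm_sub_norm_le (M * (A * B⁻¹)) ((g : ℝ) : ℂ)
    rw [Complex.norm_real, Real.norm_of_nonneg hg0.le] at h4
    linarith
  have hpos : 0 < ‖M * (A * B⁻¹)‖ := lt_of_lt_of_le (by positivity) hlow
  have nM : M ≠ 0 := by
    intro h
    rw [h, zero_mul, norm_zero] at hpos
    exact lt_irrefl _ hpos
  have hlog : Real.log ‖M‖ = Real.log ‖M * (A * B⁻¹)‖ - Real.log ‖A‖ + Real.log ‖B‖ := by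
    rw [norm_mul, norm_mul, norm_inv, Real.log_mul (norm_ne_zero_iff.2 nM) (mul_ne_zero (norm_ne_zero_iff.2 nA) (inv_ne_zero (norm_ne_zero_iff.2 nB))),
      Real.log_mul (norm_ne_zero_iff.2 nA) (inv_ne_zero (norm_ne_zero_iff.2 nB)), Real.log_inv]
    ring
  have hbd : |Real.log ‖M * (A * B⁻¹)‖| ≤ C := by
    have l1 := Real.log_le_log (by positivity) hlow
    have l2 := Real.log_le_log hpos hup
    rw [hC, abs_le]
    have p1 := neg_abs_le (Real.log (g / 2))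
    have p2 := le_abs_self (Real.log (2 * g))
    have p3 := abs_nonneg (Real.log (g / 2))
    have p4 := abs_nonneg (Real.log (2 * g))
    constructor <;> linarith
  rw [Real.dist_eq] at a1 a2
  rw [hlog]
  have e5 : (Real.log ‖M * (A * B⁻¹)‖ - Real.log ‖A‖ + Real.log ‖B‖) / Real.log (Real.log Z) - (c₂ - c₁) =
      Real.log ‖M * (A * B⁻¹)‖ / Real.log (Real.log Z) - (Real.log ‖A‖ / Real.log (Real.log Z) - c₁) +
      (Real.log ‖B‖ / Real.log (Real.log Z) - c₂) := by ring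
  rw [e5]
  have e6 : |Real.log ‖M * (A * B⁻¹)‖ / Real.log (Real.log Z)| < ε / 3 := by
    rw [abs_div, abs_of_pos a4]
    exact (div_le_div_of_nonneg_right hbd a4.le).trans_lt a3
  calc _ ≤ |Real.log ‖M * (A * B⁻¹)‖ / Real.log (Real.log Z)| + |Real.log ‖A‖ / Real.log (Real.log Z) - c₁| +
        |Real.log ‖B‖ / Real.log (Real.log Z) - c₂| := (abs_add_le _ _).trans (add_le_add (abs_sub _ _) le_rfl)
    _ ≤ ε := by linarith

end

end Run7.h61.TW
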