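import Pool.Agent.Run7.h61.TW.BC3

/-!
# Orbits on pairs
-/

set_option autoImplicit false
set_option linter.unusedSectionVars false

namespace Run7.h61.TW

open NumberField IsDedekindDomain Finset Filter Topology Polynomial
open Pool.Agent.W401.Cheb (GK IsFrob IsInert)
open Pool.Agent.W353.NF (act act_apply fixn ker_act_open)

section
variable {G Y : Type} [Group G] [Fintype G] [Fintype Y]

/-- Burnside's lemma -/
theorem burn (a : G →* Equiv.Perm Y) (r : Setoid Y) (hr : ∀ x y, r x y ↔ ∃ g, a g x = y) :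
    ∑ g : G, Nat.card {y // a g y = y} = Nat.card (Quotient r) * Fintype.card G := by
  classical
  let _ : MulAction G Y := MulAction.compHom Y a
  have hsm : ∀ (g : G) (y : Y), g • y = a g y := fun g y => rfl
  let _ : Fintype (Quotient (MulAction.orbitRel G Y)) := Fintype.ofFinite _
  have h1 := MulAction.sum_card_fixedBy_eq_card_orbits_mul_card_group G Y
  have h2 : r = MulAction.orbitRel G Y := by
    ext x y
    rw [hr, MulAction.orbitRel_apply, MulAction.mem_orbit_iff]
    constructor
    · rintro ⟨g, hg⟩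
      refine ⟨g⁻¹, ?_⟩
      rw [← hg, ← hsm, inv_smul_smul]
    · rintro ⟨g, hg⟩
      refine ⟨g⁻¹, ?_⟩
      rw [← hsm, ← hg, inv_smul_smul]
  have h3 : Nat.card (Quotient r) = Fintype.card (Quotient (MulAction.orbitRel G Y)) := by
    rw [h2, Nat.card_eq_fintype_card]
  rw [h3, ← h1]
  refine Finset.sum_congr rfl fun g _ => ?_
  rw [Nat.card_eq_fintype_card]
  congr 1

/-- The pairs are in one orbit. -/
def prel (a : G →* Equiv.Perm Y) : Setoid (Y × Y) where
  r z w := ∃ g : G, a g z.1 = w.1 ∧ a g z.2 = w.2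
  iseqv :=
    { refl := fun z => ⟨1, by rw [map_one]; exact ⟨rfl, rfl⟩⟩
      symm := fun {z w} ⟨g, h1, h2⟩ => ⟨g⁻¹, by
        rw [map_inv, ← h1, ← h2]
        exact ⟨(a g).symm_apply_apply _, (a g).symm_apply_apply _⟩⟩
      trans := fun {x y z} ⟨g, h1, h2⟩ ⟨h, h3, h4⟩ => ⟨h * g, by
        rw [map_mul, Equiv.Perm.mul_apply, Equiv.Perm.mul_apply, h1, h2, h3, h4]
        exact ⟨rfl, rfl⟩⟩ }

/-- the action on the pairs -/
def pact (a : G →* Equiv.Perm Y) : G →* Equiv.Perm (Y × Y) where
  toFun g := Equiv.prodCongr (a g) (a g)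
  map_one' := by rw [map_one]; rfl
  map_mul' g h := by rw [map_mul]; rfl

theorem sum_fix_sq (a : G →* Equiv.Perm Y) :
    ∑ g : G, (Nat.card {y // a g y = y}) ^ 2 = Nat.card (Quotient (prel a)) * Fintype.card G := by
  rw [← burn (pact a) (prel a) fun z w => ⟨fun ⟨g, h1, h2⟩ => ⟨g, Prod.ext h1 h2⟩,
    fun ⟨g, h⟩ => ⟨g, congrArg Prod.fst h, congrArg Prod.snd h⟩⟩]
  refine Finset.sum_congr rfl fun g _ => ?_
  rw [sq, ← Nat.card_prod]
  exact Nat.card_congr
    { toFun := fun p => ⟨(p.1.1, p.2.1), Prod.ext p.1.2 p.2.2⟩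
      invFun := fun z => (⟨z.1.1, congrArg Prod.fst z.2⟩, ⟨z.1.2, congrArg Prod.snd z.2⟩)
      left_inv := fun z => rfl
      right_inv := fun p => rfl }

/-- the pairs that are equivalent to the reversed pair -/
abbrev SelfP (a : G →* Equiv.Perm Y) : Type := {z : Y × Y // (prel a) z z.swap}

/-- the action on them -/
def sact (a : G →* Equiv.Perm Y) : G →* Equiv.Perm (SelfP a) where
  toFun g :=
    { toFun := fun z => ⟨pact a g z.1, by
        obtain ⟨h, h1, h2⟩ := z.2
        refine ⟨g * h * g⁻¹, ?_, ?_⟩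
        · show a (g * h * g⁻¹) (a g z.1.1) = a g z.1.2
          rw [← Equiv.Perm.mul_apply, ← map_mul, inv_mul_cancel_right, map_mul, Equiv.Perm.mul_apply]
          exact congrArg _ h1
        · show a (g * h * g⁻¹) (a g z.1.2) = a g z.1.1
          rw [← Equiv.Perm.mul_apply, ← map_mul, inv_mul_cancel_right, map_mul, Equiv.Perm.mul_apply]
          exact congrArg _ h2⟩
      invFun := fun z => ⟨pact a g⁻¹ z.1, by
        obtain ⟨h, h1, h2⟩ := z.2
        refine ⟨g⁻¹ * h * g, ?_, ?_⟩
        · show a (g⁻¹ * h * g) (a g⁻¹ z.1.1) = a g⁻¹ z.1.2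
          rw [← Equiv.Perm.mul_apply, ← map_mul, mul_inv_cancel_right, map_mul, Equiv.Perm.mul_apply]
          exact congrArg _ h1
        · show a (g⁻¹ * h * g) (a g⁻¹ z.1.2) = a g⁻¹ z.1.1
          rw [← Equiv.Perm.mul_apply, ← map_mul, mul_inv_cancel_right, map_mul, Equiv.Perm.mul_apply]
          exact congrArg _ h2⟩
      left_inv := fun z => Subtype.ext (by
        show pact a g⁻¹ (pact a g z.1) = z.1
        rw [← Equiv.Perm.mul_apply, ← map_mul, inv_mul_cancel, map_one]
        rfl)
      right_inv := fun z => Subtype.ext (by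
        show pact a g (pact a g⁻¹ z.1) = z.1
        rw [← Equiv.Perm.mul_apply, ← map_mul, mul_inv_cancel, map_one]
        rfl) }
  map_one' := Equiv.ext fun z => Subtype.ext (by
    show pact a 1 z.1 = z.1
    rw [map_one]
    rfl)
  map_mul' g h := Equiv.ext fun z => Subtype.ext (by
    show pact a (g * h) z.1 = pact a g (pact a h z.1)
    rw [map_mul]
    rfl)

open Classical in
/-- **The mean number of the fixed points of the squares is the number of the self-paired orbits.** -/
theorem sum_fix_two (a : G →* Equiv.Perm Y) :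
    ∑ g : G, Nat.card {y // a (g ^ 2) y = y} =
      Nat.card (Quotient ((prel a).comap (Subtype.val : SelfP a → Y × Y))) * Fintype.card G := by
  rw [← burn (sact a) ((prel a).comap Subtype.val) fun z w => ⟨fun ⟨g, h1, h2⟩ => ⟨g, Subtype.ext (Prod.ext h1 h2)⟩,
    fun ⟨g, h⟩ => ⟨g, congrArg (fun z : SelfP a => z.1.1) h, congrArg (fun z : SelfP a => z.1.2) h⟩⟩]
  -- first side
  have e1 : ∀ g : G, Nat.card {y // a (g ^ 2) y = y} = Nat.card {z : Y × Y // a g z.1 = z.2 ∧ a g z.2 = z.1} := by
    intro g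
    have h0 : ∀ y, a (g ^ 2) y = y ↔ a g (a g y) = y := by
      intro y
      rw [sq, map_mul, Equiv.Perm.mul_apply]
    exact Nat.card_congr
      { toFun := fun y => ⟨(y.1, a g y.1), rfl, (h0 y.1).1 y.2⟩
        invFun := fun z => ⟨z.1.1, (h0 z.1.1).2 ((congrArg (a g) z.2.1).trans z.2.2)⟩
        left_inv := fun y => rfl
        right_inv := fun z => Subtype.ext (Prod.ext rfl z.2.1) }
  have e2 : ∀ g : G, Nat.card {z : SelfP a // sact a g z = z} =
      Nat.card {z : Y × Y // (prel a) z z.swap ∧ a g z.1 = z.1 ∧ a g z.2 = z.2} := by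
    intro g
    exact Nat.card_congr
      { toFun := fun z => ⟨z.1.1, z.1.2, congrArg (fun z : SelfP a => z.1.1) z.2, congrArg (fun z : SelfP a => z.1.2) z.2⟩
        invFun := fun z => ⟨⟨z.1, z.2.1⟩, Subtype.ext (Prod.ext z.2.2.1 z.2.2.2)⟩
        left_inv := fun z => rfl
        right_inv := fun z => rfl }
  simp only [e1, e2, Nat.card_eq_fintype_card, Fintype.card_subtype, Finset.card_filter]
  rw [Finset.sum_comm]
  conv_rhs => rw [Finset.sum_comm]
  refine Finset.sum_congr rfl fun z _ => ?_
  by_cases hz : (prel a) z z.swap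
  · obtain ⟨h, h1, h2⟩ := hz
    have h1' : a h z.1 = z.2 := h1
    have h2' : a h z.2 = z.1 := h2
    rw [← Equiv.sum_comp (Equiv.mulLeft h) (fun g => if a g z.1 = z.2 ∧ a g z.2 = z.1 then 1 else 0)]
    refine Finset.sum_congr rfl fun g _ => ?_
    have hiff : (a (h * g) z.1 = z.2 ∧ a (h * g) z.2 = z.1) ↔ ((prel a) z z.swap ∧ a g z.1 = z.1 ∧ a g z.2 = z.2) := by
      rw [map_mul, Equiv.Perm.mul_apply, Equiv.Perm.mul_apply]
      constructor
      · rintro ⟨h3, h4⟩
        exact ⟨⟨h, h1, h2⟩, (a h).injective (h3.trans h1'.symm), (a h).injective (h4.trans h2'.symm)⟩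
      · rintro ⟨_, h3, h4⟩
        rw [h3, h4]
        exact ⟨h1', h2'⟩
    rw [Equiv.coe_mulLeft]
    simp only [hiff]
  · rw [Finset.sum_eq_zero, Finset.sum_eq_zero]
    · intro g _
      rw [if_neg fun h => hz h.1]
    · intro g _
      exact if_neg fun h => hz ⟨g, h.1, h.2⟩

end

section
variable (K F : Type) [Field K] [NumberField K] [Field F] [NumberField F] [Algebra K F]

/-- Two pairs of `K`-embeddings of `F` in the algebraic closure are equivalent if an element of the Galois group maps
one to the other. -/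
def pairRel : Setoid ((F →ₐ[K] AlgebraicClosure K) × (F →ₐ[K] AlgebraicClosure K)) where
  r z w := ∃ σ : GK K, act K F σ z.1 = w.1 ∧ act K F σ z.2 = w.2
  iseqv :=
    { refl := fun z => ⟨1, by rw [map_one]; exact ⟨rfl, rfl⟩⟩
      symm := fun {z w} ⟨g, h1, h2⟩ => ⟨g⁻¹, by
        rw [map_inv, ← h1, ← h2]
        exact ⟨(act K F g).symm_apply_apply _, (act K F g).symm_apply_apply _⟩⟩
      trans := fun {x y z} ⟨g, h1, h2⟩ ⟨h, h3, h4⟩ => ⟨h * g, by
        rw [map_mul, Equiv.Perm.mul_apply, Equiv.Perm.mul_apply, h1, h2, h3, h4]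
        exact ⟨rfl, rfl⟩⟩ }

/-- The number of the orbits of the Galois group on the pairs of embeddings. -/
noncomputable def pairOrbits : ℕ := Nat.card (Quotient (pairRel K F))

/-- The number of the orbits that contain `(j, i)` with every pair `(i, j)`: the number of the classes of the pairs
that are equivalent to the reversed pair. -/
noncomputable def selfOrbits : ℕ :=
  Nat.card (Quotient ((pairRel K F).comap (Subtype.val : {z // (pairRel K F) z z.swap} → _)))

/-- the action of the finite quotient -/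
noncomputable def gact : (act K F).range →* Equiv.Perm (F →ₐ[K] AlgebraicClosure K) := (act K F).range.subtype

theorem prel_eq : prel (gact K F) = pairRel K F := by
  ext z w
  constructor
  · rintro ⟨⟨_, ⟨σ, rfl⟩⟩, h1, h2⟩
    exact ⟨σ, h1, h2⟩
  · rintro ⟨σ, h1, h2⟩
    exact ⟨⟨act K F σ, ⟨σ, rfl⟩⟩, h1, h2⟩

noncomputable instance : Fintype (act K F).range :=
  have : Finite (act K F).range := Subtype.finite
  Fintype.ofFinite _

/-- **The mean values for the permutation character.** -/
theorem avg_perm (k : ℝ) : HasAvg K (fun v => ((k * (bF F v 0).re) ^ 2 - k * (bF F v 1).re) / 2)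
    ((k ^ 2 * pairOrbits K F - k * selfOrbits K F) / 2) := by
  classical
  have hc : (Fintype.card (act K F).range : ℝ) ≠ 0 := by exact_mod_cast Fintype.card_pos.ne'
  have hfix : ∀ g h : (act K F).range, Nat.card {y // gact K F (h * g * h⁻¹) y = y} = Nat.card {y // gact K F g y = y} := by
    intro g h
    refine Nat.card_congr (Equiv.subtypeEquiv (gact K F h⁻¹) fun y => ?_)
    rw [map_mul, map_mul, Equiv.Perm.mul_apply, Equiv.Perm.mul_apply, map_inv, Equiv.Perm.eq_inv_iff_eq]
  have h := avg_class (K := K) (G := (act K F).range) (act K F).rangeRestrict (act K F).rangeRestrict_surjective (by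
    have : (act K F).rangeRestrict.ker = (act K F).ker := MonoidHom.ker_rangeRestrict _
    rw [this]
    exact ker_act_open K F)
    (fun g => ((k * (Nat.card {y // gact K F g y = y} : ℝ)) ^ 2 - k * (Nat.card {y // gact K F (g ^ 2) y = y} : ℝ)) / 2)
    (fun g h => by
      rw [hfix, conj_pow, hfix])
    (fun v => ((k * (bF F v 0).re) ^ 2 - k * (bF F v 1).re) / 2) ((bF_ae K F).subset fun v hv hc => by
      apply hv
      intro σ hσ
      have e0 := hc σ hσ 0
      have e1 := hc σ hσ 1
      rw [e0, e1, Complex.natCast_re, Complex.natCast_re, zero_add, pow_one]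
      rfl)
  have e : (∑ g : (act K F).range, ((k * (Nat.card {y // gact K F g y = y} : ℝ)) ^ 2 -
      k * (Nat.card {y // gact K F (g ^ 2) y = y} : ℝ)) / 2) / (Fintype.card (act K F).range : ℝ) =
      (k ^ 2 * pairOrbits K F - k * selfOrbits K F) / 2 := by
    have s1 := sum_fix_sq (gact K F)
    have s2 := sum_fix_two (gact K F)
    have p1 : Nat.card (Quotient (prel (gact K F))) = pairOrbits K F := by
      unfold pairOrbits
      rw [prel_eq]
    have p2 : Nat.card (Quotient ((prel (gact K F)).comap (Subtype.val : SelfP (gact K F) → _))) = selfOrbits K F := by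
      unfold selfOrbits
      rw [prel_eq]
    rw [p1] at s1
    rw [p2] at s2
    have s1' : ∑ g : (act K F).range, (Nat.card {y // gact K F g y = y} : ℝ) ^ 2 = pairOrbits K F * Fintype.card (act K F).range := by
      exact_mod_cast s1
    have s2' : ∑ g : (act K F).range, (Nat.card {y // gact K F (g ^ 2) y = y} : ℝ) = selfOrbits K F * Fintype.card (act K F).range := by
      exact_mod_cast s2
    simp only [mul_pow]
    rw [← Finset.sum_div, Finset.sum_sub_distrib, ← Finset.mul_sum, ← Finset.mul_sum, s1', s2']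
    field_simp
  rw [e] at h
  exact h

end

end Run7.h61.TW
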