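import Pool.Agent.Run7.h61.TW.Art
import Pool.Agent.Erdos456.Mertens

/-!
# Sums over places with a mean value
-/

set_option autoImplicit false
set_option linter.unusedSectionVars false

namespace Run7.h61.TW

open NumberField IsDedekindDomain Finset Filter Topology
open Run7.h876.MM (nv kv two_le_nv nv_pos avg card_kv xv norm_xv instFieldKv instFintypeKv instDecKv norm_avg_le avg_sub'
  tail_bound tail_small mult_of tprod_ne xv_real SZ mem_SZ nv_rpow_le y0_lt)
open Run7.h876.EN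
open Run7.h876.HY (one_le_nv ell_diff ell_real)

/-- `1 / m = ∑_{m ≤ n ≤ Z} 1 / (n (n+1)) + 1 / (Z+1)` -/
theorem tele {m Z : ℕ} (h1 : 1 ≤ m) (h : m ≤ Z) :
    (1 : ℝ) / m = (∑ n ∈ range (Z + 1), if m ≤ n then 1 / ((n : ℝ) * (n + 1)) else 0) + 1 / ((Z : ℝ) + 1) := by
  have hm : (0 : ℝ) < m := by exact_mod_cast h1
  induction Z, h using Nat.le_induction with
  | base =>
    rw [Finset.sum_range_succ, if_pos le_rfl, Finset.sum_eq_zero fun n hn => if_neg (by
      have := Finset.mem_range.1 hn; omega), zero_add]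
    field_simp
    ring
  | succ Z hZ ih =>
    rw [Finset.sum_range_succ, if_pos (by omega), ih]
    push_cast
    have : (0 : ℝ) < (Z : ℝ) + 1 := by positivity
    have : (0 : ℝ) < (Z : ℝ) + 1 + 1 := by positivity
    field_simp
    ring

/-- summation by parts -/
theorem sum_tele {T : Type*} [DecidableEq T] (N : T → ℕ) (F : ℕ → Finset T) (hN : ∀ n, ∀ x ∈ F n, 1 ≤ N x ∧ N x ≤ n)
    (hF : ∀ n Z, n ≤ Z → F n = (F Z).filter fun x => N x ≤ n) (φ : T → ℝ) (Z : ℕ) :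
    ∑ x ∈ F Z, φ x / N x = (∑ n ∈ range (Z + 1), (1 / ((n : ℝ) * (n + 1))) * ∑ x ∈ F n, φ x) + (∑ x ∈ F Z, φ x) / ((Z : ℝ) + 1) := by
  have h1 : ∀ x ∈ F Z, φ x / N x = (∑ n ∈ range (Z + 1), (1 / ((n : ℝ) * (n + 1))) * (if N x ≤ n then φ x else 0)) + φ x / ((Z : ℝ) + 1) := by
    intro x hx
    obtain ⟨h2, h3⟩ := hN Z x hx
    rw [div_eq_mul_one_div (φ x) (N x : ℝ), tele h2 h3, mul_add, Finset.mul_sum]
    congr 1
    · refine Finset.sum_congr rfl fun n _ => ?_
      split_ifs <;> ring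
    · ring
  rw [Finset.sum_congr rfl h1, Finset.sum_add_distrib, Finset.sum_comm, Finset.sum_div]
  congr 1
  refine Finset.sum_congr rfl fun n hn => ?_
  rw [← Finset.mul_sum, hF n Z (by have := Finset.mem_range.1 hn; omega), Finset.sum_filter]

section
variable (K : Type) [Field K] [NumberField K]

/-- The function `φ` on the places has the mean value `c`. -/
def HasAvg (φ : HeightOneSpectrum (𝓞 K) → ℝ) (c : ℝ) : Prop :=
  Tendsto (fun N : ℕ => (∑ v ∈ SZ K N, φ v) / (Nat.primeCounting N : ℝ)) atTop (𝓝 c)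

end

theorem pi_le (n : ℕ) : (Nat.primeCounting n : ℝ) ≤ n := by
  have : Nat.primeCounting n ≤ n := by
    rw [Nat.primeCounting, Nat.primeCounting', Nat.count_eq_card_filter_range]
    have h1 : (Finset.range (n + 1)).filter Nat.Prime ⊆ Finset.Icc 1 n := by
      intro p hp
      obtain ⟨h1, h2⟩ := Finset.mem_filter.1 hp
      have := Finset.mem_range.1 h1
      exact Finset.mem_Icc.2 ⟨h2.one_lt.le, by omega⟩
    exact (Finset.card_le_card h1).trans (by simp)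
  exact_mod_cast this

theorem pi_eq (n : ℕ) : (Nat.primeCounting n : ℝ) = ∑ _p ∈ (Finset.Icc 1 n).filter Nat.Prime, (1 : ℝ) := by
  rw [Finset.sum_const, nsmul_eq_mul, mul_one]
  have : Nat.primeCounting n = ((Finset.Icc 1 n).filter Nat.Prime).card := by
    rw [Nat.primeCounting, Nat.primeCounting', Nat.count_eq_card_filter_range]
    congr 1
    ext p
    simp only [Finset.mem_filter, Finset.mem_range, Finset.mem_Icc]
    constructor
    · rintro ⟨h1, h2⟩
      exact ⟨⟨h2.one_lt.le, by omega⟩, h2⟩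
    · rintro ⟨h1, h2⟩
      exact ⟨by omega, h2⟩
  rw [this]

/-- the sum over the primes -/
theorem prime_tele (Z : ℕ) : ∑ p ∈ (Finset.Icc 1 Z).filter Nat.Prime, (1 : ℝ) / p =
    (∑ n ∈ range (Z + 1), (1 / ((n : ℝ) * (n + 1))) * (Nat.primeCounting n : ℝ)) + (Nat.primeCounting Z : ℝ) / ((Z : ℝ) + 1) := by
  have h := sum_tele (T := ℕ) (fun p => p) (fun n => (Finset.Icc 1 n).filter Nat.Prime) (fun n x hx => by
    have := Finset.mem_Icc.1 (Finset.mem_filter.1 hx).1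
    exact this) (fun n Z hnZ => by
    ext p
    simp only [Finset.mem_filter, Finset.mem_Icc]
    constructor
    · rintro ⟨⟨h1, h2⟩, h3⟩; exact ⟨⟨⟨h1, h2.trans hnZ⟩, h3⟩, h2⟩
    · rintro ⟨⟨⟨h1, _⟩, h3⟩, h2⟩; exact ⟨⟨h1, h2⟩, h3⟩) (fun _ => 1) Z
  simp only [pi_eq]
  exact h

theorem loglog_atTop : Tendsto (fun Z : ℕ => Real.log (Real.log Z)) atTop atTop :=
  Real.tendsto_log_atTop.comp (Real.tendsto_log_atTop.comp tendsto_natCast_atTop_atTop)

theorem bdd_div_loglog {f : ℕ → ℝ} {C : ℝ} (h : ∀ᶠ n in atTop, |f n| ≤ C) :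
    Tendsto (fun Z : ℕ => f Z / Real.log (Real.log Z)) atTop (𝓝 0) := by
  have h1 : Tendsto (fun Z : ℕ => C / Real.log (Real.log Z)) atTop (𝓝 0) := tendsto_const_nhds.div_atTop loglog_atTop
  refine squeeze_zero_norm' ?_ h1
  filter_upwards [h, loglog_atTop.eventually_gt_atTop 0] with Z hZ hpos
  rw [norm_div, Real.norm_eq_abs, Real.norm_eq_abs, abs_of_pos hpos]
  gcongr

theorem prime_ratio : Tendsto (fun Z : ℕ => (∑ p ∈ (Finset.Icc 1 Z).filter Nat.Prime, (1 : ℝ) / p) / Real.log (Real.log Z))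
    atTop (𝓝 1) := by
  obtain ⟨C, hC⟩ := Pool.Agent.Erdos456.Mert.mertens_inv
  have h := bdd_div_loglog (f := fun Z : ℕ => ∑ p ∈ (Finset.Icc 1 Z).filter Nat.Prime, (1 : ℝ) / p - Real.log (Real.log Z)) (C := C) (by
    filter_upwards [eventually_ge_atTop 3] with Z hZ
    exact hC Z hZ)
  have h2 := h.add_const 1
  rw [zero_add] at h2
  refine h2.congr' ?_
  filter_upwards [loglog_atTop.eventually_gt_atTop 0] with Z hpos
  field_simp
  ring

section
variable {K : Type} [Field K] [NumberField K]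

theorem place_tele (φ : HeightOneSpectrum (𝓞 K) → ℝ) (Z : ℕ) : ∑ v ∈ SZ K Z, φ v / nv v =
    (∑ n ∈ range (Z + 1), (1 / ((n : ℝ) * (n + 1))) * ∑ v ∈ SZ K n, φ v) + (∑ v ∈ SZ K Z, φ v) / ((Z : ℝ) + 1) := by
  classical
  refine sum_tele nv (fun n => SZ K n) (fun n v hv => ⟨by have := two_le_nv v; omega, mem_SZ.1 hv⟩) (fun n Z hnZ => ?_) φ Z
  ext v
  rw [Finset.mem_filter, mem_SZ, mem_SZ]
  constructor
  · intro h; exact ⟨h.trans hnZ, h⟩
  · exact fun h => h.2

/-- **Logarithmic means.** -/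
theorem sum_inv {φ : HeightOneSpectrum (𝓞 K) → ℝ} {c : ℝ} (h : HasAvg K φ c) :
    Tendsto (fun Z : ℕ => (∑ v ∈ SZ K Z, φ v / nv v) / Real.log (Real.log Z)) atTop (𝓝 c) := by
  obtain ⟨S, hS⟩ : ∃ S : ℕ → ℝ, S = fun n => ∑ v ∈ SZ K n, φ v := ⟨_, rfl⟩
  obtain ⟨d, hd⟩ : ∃ d : ℕ → ℝ, d = fun n => S n - c * (Nat.primeCounting n : ℝ) := ⟨_, rfl⟩
  have hpi : ∀ᶠ n : ℕ in atTop, (0 : ℝ) < Nat.primeCounting n := by
    filter_upwards [eventually_ge_atTop 2] with n hn
    have h2 : 0 < Nat.primeCounting 2 := by decide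
    exact_mod_cast h2.trans_le (Nat.monotone_primeCounting hn)
  -- `d` is small
  have hdo : d =o[atTop] (fun n : ℕ => (Nat.primeCounting n : ℝ)) := by
    rw [Asymptotics.isLittleO_iff_tendsto' (by
      filter_upwards [hpi] with n hn h0
      exact absurd h0 hn.ne')]
    have h1 : Tendsto (fun n : ℕ => (S n) / (Nat.primeCounting n : ℝ) - c) atTop (𝓝 0) := by
      have := h.sub_const c
      rw [sub_self] at this
      rw [hS]
      exact this
    refine h1.congr' ?_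
    filter_upwards [hpi] with n hn
    rw [hd]
    field_simp
  obtain ⟨w, hw⟩ : ∃ w : ℕ → ℝ, w = fun n : ℕ => 1 / ((n : ℝ) * (n + 1)) := ⟨_, rfl⟩
  have hw0 : ∀ n, 0 ≤ w n := fun n => by rw [hw]; positivity
  have hfo : (fun n => w n * d n) =o[atTop] (fun n => w n * (Nat.primeCounting n : ℝ)) :=
    (Asymptotics.isBigO_refl w atTop).mul_isLittleO hdo
  have hg0 : ∀ n, 0 ≤ w n * (Nat.primeCounting n : ℝ) := fun n => mul_nonneg (hw0 n) (by positivity)
  have hpt : ∀ Z : ℕ, ∑ n ∈ range (Z + 1), w n * (Nat.primeCounting n : ℝ) =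
      ∑ p ∈ (Finset.Icc 1 Z).filter Nat.Prime, (1 : ℝ) / p - (Nat.primeCounting Z : ℝ) / ((Z : ℝ) + 1) := by
    intro Z
    rw [prime_tele, hw]
    ring
  have hq1 : ∀ Z : ℕ, |(Nat.primeCounting Z : ℝ) / ((Z : ℝ) + 1)| ≤ 1 := by
    intro Z
    rw [abs_of_nonneg (by positivity), div_le_one (by positivity)]
    linarith [pi_le Z]
  have hgr : Tendsto (fun Z : ℕ => (∑ n ∈ range (Z + 1), w n * (Nat.primeCounting n : ℝ)) / Real.log (Real.log Z)) atTop (𝓝 1) := by
    have h1 := prime_ratio.sub (bdd_div_loglog (f := fun Z : ℕ => (Nat.primeCounting Z : ℝ) / ((Z : ℝ) + 1)) (C := 1)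
      (Eventually.of_forall hq1))
    rw [sub_zero] at h1
    refine h1.congr fun Z => ?_
    rw [hpt, sub_div]
  have hginf' : Tendsto (fun Z : ℕ => ∑ n ∈ range (Z + 1), w n * (Nat.primeCounting n : ℝ)) atTop atTop := by
    have h1 := hgr.pos_mul_atTop one_pos loglog_atTop
    refine h1.congr' ?_
    filter_upwards [loglog_atTop.eventually_gt_atTop 0] with Z hpos
    field_simp
  have hginf : Tendsto (fun Z : ℕ => ∑ n ∈ range Z, w n * (Nat.primeCounting n : ℝ)) atTop atTop :=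
    (tendsto_add_atTop_iff_nat 1).1 hginf'
  have hsum := hfo.sum_range hg0 hginf
  have hsum' : Tendsto (fun Z : ℕ => (∑ n ∈ range (Z + 1), w n * d n) / (∑ n ∈ range (Z + 1), w n * (Nat.primeCounting n : ℝ)))
      atTop (𝓝 0) := (hsum.tendsto_div_nhds_zero).comp (tendsto_add_atTop_nat 1)
  have hA : Tendsto (fun Z : ℕ => (∑ n ∈ range (Z + 1), w n * d n) / Real.log (Real.log Z)) atTop (𝓝 0) := by
    have h1 := hsum'.mul hgr
    rw [zero_mul] at h1
    refine h1.congr' ?_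
    filter_upwards [hginf'.eventually_gt_atTop 0] with Z hpos
    field_simp
  -- the last term
  have hdC : ∀ᶠ Z : ℕ in atTop, |d Z / ((Z : ℝ) + 1)| ≤ 1 := by
    have h1 := hdo.bound (c := 1) one_pos
    filter_upwards [h1] with Z hZ
    rw [Real.norm_eq_abs, Real.norm_of_nonneg (by positivity), one_mul] at hZ
    rw [abs_div, abs_of_pos (by positivity : (0 : ℝ) < (Z : ℝ) + 1), div_le_one (by positivity)]
    linarith [pi_le Z]
  have hB := bdd_div_loglog hdC
  have hP := prime_ratio.const_mul c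
  have hall := (hP.add hA).add hB
  rw [mul_one, add_zero, add_zero] at hall
  refine hall.congr fun Z => ?_
  rw [place_tele, prime_tele]
  have e1 : ∀ n, (∑ v ∈ SZ K n, φ v) = d n + c * (Nat.primeCounting n : ℝ) := by
    intro n
    rw [hd, hS]
    ring
  simp only [e1]
  have e2 : ∑ n ∈ range (Z + 1), 1 / ((n : ℝ) * (n + 1)) * (d n + c * (Nat.primeCounting n : ℝ)) =
      ∑ n ∈ range (Z + 1), w n * d n + c * ∑ n ∈ range (Z + 1), 1 / ((n : ℝ) * (n + 1)) * (Nat.primeCounting n : ℝ) := by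
    rw [Finset.mul_sum, ← Finset.sum_add_distrib]
    refine Finset.sum_congr rfl fun n _ => ?_
    rw [hw]
    ring
  rw [e2]
  ring

theorem xv_one (v : HeightOneSpectrum (𝓞 K)) : xv v 1 = (nv v : ℂ)⁻¹ := by
  unfold xv
  rw [Complex.cpow_neg_one]

theorem sum_sq_le (Z : ℕ) : ∑ v ∈ SZ K Z, (1 : ℝ) / (nv v : ℝ) ^ 2 ≤ ∑' v : HeightOneSpectrum (𝓞 K), (nv v : ℝ) ^ (-(2 : ℝ)) := by
  have h := Pool.Agent.H921R2.TatePole.nm_summable (K := K) (x := 2) (by norm_num)
  refine le_trans (le_of_eq ?_) (h.sum_le_tsum (SZ K Z) fun v _ => by positivity)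
  refine Finset.sum_congr rfl fun v _ => ?_
  have : Real.rpow (Pool.Agent.H921R2.TatePole.nm v : ℝ) (-(2 : ℝ)) = Real.rpow (nv v : ℝ) (-(2 : ℝ)) := rfl
  change 1 / (nv v : ℝ) ^ 2 = (nv v : ℝ) ^ (-(2 : ℝ))
  rw [Real.rpow_neg (nv_pos v).le, one_div]
  norm_num

/-- **The growth of partial Euler products at the point one.** -/
theorem log_artinZ {a : HeightOneSpectrum (𝓞 K) → ℕ → ℂ} {B : ℝ} (ha : ∀ v m, ‖a v m‖ ≤ B) {c : ℝ}
    (hc : HasAvg K (fun v => (a v 0).re) c) :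
    Tendsto (fun Z : ℕ => Real.log ‖artinZ Z a 1‖ / Real.log (Real.log Z)) atTop (𝓝 c) := by
  have h1 := sum_inv hc
  obtain ⟨C, hC⟩ : ∃ C : ℝ, C = 2 * |B| * ∑' v : HeightOneSpectrum (𝓞 K), (nv v : ℝ) ^ (-(2 : ℝ)) := ⟨_, rfl⟩
  have hlog : ∀ Z : ℕ, Real.log ‖artinZ Z a 1‖ = ∑ v ∈ SZ K Z, (ell (a v) (xv v 1)).re := by
    intro Z
    unfold artinZ
    rw [norm_prod, Real.log_prod (fun v _ => norm_ne_zero_iff.2 (Complex.exp_ne_zero _))]
    refine Finset.sum_congr rfl fun v _ => ?_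
    rw [Complex.norm_exp, Real.log_exp]
  have h2 : ∀ Z : ℕ, |Real.log ‖artinZ Z a 1‖ - ∑ v ∈ SZ K Z, (a v 0).re / nv v| ≤ C := by
    intro Z
    rw [hlog, ← Finset.sum_sub_distrib]
    refine (Finset.abs_sum_le_sum_abs _ _).trans ?_
    have h3 : ∀ v ∈ SZ K Z, |(ell (a v) (xv v 1)).re - (a v 0).re / nv v| ≤ 2 * |B| * (1 / (nv v : ℝ) ^ 2) := by
      intro v _
      have hB : 0 ≤ B := (norm_nonneg _).trans (ha v 0)
      obtain ⟨x1, x2⟩ := xv_le (σ := 1) le_rfl v (s := 1) (by simp)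
      have h4 := ell_tail hB zero_le_one (fun m => by rw [one_pow, mul_one]; exact ha v m) (x1.trans x2) (by norm_num) 1
      rw [Finset.sum_range_one] at h4
      have e1 : a v 0 * xv v 1 ^ (0 + 1) / (((0 : ℕ) : ℂ) + 1) = a v 0 * (nv v : ℂ)⁻¹ := by
        rw [xv_one]; simp
      have e2 : ‖xv v 1‖ = (nv v : ℝ)⁻¹ := by rw [xv_one, norm_inv, Complex.norm_natCast]
      rw [e1, one_mul, e2] at h4
      have e3 : (a v 0 * (nv v : ℂ)⁻¹).re = (a v 0).re / nv v := by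
        have : (nv v : ℂ)⁻¹ = (((nv v : ℝ)⁻¹ : ℝ) : ℂ) := by push_cast; rfl
        rw [this, Complex.re_mul_ofReal]
        rfl
      rw [← e3, ← Complex.sub_re]
      refine (Complex.abs_re_le_norm _).trans (h4.trans (le_of_eq ?_))
      rw [abs_of_nonneg hB, show ((nv v : ℝ)⁻¹) ^ (1 + 1) = 1 / (nv v : ℝ) ^ 2 by rw [inv_pow, one_div]]
      ring
    refine (Finset.sum_le_sum h3).trans ?_
    rw [← Finset.mul_sum, hC]
    exact mul_le_mul_of_nonneg_left (sum_sq_le Z) (by positivity)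
  have h5 := bdd_div_loglog (f := fun Z : ℕ => Real.log ‖artinZ Z a 1‖ - ∑ v ∈ SZ K Z, (a v 0).re / nv v) (C := C)
    (Eventually.of_forall h2)
  have h6 := h5.add h1
  rw [zero_add] at h6
  refine h6.congr fun Z => ?_
  ring

end

end Run7.h61.TW
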