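import Pool.Agent.Run7.h61.TW.Gal

/-!
# Powers of twisted L-series
-/

set_option autoImplicit false
set_option linter.unusedSectionVars false

namespace Run7.h61.TW

open NumberField IsDedekindDomain Finset Filter Topology Polynomial
open Pool.Agent.W401.Cheb (GK IsFrob IsInert)
open Run7.h876.MM (nv kv card_kv instFieldKv instFintypeKv instDecKv nv_pos xv SZ mem_SZ two_le_nv y0_lt mult_of)
open Run7.h876.EN (rd Thin mean ell)
open Run7.h876.HY (GoodAt frobTrace)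

section
variable {K : Type} [Field K] [NumberField K]

theorem twFactor_pow (f : (𝓞 K)[X]) (b : ℕ → ℂ) (k : ℕ) (v : HeightOneSpectrum (𝓞 K)) (s : ℂ) :
    twFactor f (fun m => (k : ℂ) * b m) v s = twFactor f b v s ^ k := by
  unfold twFactor
  split_ifs with h
  · rw [← Complex.exp_nat_mul, ← tsum_mul_left]
    congr 2
    funext m
    ring
  · rw [one_pow]

theorem twPartial_pow (Z : ℕ) (f : (𝓞 K)[X]) (b : HeightOneSpectrum (𝓞 K) → ℕ → ℂ) (k : ℕ) (s : ℂ) :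
    twPartial Z f (fun v m => (k : ℂ) * b v m) s = twPartial Z f b s ^ k := by
  rw [twPartial_eq, twPartial_eq, ← Finset.prod_pow]
  exact Finset.prod_congr rfl fun v _ => twFactor_pow f (b v) k v s

theorem hasProd_pow {α : Type} {f : α → ℂ} {a : ℂ} (h : HasProd f a) (k : ℕ) : HasProd (fun x => f x ^ k) (a ^ k) := by
  induction k with
  | zero => simp
  | succ k ih =>
    simp only [pow_succ]
    exact ih.mul h

variable {J : Type} [Fintype J] [DecidableEq J] (𝓕 : TFam K J)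

theorem mult_factor {b : HeightOneSpectrum (𝓞 K) → ℕ → ℂ} {β : ℝ} (hβ : ∀ v m, ‖b v m‖ ≤ β) (hβ0 : 0 ≤ β)
    {R : ℝ} (hR : 0 ≤ R) {r : HeightOneSpectrum (𝓞 K) → ℕ → ℝ} (hr : ∀ v m, |r v m| ≤ R)
    (hfin : {v | ¬ ∀ σ, IsFrob v σ → r v 0 = 𝓕.trV σ}.Finite) {s : ℂ} (hs : 3 / 2 < s.re) (t : Fin 2 ⊕ J → 𝓞 K) :
    Multipliable (fun v : HeightOneSpectrum (𝓞 K) => twFactor (𝓕.member t) (b v) v s) := by
  obtain ⟨𝓓, h𝓓⟩ : ∃ 𝓓, 𝓓 = 𝓕.data hR hr hfin := ⟨_, rfl⟩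
  have hD := 𝓓.D_nonneg
  obtain ⟨σ, hσd⟩ : ∃ σ, σ = s.re := ⟨_, rfl⟩
  rw [← hσd] at hs
  have hy := y0_lt (σ := σ) (by linarith)
  have e : (fun v : HeightOneSpectrum (𝓞 K) => twFactor (𝓕.member t) (b v) v s) =
      fun v => Complex.exp (lf 𝓓 b v s (rd v t)) := by
    funext v
    rw [h𝓓]
    exact factor_eq 𝓕 hR hr hfin b t v s
  rw [e]
  refine mult_of (u := fun v : HeightOneSpectrum (𝓞 K) => (𝓓.D * β * (1 - 2 ^ (1 / 2 - σ))⁻¹) *
    Real.exp (𝓓.D * β * (1 - 2 ^ (1 / 2 - σ))⁻¹) * (nv v : ℝ) ^ (1 / 2 - σ)) ?_ fun v => ?_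
  · have := (Pool.Agent.H921R2.TatePole.nm_summable (K := K) (x := σ - 1 / 2) (by linarith)).mul_left
      ((𝓓.D * β * (1 - 2 ^ (1 / 2 - σ))⁻¹) * Real.exp (𝓓.D * β * (1 - 2 ^ (1 / 2 - σ))⁻¹))
    refine this.congr fun v => ?_
    rw [Run7.h876.MM.nv_eq]
    congr 2
    ring
  · obtain ⟨h1, h2, h3, h4⟩ := basic (σ := σ) (by linarith) v (s := s) hσd.le
    have h2nv : (2 : ℝ) ≤ nv v := by exact_mod_cast two_le_nv v
    exact exp_ell_sub (by positivity) (Real.sqrt_nonneg _) (ab_bound 𝓓 hβ v (rd v t)) h1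
      (Real.rpow_le_rpow_of_nonpos (by norm_num) h2nv (by linarith)) hy

theorem twLSeries_pow {b : HeightOneSpectrum (𝓞 K) → ℕ → ℂ} {β : ℝ} (hβ : ∀ v m, ‖b v m‖ ≤ β) (hβ0 : 0 ≤ β)
    {R : ℝ} (hR : 0 ≤ R) {r : HeightOneSpectrum (𝓞 K) → ℕ → ℝ} (hr : ∀ v m, |r v m| ≤ R)
    (hfin : {v | ¬ ∀ σ, IsFrob v σ → r v 0 = 𝓕.trV σ}.Finite) (k : ℕ) {s : ℂ} (hs : 3 / 2 < s.re) (t : Fin 2 ⊕ J → 𝓞 K) :
    twLSeries (𝓕.member t) (fun v m => (k : ℂ) * b v m) s = twLSeries (𝓕.member t) b s ^ k := by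
  have h := hasProd_pow (mult_factor 𝓕 hβ hβ0 hR hr hfin hs t).hasProd k
  unfold twLSeries
  rw [← h.tprod_eq]
  congr 1
  funext v
  exact twFactor_pow _ (b v) k v s

end

end Run7.h61.TW
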