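import Pool.Agent.Run7.h61.TW.Fam
import Pool.Agent.Run7.h61.TW.Art

/-!
# The reduction of the marked points
-/

set_option autoImplicit false
set_option linter.unusedSectionVars false

namespace Run7.h61.TW

open NumberField IsDedekindDomain Polynomial Finset
open Pool.Agent.W401.Cheb (GK IsFrob IsInert)
open Run7.h876.MM (nv kv card_kv instFieldKv instFintypeKv instDecKv nv_pos ring_char_two card_iota_pos avg)
open Run7.h876.EN (trc trc_le trc_eq rd Thin thin_of_fiber box tuple ell)
open Run7.h876.HY (GoodAt frobTrace factor)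

namespace TFam
variable {K : Type} [Field K] [NumberField K] {J : Type} [Fintype J] (𝓕 : TFam K J)

open Classical in
/-- **The character sum over the marked points is the trace of Frobenius.** -/
theorem sR_eq {N : 𝓞 K} (hN : ∀ (v : HeightOneSpectrum (𝓞 K)), N ∉ v.asIdeal →
    ringChar (kv v) ≠ 2 ∧ ((𝓕.F₀.natDegree - 𝓕.m.natDegree : ℕ) : kv v) ≠ 0 ∧
    ∀ Q : Ideal (OB K), Q.comap (algebraMap (𝓞 K) (OB K)) = v.asIdeal → Q.IsPrime →
      (2 : OB K) ∉ Q ∧ (∀ i, 𝓕.y i ∉ Q) ∧ ∀ i j, 𝓕.x i - 𝓕.x j ∈ Q → i = j)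
    {v : HeightOneSpectrum (𝓞 K)} (hv : N ∉ v.asIdeal) {σ : GK K} (hσ : IsFrob v σ) :
    sR (𝓕.F₀.map (Ideal.Quotient.mk v.asIdeal)) (𝓕.m.map (Ideal.Quotient.mk v.asIdeal)) = 𝓕.trV σ ∧
    IsCoprime (𝓕.m.map (Ideal.Quotient.mk v.asIdeal)) (𝓕.F₀.map (Ideal.Quotient.mk v.asIdeal)) := by
  obtain ⟨Q, hQm, hQv, hQσ⟩ := hσ
  have hQp : Q.IsPrime := hQm.isPrime
  obtain ⟨c1, _, c2⟩ := hN v hv
  obtain ⟨h2, hy, hx⟩ := c2 Q hQv hQp
  let _ : Field (OB K ⧸ Q) := Ideal.Quotient.field Q
  set red : OB K →+* OB K ⧸ Q := Ideal.Quotient.mk Q with hred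
  set ι : kv v →+* OB K ⧸ Q := Ideal.quotientMap Q (algebraMap (𝓞 K) (OB K)) (le_of_eq hQv.symm) with hι
  have hιmk : ∀ a : 𝓞 K, ι (Ideal.Quotient.mk v.asIdeal a) = red (algebraMap (𝓞 K) (OB K) a) := by
    intro a
    rw [hι, hred]
    exact Ideal.quotientMap_mk
  have hιinj : Function.Injective ι := ι.injective
  have hcomp : ι.comp (Ideal.Quotient.mk v.asIdeal) = red.comp (algebraMap (𝓞 K) (OB K)) := by
    ext a; exact hιmk a
  -- the polynomials
  have hm : (𝓕.m.map (Ideal.Quotient.mk v.asIdeal)).map ι = ∏ i, (X - C (red (𝓕.x i))) := by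
    rw [Polynomial.map_map, hcomp, ← Polynomial.map_map, 𝓕.split, Polynomial.map_prod]
    simp only [Polynomial.map_sub, Polynomial.map_X, Polynomial.map_C]
  have hF : ∀ i, ((𝓕.F₀.map (Ideal.Quotient.mk v.asIdeal)).map ι).eval (red (𝓕.x i)) = red (𝓕.y i) ^ 2 := by
    intro i
    rw [Polynomial.map_map, hcomp, ← Polynomial.map_map, eval_map, eval₂_at_apply, 𝓕.on_curve, map_pow]
  have hy' : ∀ i, red (𝓕.y i) ≠ 0 := fun i h => hy i (Ideal.Quotient.eq_zero_iff_mem.1 h)
  have hx' : Function.Injective (fun i => red (𝓕.x i)) := by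
    intro i j h
    refine hx i j (Ideal.Quotient.eq_zero_iff_mem.1 ?_)
    have h' : red (𝓕.x i) = red (𝓕.x j) := h
    show red (𝓕.x i - 𝓕.x j) = 0
    rw [map_sub, h', sub_self]
  have h2' : (2 : OB K ⧸ Q) ≠ 0 := by
    intro h
    refine h2 (Ideal.Quotient.eq_zero_iff_mem.1 ?_)
    rw [map_ofNat]
    exact h
  refine ⟨?_, ?_⟩
  · -- the sum
    have hq : nv v = Fintype.card (kv v) := (card_kv v).symm
    have hnv : Ideal.absNorm v.asIdeal = Fintype.card (kv v) := by rw [card_kv]; rfl
    have hfr : ∀ x : OB K, red (σ • x) = red x ^ Fintype.card (kv v) := by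
      intro x
      have h := hQσ x
      rw [← Ideal.Quotient.mk_eq_mk_iff_sub_mem, map_pow, hnv] at h
      exact h
    have hodd : Fintype.card (kv v) % 2 = 1 := FiniteField.odd_card_of_char_ne_two c1
    -- the elements of the small field
    have hsmall : ∀ w : OB K ⧸ Q, w ^ Fintype.card (kv v) = w → ∃ z : kv v, ι z = w := by
      intro w hw
      by_contra hne
      push Not at hne
      have hq1 : 1 < Fintype.card (kv v) := Fintype.one_lt_card
      have hp0 : (X ^ Fintype.card (kv v) - X : (OB K ⧸ Q)[X]) ≠ 0 := FiniteField.X_pow_card_sub_X_ne_zero _ hq1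
      have h1 : (insert w (Finset.univ.image ι)) ⊆ (X ^ Fintype.card (kv v) - X : (OB K ⧸ Q)[X]).roots.toFinset := by
        intro u hu
        rw [Multiset.mem_toFinset, mem_roots hp0, IsRoot.def, eval_sub, eval_pow, eval_X, sub_eq_zero]
        rcases Finset.mem_insert.1 hu with rfl | hu
        · exact hw
        · obtain ⟨z, _, rfl⟩ := Finset.mem_image.1 hu
          rw [← map_pow, FiniteField.pow_card]
      have h3 := (Finset.card_le_card h1).trans ((Multiset.toFinset_card_le _).trans (card_roots' _))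
      rw [FiniteField.X_pow_card_sub_X_natDegree_eq _ hq1, Finset.card_insert_of_notMem (by
        intro hc
        obtain ⟨z, _, hz⟩ := Finset.mem_image.1 hc
        exact hne z hz), Finset.card_image_of_injective _ hιinj, Finset.card_univ] at h3
      omega
    have hfix : ∀ i, (∃ z : kv v, ι z = red (𝓕.x i)) ↔ σ • 𝓕.x i = 𝓕.x i := by
      intro i
      constructor
      · rintro ⟨z, hz⟩
        have h1 : red (σ • 𝓕.x i) = red (𝓕.x i) := by
          rw [hfr, ← hz, ← map_pow, FiniteField.pow_card]
        obtain ⟨j, hj⟩ := 𝓕.exists_perm σ i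
        rw [hj] at h1
        have : j = i := hx' h1
        rw [hj, this]
      · intro h
        refine hsmall _ ?_
        rw [← hfr, h]
    -- the value of the character
    have hchi : ∀ i z, ι z = red (𝓕.x i) →
        quadraticChar (kv v) ((𝓕.F₀.map (Ideal.Quotient.mk v.asIdeal)).eval z) = if σ • 𝓕.y i = 𝓕.y i then 1 else -1 := by
      intro i z hz
      set w := (𝓕.F₀.map (Ideal.Quotient.mk v.asIdeal)).eval z with hw
      have hw1 : ι w = red (𝓕.y i) ^ 2 := by
        rw [← hF i, ← hz, eval_map, eval₂_at_apply, hw]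
      have hw0 : w ≠ 0 := by
        intro h
        rw [h, map_zero] at hw1
        exact hy' i (pow_eq_zero_iff two_ne_zero |>.1 hw1.symm)
      have hpow : ι w ^ (Fintype.card (kv v) / 2) = red (𝓕.y i) ^ (Fintype.card (kv v) - 1) := by
        rw [hw1, ← pow_mul]
        congr 1
        omega
      have hchi1 : ι ((quadraticChar (kv v) w : ℤ) : kv v) = red (𝓕.y i) ^ (Fintype.card (kv v) - 1) := by
        rw [quadraticChar_eq_pow_of_char_ne_two' c1, map_pow, hpow]
      have hyq : red (𝓕.y i) ^ (Fintype.card (kv v) - 1) * red (𝓕.y i) = red (σ • 𝓕.y i) := by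
        rw [hfr, ← pow_succ]
        congr 1
        have := Fintype.card_pos (α := kv v)
        omega
      have hσx : σ • 𝓕.x i = 𝓕.x i := (hfix i).1 ⟨z, hz⟩
      split_ifs with hσy
      · rw [hσy] at hyq
        have h1 : red (𝓕.y i) ^ (Fintype.card (kv v) - 1) = 1 := by
          have := mul_right_cancel₀ (hy' i) (hyq.trans (one_mul _).symm)
          exact this
        rw [h1] at hchi1
        rcases quadraticChar_dichotomy hw0 with h | h
        · exact h
        · rw [h] at hchi1
          exfalso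
          push_cast at hchi1
          rw [map_neg, map_one] at hchi1
          apply h2'
          linear_combination -hchi1
      · have h1 : σ • 𝓕.y i = -𝓕.y i := (𝓕.smul_y hσx).resolve_left hσy
        rw [h1, map_neg] at hyq
        have h3 : red (𝓕.y i) ^ (Fintype.card (kv v) - 1) = -1 := by
          have := mul_right_cancel₀ (hy' i) (hyq.trans (neg_one_mul _).symm)
          exact this
        rw [h3] at hchi1
        rcases quadraticChar_dichotomy hw0 with h | h
        · rw [h] at hchi1
          exfalso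
          push_cast at hchi1
          rw [map_one] at hchi1
          apply h2'
          linear_combination hchi1
        · exact h
    -- the exchange of the sums
    have hroot : ∀ z : kv v, (if (𝓕.m.map (Ideal.Quotient.mk v.asIdeal)).eval z = 0 then
        quadraticChar (kv v) ((𝓕.F₀.map (Ideal.Quotient.mk v.asIdeal)).eval z) else 0) =
        ∑ i, if ι z = red (𝓕.x i) then (if σ • 𝓕.y i = 𝓕.y i then (1 : ℤ) else -1) else 0 := by
      intro z
      have h1 : (𝓕.m.map (Ideal.Quotient.mk v.asIdeal)).eval z = 0 ↔ ∃ i, ι z = red (𝓕.x i) := by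
        rw [← map_eq_zero_iff ι hιinj, ← eval₂_at_apply, ← eval_map, hm, eval_prod, Finset.prod_eq_zero_iff]
        simp only [eval_sub, eval_X, eval_C, sub_eq_zero, Finset.mem_univ, true_and]
      by_cases hz : ∃ i, ι z = red (𝓕.x i)
      · obtain ⟨i, hi⟩ := hz
        rw [if_pos (h1.2 ⟨i, hi⟩), hchi i z hi, Finset.sum_eq_single i]
        · rw [if_pos hi]
        · intro j _ hj
          rw [if_neg]
          intro h
          exact hj (hx' (h.symm.trans hi))
        · intro h
          exact absurd (Finset.mem_univ i) h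
      · rw [if_neg fun h => hz (h1.1 h), Finset.sum_eq_zero]
        intro i _
        rw [if_neg fun h => hz ⟨i, h⟩]
    unfold sR trV
    rw [Finset.sum_congr rfl fun z _ => hroot z, Finset.sum_comm]
    refine Finset.sum_congr rfl fun i _ => ?_
    by_cases hi : σ • 𝓕.x i = 𝓕.x i
    · obtain ⟨z, hz⟩ := (hfix i).2 hi
      rw [if_pos hi, Finset.sum_eq_single z]
      · rw [if_pos hz]
      · intro z' _ hz'
        rw [if_neg]
        intro h
        exact hz' (hιinj (h.trans hz.symm))
      · intro h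
        exact absurd (Finset.mem_univ z) h
    · rw [if_neg hi, Finset.sum_eq_zero]
      intro z _
      rw [if_neg fun h => hi ((hfix i).1 ⟨z, h⟩)]
  · -- coprimality
    rw [← Polynomial.isCoprime_map ι, hm]
    refine IsCoprime.prod_left fun i _ => ?_
    refine ((irreducible_X_sub_C (red (𝓕.x i))).coprime_iff_not_dvd).2 ?_
    rw [dvd_iff_isRoot, IsRoot.def, hF i]
    exact pow_ne_zero _ (hy' i)

end TFam

end Run7.h61.TW
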